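import Pool.Agent.V1189.RT.Main
import Pool.Agent.V1189.DG.Approx

/-!
# Linear complexity with errors, in windows, of the digits of algebraic numbers

Author: helper89. The lemmas on linear recurrences (a small integral relation by the box principle, division
by `X - b`) are those of helper47, helper928, helper639 (`S_SMALL`, `S_DESC`), the definitions those of
the starting file `MP_a49cf6_nt.DigitRecurrences`.
-/

set_option autoImplicit false

namespace Pool.Agent.V1189.RT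

open Finset Polynomial
open Pool.Agent.H831R3.LC (W dig A dig_eq W_eq W_mul W_sub)
open Pool.Agent.W47.JL
open Pool.Agent.Results.MP_a49cf6_nt.DigitRecurrences (digit Recurrence complexity jointComplexity F
  F_linear joint_attained)

/-- rational approximation of the number with the terms `s i` as digits -/
theorem approxS (b H r D v B : ℕ) (s : ℕ → ℤ) (t : ℤ[X]) (hb : 2 ≤ b)
    (ht : ∀ i, |t.coeff i| ≤ H) (hD : t.natDegree ≤ D) (hr : ∀ i < r, W t s i = 0)
    (hs : ∀ i, |s i| ≤ B) (hDv : D ≤ v) (hvr : v ≤ r + D) :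
    ∃ p : ℤ, |((t.eval (b : ℤ) : ℤ) : ℝ) * (∑ i ∈ range v, (s i : ℝ) / (b : ℝ) ^ (i + 1)) - p| *
      (b : ℝ) ^ (v - D) ≤ (D + 1) * H * B := by
  have hbR : (2 : ℝ) ≤ b := by exact_mod_cast hb
  have hb0 : (0 : ℝ) < b := by linarith
  obtain ⟨Bs, hB0, hB1⟩ : ∃ Bs : ℕ → ℤ, Bs 0 = 0 ∧ ∀ i, Bs (i + 1) = b * Bs i + s i :=
    ⟨fun i => Nat.rec 0 (fun i z => (b : ℤ) * z + s i) i, rfl, fun _ => rfl⟩
  obtain ⟨n, hn⟩ : ∃ n, v = n + D := ⟨v - D, by omega⟩
  have hvn : v - D = n := by omega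
  rw [hvn]
  obtain ⟨G, hG⟩ : ∃ G, G = W t Bs := ⟨_, rfl⟩
  have hd : s = W (X - C (b : ℤ)) Bs := by
    funext i
    rw [W_sub, hB1]
    ring
  have hstep : ∀ i < r, G (i + 1) = b * G i := by
    intro i hi
    have h1 := hr i hi
    rw [hd, ← W_mul, mul_comm, W_mul, W_sub, ← hG] at h1
    linarith
  have hpow : ∀ i ≤ r, G i = (b : ℤ) ^ i * G 0 := by
    intro i
    induction i with
    | zero => intro _; simp
    | succ i ihi =>
      intro hi
      rw [hstep i (by omega), ihi (by omega)]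
      ring
  -- the partial sums
  have hpart : ∀ i, (Bs i : ℝ) = (b : ℝ) ^ i * ∑ l ∈ range i, (s l : ℝ) / (b : ℝ) ^ (l + 1) := by
    intro i
    induction i with
    | zero => simp [hB0]
    | succ i ih =>
      rw [hB1, Finset.sum_range_succ]
      push_cast
      have h1 : (b : ℝ) ^ (i + 1) * ((s i : ℝ) / (b : ℝ) ^ (i + 1)) = s i := by field_simp
      rw [ih, mul_add, h1, pow_succ]
      ring
  obtain ⟨y, hy⟩ : ∃ y : ℝ, y = ∑ i ∈ range v, (s i : ℝ) / (b : ℝ) ^ (i + 1) := ⟨_, rfl⟩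
  rw [← hy]
  have htail : ∀ i, i ≤ v → |(b : ℝ) ^ i * y - Bs i| ≤ B := by
    intro i hi
    rw [hpart, hy, ← mul_sub]
    have h1 : ∑ l ∈ range v, (s l : ℝ) / (b : ℝ) ^ (l + 1) -
        ∑ l ∈ range i, (s l : ℝ) / (b : ℝ) ^ (l + 1) =
        ∑ l ∈ Ico i v, (s l : ℝ) / (b : ℝ) ^ (l + 1) := by
      rw [Finset.sum_Ico_eq_sub _ hi]
    rw [h1, abs_mul, abs_of_pos (by positivity : (0 : ℝ) < (b : ℝ) ^ i)]
    -- geometric series
    have h2 : ∀ u, i ≤ u → (b : ℝ) ^ i * ∑ l ∈ Ico i u, (B : ℝ) / (b : ℝ) ^ (l + 1) ≤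
        B * (1 - (b : ℝ) ^ i / (b : ℝ) ^ u) := by
      intro u hu
      induction u, hu using Nat.le_induction with
      | base =>
        rw [Finset.Ico_self, Finset.sum_empty, div_self (by positivity)]
        simp
      | succ u hu ih =>
        rw [Finset.sum_Ico_succ_top hu, mul_add]
        have h3 : (b : ℝ) ^ i * ((B : ℝ) / (b : ℝ) ^ (u + 1)) ≤
            B * ((b : ℝ) ^ i / (b : ℝ) ^ u - (b : ℝ) ^ i / (b : ℝ) ^ (u + 1)) := by
          have h4 : (b : ℝ) ^ i / (b : ℝ) ^ u - (b : ℝ) ^ i / (b : ℝ) ^ (u + 1) =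
              (b : ℝ) ^ i / (b : ℝ) ^ (u + 1) * (b - 1) := by
            rw [pow_succ]
            field_simp
          rw [h4]
          have h5 : 0 ≤ (B : ℝ) * ((b : ℝ) ^ i / (b : ℝ) ^ (u + 1)) := by positivity
          have h6 : (b : ℝ) ^ i * ((B : ℝ) / (b : ℝ) ^ (u + 1)) =
              (B : ℝ) * ((b : ℝ) ^ i / (b : ℝ) ^ (u + 1)) := by ring
          rw [h6]
          nlinarith
        linarith
    have h3 : |∑ l ∈ Ico i v, (s l : ℝ) / (b : ℝ) ^ (l + 1)| ≤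
        ∑ l ∈ Ico i v, (B : ℝ) / (b : ℝ) ^ (l + 1) := by
      refine (Finset.abs_sum_le_sum_abs _ _).trans (Finset.sum_le_sum fun l _ => ?_)
      rw [abs_div, abs_of_pos (by positivity : (0 : ℝ) < (b : ℝ) ^ (l + 1))]
      refine div_le_div_of_nonneg_right ?_ (by positivity)
      exact_mod_cast hs l
    have h4 := h2 v hi
    have h5 : 0 ≤ (b : ℝ) ^ i / (b : ℝ) ^ v := by positivity
    have h6 := mul_le_mul_of_nonneg_left h3 (by positivity : (0 : ℝ) ≤ (b : ℝ) ^ i)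
    have h7 : (0 : ℝ) ≤ B := Nat.cast_nonneg B
    nlinarith
  refine ⟨G 0, ?_⟩
  have h2 : G n = ∑ j ∈ range (D + 1), t.coeff j * Bs (n + j) := by
    rw [hG, W_eq t _ n (D + 1) (by omega)]
  have h3 : t.eval (b : ℤ) = ∑ j ∈ range (D + 1), t.coeff j * (b : ℤ) ^ j :=
    eval_eq_sum_range' (by omega) _
  have h4 : (((t.eval (b : ℤ) : ℤ) : ℝ) * y - G 0) * (b : ℝ) ^ n =
      ∑ j ∈ range (D + 1), (t.coeff j : ℝ) * ((b : ℝ) ^ (n + j) * y - Bs (n + j)) := by
    have h5 : ((G n : ℤ) : ℝ) = (b : ℝ) ^ n * G 0 := by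
      rw [hpow n (by omega)]; push_cast; ring
    rw [h2] at h5
    push_cast at h5
    rw [h3]
    push_cast
    rw [sub_mul, mul_comm (G 0 : ℝ), ← h5, Finset.sum_mul, Finset.sum_mul,
      ← Finset.sum_sub_distrib]
    refine Finset.sum_congr rfl fun j _ => ?_
    ring
  have hbn : (0 : ℝ) < (b : ℝ) ^ n := by positivity
  calc |((t.eval (b : ℤ) : ℤ) : ℝ) * y - G 0| * (b : ℝ) ^ n
      = |(((t.eval (b : ℤ) : ℤ) : ℝ) * y - G 0) * (b : ℝ) ^ n| := by
        rw [abs_mul, abs_of_pos hbn]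
    _ = |∑ j ∈ range (D + 1), (t.coeff j : ℝ) * ((b : ℝ) ^ (n + j) * y - Bs (n + j))| := by
        rw [h4]
    _ ≤ ∑ j ∈ range (D + 1), (H : ℝ) * B := by
        refine (Finset.abs_sum_le_sum_abs _ _).trans (Finset.sum_le_sum fun j hj => ?_)
        rw [mem_range] at hj
        rw [abs_mul]
        refine mul_le_mul ?_ (htail (n + j) (by omega)) (abs_nonneg _) (Nat.cast_nonneg _)
        exact_mod_cast ht j
    _ = (D + 1) * H * B := by
        rw [Finset.sum_const, card_range, nsmul_eq_mul]; push_cast; ring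

/-- the expansion of `α b ^ w` -/
theorem expand (b : ℕ) (hb : 2 ≤ b) (α : ℝ) (w : ℕ) : ∀ l : ℕ,
    α * (b : ℝ) ^ w = ⌊α * (b : ℝ) ^ w⌋ +
      ∑ i ∈ range l, (digit b α (w + (i + 1)) : ℝ) / (b : ℝ) ^ (i + 1) +
      Int.fract (α * (b : ℝ) ^ (w + l)) / (b : ℝ) ^ l := by
  have hbR : (2 : ℝ) ≤ b := by exact_mod_cast hb
  have hb0 : (0 : ℝ) < b := by linarith
  intro l
  induction l with
  | zero =>
    rw [Finset.sum_range_zero, pow_zero, div_one, add_zero, add_zero]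
    exact (Int.floor_add_fract _).symm
  | succ l ih =>
    rw [Finset.sum_range_succ]
    have h1 : Int.fract (α * (b : ℝ) ^ (w + l)) / (b : ℝ) ^ l =
        (digit b α (w + (l + 1)) : ℝ) / (b : ℝ) ^ (l + 1) +
          Int.fract (α * (b : ℝ) ^ (w + (l + 1))) / (b : ℝ) ^ (l + 1) := by
      have h2 : digit b α (w + (l + 1)) =
          ⌊α * (b : ℝ) ^ (w + l + 1)⌋ - b * ⌊α * (b : ℝ) ^ (w + l)⌋ := by
        exact dig_eq α b (by omega) (w + l)
      rw [h2, ← add_div, div_eq_div_iff (by positivity) (by positivity), Int.fract, Int.fract]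
      push_cast
      rw [show w + (l + 1) = w + l + 1 by ring, pow_succ (b : ℝ) (w + l), pow_succ (b : ℝ) l]
      ring
    linarith

/-- the number of digits of `α` at the places `w + 1, …, w + l` -/
theorem window (n b k : ℕ) (hn : 1 ≤ n) (hb : 2 ≤ b) (α : Fin n → ℝ)
    (halg : ∀ i, IsAlgebraic ℚ (α i))
    (hli : LinearIndependent ℚ (Fin.cons 1 α : Fin (n + 1) → ℝ)) (δ : ℝ) (hδ : 0 < δ) :
    ∃ C : ℝ, 0 ≤ C ∧ ∀ (w l m : ℕ) (s : Fin n → ℕ → ℤ) (c : ℕ → ℚ), (∀ j i, |s j i| ≤ b) →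
      ((Icc 1 l).filter fun i => ∃ j, s j i ≠ digit b (α j) (w + i)).card ≤ k →
      (∀ j, Recurrence (s j) c l m) →
      n * (l : ℝ) ≤ (n + k + 1) * (m + 15 * err m) + δ * (w + l) + C := by
  classical
  have hbR : (2 : ℝ) ≤ b := by exact_mod_cast hb
  have hb0 : (0 : ℝ) < b := by linarith
  have hlb0 : 0 < Real.log b := Real.log_pos (by linarith)
  have hnR : (1 : ℝ) ≤ n := by exact_mod_cast hn
  have hkR : (0 : ℝ) ≤ k := Nat.cast_nonneg k
  -- uniformity in the errors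
  have hL0 : ∀ k' : ℕ, ∃ L₀ : ℕ, ∀ γ : Fin n → Fin k' → ℤ, (∀ i j, |γ i j| ≤ 2 * b) →
      ∀ L : ℕ, L₀ ≤ L → ∀ (Q r : ℕ) (e : Fin k' → ℕ) (P : Fin n → ℤ) (σ : ℝ), 1 ≤ Q →
      Real.log Q ≤ L * Real.log b → r ≤ L → (∀ j, e j ≤ L) → 0 ≤ σ → σ ≤ L * Real.log b →
      (∀ i, |(Q : ℝ) * (b : ℝ) ^ r * (α i + ∑ j, (γ i j : ℝ) / (b : ℝ) ^ e j) - P i| ≤
        Real.exp (-σ)) →
      n * σ ≤ (k' + 1) * Real.log Q + δ * (L * Real.log b) := by
    intro k'
    choose L₀ hL₀ using fun γ : Fin n → Fin k' → ℤ =>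
      main n b hn hb k' α halg hli (fun i j => (γ i j : ℚ)) δ hδ
    refine ⟨(Fintype.piFinset fun _ : Fin n => Fintype.piFinset fun _ : Fin k' =>
      Finset.Icc (-(2 * (b : ℤ))) (2 * b)).sup L₀, fun γ hγ L hL Q r e P σ h1 h2 h3 h4 h5 h6 h7 => ?_⟩
    have hmem : γ ∈ Fintype.piFinset fun _ : Fin n => Fintype.piFinset fun _ : Fin k' =>
        Finset.Icc (-(2 * (b : ℤ))) (2 * b) := by
      rw [Fintype.mem_piFinset]
      intro i
      rw [Fintype.mem_piFinset]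
      intro j
      rw [Finset.mem_Icc, ← abs_le]
      exact hγ i j
    refine hL₀ γ L ((Finset.le_sup hmem).trans hL) Q r e P σ h1 h2 h3 h4 h5 h6 fun i => ?_
    have h8 := h7 i
    simpa using h8
  choose L₀ hL₀ using hL0
  obtain ⟨K, hK⟩ : ∃ K : ℕ, K = (range (k + 1)).sup L₀ := ⟨_, rfl⟩
  refine ⟨n * K + 3 * n, by positivity, fun w l m s c hs hE hrec => ?_⟩
  have hm0 : (0 : ℝ) ≤ m := Nat.cast_nonneg m
  have herr := err_ge m
  have herr0 : 0 ≤ (m : ℝ) + 15 * err m := by linarith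
  have hw0 : (0 : ℝ) ≤ w := Nat.cast_nonneg w
  have hl0 : (0 : ℝ) ≤ l := Nat.cast_nonneg l
  have hδ0 : 0 ≤ δ * ((w : ℝ) + l) := by positivity
  have hKR : (0 : ℝ) ≤ K := Nat.cast_nonneg K
  -- trivial cases
  have htriv : (l : ℝ) ≤ m + 15 * err m + 3 + K → n * (l : ℝ) ≤
      (n + k + 1) * (m + 15 * err m) + δ * (w + l) + (n * K + 3 * n) := by
    intro h
    nlinarith
  by_cases hKL : K ≤ w + l
  swap
  · apply htriv
    have : (l : ℝ) ≤ K := by exact_mod_cast (by omega : l ≤ K)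
    linarith
  obtain ⟨k0, K', hk0, hK', hpar⟩ := params m
  have hpar1 : M1 b m k0 K' ≤ m + 15 * err m := hpar b hbR
  have hM1 := M1_ge b m k0 K' hb
  have hk00 : (0 : ℝ) ≤ k0 := Nat.cast_nonneg k0
  obtain ⟨X, hX⟩ : ∃ X : ℝ, X = ((m : ℝ) + k0 + 1) * (((m : ℝ) + 1 + k0) * b) ^ K' := ⟨_, rfl⟩
  have hX0 : 0 < X := by rw [hX]; positivity
  have hX1 : 1 ≤ X := by
    rw [hX]
    exact one_le_mul_of_one_le_of_one_le (by linarith) (one_le_pow₀ (by nlinarith))
  have h8 : M1 b m k0 K' * Real.log b = (m + k0) * Real.log b + Real.log X := by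
    rw [M1, ← hX]
    field_simp
  by_cases hL : m + k0 ≤ l
  swap
  · apply htriv
    have : (l : ℝ) ≤ m + k0 := by exact_mod_cast (by omega : l ≤ m + k0)
    linarith
  have h3' : ((l - (m + k0) : ℕ) : ℝ) = l - (m + k0) := by
    rw [Nat.cast_sub hL]; push_cast; ring
  by_cases hbig : (m + k0 + 1) * ((m + 1 + k0) * b) ^ K' * b < b ^ (l - (m + k0))
  swap
  · apply htriv
    push Not at hbig
    have h1 : ((b : ℝ) ^ (l - (m + k0))) ≤
        ((m : ℝ) + k0 + 1) * (((m : ℝ) + 1 + k0) * b) ^ K' * b := by exact_mod_cast hbig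
    rw [← hX] at h1
    have h2 := Real.log_le_log (by positivity) h1
    rw [Real.log_pow, Real.log_mul hX0.ne' hb0.ne', h3'] at h2
    have h4 : (l : ℝ) * Real.log b ≤ (M1 b m k0 K' + 1) * Real.log b := by linarith
    have h5 := le_of_mul_le_mul_right h4 hlb0
    linarith
  -- the relation
  have hrec' : ∀ (j : Fin n) (i : ℕ), i + m < l → ((s j (i + m + 1) : ℤ) : ℚ) =
      ∑ q ∈ range m, c q * ((s j (i + q + 1) : ℤ) : ℚ) := by
    intro j i hi
    have h1 := hrec j (i + 1) (by omega) (by omega)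
    rw [show i + m + 1 = i + 1 + m by ring, h1]
    exact Finset.sum_congr rfl fun q _ => by rw [show i + q + 1 = i + 1 + q by ring]
  obtain ⟨t, ht0, htd, htH, htr⟩ := Pool.Agent.W928.JL.small n (fun j i => s j (i + 1)) b (by omega)
    (fun j i => hs j _) m k0 (l - (m + k0)) l K' hk0 hK' (by omega) c hrec'
  obtain ⟨t', htd', htH', htr', ht0'⟩ := Pool.Agent.W639.JL.desc n (fun j i => s j (i + 1)) b b
    (((m + 1 + k0) * b) ^ K') (m + k0)
    (l - (m + k0)) hb (fun j i => hs j _) hbig t htd ht0 htH htr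
  have hXe : (((m + k0 : ℕ) : ℝ) + 1) * (((m + 1 + k0) * b) ^ K' : ℕ) = X := by
    rw [hX]; push_cast; ring
  have heval := eval_le t' (((m + 1 + k0) * b) ^ K') (m + k0) b (by omega) htH' htd'
  have heval2 : |((t'.eval (b : ℤ) : ℤ) : ℝ)| ≤ X * (b : ℝ) ^ (m + k0) := by
    rw [← hXe]
    exact_mod_cast heval
  obtain ⟨Q, hQ⟩ : ∃ Q : ℕ, Q = (t'.eval (b : ℤ)).natAbs := ⟨_, rfl⟩
  have hQR : (Q : ℝ) = |((t'.eval (b : ℤ) : ℤ) : ℝ)| := by
    rw [hQ, Nat.cast_natAbs, Int.cast_abs]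
  have hq1 : 1 ≤ Q := by rw [hQ]; exact Int.natAbs_pos.2 ht0'
  have hQp : (0 : ℝ) < Q := by exact_mod_cast hq1
  have hlogQ : Real.log Q ≤ M1 b m k0 K' * Real.log b := by
    have h1 : Real.log Q ≤ Real.log (X * (b : ℝ) ^ (m + k0)) :=
      Real.log_le_log hQp (by rw [hQR]; exact heval2)
    rw [Real.log_mul hX0.ne' (by positivity), Real.log_pow] at h1
    push_cast at h1
    linarith
  have hbp : (0 : ℝ) < (b : ℝ) ^ (l - (m + k0)) := by positivity
  -- approximation of the numbers with the terms as digits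
  have happ : ∀ j, ∃ p : ℤ, |(Q : ℝ) * (∑ i ∈ range l, (s j (i + 1) : ℝ) / (b : ℝ) ^ (i + 1)) - p| ≤
      X * b / (b : ℝ) ^ (l - (m + k0)) := by
    intro j
    obtain ⟨p, hp⟩ := approxS b (((m + 1 + k0) * b) ^ K') (l - (m + k0)) (m + k0) l b
      (fun i => s j (i + 1)) t' hb htH' htd' (htr' j) (fun i => hs j _) hL (by omega)
    rw [hXe] at hp
    have hsg : ∃ p' : ℤ, |(Q : ℝ) * (∑ i ∈ range l, (s j (i + 1) : ℝ) / (b : ℝ) ^ (i + 1)) - p'| =
        |((t'.eval (b : ℤ) : ℤ) : ℝ) * (∑ i ∈ range l, (s j (i + 1) : ℝ) / (b : ℝ) ^ (i + 1)) - p| := by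
      rcases abs_cases ((t'.eval (b : ℤ) : ℤ) : ℝ) with ⟨h1, _⟩ | ⟨h1, _⟩
      · exact ⟨p, by rw [hQR, h1]⟩
      · refine ⟨-p, ?_⟩
        rw [hQR, h1, ← abs_neg]
        congr 1
        push_cast
        ring
    obtain ⟨p', hp'⟩ := hsg
    refine ⟨p', ?_⟩
    rw [hp', le_div_iff₀ hbp]
    exact hp
  choose p hp using happ
  -- the errors
  obtain ⟨E, hEd⟩ : ∃ E : Finset ℕ, E = (Icc 1 l).filter fun i =>
    ∃ j, s j i ≠ digit b (α j) (w + i) := ⟨_, rfl⟩
  rw [← hEd] at hE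
  obtain ⟨g, hg⟩ : ∃ g : Fin E.card → ℕ, g = fun j => ((E.equivFin.symm j : E) : ℕ) := ⟨_, rfl⟩
  have hgE : ∀ j, g j ∈ E := fun j => by rw [hg]; exact (E.equivFin.symm j).2
  have hgl : ∀ j, 1 ≤ g j ∧ g j ≤ l := by
    intro j
    have h1 := hgE j
    rw [hEd, mem_filter, mem_Icc] at h1
    exact h1.1
  have hsumE : ∀ f : ℕ → ℝ, ∑ j, f (g j) = ∑ i ∈ E, f i := by
    intro f
    rw [hg]
    rw [Equiv.sum_comp E.equivFin.symm (fun i : E => f (i : ℕ)), Finset.sum_coe_sort]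
  obtain ⟨γ, hγ⟩ : ∃ γ : Fin n → Fin E.card → ℤ, γ = fun i j =>
    s i (g j) - digit b (α i) (w + g j) := ⟨_, rfl⟩
  have hγ2 : ∀ i j, |γ i j| ≤ 2 * b := by
    intro i j
    rw [hγ]
    have h1 := Pool.Agent.Results.MP_a49cf6_nt.DigitRecurrences.dig_abs b hb (α i) (w + g j)
    have h2 := hs i (g j)
    have h3 := abs_sub (s i (g j)) (digit b (α i) (w + g j))
    change |s i (g j) - digit b (α i) (w + g j)| ≤ 2 * b
    linarith
  -- the shifted numbers
  have hval : ∀ i, (b : ℝ) ^ w * (α i + ∑ j, (γ i j : ℝ) / (b : ℝ) ^ (w + g j)) =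
      ⌊α i * (b : ℝ) ^ w⌋ + ∑ q ∈ range l, (s i (q + 1) : ℝ) / (b : ℝ) ^ (q + 1) +
        Int.fract (α i * (b : ℝ) ^ (w + l)) / (b : ℝ) ^ l := by
    intro i
    have h1 := expand b hb (α i) w l
    have h2 : (b : ℝ) ^ w * ∑ j, (γ i j : ℝ) / (b : ℝ) ^ (w + g j) =
        ∑ q ∈ range l, ((s i (q + 1) : ℝ) - digit b (α i) (w + (q + 1))) / (b : ℝ) ^ (q + 1) := by
      rw [Finset.mul_sum]
      have h3 : ∀ j, (b : ℝ) ^ w * ((γ i j : ℝ) / (b : ℝ) ^ (w + g j)) =
          (fun u : ℕ => ((s i u : ℝ) - digit b (α i) (w + u)) / (b : ℝ) ^ u) (g j) := by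
        intro j
        rw [hγ]
        push_cast
        rw [pow_add]
        field_simp
      simp only [h3]
      rw [hsumE (fun u : ℕ => ((s i u : ℝ) - digit b (α i) (w + u)) / (b : ℝ) ^ u)]
      have h4 : ∑ q ∈ range l, ((s i (q + 1) : ℝ) - digit b (α i) (w + (q + 1))) /
          (b : ℝ) ^ (q + 1) = ∑ u ∈ Icc 1 l, ((s i u : ℝ) - digit b (α i) (w + u)) / (b : ℝ) ^ u := by
        rw [Finset.range_eq_Ico, Finset.sum_Ico_add' (fun u : ℕ => ((s i u : ℝ) -
          digit b (α i) (w + u)) / (b : ℝ) ^ u) 0 l 1]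
        refine Finset.sum_congr ?_ fun _ _ => rfl
        ext u
        simp only [mem_Ico, mem_Icc]
        omega
      rw [h4, hEd]
      refine Finset.sum_subset (Finset.filter_subset _ _) fun u hu hu' => ?_
      have h5 : s i u = digit b (α i) (w + u) := by
        by_contra hne
        exact hu' (mem_filter.2 ⟨hu, i, hne⟩)
      rw [h5, sub_self, zero_div]
    have h6 : ∑ q ∈ range l, ((s i (q + 1) : ℝ) - digit b (α i) (w + (q + 1))) / (b : ℝ) ^ (q + 1) =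
        ∑ q ∈ range l, (s i (q + 1) : ℝ) / (b : ℝ) ^ (q + 1) -
          ∑ q ∈ range l, (digit b (α i) (w + (q + 1)) : ℝ) / (b : ℝ) ^ (q + 1) := by
      rw [← Finset.sum_sub_distrib]
      exact Finset.sum_congr rfl fun q _ => by ring
    rw [mul_add, h2, h6, mul_comm ((b : ℝ) ^ w) (α i)]
    linarith
  -- the exponent
  obtain ⟨σ, hσ⟩ : ∃ σ : ℝ, σ = (l - M1 b m k0 K') * Real.log b - Real.log (2 * b) := ⟨_, rfl⟩
  have hl2b : Real.log (2 * b) ≤ 2 * Real.log b := by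
    rw [Real.log_mul (by norm_num) hb0.ne']
    have := Real.log_le_log (by norm_num : (0 : ℝ) < 2) hbR
    linarith
  have hl2b0 : 0 ≤ Real.log (2 * b) := Real.log_nonneg (by linarith)
  rcases le_or_gt σ 0 with hσ0 | hσ0
  · apply htriv
    have h4 : ((l : ℝ) - M1 b m k0 K') * Real.log b ≤ 2 * Real.log b := by
      rw [hσ] at hσ0; linarith
    have h5 := le_of_mul_le_mul_right h4 hlb0
    linarith
  have hM1l : M1 b m k0 K' ≤ l := by
    by_contra h
    push Not at h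
    have : ((l : ℝ) - M1 b m k0 K') * Real.log b ≤ 0 :=
      mul_nonpos_of_nonpos_of_nonneg (by linarith) hlb0.le
    rw [hσ] at hσ0
    linarith
  have hM10 : 0 ≤ M1 b m k0 K' := by linarith
  have hwl : ((w + l : ℕ) : ℝ) * Real.log b = w * Real.log b + l * Real.log b := by
    push_cast; ring
  have hwlb : 0 ≤ (w : ℝ) * Real.log b := by positivity
  have hexpσ : Real.exp (-σ) = 2 * (X * b / (b : ℝ) ^ (l - (m + k0))) := by
    have h1 : -σ = Real.log (2 * (X * b / (b : ℝ) ^ (l - (m + k0)))) := by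
      rw [Real.log_mul (by norm_num) (by positivity), Real.log_div (by positivity) hbp.ne',
        Real.log_mul hX0.ne' hb0.ne', Real.log_pow, h3', hσ, Real.log_mul (by norm_num) hb0.ne']
      have h2 : ((l : ℝ) - M1 b m k0 K') * Real.log b = l * Real.log b - M1 b m k0 K' * Real.log b := by
        ring
      rw [h2, h8]
      ring
    rw [h1, Real.exp_log (by positivity)]
  have hfin := hL₀ E.card γ hγ2 (w + l) (by
      have h1 : L₀ E.card ≤ K := by
        rw [hK]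
        exact Finset.le_sup (mem_range.2 (by omega))
      omega) Q w (fun j => w + g j) (fun i => p i + Q * ⌊α i * (b : ℝ) ^ w⌋) σ hq1 (by
      rw [hwl]
      have h1 := mul_le_mul_of_nonneg_right hM1l hlb0.le
      linarith) (by omega) (fun j => by have := (hgl j).2; omega) hσ0.le (by
      rw [hwl, hσ]
      have h1 := mul_nonneg hM10 hlb0.le
      have h2 : ((l : ℝ) - M1 b m k0 K') * Real.log b = l * Real.log b - M1 b m k0 K' * Real.log b := by
        ring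
      rw [h2]
      linarith) (by
      intro i
      rw [mul_assoc, hval i, hexpσ]
      push_cast
      have h1 : (Q : ℝ) * ((⌊α i * (b : ℝ) ^ w⌋ : ℝ) +
          ∑ q ∈ range l, (s i (q + 1) : ℝ) / (b : ℝ) ^ (q + 1) +
          Int.fract (α i * (b : ℝ) ^ (w + l)) / (b : ℝ) ^ l) -
          ((p i : ℝ) + Q * (⌊α i * (b : ℝ) ^ w⌋ : ℝ)) =
          ((Q : ℝ) * ∑ q ∈ range l, (s i (q + 1) : ℝ) / (b : ℝ) ^ (q + 1) - p i) +
            Q * (Int.fract (α i * (b : ℝ) ^ (w + l)) / (b : ℝ) ^ l) := by ring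
      rw [h1]
      refine (abs_add_le _ _).trans ?_
      have h2 : |(Q : ℝ) * (Int.fract (α i * (b : ℝ) ^ (w + l)) / (b : ℝ) ^ l)| ≤
          X * b / (b : ℝ) ^ (l - (m + k0)) := by
        rw [abs_of_nonneg (mul_nonneg hQp.le (div_nonneg (Int.fract_nonneg _) (by positivity)))]
        have h3 : Int.fract (α i * (b : ℝ) ^ (w + l)) ≤ 1 := (Int.fract_lt_one _).le
        have h4 : (Q : ℝ) * (Int.fract (α i * (b : ℝ) ^ (w + l)) / (b : ℝ) ^ l) ≤
            Q * (1 / (b : ℝ) ^ l) :=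
          mul_le_mul_of_nonneg_left (div_le_div_of_nonneg_right h3 (by positivity)) hQp.le
        have h5 : (Q : ℝ) ≤ X * (b : ℝ) ^ (m + k0) := by rw [hQR]; exact heval2
        have h6 : (Q : ℝ) * (1 / (b : ℝ) ^ l) ≤ X * (b : ℝ) ^ (m + k0) * (1 / (b : ℝ) ^ l) :=
          mul_le_mul_of_nonneg_right h5 (by positivity)
        have h7 : X * (b : ℝ) ^ (m + k0) * (1 / (b : ℝ) ^ l) = X / (b : ℝ) ^ (l - (m + k0)) := by
          rw [eq_div_iff hbp.ne', mul_assoc, mul_assoc]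
          have h9 : (b : ℝ) ^ l = (b : ℝ) ^ (m + k0) * (b : ℝ) ^ (l - (m + k0)) := by
            rw [← pow_add]; congr 1; omega
          rw [h9]
          field_simp
        have h10 : X / (b : ℝ) ^ (l - (m + k0)) ≤ X * b / (b : ℝ) ^ (l - (m + k0)) :=
          div_le_div_of_nonneg_right (by nlinarith) hbp.le
        linarith
      have h3 := hp i
      linarith)
  -- conclusion
  have hcard : ((E.card : ℕ) : ℝ) ≤ k := by exact_mod_cast hE
  have hEc0 : (0 : ℝ) ≤ (E.card : ℕ) := Nat.cast_nonneg _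
  have h1 : ((E.card : ℝ) + 1) * Real.log Q ≤ (k + 1) * (M1 b m k0 K' * Real.log b) := by
    have h2 : ((E.card : ℝ) + 1) * Real.log Q ≤ ((E.card : ℝ) + 1) * (M1 b m k0 K' * Real.log b) :=
      mul_le_mul_of_nonneg_left hlogQ (by linarith)
    have h3 : ((E.card : ℝ) + 1) * (M1 b m k0 K' * Real.log b) ≤
        (k + 1) * (M1 b m k0 K' * Real.log b) :=
      mul_le_mul_of_nonneg_right (by linarith) (mul_nonneg hM10 hlb0.le)
    linarith
  have h2 : n * σ ≤ (k + 1) * (M1 b m k0 K' * Real.log b) + δ * ((w + l : ℕ) * Real.log b) := by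
    linarith
  have h3 : (n * (l : ℝ)) * Real.log b ≤ ((n + k + 1) * M1 b m k0 K' + δ * (w + l) + 2 * n) *
      Real.log b := by
    rw [hσ] at h2
    push_cast at h2
    have h4 : (n : ℝ) * Real.log (2 * b) ≤ n * (2 * Real.log b) :=
      mul_le_mul_of_nonneg_left hl2b (by linarith)
    nlinarith
  have h4 := le_of_mul_le_mul_right h3 hlb0
  have h5 : ((n : ℝ) + k + 1) * M1 b m k0 K' ≤ (n + k + 1) * (m + 15 * err m) :=
    mul_le_mul_of_nonneg_left hpar1 (by linarith)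
  have h6 : 0 ≤ (n : ℝ) * K := by positivity
  linarith

end Pool.Agent.V1189.RT
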