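import Pool.Agent.V1189.RT.FormsDigits

/-!
# The joint order of windows of digits

Author: helper89.
-/

set_option autoImplicit false

namespace Pool.Agent.V1189.RT.Joint

open Finset
open Pool.Agent.Results.MP_a49cf6_nt.DigitRecurrences (Recurrence)

/-- the digit of `y` in base `b` at the place of `b ^ h` -/
def digit (b y h : ℕ) : ℕ := y / b ^ h % b

/-- `r` pairwise disjoint windows of `l` digits each of `y` in base `b` (which has
`Nat.log b y + 1` digits): the `k`-th window consists, from left to right, of the digits at the places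
`W k - 1, …, W k - l`. -/
structure IsWindows (b y r : ℕ) (W : Fin r → ℕ) (l : ℕ) : Prop where
  inside : ∀ k, l ≤ W k ∧ W k ≤ Nat.log b y + 1
  disjoint : ∀ j k, j ≠ k → W j + l ≤ W k ∨ W k + l ≤ W j

/-- The words in the `r` windows satisfy a common nontrivial linear relation of order `m`. -/
def HasRelation (b y r : ℕ) (W : Fin r → ℕ) (l m : ℕ) : Prop :=
  ∃ a : ℕ → ℚ, (∃ j ≤ m, a j ≠ 0) ∧ ∀ k : Fin r, ∀ i : ℕ, 1 ≤ i → i + m ≤ l →
    ∑ j ∈ range (m + 1), a j * (digit b y (W k - (i + j)) : ℚ) = 0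

/-- the joint order of the windows -/
noncomputable def jointOrder (b y r : ℕ) (W : Fin r → ℕ) (l : ℕ) : ℕ :=
  sInf {m | HasRelation b y r W l m}

/-- the largest absolute value of a coordinate -/
def height {d : ℕ} (x : Fin d → ℤ) : ℕ := univ.sup fun j => (x j).natAbs

lemma hasRelation_self (b y r : ℕ) (W : Fin r → ℕ) (l : ℕ) : HasRelation b y r W l l :=
  ⟨fun _ => 1, ⟨0, by omega, one_ne_zero⟩, fun k i h1 h2 => by omega⟩

lemma jointOrder_mem (b y r : ℕ) (W : Fin r → ℕ) (l : ℕ) :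
    HasRelation b y r W l (jointOrder b y r W l) :=
  Nat.sInf_mem (s := {m | HasRelation b y r W l m}) ⟨l, hasRelation_self b y r W l⟩

lemma jointOrder_le (b y r : ℕ) (W : Fin r → ℕ) (l : ℕ) : jointOrder b y r W l ≤ l :=
  Nat.sInf_le (hasRelation_self b y r W l)

/-- the upper bound, by counting equations -/
lemma upper (b y r : ℕ) (W : Fin r → ℕ) (l : ℕ) :
    (jointOrder b y r W l : ℝ) ≤ (r : ℝ) / (r + 1) * l + 1 := by
  obtain ⟨m, hm⟩ : ∃ m : ℕ, m = (r * l + r) / (r + 1) := ⟨_, rfl⟩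
  have hm1 : r * l ≤ (r + 1) * m := by
    have h1 := Nat.div_add_mod (r * l + r) (r + 1)
    have h2 := Nat.mod_lt (r * l + r) (show 0 < r + 1 by omega)
    rw [← hm] at h1
    omega
  have hm2 : (r + 1) * m ≤ r * l + r := by
    rw [hm]; exact Nat.mul_div_le _ _
  have hrel : HasRelation b y r W l m := by
    rcases Nat.lt_or_ge l m with hlm | hlm
    · exact ⟨fun _ => 1, ⟨0, by omega, one_ne_zero⟩, fun k i h1 h2 => by omega⟩
    let f : (Fin (m + 1) → ℚ) →ₗ[ℚ] (Fin r × Fin (l - m) → ℚ) :=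
      LinearMap.pi fun p => ∑ j : Fin (m + 1),
        (digit b y (W p.1 - (p.2 + 1 + j)) : ℚ) • LinearMap.proj j
    have hker : LinearMap.ker f ≠ ⊥ := by
      apply LinearMap.ker_ne_bot_of_finrank_lt
      rw [Module.finrank_fintype_fun_eq_card, Module.finrank_fintype_fun_eq_card, Fintype.card_prod,
        Fintype.card_fin, Fintype.card_fin, Fintype.card_fin]
      zify [hlm]
      zify at hm1
      nlinarith
    obtain ⟨a, ha, ha0⟩ := (Submodule.ne_bot_iff _).1 hker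
    obtain ⟨j0, hj0⟩ : ∃ j, a j ≠ 0 := by
      by_contra h
      push Not at h
      exact ha0 (funext h)
    obtain ⟨a', ha'⟩ : ∃ a' : ℕ → ℚ, ∀ j : Fin (m + 1), a' j = a j :=
      ⟨fun j => if h : j < m + 1 then a ⟨j, h⟩ else 0, fun j => dif_pos j.2⟩
    refine ⟨a', ⟨j0, by omega, by rw [ha']; exact hj0⟩, fun k i h1 h2 => ?_⟩
    have h3 := congrFun (LinearMap.mem_ker.1 ha) (k, (⟨i - 1, by omega⟩ : Fin (l - m)))
    have h4 : ∑ j : Fin (m + 1), a j * (digit b y (W k - (i + j)) : ℚ) = 0 := by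
      refine Eq.trans ?_ h3
      simp only [f, LinearMap.pi_apply, LinearMap.sum_apply, LinearMap.smul_apply,
        LinearMap.proj_apply, smul_eq_mul]
      refine Finset.sum_congr rfl fun j _ => ?_
      rw [mul_comm, show i - 1 + 1 + (j : ℕ) = i + j by omega]
    refine Eq.trans ?_ h4
    rw [Finset.sum_range]
    exact Finset.sum_congr rfl fun j _ => by rw [ha']
  have h1 : jointOrder b y r W l ≤ m := Nat.sInf_le hrel
  have h2 : (jointOrder b y r W l : ℝ) ≤ m := by exact_mod_cast h1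
  have h3 : ((r : ℝ) + 1) * m ≤ r * l + r := by exact_mod_cast hm2
  have hr : (0 : ℝ) < (r : ℝ) + 1 := by positivity
  refine h2.trans ?_
  rw [← mul_le_mul_iff_right₀ hr]
  have h4 : ((r : ℝ) + 1) * ((r : ℝ) / (r + 1) * l + 1) = r * l + (r + 1) := by
    field_simp
  rw [h4]
  linarith

lemma pow_le_of_windows {b y r : ℕ} {W : Fin r → ℕ} {l : ℕ} (hy : y ≠ 0) (hb : 2 ≤ b)
    (h : IsWindows b y r W l) (k : Fin r) : b ^ W k ≤ b * y := by
  have h2 : b ^ Nat.log b y ≤ y := Nat.pow_log_le_self b hy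
  calc b ^ W k ≤ b ^ (Nat.log b y + 1) := Nat.pow_le_pow_right (by omega) (h.inside k).2
    _ = b * b ^ Nat.log b y := by rw [pow_succ']
    _ ≤ b * y := Nat.mul_le_mul_left b h2

/-- from a relation to a recurrence -/
lemma to_recurrence (b y r : ℕ) (W : Fin r → ℕ) (l : ℕ) :
    ∃ (m' : ℕ) (c : ℕ → ℚ), m' ≤ jointOrder b y r W l ∧ ∀ k,
      Recurrence (fun i => (dH b y (W k - i) : ℤ)) c (l - (jointOrder b y r W l - m')) m' := by
  obtain ⟨m, hm⟩ : ∃ m, m = jointOrder b y r W l := ⟨_, rfl⟩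
  obtain ⟨a, ⟨j1, hj1, haj1⟩, hrel⟩ := jointOrder_mem b y r W l
  have hml : m ≤ l := by rw [hm]; exact jointOrder_le _ _ _ _ _
  rw [← hm] at hj1 hrel ⊢
  obtain ⟨m', hm', hmax⟩ := Finset.exists_max_image ((range (m + 1)).filter fun j => a j ≠ 0) id
    ⟨j1, by rw [mem_filter, mem_range]; exact ⟨by omega, haj1⟩⟩
  rw [mem_filter, mem_range] at hm'
  have hzero : ∀ j, m' < j → j < m + 1 → a j = 0 := by
    intro j h1 h2
    by_contra h3
    have := hmax j (by rw [mem_filter, mem_range]; exact ⟨h2, h3⟩)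
    simp only [id] at this
    omega
  refine ⟨m', fun j => -a j / a m', by omega, fun k i h1 h2 => ?_⟩
  have h3 := hrel k i h1 (by omega)
  have h4 : ∑ j ∈ range (m + 1), a j * (digit b y (W k - (i + j)) : ℚ) =
      ∑ j ∈ range (m' + 1), a j * (digit b y (W k - (i + j)) : ℚ) := by
    symm
    apply Finset.sum_subset
    · intro j hj
      rw [mem_range] at hj ⊢
      omega
    · intro j hj1 hj2
      rw [mem_range] at hj1 hj2
      rw [hzero j (by omega) hj1, zero_mul]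
  rw [h4, Finset.sum_range_succ] at h3
  have h5 : ((digit b y (W k - (i + m')) : ℕ) : ℚ) = ∑ j ∈ range m',
      -a j / a m' * ((digit b y (W k - (i + j)) : ℕ) : ℚ) := by
    have h6 : ∑ j ∈ range m', -a j / a m' * ((digit b y (W k - (i + j)) : ℕ) : ℚ) =
        -(∑ j ∈ range m', a j * (digit b y (W k - (i + j)) : ℚ)) / a m' := by
      rw [← Finset.sum_neg_distrib, Finset.sum_div]
      exact Finset.sum_congr rfl fun j _ => by ring
    rw [h6, eq_div_iff hm'.2]
    linarith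
  exact_mod_cast h5

theorem jointForms (d b r : ℕ) (hd : 1 ≤ d) (hr : 1 ≤ r) (hb : 2 ≤ b)
    (g : Matrix (Fin d) (Fin d) ℝ) (halg : ∀ i j, IsAlgebraic ℚ (g i j)) (hdet : g.det ≠ 0)
    (a : Fin d → ℤ) (ε : ℝ) (hε : 0 < ε) :
    ∃ (S : Finset (Fin d → ℤ)) (C : ℝ), 0 ≤ C ∧ (∀ s ∈ S, s ≠ 0) ∧
      ∀ x : Fin d → ℤ, (∀ s ∈ S, ∑ j, s j * x j ≠ 0) → ∀ (W : Fin r → ℕ) (l : ℕ),
      IsWindows b (∑ j, a j * x j).natAbs r W l →
      (r : ℝ) * l * Real.log b ≤ (d + r) * (jointOrder b (∑ j, a j * x j).natAbs r W l * Real.log b) +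
        logF d g x + ε * Real.log (height x) + C := by
  have hbR : (2 : ℝ) ≤ b := by exact_mod_cast hb
  obtain ⟨L, hL⟩ : ∃ L : ℝ, L = Real.log b := ⟨_, rfl⟩
  have hL0 : 0 < L := by rw [hL]; exact Real.log_pos (by linarith)
  have hdR : (1 : ℝ) ≤ d := by exact_mod_cast hd
  have hr0 : (0 : ℝ) ≤ r := Nat.cast_nonneg _
  obtain ⟨S, C1, hC10, hS, hC1⟩ := formsDigits d b r hd hb g halg hdet a (ε / 2) (by linarith)
  obtain ⟨Ga, hGa⟩ : ∃ Ga : ℝ, Ga = 1 + ∑ j, |(a j : ℝ)| := ⟨_, rfl⟩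
  have hGa1 : 1 ≤ Ga := by
    have : 0 ≤ ∑ j, |(a j : ℝ)| := Finset.sum_nonneg fun j _ => abs_nonneg _
    rw [hGa]; linarith
  have hlogGa : 0 ≤ Real.log Ga := Real.log_nonneg hGa1
  obtain ⟨κ, hκ⟩ : ∃ κ : ℝ, κ = ε / 2 / (d + r) := ⟨_, rfl⟩
  have hdr : (0 : ℝ) < d + r := by linarith
  have hκ0 : 0 < κ := by rw [hκ]; positivity
  obtain ⟨K, hK0, hK⟩ := Pool.Agent.Results.MP_a49cf6_nt.DigitRecurrences.F_linear 17 κ
    (by norm_num) hκ0
  refine ⟨S, C1 + (d + r) * K * L + ε / 2 * (L + Real.log Ga) + r * L, by positivity, hS,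
    fun x hx W l hW => ?_⟩
  obtain ⟨y, hy⟩ : ∃ y : ℕ, y = (∑ j, a j * x j).natAbs := ⟨_, rfl⟩
  obtain ⟨m, hm⟩ : ∃ m : ℕ, m = jointOrder b y r W l := ⟨_, rfl⟩
  have hlF := logF_nonneg d g x
  have hlH : 0 ≤ Real.log (height x) := Real.log_natCast_nonneg _
  have hx1 : ∀ j, (x j).natAbs ≤ height x := fun j =>
    Finset.le_sup (f := fun j => (x j).natAbs) (mem_univ j)
  rw [← hy, ← hm, ← hL]
  rw [← hy] at hW
  have hm0 : 0 ≤ (m : ℝ) * L := by positivity
  rcases Nat.eq_zero_or_pos y with hy0 | hy0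
  · have h1 : l ≤ 1 := by
      have h2 := (hW.inside ⟨0, hr⟩).1
      have h3 := (hW.inside ⟨0, hr⟩).2
      rw [hy0, Nat.log_zero_right] at h3
      omega
    have h2 : (l : ℝ) ≤ 1 := by exact_mod_cast h1
    have h3 : (r : ℝ) * l * L ≤ r * 1 * L := by gcongr
    have h4 : 0 ≤ ((d : ℝ) + r) * (m * L) := by positivity
    have h5 : 0 ≤ ε * Real.log (height x) := by positivity
    have h6 : 0 ≤ (d + r) * K * L := by positivity
    have h7 : 0 ≤ ε / 2 * (L + Real.log Ga) := by positivity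
    linarith
  obtain ⟨m', c, hm'm, hrec⟩ := to_recurrence b y r W l
  rw [← hm] at hm'm hrec
  have hml : m ≤ l := by rw [hm]; exact jointOrder_le _ _ _ _ _
  have hpow := pow_le_of_windows (by omega) hb hW
  have hmain := hC1 x (height x) hx hx1 W (l - (m - m')) m' c
    (fun k => by have := (hW.inside k).1; omega) (fun k => by rw [← hy]; exact hpow k)
    (fun i j hij => by
      rcases hW.disjoint i j hij with h | h
      · left; omega
      · right; omega) (fun k => by rw [← hy]; exact hrec k)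
  rw [← hL] at hmain
  have hHp : 1 ≤ height x := by
    by_contra h
    have h1 : ∀ j, x j = 0 := by
      intro j
      have := hx1 j
      omega
    simp [h1] at hy
    omega
  have hHR : (1 : ℝ) ≤ height x := by exact_mod_cast hHp
  have hyR : (y : ℝ) ≤ Ga * height x := by
    rw [hy, Nat.cast_natAbs, Int.cast_abs]
    push_cast
    refine (Finset.abs_sum_le_sum_abs _ _).trans ?_
    have h1 : ∑ j, |(a j : ℝ) * x j| ≤ ∑ j, |(a j : ℝ)| * height x := by
      refine Finset.sum_le_sum fun j _ => ?_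
      rw [abs_mul]
      refine mul_le_mul_of_nonneg_left ?_ (abs_nonneg _)
      have h1 : (((x j).natAbs : ℕ) : ℝ) ≤ height x := by exact_mod_cast hx1 j
      rwa [Nat.cast_natAbs, Int.cast_abs] at h1
    rw [← Finset.sum_mul] at h1
    have h2 : ∑ j, |(a j : ℝ)| ≤ Ga := by rw [hGa]; linarith
    exact h1.trans (mul_le_mul_of_nonneg_right h2 (by linarith))
  have hlL : (l : ℝ) * L ≤ L + Real.log Ga + Real.log (height x) := by
    have h1 : (b : ℝ) ^ W ⟨0, hr⟩ ≤ b * (Ga * height x) := by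
      have h2 : ((b ^ W ⟨0, hr⟩ : ℕ) : ℝ) ≤ ((b * y : ℕ) : ℝ) := by exact_mod_cast hpow ⟨0, hr⟩
      push_cast at h2
      exact h2.trans (mul_le_mul_of_nonneg_left hyR (by linarith))
    have h3 := Real.log_le_log (by positivity) h1
    rw [Real.log_pow, Real.log_mul (by positivity) (by positivity),
      Real.log_mul (by positivity) (by positivity), ← hL] at h3
    have h4 : (l : ℝ) ≤ W ⟨0, hr⟩ := by exact_mod_cast (hW.inside ⟨0, hr⟩).1
    have h5 := mul_le_mul_of_nonneg_right h4 hL0.le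
    linarith
  have h2 := hK m'
  have h3 : (m' : ℝ) + 15 * Pool.Agent.W47.JL.err m' ≤
      Pool.Agent.Results.MP_a49cf6_nt.DigitRecurrences.F 17 m' := by
    have h4 := Pool.Agent.W47.JL.err_ge m'
    have h5 : Pool.Agent.Results.MP_a49cf6_nt.DigitRecurrences.F 17 m' =
      m' + 17 * Pool.Agent.W47.JL.err m' := rfl
    rw [h5]; linarith
  have hm'mR : (m' : ℝ) ≤ m := by exact_mod_cast hm'm
  have hmlR : (m : ℝ) ≤ l := by exact_mod_cast hml
  have hm'0 : (0 : ℝ) ≤ m' := Nat.cast_nonneg _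
  have hcast : ((l - (m - m') : ℕ) : ℝ) = l - m + m' := by
    rw [Nat.cast_sub (by omega), Nat.cast_sub (by omega)]
    ring
  rw [hcast] at hmain
  have h4 : ((d : ℝ) + r) * ((m' + 15 * Pool.Agent.W47.JL.err m') * L) ≤
      (d + r) * ((m' + κ * l + K) * L) := by
    refine mul_le_mul_of_nonneg_left (mul_le_mul_of_nonneg_right ?_ hL0.le) hdr.le
    have h5 : κ * (m' : ℝ) ≤ κ * l := mul_le_mul_of_nonneg_left (hm'mR.trans hmlR) hκ0.le
    linarith
  have h5 : ((d : ℝ) + r) * ((m' + κ * l + K) * L) = (d + r) * (m' * L) + ε / 2 * (l * L) +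
      (d + r) * K * L := by
    rw [hκ]
    field_simp
  have h6 : ε / 2 * (l * L) ≤ ε / 2 * (L + Real.log Ga + Real.log (height x)) :=
    mul_le_mul_of_nonneg_left hlL (by linarith)
  have h7 : (d : ℝ) * (m' * L) ≤ d * (m * L) :=
    mul_le_mul_of_nonneg_left (mul_le_mul_of_nonneg_right hm'mR hL0.le) (by linarith)
  have h8 : 0 ≤ (r : ℝ) * L := by positivity
  nlinarith

end Pool.Agent.V1189.RT.Joint
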