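import Pool.Agent.V1189.RT.JointS

/-!
# Hyperplanes in general position: an inequality of Schmidt, Schlickewei and Vojta with digits

Author: helper89.
-/

set_option autoImplicit false

namespace Pool.Agent.V1189.RT.Vojta

open Finset
open Pool.Agent.V1189.RT.Joint

lemma exists_inj {q d : ℕ} (T : Finset (Fin q)) (hT : d ≤ T.card) :
    ∃ σ : Fin d → Fin q, Function.Injective σ ∧ ∀ k, σ k ∈ T := by
  refine ⟨fun k => T.orderEmbOfFin rfl (Fin.castLE hT k), ?_, fun k => T.orderEmbOfFin_mem rfl _⟩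
  intro k k' h
  have h1 := (T.orderEmbOfFin rfl).injective h
  exact Fin.castLE_injective hT h1

lemma exists_cover {q d : ℕ} (hdq : d ≤ q) (T : Finset (Fin q)) (hT : T.card ≤ d) :
    ∃ σ : Fin d → Fin q, Function.Injective σ ∧ ∀ (F : Fin q → ℝ) (c : ℝ), (∀ i ∉ T, F i ≤ c) →
      ∑ i, F i ≤ ∑ k, F (σ k) + ((q : ℝ) - d) * c := by
  classical
  obtain ⟨U, hTU, hU⟩ := Finset.exists_superset_card_eq hT (by rw [Fintype.card_fin]; exact hdq)
  refine ⟨fun k => U.orderEmbOfFin hU k, (U.orderEmbOfFin hU).injective, fun F c hF => ?_⟩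
  have h1 : ∑ i, F i = ∑ i ∈ U, F i + ∑ i ∈ Uᶜ, F i := (Finset.sum_add_sum_compl U F).symm
  have h2 : ∑ i ∈ U, F i = ∑ k, F (U.orderEmbOfFin hU k) := by
    rw [← Finset.sum_coe_sort U F]
    exact (Equiv.sum_comp (U.orderIsoOfFin hU).toEquiv fun u : U => F u).symm
  have h3 : ∑ i ∈ Uᶜ, F i ≤ ∑ _i ∈ Uᶜ, c := Finset.sum_le_sum fun i hi => hF i fun h => by
    rw [mem_compl] at hi
    exact hi (hTU h)
  rw [Finset.sum_const, Finset.card_compl, Fintype.card_fin, hU, nsmul_eq_mul,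
    Nat.cast_sub hdq] at h3
  rw [h1, h2]
  linarith

/-- the matrix of the chosen forms -/
def pick {q d : ℕ} (Λ : Fin q → Fin d → ℤ) (σ : Fin d → Fin q) : Matrix (Fin d) (Fin d) ℤ :=
  Matrix.of fun i j => Λ (σ i) j

lemma det_mul {q d : ℕ} (Λ : Fin q → Fin d → ℤ) (σ : Fin d → Fin q) (x : Fin d → ℤ) (j : Fin d) :
    (pick Λ σ).det * x j = ∑ i, (pick Λ σ).adjugate j i * ∑ k, Λ (σ i) k * x k := by
  have h1 : (pick Λ σ).adjugate.mulVec ((pick Λ σ).mulVec x) = (pick Λ σ).det • x := by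
    rw [Matrix.mulVec_mulVec, Matrix.adjugate_mul, Matrix.smul_mulVec, Matrix.one_mulVec]
  exact (congrFun h1 j).symm

theorem vojtaDigits (d b r q : ℕ) (hd : 1 ≤ d) (hdq : d ≤ q) (Λ : Fin q → Fin d → ℤ)
    (hgen : ∀ σ : Fin d → Fin q, Function.Injective σ → (pick Λ σ).det ≠ 0)
    (S : Finset ℕ) (hS : ∀ p ∈ S, p.Prime) (hb : 2 ≤ b) (hbS : ∀ p ∈ S, ¬ p ∣ b)
    (a : Fin d → ℤ) (hr : 1 ≤ r) (ε : ℝ) (hε : 0 < ε) :
    ∃ (E : Finset (Fin d → ℤ)) (C : ℝ), 0 ≤ C ∧ (∀ s ∈ E, s ≠ 0) ∧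
      ∀ x : Fin d → ℤ, (∀ s ∈ E, ∑ j, s j * x j ≠ 0) →
      (∀ p ∈ S, ∃ j, ¬ (p : ℤ) ∣ x j) → (∀ i, ∑ j, Λ i j * x j ≠ 0) →
      ∀ (W : Fin r → ℕ) (l : ℕ), IsWindows b (∑ j, a j * x j).natAbs r W l →
      ((q : ℝ) - d - ε) * Real.log (height x) +
        ((r : ℝ) * l - (r + d) * jointOrder b (∑ j, a j * x j).natAbs r W l) * Real.log b +
        ∑ p ∈ S, ∑ i, (padicValInt p (∑ j, Λ i j * x j) : ℝ) * Real.log p ≤
      ∑ i, Real.log |((∑ j, Λ i j * x j : ℤ) : ℝ)| + C := by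
  classical
  obtain ⟨s, hs⟩ : ∃ s, s = S.card := ⟨_, rfl⟩
  let p : Fin s → ℕ := fun v => S.orderEmbOfFin hs.symm v
  have hpS : ∀ v, p v ∈ S := fun v => S.orderEmbOfFin_mem hs.symm v
  have hp : ∀ v, (p v).Prime := fun v => hS _ (hpS v)
  have hp2 : ∀ v, 2 ≤ p v := fun v => (hp v).two_le
  have hpb : ∀ v, Nat.Coprime (p v) b := fun v =>
    (Nat.Prime.coprime_iff_not_dvd (hp v)).2 (hbS _ (hpS v))
  have hpp : ∀ v v', v ≠ v' → Nat.Coprime (p v) (p v') := fun v v' h =>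
    (Nat.coprime_primes (hp v) (hp v')).2 fun h' => h ((S.orderEmbOfFin hs.symm).injective h')
  have hsumS : ∀ F : ℕ → ℝ, ∑ p' ∈ S, F p' = ∑ v, F (p v) := by
    intro F
    rw [← Finset.sum_coe_sort S F]
    exact (Equiv.sum_comp (S.orderIsoOfFin hs.symm).toEquiv fun u : S => F u).symm
  -- the exceptional sets
  let TT := (Fin d → Fin q) × (Fin s → Fin d → Fin q)
  have hex : ∀ τ : TT, ∃ (E : Finset (Fin d → ℤ)) (C : ℝ), 0 ≤ C ∧ (∀ s ∈ E, s ≠ 0) ∧
      (Function.Injective τ.1 → (∀ v, Function.Injective (τ.2 v)) →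
      ∀ x : Fin d → ℤ, (∀ s ∈ E, ∑ j, s j * x j ≠ 0) → (∀ i, ∑ j, Λ i j * x j ≠ 0) →
      ∀ (W : Fin r → ℕ) (l : ℕ), IsWindows b (∑ j, a j * x j).natAbs r W l →
      ∀ f : Fin s → Fin d → ℕ, (∀ v i, (p v : ℤ) ^ f v i ∣ ∑ j, Λ (τ.2 v i) j * x j) →
      (r : ℝ) * l * Real.log b + ∑ v, ∑ i, (f v i : ℝ) * Real.log (p v) ≤
        (d + r) * (jointOrder b (∑ j, a j * x j).natAbs r W l * Real.log b) +
        ∑ i, Real.log |((∑ j, Λ (τ.1 i) j * x j : ℤ) : ℝ)| + ε * Real.log (height x) + C) := by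
    rintro ⟨σ, ρ⟩
    by_cases hinj : Function.Injective σ ∧ ∀ v, Function.Injective (ρ v)
    · obtain ⟨E1, C1, hC1, hE1, h1⟩ := jointFormsS d b r s p hp2 hpb hpp (fun v => pick Λ (ρ v))
        (fun v => hgen _ (hinj.2 v)) hd hr hb (pick Λ σ) (hgen _ hinj.1)
        (fun i j => ((pick Λ σ i j : ℤ) : ℝ)) (fun i j => rfl) a (ε / 2) (by linarith)
      obtain ⟨E2, C2, hC2, hE2, h2⟩ := ridout d s p hp2 hpp (fun v => pick Λ (ρ v))
        (fun v => hgen _ (hinj.2 v)) hd (pick Λ σ) (hgen _ hinj.1) (ε / 2) (by linarith)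
      refine ⟨E1 ∪ E2, C1 + C2, by linarith, ?_, ?_⟩
      · intro s hs
        rw [mem_union] at hs
        rcases hs with h | h
        · exact hE1 s h
        · exact hE2 s h
      · intro _ _ x hx hΛ W l hW f hf
        change ∀ v i, (p v : ℤ) ^ f v i ∣ ∑ j, Λ (ρ v i) j * x j at hf
        change _ ≤ _ + ∑ i, Real.log |((∑ j, Λ (σ i) j * x j : ℤ) : ℝ)| + _ + _
        have hlH : 0 ≤ Real.log (height x) := Real.log_natCast_nonneg _
        have k1 := h1 x (fun s hs => hx s (mem_union_left _ hs)) (∏ v, ∏ i, p v ^ f v i) f rfl hf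
          (fun v i => hΛ _) W l hW
        have k2 := h2 x (height x) (fun s hs => hx s (mem_union_right _ hs)) (fun j =>
          Finset.le_sup (f := fun j => (x j).natAbs) (mem_univ j)) f hf (fun v i => hΛ _)
          (fun i => hΛ _)
        change _ ≤ ∑ i, Real.log |((∑ j, Λ (σ i) j * x j : ℤ) : ℝ)| + _ + _ at k2
        have hpR : ∀ v, (0 : ℝ) < p v := fun v => by exact_mod_cast (hp v).pos
        have hD0 : (0 : ℝ) < ((∏ v, ∏ i, p v ^ f v i : ℕ) : ℝ) := by
          push_cast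
          exact Finset.prod_pos fun v _ => Finset.prod_pos fun i _ => pow_pos (hpR v) _
        have hlogD : Real.log ((∏ v, ∏ i, p v ^ f v i : ℕ) : ℝ) =
            ∑ v, ∑ i, (f v i : ℝ) * Real.log (p v) := by
          push_cast
          rw [Real.log_prod fun v _ => (Finset.prod_pos fun i _ => pow_pos (hpR v) _).ne']
          refine Finset.sum_congr rfl fun v _ => ?_
          rw [Real.log_prod fun i _ => (pow_pos (hpR v) _).ne']
          exact Finset.sum_congr rfl fun i _ => Real.log_pow _ _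
        have hfac : ∀ i, |∑ j, ((pick Λ σ i j : ℤ) : ℝ) * (x j : ℝ)| =
            |((∑ j, Λ (σ i) j * x j : ℤ) : ℝ)| := by
          intro i
          push_cast
          rfl
        have hne : ∀ i, (0 : ℝ) < |((∑ j, Λ (σ i) j * x j : ℤ) : ℝ)| := fun i =>
          abs_pos.2 (by exact_mod_cast hΛ (σ i))
        have hlogFD : logFD d (fun i j => ((pick Λ σ i j : ℤ) : ℝ)) x
            (∏ v, ∏ i, p v ^ f v i) ≤ max 0 (∑ i, Real.log |((∑ j, Λ (σ i) j * x j : ℤ) : ℝ)| -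
              ∑ v, ∑ i, (f v i : ℝ) * Real.log (p v)) := by
          unfold logFD
          simp only [hfac]
          have h3 : 0 < ∏ i, |((∑ j, Λ (σ i) j * x j : ℤ) : ℝ)| :=
            Finset.prod_pos fun i _ => hne i
          rcases le_total 1 ((∏ i, |((∑ j, Λ (σ i) j * x j : ℤ) : ℝ)|) /
            ((∏ v, ∏ i, p v ^ f v i : ℕ) : ℝ)) with h4 | h4
          · rw [max_eq_right h4, Real.log_div h3.ne' hD0.ne', hlogD,
              Real.log_prod fun i _ => (hne i).ne']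
            exact le_max_right _ _
          · rw [max_eq_left h4, Real.log_one]
            exact le_max_left _ _
        have h5 : 0 ≤ ε / 2 * Real.log (height x) := by positivity
        rcases max_cases (0 : ℝ) (∑ i, Real.log |((∑ j, Λ (σ i) j * x j : ℤ) : ℝ)| -
              ∑ v, ∑ i, (f v i : ℝ) * Real.log (p v)) with ⟨h6, h7⟩ | ⟨h6, h7⟩
        · rw [h6] at hlogFD
          linarith
        · rw [h6] at hlogFD
          linarith
    · exact ⟨∅, 0, le_rfl, by simp, fun h1 h2 => absurd ⟨h1, h2⟩ hinj⟩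
  choose E C hC0 hE0 hmain using hex
  -- the constants
  obtain ⟨K, hK⟩ : ∃ K : ℝ, K = 1 + ∑ σ : Fin d → Fin q, ∑ j, ∑ i,
    |(((pick Λ σ).adjugate j i : ℤ) : ℝ)| := ⟨_, rfl⟩
  have hKn : 0 ≤ ∑ σ : Fin d → Fin q, ∑ j, ∑ i, |(((pick Λ σ).adjugate j i : ℤ) : ℝ)| :=
    Finset.sum_nonneg fun σ _ => Finset.sum_nonneg fun j _ => Finset.sum_nonneg fun i _ =>
      abs_nonneg _
  have hK1 : 1 ≤ K := by rw [hK]; linarith
  have hlogK : 0 ≤ Real.log K := Real.log_nonneg hK1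
  obtain ⟨B, hB⟩ : ∃ B : ℕ → ℕ, B = fun p' => ∑ σ : Fin d → Fin q, padicValInt p' (pick Λ σ).det :=
    ⟨_, rfl⟩
  have hqd : (0 : ℝ) ≤ (q : ℝ) - d := by
    have : (d : ℝ) ≤ q := by exact_mod_cast hdq
    linarith
  have hlogp : ∀ v, 0 ≤ Real.log (p v) := fun v => Real.log_natCast_nonneg _
  refine ⟨univ.biUnion E, ∑ τ, C τ + ((q : ℝ) - d) * Real.log K +
    ∑ v, ((q : ℝ) - d) * (B (p v) * Real.log (p v)), ?_, ?_, ?_⟩
  · have h1 : 0 ≤ ∑ τ, C τ := Finset.sum_nonneg fun τ _ => hC0 τ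
    have h2 : 0 ≤ ∑ v, ((q : ℝ) - d) * (B (p v) * Real.log (p v)) :=
      Finset.sum_nonneg fun v _ => mul_nonneg hqd (mul_nonneg (Nat.cast_nonneg _) (hlogp v))
    have h3 : 0 ≤ ((q : ℝ) - d) * Real.log K := mul_nonneg hqd hlogK
    linarith
  · intro s hs
    rw [mem_biUnion] at hs
    obtain ⟨τ, -, h⟩ := hs
    exact hE0 τ s h
  intro x hx hprim hΛ W l hW
  have hxH : ∀ j, |(x j : ℝ)| ≤ height x := by
    intro j
    have h1 : (x j).natAbs ≤ height x :=
      Finset.le_sup (f := fun j => (x j).natAbs) (mem_univ j)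
    have h2 : (((x j).natAbs : ℕ) : ℝ) ≤ height x := by exact_mod_cast h1
    rwa [Nat.cast_natAbs, Int.cast_abs] at h2
  have hHp : 1 ≤ height x := by
    by_contra h
    have h1 : ∀ j, x j = 0 := by
      intro j
      have h1 : (x j).natAbs ≤ height x :=
        Finset.le_sup (f := fun j => (x j).natAbs) (mem_univ j)
      omega
    exact hΛ ⟨0, by omega⟩ (by simp [h1])
  have hHR : (1 : ℝ) ≤ height x := by exact_mod_cast hHp
  have hlam1 : ∀ i, (1 : ℝ) ≤ |((∑ j, Λ i j * x j : ℤ) : ℝ)| := by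
    intro i
    rw [← Int.cast_abs]
    exact_mod_cast Int.one_le_abs (hΛ i)
  -- the archimedean place
  obtain ⟨σ, hσ, hσF⟩ := exists_cover hdq
    (univ.filter fun i => K * |((∑ j, Λ i j * x j : ℤ) : ℝ)| < height x) (by
      by_contra h
      push Not at h
      obtain ⟨σ, hσ, hσT⟩ := exists_inj (d := d) _ h.le
      obtain ⟨j, -, hj⟩ := Finset.exists_mem_eq_sup univ ⟨⟨0, hd⟩, mem_univ _⟩
        (fun j => (x j).natAbs)
      have h1 : ((height x : ℕ) : ℝ) = |(x j : ℝ)| := by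
        rw [← Int.cast_abs, ← Nat.cast_natAbs]
        have : height x = (x j).natAbs := hj
        rw [this]
      have h2 := det_mul Λ σ x j
      have h3 : |(x j : ℝ)| ≤ |(((pick Λ σ).det * x j : ℤ) : ℝ)| := by
        rw [Int.cast_mul, abs_mul]
        refine le_mul_of_one_le_left (abs_nonneg _) ?_
        rw [← Int.cast_abs]
        exact_mod_cast Int.one_le_abs (hgen σ hσ)
      rw [h2] at h3
      push_cast at h3
      have h4 : |∑ i, (((pick Λ σ).adjugate j i : ℤ) : ℝ) * ∑ k, (Λ (σ i) k : ℝ) * (x k : ℝ)| ≤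
          ∑ i, |(((pick Λ σ).adjugate j i : ℤ) : ℝ)| * (height x / K) := by
        refine (Finset.abs_sum_le_sum_abs _ _).trans (Finset.sum_le_sum fun i _ => ?_)
        rw [abs_mul]
        refine mul_le_mul_of_nonneg_left ?_ (abs_nonneg _)
        have h5 := (mem_filter.1 (hσT i)).2
        rw [le_div_iff₀ (by linarith)]
        push_cast at h5
        linarith
      rw [← Finset.sum_mul] at h4
      have h5 : ∑ i, |(((pick Λ σ).adjugate j i : ℤ) : ℝ)| ≤ K - 1 := by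
        have h6 : ∑ i, |(((pick Λ σ).adjugate j i : ℤ) : ℝ)| ≤
            ∑ j, ∑ i, |(((pick Λ σ).adjugate j i : ℤ) : ℝ)| :=
          Finset.single_le_sum (f := fun j => ∑ i, |(((pick Λ σ).adjugate j i : ℤ) : ℝ)|)
            (fun _ _ => Finset.sum_nonneg fun _ _ => abs_nonneg _) (mem_univ j)
        have h7 : ∑ j, ∑ i, |(((pick Λ σ).adjugate j i : ℤ) : ℝ)| ≤
            ∑ σ : Fin d → Fin q, ∑ j, ∑ i, |(((pick Λ σ).adjugate j i : ℤ) : ℝ)| :=
          Finset.single_le_sum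
            (f := fun σ : Fin d → Fin q => ∑ j, ∑ i, |(((pick Λ σ).adjugate j i : ℤ) : ℝ)|)
            (fun _ _ => Finset.sum_nonneg fun _ _ => Finset.sum_nonneg fun _ _ => abs_nonneg _)
            (mem_univ σ)
        rw [hK]; linarith
      have h6 : (height x : ℝ) ≤ (K - 1) * (height x / K) := by
        rw [h1] at h4 ⊢
        refine h3.trans (h4.trans (mul_le_mul_of_nonneg_right h5 (by positivity)))
      have h7 : (K - 1) * ((height x : ℝ) / K) = height x - height x / K := by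
        field_simp
      rw [h7] at h6
      have h8 : (0 : ℝ) < height x / K := by positivity
      linarith)
  -- the primes
  have hfin : ∀ v, ∃ ρ : Fin d → Fin q, Function.Injective ρ ∧ ∀ (F : Fin q → ℝ) (c : ℝ),
      (∀ i, padicValInt (p v) (∑ j, Λ i j * x j) ≤ B (p v) → F i ≤ c) →
      ∑ i, F i ≤ ∑ k, F (ρ k) + ((q : ℝ) - d) * c := by
    intro v
    haveI : Fact (p v).Prime := ⟨hp v⟩
    obtain ⟨ρ, hρ, hρF⟩ := exists_cover hdq
      (univ.filter fun i => B (p v) < padicValInt (p v) (∑ j, Λ i j * x j)) (by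
        by_contra h
        push Not at h
        obtain ⟨σ, hσ, hσT⟩ := exists_inj (d := d) _ h.le
        obtain ⟨j, hj⟩ := hprim (p v) (hpS v)
        have h2 := det_mul Λ σ x j
        have h3 : ((p v : ℤ) ^ (B (p v) + 1)) ∣ (pick Λ σ).det * x j := by
          rw [h2]
          refine Finset.dvd_sum fun i _ => Dvd.dvd.mul_left ?_ _
          have h4 := (mem_filter.1 (hσT i)).2
          exact (pow_dvd_pow _ h4).trans (padicValInt_dvd _)
        have h4 : ((p v : ℤ) ^ (B (p v) + 1)) ∣ (pick Λ σ).det := by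
          refine IsCoprime.dvd_of_dvd_mul_right ?_ h3
          refine IsCoprime.pow_left ?_
          rw [Int.isCoprime_iff_gcd_eq_one]
          have h5 : (p v).Coprime (x j).natAbs :=
            (Nat.Prime.coprime_iff_not_dvd (hp v)).2 fun h6 => hj (Int.natCast_dvd.2 h6)
          exact h5
        have h5 : B (p v) + 1 ≤ padicValInt (p v) (pick Λ σ).det := by
          rcases padicValInt_dvd_iff (p := p v) (B (p v) + 1) (pick Λ σ).det |>.1 h4 with h | h
          · exact absurd h (hgen σ hσ)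
          · exact h
        have h6 : padicValInt (p v) (pick Λ σ).det ≤ B (p v) := by
          rw [hB]
          exact Finset.single_le_sum (f := fun σ => padicValInt (p v) (pick Λ σ).det)
            (fun _ _ => Nat.zero_le _) (mem_univ σ)
        omega)
    refine ⟨ρ, hρ, fun F c hF => hρF F c fun i hi => hF i ?_⟩
    rw [mem_filter] at hi
    push Not at hi
    exact hi (mem_univ _)
  choose ρ hρ hρF using hfin
  have key := hmain (σ, ρ) hσ hρ x (fun s hs => hx s (mem_biUnion.2 ⟨(σ, ρ), mem_univ _, hs⟩)) hΛ W l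
    hW (fun v i => padicValInt (p v) (∑ j, Λ (ρ v i) j * x j)) (fun v i => padicValInt_dvd _)
  change _ ≤ _ + ∑ i, Real.log |((∑ j, Λ (σ i) j * x j : ℤ) : ℝ)| + _ + _ at key
  have hA := hσF (fun i => -Real.log |((∑ j, Λ i j * x j : ℤ) : ℝ)|)
    (Real.log K - Real.log (height x)) (fun i hi => by
      rw [mem_filter] at hi
      push Not at hi
      have h1 := hi (mem_univ _)
      have h2 := Real.log_le_log (by linarith) h1
      rw [Real.log_mul (by linarith) (by linarith [hlam1 i])] at h2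
      linarith)
  rw [Finset.sum_neg_distrib, Finset.sum_neg_distrib] at hA
  have hBv : ∀ v, ∑ i, (padicValInt (p v) (∑ j, Λ i j * x j) : ℝ) * Real.log (p v) ≤
      ∑ i, (padicValInt (p v) (∑ j, Λ (ρ v i) j * x j) : ℝ) * Real.log (p v) +
        ((q : ℝ) - d) * (B (p v) * Real.log (p v)) := fun v =>
    hρF v (fun i => (padicValInt (p v) (∑ j, Λ i j * x j) : ℝ) * Real.log (p v)) _
      (fun i hi => mul_le_mul_of_nonneg_right (by exact_mod_cast hi) (hlogp v))
  have hBs := Finset.sum_le_sum fun v (_ : v ∈ univ) => hBv v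
  rw [Finset.sum_add_distrib] at hBs
  have hCτ : C (σ, ρ) ≤ ∑ τ, C τ :=
    Finset.single_le_sum (f := C) (fun τ _ => hC0 τ) (mem_univ (σ, ρ))
  rw [hsumS fun p' => ∑ i, (padicValInt p' (∑ j, Λ i j * x j) : ℝ) * Real.log p']
  obtain ⟨m, hm⟩ : ∃ m : ℝ, m = jointOrder b (∑ j, a j * x j).natAbs r W l := ⟨_, rfl⟩
  rw [← hm] at key ⊢
  obtain ⟨Y, hY⟩ : ∃ Y : ℝ, Y = Real.log (height x) := ⟨_, rfl⟩
  rw [← hY] at key hA ⊢
  have e1 : ((q : ℝ) - d) * (Real.log K - Y) = ((q : ℝ) - d) * Real.log K - ((q : ℝ) - d) * Y := by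
    ring
  have e2 : ((q : ℝ) - d - ε) * Y = ((q : ℝ) - d) * Y - ε * Y := by ring
  have e3 : ((r : ℝ) * l - (r + d) * m) * Real.log b =
      (r : ℝ) * l * Real.log b - (d + r) * (m * Real.log b) := by ring
  rw [e2, e3]
  rw [e1] at hA
  linarith

end Pool.Agent.V1189.RT.Vojta
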