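import Pool.Agent.V1189.RT.Vojta

/-!
# Sums of `n` integers: the parts outside `S`, and digits

Author: helper89.
-/

set_option autoImplicit false

namespace Pool.Agent.V1189.RT.NTerm

open Finset
open Pool.Agent.V1189.RT.Joint

/-- the sum of `v_p(m) log p` over the primes `p ∉ S` -/
noncomputable def outside (S : Finset ℕ) (m : ℤ) : ℝ :=
  ∑ p ∈ m.natAbs.primeFactors \ S, (padicValInt p m : ℝ) * Real.log p

lemma log_natAbs (n : ℤ) (hn : n ≠ 0) :
    Real.log |(n : ℝ)| = ∑ p ∈ n.natAbs.primeFactors, (padicValInt p n : ℝ) * Real.log p := by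
  have h1 : |(n : ℝ)| = ((n.natAbs : ℕ) : ℝ) := by rw [Nat.cast_natAbs, Int.cast_abs]
  rw [h1]
  have h2 : n.natAbs ≠ 0 := Int.natAbs_ne_zero.2 hn
  have h3 := Nat.prod_factorization_pow_eq_self h2
  have h4 : ((n.natAbs : ℕ) : ℝ) = ∏ p ∈ n.natAbs.primeFactors, (p : ℝ) ^ (n.natAbs.factorization p) := by
    conv_lhs => rw [← h3]
    rw [Finsupp.prod, Nat.support_factorization]
    push_cast
    rfl
  rw [h4, Real.log_prod fun p hp => by
    have := (Nat.prime_of_mem_primeFactors hp).pos
    positivity]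
  refine Finset.sum_congr rfl fun p hp => ?_
  rw [Real.log_pow]
  congr 2
  have := Nat.prime_of_mem_primeFactors hp
  exact Nat.factorization_def _ this

lemma outside_eq (S : Finset ℕ) (hS : ∀ p ∈ S, p.Prime) (n : ℤ) (h : n ≠ 0) :
    Real.log |(n : ℝ)| = outside S n + ∑ p ∈ S, (padicValInt p n : ℝ) * Real.log p := by
  classical
  unfold outside
  have h0 : ∑ p ∈ n.natAbs.primeFactors, (padicValInt p n : ℝ) * Real.log p =
      ∑ p ∈ n.natAbs.primeFactors \ S, (padicValInt p n : ℝ) * Real.log p +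
        ∑ p ∈ n.natAbs.primeFactors ∩ S, (padicValInt p n : ℝ) * Real.log p := by
    rw [← Finset.sum_union (Finset.disjoint_sdiff_inter _ _), Finset.sdiff_union_inter]
  rw [log_natAbs n h, h0]
  congr 1
  refine Finset.sum_subset Finset.inter_subset_right fun p hp1 hp2 => ?_
  have h1 : ¬ p ∣ n.natAbs := by
    intro h2
    exact hp2 (mem_inter.2 ⟨Nat.mem_primeFactors.2 ⟨hS p hp1, h2, Int.natAbs_ne_zero.2 h⟩, hp1⟩)
  have h2 : padicValInt p n = 0 := by
    unfold padicValInt
    exact padicValNat.eq_zero_of_not_dvd h1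
  rw [h2, Nat.cast_zero, zero_mul]

/-- the coordinates have no common divisor -/
def Primitive {n : ℕ} (z : Fin n → ℤ) : Prop := ∀ c : ℤ, (∀ j, c ∣ z j) → IsUnit c

/-- the sum of `log p` over the primes dividing one of the coordinates -/
noncomputable def radical {n : ℕ} (z : Fin n → ℤ) : ℝ :=
  ∑ p ∈ (∏ i, z i).natAbs.primeFactors, Real.log p

/-- the forms -/
def forms (d : ℕ) : Fin (d + 1) → Fin d → ℤ :=
  Fin.lastCases (fun _ => -1) (fun j => Pi.single j 1)

lemma forms_last (d : ℕ) (x : Fin d → ℤ) : ∑ j, forms d (Fin.last d) j * x j = -∑ j, x j := by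
  unfold forms
  simp

lemma forms_castSucc (d : ℕ) (i : Fin d) (x : Fin d → ℤ) :
    ∑ j, forms d i.castSucc j * x j = x i := by
  unfold forms
  simp [Pi.single_apply]

lemma forms_gen (d : ℕ) (hd : 1 ≤ d) (σ : Fin d → Fin (d + 1)) (hσ : Function.Injective σ) :
    (Pool.Agent.V1189.RT.Vojta.pick (forms d) σ).det ≠ 0 := by
  intro h
  obtain ⟨v, hv0, hv⟩ := Matrix.exists_mulVec_eq_zero_iff.2 h
  have h1 : ∀ i, ∑ j, forms d (σ i) j * v j = 0 := fun i => congrFun hv i
  -- the forms vanish at all indices except at most one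
  obtain ⟨k, hk⟩ : ∃ k : Fin (d + 1), ∀ j, j ≠ k → ∃ i, σ i = j := by
    by_contra hcon
    push Not at hcon
    obtain ⟨k1, -, hk1⟩ := hcon 0
    obtain ⟨k2, hk21, hk2⟩ := hcon k1
    have h2 : (univ.image σ) ⊆ univ \ {k1, k2} := by
      intro j hj
      rw [mem_image] at hj
      obtain ⟨i, -, rfl⟩ := hj
      simp only [mem_sdiff, mem_univ, true_and, mem_insert, mem_singleton, not_or]
      exact ⟨hk1 i, hk2 i⟩
    have h3 := Finset.card_le_card h2
    rw [Finset.card_image_of_injective _ hσ, Finset.card_univ, Fintype.card_fin,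
      Finset.card_sdiff_of_subset (Finset.subset_univ _), Finset.card_univ, Fintype.card_fin,
      Finset.card_pair (Ne.symm hk21)] at h3
    omega
  have h2 : ∀ j, j ≠ k → ∑ i, forms d j i * v i = 0 := by
    intro j hj
    obtain ⟨i, rfl⟩ := hk j hj
    exact h1 i
  apply hv0
  rcases Fin.eq_castSucc_or_eq_last k with ⟨k', rfl⟩ | rfl
  · have h3 : ∀ j, j ≠ k' → v j = 0 := by
      intro j hj
      have h4 := h2 j.castSucc (fun h => hj (Fin.castSucc_injective _ h))
      rwa [forms_castSucc] at h4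
    have h4 := h2 (Fin.last d) (Fin.castSucc_lt_last k').ne'
    rw [forms_last, neg_eq_zero, Finset.sum_eq_single k' (fun j _ hj => h3 j hj)
      (fun h => absurd (mem_univ _) h)] at h4
    funext j
    by_cases hj : j = k'
    · rw [hj]; exact h4
    · exact h3 j hj
  · funext j
    have h4 := h2 j.castSucc (Fin.castSucc_lt_last j).ne
    rwa [forms_castSucc] at h4

/-- the inequality for the parts outside `S` -/
theorem nterm (d b r : ℕ) (hd : 1 ≤ d) (S : Finset ℕ) (hS : ∀ p ∈ S, p.Prime) (hb : 2 ≤ b)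
    (hbS : ∀ p ∈ S, ¬ p ∣ b) (a : Fin (d + 1) → ℤ) (hr : 1 ≤ r) (ε : ℝ) (hε : 0 < ε) :
    ∃ (E : Finset (Fin (d + 1) → ℤ)) (C : ℝ), (∀ s ∈ E, ∃ i j, s i ≠ s j) ∧
      ∀ z : Fin (d + 1) → ℤ, Primitive z → ∑ i, z i = 0 → (∀ i, z i ≠ 0) →
      (∀ s ∈ E, ∑ i, s i * z i ≠ 0) → ∀ (W : Fin r → ℕ) (l : ℕ),
      IsWindows b (∑ i, a i * z i).natAbs r W l →
      (1 - ε) * Real.log (height z) +
        ((r : ℝ) * l - (r + d) * jointOrder b (∑ i, a i * z i).natAbs r W l) * Real.log b ≤
      ∑ i, outside S (z i) + C := by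
  classical
  obtain ⟨E, C, hC0, hE, hmain⟩ := Pool.Agent.V1189.RT.Vojta.vojtaDigits d b r (d + 1) hd
    (by omega) (forms d) (forms_gen d hd) S hS hb hbS (fun j => a j.castSucc - a (Fin.last d)) hr
    (ε / 2) (by linarith)
  refine ⟨E.image fun s => Fin.snoc s 0, C + (d + 2) * Real.log (d + 1), ?_, ?_⟩
  · intro s hs
    rw [mem_image] at hs
    obtain ⟨s', hs', rfl⟩ := hs
    obtain ⟨j, hj⟩ := Function.ne_iff.1 (hE s' hs')
    refine ⟨j.castSucc, Fin.last d, ?_⟩
    simpa using hj
  intro z hz hsum hz0 hzE W l hW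
  obtain ⟨x, hx⟩ : ∃ x : Fin d → ℤ, x = fun j => z j.castSucc := ⟨_, rfl⟩
  have hlast : z (Fin.last d) = -∑ j, x j := by
    rw [Fin.sum_univ_castSucc] at hsum
    rw [hx]
    linarith
  have hform : ∀ i, ∑ j, forms d i j * x j = z i := by
    intro i
    rcases Fin.eq_castSucc_or_eq_last i with ⟨k, rfl⟩ | rfl
    · rw [forms_castSucc, hx]
    · rw [forms_last, hlast]
  have hax : ∑ j, (a j.castSucc - a (Fin.last d)) * x j = ∑ i, a i * z i := by
    rw [Fin.sum_univ_castSucc, hlast]
    simp_rw [sub_mul]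
    rw [Finset.sum_sub_distrib, ← Finset.mul_sum, hx]
    ring
  have h1 := hmain x (fun s hs => by
    have h2 := hzE (Fin.snoc s 0) (mem_image_of_mem _ hs)
    rw [Fin.sum_univ_castSucc] at h2
    simp only [Fin.snoc_castSucc, Fin.snoc_last, zero_mul, add_zero] at h2
    rw [hx]
    exact h2) (fun p hp => by
      by_contra h
      push Not at h
      have h2 : ∀ j, (p : ℤ) ∣ z j := by
        intro j
        rcases Fin.eq_castSucc_or_eq_last j with ⟨k, rfl⟩ | rfl
        · have := h k
          rw [hx] at this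
          exact this
        · rw [hlast, dvd_neg]
          exact Finset.dvd_sum fun k _ => h k
      have h3 := hz p h2
      have h4 := (hS p hp).two_le
      rw [Int.isUnit_iff_natAbs_eq, Int.natAbs_natCast] at h3
      omega) (fun i => by rw [hform]; exact hz0 i) W l (by rw [hax]; exact hW)
  rw [hax] at h1
  simp only [hform] at h1
  rw [Finset.sum_comm] at h1
  have h2 : ∑ i, Real.log |((z i : ℤ) : ℝ)| = ∑ i, outside S (z i) +
      ∑ i, ∑ p ∈ S, (padicValInt p (z i) : ℝ) * Real.log p := by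
    rw [← Finset.sum_add_distrib]
    exact Finset.sum_congr rfl fun i _ => outside_eq S hS (z i) (hz0 i)
  rw [h2] at h1
  -- the heights
  have hH : (height z : ℝ) ≤ (d + 1) * height x := by
    obtain ⟨i, -, hi⟩ := Finset.exists_mem_eq_sup univ ⟨Fin.last d, mem_univ _⟩
      (fun j => (z j).natAbs)
    have hxj : ∀ j, (x j).natAbs ≤ height x := fun j =>
      Finset.le_sup (f := fun j => (x j).natAbs) (mem_univ j)
    have h3 : height z ≤ (d + 1) * height x := by
      have h4 : height z = (z i).natAbs := hi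
      rw [h4]
      rcases Fin.eq_castSucc_or_eq_last i with ⟨k, rfl⟩ | rfl
      · have h5 := hxj k
        rw [hx] at h5
        change (z k.castSucc).natAbs ≤ _ at h5
        rw [hx]
        nlinarith
      · rw [hlast, Int.natAbs_neg]
        have h5 : (∑ j, x j).natAbs ≤ ∑ j, (x j).natAbs := by
          have : ∀ T : Finset (Fin d), (∑ j ∈ T, x j).natAbs ≤ ∑ j ∈ T, (x j).natAbs := by
            intro T
            induction T using Finset.induction_on with
            | empty => simp
            | insert a T ha ih =>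
              rw [Finset.sum_insert ha, Finset.sum_insert ha]
              exact (Int.natAbs_add_le _ _).trans (by omega)
          exact this univ
        have h6 : ∑ j, (x j).natAbs ≤ ∑ _j : Fin d, height x := Finset.sum_le_sum fun j _ => hxj j
        rw [Finset.sum_const, Finset.card_univ, Fintype.card_fin, smul_eq_mul] at h6
        nlinarith
    exact_mod_cast h3
  have hzp : 1 ≤ height z := by
    have h3 : (z (Fin.last d)).natAbs ≤ height z :=
      Finset.le_sup (f := fun j => (z j).natAbs) (mem_univ _)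
    have h4 := Int.natAbs_pos.2 (hz0 (Fin.last d))
    omega
  have hxp : 1 ≤ height x := by
    by_contra h
    have h3 : height x = 0 := by omega
    rw [h3, Nat.cast_zero, mul_zero] at hH
    have : (1 : ℝ) ≤ height z := by exact_mod_cast hzp
    linarith
  have hzR : (1 : ℝ) ≤ height z := by exact_mod_cast hzp
  have hxR : (1 : ℝ) ≤ height x := by exact_mod_cast hxp
  have hd0 : (0 : ℝ) ≤ d := Nat.cast_nonneg _
  have hlogd : 0 ≤ Real.log (d + 1) := Real.log_nonneg (by linarith)
  have h3 : Real.log (height z) ≤ Real.log (d + 1) + Real.log (height x) := by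
    rw [← Real.log_mul (by linarith) (by linarith)]
    exact Real.log_le_log (by linarith) hH
  have h4 : Real.log (height x) ≤ Real.log (height z) := by
    refine Real.log_le_log (by linarith) ?_
    have : height x ≤ height z := by
      refine Finset.sup_le fun j _ => ?_
      rw [hx]
      exact Finset.le_sup (f := fun j => (z j).natAbs) (mem_univ j.castSucc)
    exact_mod_cast this
  have h5 : 0 ≤ Real.log (height x) := Real.log_nonneg hxR
  push_cast at h1
  have h6 : (1 - ε) * Real.log (height z) ≤ (1 - ε / 2) * Real.log (height x) +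
      (d + 2) * Real.log (d + 1) := by
    rcases le_total ε 1 with hε1 | hε1
    · have h7 : (1 - ε) * Real.log (height z) ≤
          (1 - ε) * (Real.log (d + 1) + Real.log (height x)) :=
        mul_le_mul_of_nonneg_left h3 (by linarith)
      nlinarith
    · have h7 : (1 - ε) * Real.log (height z) ≤ (1 - ε) * Real.log (height x) := by
        nlinarith
      nlinarith
  have h8 : ((d : ℝ) + 1 - d - ε / 2) * Real.log (height x) =
      (1 - ε / 2) * Real.log (height x) := by ring
  rw [h8] at h1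
  linarith

lemma card_dvd {d : ℕ} (hd : 1 ≤ d) (z : Fin (d + 1) → ℤ) (hz : Primitive z) (hsum : ∑ i, z i = 0)
    (p : ℕ) (hp : p.Prime) : (univ.filter fun i => (p : ℤ) ∣ z i).card ≤ d - 1 := by
  classical
  by_contra h
  push Not at h
  have h1 : ∀ i, (p : ℤ) ∣ z i := by
    have h2 : (univ.filter fun i => ¬ (p : ℤ) ∣ z i).card ≤ 1 := by
      have h3 := Finset.card_filter_add_card_filter_not (s := (univ : Finset (Fin (d + 1))))
        (fun i => (p : ℤ) ∣ z i)
      rw [Finset.card_univ, Fintype.card_fin] at h3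
      omega
    by_contra h3
    push Not at h3
    obtain ⟨i0, hi0⟩ := h3
    apply hi0
    have h4 : ∀ i, i ≠ i0 → (p : ℤ) ∣ z i := by
      intro i hi
      by_contra h5
      exact hi (Finset.card_le_one.1 h2 i (by simp [h5]) i0 (by simp [hi0]))
    have h5 : z i0 = -∑ i ∈ univ.erase i0, z i := by
      rw [← Finset.add_sum_erase univ z (mem_univ i0)] at hsum
      linarith
    rw [h5, dvd_neg]
    exact Finset.dvd_sum fun i hi => h4 i (Finset.ne_of_mem_erase hi)
  have h2 := hz p h1
  have h3 := hp.two_le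
  rw [Int.isUnit_iff_natAbs_eq, Int.natAbs_natCast] at h2
  omega

lemma outside_le' {n : ℕ} (S : Finset ℕ) (k t : ℕ) (z : Fin n → ℤ) (hz0 : ∀ i, z i ≠ 0)
    (hk : ∀ p, p.Prime → p ∉ S → ∀ i, ¬ (p : ℤ) ^ (k + 1) ∣ z i)
    (ht : ∀ p, p.Prime → p ∉ S → (univ.filter fun i => (p : ℤ) ∣ z i).card ≤ t) :
    ∑ i, outside S (z i) ≤ k * t * radical z := by
  classical
  obtain ⟨T, hT⟩ : ∃ T, T = (∏ i, z i).natAbs.primeFactors := ⟨_, rfl⟩
  have hTp : ∀ p ∈ T, p.Prime := fun p hp => by
    rw [hT] at hp; exact Nat.prime_of_mem_primeFactors hp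
  have h1 : ∀ i, outside S (z i) ≤
      ∑ p ∈ T \ S, if (p : ℤ) ∣ z i then (k : ℝ) * Real.log p else 0 := by
    intro i
    unfold outside
    have h2 : ∑ p ∈ (z i).natAbs.primeFactors \ S, (padicValInt p (z i) : ℝ) * Real.log p ≤
        ∑ p ∈ (z i).natAbs.primeFactors \ S,
          if (p : ℤ) ∣ z i then (k : ℝ) * Real.log p else 0 := by
      refine Finset.sum_le_sum fun p hp => ?_
      rw [mem_sdiff] at hp
      have hpp := Nat.prime_of_mem_primeFactors hp.1
      haveI : Fact p.Prime := ⟨hpp⟩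
      have hpd : (p : ℤ) ∣ z i := Int.natCast_dvd.2 (Nat.dvd_of_mem_primeFactors hp.1)
      rw [if_pos hpd]
      refine mul_le_mul_of_nonneg_right ?_ (Real.log_natCast_nonneg _)
      by_contra h3
      push Not at h3
      have h4 : k + 1 ≤ padicValInt p (z i) := by exact_mod_cast h3
      exact hk p hpp hp.2 i ((pow_dvd_pow _ h4).trans (padicValInt_dvd _))
    refine h2.trans (Finset.sum_le_sum_of_subset_of_nonneg ?_ ?_)
    · intro p hp
      rw [mem_sdiff] at hp ⊢
      refine ⟨?_, hp.2⟩
      rw [hT]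
      refine Nat.mem_primeFactors.2 ⟨Nat.prime_of_mem_primeFactors hp.1, ?_, ?_⟩
      · exact Int.natCast_dvd.1 ((Int.natCast_dvd.2 (Nat.dvd_of_mem_primeFactors hp.1)).trans
          (Finset.dvd_prod_of_mem z (mem_univ i)))
      · exact Int.natAbs_ne_zero.2 (Finset.prod_ne_zero_iff.2 fun i _ => hz0 i)
    · intro p _ _
      split_ifs
      · exact mul_nonneg (Nat.cast_nonneg _) (Real.log_natCast_nonneg _)
      · exact le_rfl
  refine (Finset.sum_le_sum fun i _ => h1 i).trans ?_
  rw [Finset.sum_comm]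
  unfold radical
  rw [← hT, Finset.mul_sum]
  have h6 : ∑ p ∈ T \ S, (k : ℝ) * t * Real.log p ≤ ∑ p ∈ T, (k : ℝ) * t * Real.log p :=
    Finset.sum_le_sum_of_subset_of_nonneg Finset.sdiff_subset fun p _ _ =>
      mul_nonneg (by positivity) (Real.log_natCast_nonneg _)
  refine le_trans (Finset.sum_le_sum fun p hp => ?_) h6
  rw [mem_sdiff] at hp
  rw [← Finset.sum_filter, Finset.sum_const, nsmul_eq_mul]
  have h3 : ((univ.filter fun i => (p : ℤ) ∣ z i).card : ℝ) ≤ t := by
    exact_mod_cast ht p (hTp p hp.1) hp.2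
  have h4 : 0 ≤ (k : ℝ) * Real.log p := mul_nonneg (Nat.cast_nonneg _) (Real.log_natCast_nonneg _)
  have h5 := mul_le_mul_of_nonneg_right h3 h4
  linarith

end Pool.Agent.V1189.RT.NTerm
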