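import Pool.Agent.V1189.RT.Pow

/-!
# Joint linear complexity of disjoint windows of digits of `u g ^ n`

Author: helper89.
-/

set_option autoImplicit false

namespace Pool.Agent.V1189.RT

open Finset Filter Topology
open Pool.Agent.W47.JL
open Pool.Agent.Results.MP_a49cf6_nt.DigitRecurrences (Recurrence)

theorem powWindows (r g b : ℕ) (hr : 1 ≤ r) (hg : 2 ≤ g) (hb : 2 ≤ b) (hco : g.Coprime b)
    (ε : ℝ) (hε : 0 < ε) :
    ∃ C : ℝ, 0 ≤ C ∧ ∀ (n u : ℕ), 1 ≤ u → ∀ (W : Fin r → ℕ) (l m : ℕ) (c : ℕ → ℚ),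
      (∀ j, l ≤ W j) → (∀ j, b ^ W j ≤ b * (u * g ^ n)) →
      (∀ i j, i ≠ j → W i + l ≤ W j ∨ W j + l ≤ W i) →
      (∀ j, Recurrence (fun i => (dH b (u * g ^ n) (W j - i) : ℤ)) c l m) →
      (r : ℝ) * l ≤ (r + 1) * (m + 15 * err m) + ε * n + C * (1 + Real.log u) := by
  have hbR : (2 : ℝ) ≤ b := by exact_mod_cast hb
  have hgR : (2 : ℝ) ≤ g := by exact_mod_cast hg
  have hrR : (1 : ℝ) ≤ r := by exact_mod_cast hr
  obtain ⟨L, hL⟩ : ∃ L : ℝ, L = Real.log b := ⟨_, rfl⟩
  obtain ⟨G, hG⟩ : ∃ G : ℝ, G = Real.log g := ⟨_, rfl⟩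
  have hL0 : 0 < L := by rw [hL]; exact Real.log_pos (by linarith)
  have hG0 : 0 < G := by rw [hG]; exact Real.log_pos (by linarith)
  obtain ⟨C0, hC0⟩ : ∃ C0 : ℝ, C0 = r + r / L + 1 + 4 * (r + 1) + (1 + r * Real.log (2 * b)) / L :=
    ⟨_, rfl⟩
  have hlog2b : 0 < Real.log (2 * b) := Real.log_pos (by linarith)
  have hC0a : (r : ℝ) + r / L + 1 ≤ C0 := by
    have : 0 ≤ (1 + r * Real.log (2 * b)) / L := by positivity
    rw [hC0]; linarith
  have hC0b : 4 * ((r : ℝ) + 1) ≤ C0 := by
    have h1 : 0 ≤ (1 + r * Real.log (2 * b)) / L := by positivity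
    have h2 : 0 ≤ (r : ℝ) / L := by positivity
    rw [hC0]; linarith
  have hC0c : 1 + r * Real.log (2 * b) ≤ C0 * L := by
    have h1 : (1 + r * Real.log (2 * b)) / L * L = 1 + r * Real.log (2 * b) := by field_simp
    have h2 : 0 ≤ (r : ℝ) / L := by positivity
    have h3 : (1 + r * Real.log (2 * b)) / L ≤ C0 := by rw [hC0]; linarith
    rw [← h1]
    exact mul_le_mul_of_nonneg_right h3 hL0.le
  have hC00 : 0 < C0 := by linarith
  by_contra hcon
  push Not at hcon
  have h0 : ∀ t : ℕ, ∃ (n u : ℕ) (W : Fin r → ℕ) (l m : ℕ) (c : ℕ → ℚ), 1 ≤ u ∧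
      (∀ j, l ≤ W j) ∧ (∀ j, b ^ W j ≤ b * (u * g ^ n)) ∧
      (∀ i j, i ≠ j → W i + l ≤ W j ∨ W j + l ≤ W i) ∧
      (∀ j, Recurrence (fun i => (dH b (u * g ^ n) (W j - i) : ℤ)) c l m) ∧
      (r + 1) * (m + 15 * err m) + ε * n + (t + C0) * (1 + Real.log u) < (r : ℝ) * l := by
    intro t
    obtain ⟨n, u, hu, W, l, m, c, h1, h2, h3, h4, h5⟩ := hcon (t + C0) (by positivity)
    exact ⟨n, u, W, l, m, c, hu, h1, h2, h3, h4, h5⟩
  choose n u W l m c hu hlW hWx hdis hrec hbad using h0
  -- notation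
  obtain ⟨M, hM⟩ : ∃ M : ℕ → ℝ, ∀ t, M t = m t + 15 * err (m t) := ⟨_, fun t => rfl⟩
  have hM0 : ∀ t, 0 ≤ M t := fun t => by
    rw [hM]
    have := err_ge (m t)
    have h2 : (0 : ℝ) ≤ m t := Nat.cast_nonneg _
    linarith
  have huR : ∀ t, (1 : ℝ) ≤ u t := fun t => by exact_mod_cast hu t
  have hlu : ∀ t, 0 ≤ Real.log (u t) := fun t => Real.log_nonneg (huR t)
  have hbad' : ∀ t, (r + 1) * M t + ε * n t + (t + C0) * (1 + Real.log (u t)) < (r : ℝ) * l t := by
    intro t
    rw [hM]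
    exact hbad t
  have hWL : ∀ t j, W t j * L ≤ L + Real.log (u t) + n t * G := by
    intro t j
    have h1 : ((b : ℝ)) ^ (W t j) ≤ b * (u t * (g : ℝ) ^ n t) := by exact_mod_cast hWx t j
    have h2 := Real.log_le_log (by positivity) h1
    have h3 := huR t
    rw [Real.log_pow, Real.log_mul (by positivity) (by positivity),
      Real.log_mul (by positivity) (by positivity), Real.log_pow, ← hL, ← hG] at h2
    linarith
  have hlWR : ∀ t j, (l t : ℝ) ≤ W t j := fun t j => by exact_mod_cast hlW t j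
  have hlL : ∀ t, l t * L ≤ L + Real.log (u t) + n t * G := fun t =>
    (mul_le_mul_of_nonneg_right (hlWR t ⟨0, hr⟩) hL0.le).trans (hWL t ⟨0, hr⟩)
  obtain ⟨c1, hc1⟩ : ∃ c1 : ℝ, c1 = r * G / L := ⟨_, rfl⟩
  have hc10 : 0 < c1 := by rw [hc1]; positivity
  have hkey : ∀ t : ℕ, (t : ℝ) + (1 + Real.log (u t)) ≤ c1 * n t := by
    intro t
    have h1 := hbad' t
    have h2 : (r : ℝ) * l t ≤ r + r / L * Real.log (u t) + c1 * n t := by
      have h3 : (l t : ℝ) ≤ 1 + Real.log (u t) / L + n t * G / L := by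
        have h4 : (l t : ℝ) = l t * L / L := by field_simp
        have h5 : 1 + Real.log (u t) / L + n t * G / L = (L + Real.log (u t) + n t * G) / L := by
          field_simp
        rw [h4, h5]
        exact div_le_div_of_nonneg_right (hlL t) hL0.le
      have h4 := mul_le_mul_of_nonneg_left h3 (by linarith : (0 : ℝ) ≤ r)
      refine h4.trans (le_of_eq ?_)
      rw [hc1]
      ring
    have h3 := hlu t
    have h4 : 0 ≤ (r + 1) * M t := mul_nonneg (by linarith) (hM0 t)
    have h5 : (0 : ℝ) ≤ ε * n t := by positivity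
    have h6 : (0 : ℝ) ≤ t := Nat.cast_nonneg t
    have h7 : (r + r / L + 1) * (1 + Real.log (u t)) ≤ C0 * (1 + Real.log (u t)) :=
      mul_le_mul_of_nonneg_right hC0a (by linarith)
    have h8 : (0 : ℝ) ≤ r / L := by positivity
    have h9 : 0 ≤ (t : ℝ) * Real.log (u t) := mul_nonneg h6 h3
    have h10 : 0 ≤ (r : ℝ) * Real.log (u t) := mul_nonneg (by linarith) h3
    nlinarith
  have hn1 : ∀ t, (0 : ℝ) < n t := by
    intro t
    have h1 := hkey t
    have h2 := hlu t
    have h3 : (0 : ℝ) ≤ t := Nat.cast_nonneg t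
    have h4 : 0 < c1 * n t := by linarith
    exact pos_of_mul_pos_right h4 hc10.le
  have hn1' : ∀ t, (1 : ℝ) ≤ n t := by
    intro t
    have h1 : 0 < n t := by exact_mod_cast hn1 t
    exact_mod_cast h1
  have hNlim : Tendsto (fun t => (n t : ℝ)) atTop atTop := by
    have h1 : Tendsto (fun t : ℕ => (t : ℝ) / c1) atTop atTop :=
      tendsto_natCast_atTop_atTop.atTop_div_const hc10
    refine tendsto_atTop_mono (fun t => ?_) h1
    rw [div_le_iff₀ hc10]
    have h2 := hkey t
    have h3 := hlu t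
    linarith
  have hgap : ∀ t, (ε * n t + (t + C0) * (1 + Real.log (u t))) ≤ (r + 1) * (l t - M t) := by
    intro t
    have h1 := hbad' t
    have h2 : (0 : ℝ) ≤ l t := Nat.cast_nonneg _
    linarith
  -- the relation
  have hrel : ∀ t, ∃ (T : ℕ) (P : Fin r → ℤ), 1 ≤ T ∧ Real.log T ≤ M t * L ∧
      ∀ j, |(T : ℝ) * (u t * (g : ℝ) ^ n t) - (b : ℝ) ^ W t j * P j| ≤
        2 * b * Real.exp (M t * L + W t j * L - l t * L) := by
    intro t
    rcases winRel r b (u t * g ^ n t) hb (W t) (l t) (m t) (c t) (hlW t) (hrec t) with h | h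
    · exfalso
      have h1 := hgap t
      rw [hM] at h1
      have h2 := hlu t
      have h3 : (0 : ℝ) ≤ t := Nat.cast_nonneg t
      have h4 : (0 : ℝ) ≤ ε * n t := by positivity
      have h5 : C0 ≤ (t + C0) * (1 + Real.log (u t)) := by nlinarith
      have h6 : ((r : ℝ) + 1) * (l t - (m t + 15 * err (m t))) ≤ (r + 1) * 3 :=
        mul_le_mul_of_nonneg_left (by linarith) (by linarith)
      linarith
    · obtain ⟨T, P, h1, h2, h3⟩ := h
      rw [← hM, ← hL] at h2
      refine ⟨T, P, h1, h2, fun j => ?_⟩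
      have h4 := h3 j
      rw [← hM, ← hL] at h4
      push_cast at h4
      exact h4
  choose T P hT1 hTlog hsmall using hrel
  have hTR : ∀ t, (1 : ℝ) ≤ T t := fun t => by exact_mod_cast hT1 t
  have hlT : ∀ t, 0 ≤ Real.log (T t) := fun t => Real.log_nonneg (hTR t)
  -- bounds for all logarithms
  obtain ⟨c2, hc2⟩ : ∃ c2 : ℝ, c2 = 4 * (L + c1 + G) + Real.log (2 * b) + 1 := ⟨_, rfl⟩
  have hLn : ∀ t, L ≤ L * n t := fun t => le_mul_of_one_le_right hL0.le (hn1' t)
  have hlun : ∀ t, Real.log (u t) ≤ c1 * n t := fun t => by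
    have h1 := hkey t
    have h3 : (0 : ℝ) ≤ t := Nat.cast_nonneg t
    linarith
  have hWn : ∀ t j, W t j * L ≤ (L + c1 + G) * n t := fun t j => by
    have h1 := hWL t j
    have h2 := hLn t
    have h3 := hlun t
    nlinarith
  have hln : ∀ t, l t * L ≤ (L + c1 + G) * n t := fun t =>
    (mul_le_mul_of_nonneg_right (hlWR t ⟨0, hr⟩) hL0.le).trans (hWn t ⟨0, hr⟩)
  have hMl : ∀ t, M t ≤ l t := fun t => by
    have h1 := hgap t
    have h2 := hlu t
    have h3 : (0 : ℝ) ≤ t := Nat.cast_nonneg t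
    have h4 : (0 : ℝ) ≤ ε * n t := by positivity
    have h5 : 0 ≤ (t + C0) * (1 + Real.log (u t)) := by positivity
    have h6 : 0 ≤ ((r : ℝ) + 1) * (l t - M t) := by linarith
    have h7 : 0 ≤ (l t : ℝ) - M t := nonneg_of_mul_nonneg_right h6 (by linarith)
    linarith
  have hMn : ∀ t, M t * L ≤ (L + c1 + G) * n t := fun t =>
    (mul_le_mul_of_nonneg_right (hMl t) hL0.le).trans (hln t)
  have hl0 : ∀ t, (0 : ℝ) ≤ l t * L := fun t => by positivity
  have hML0 : ∀ t, 0 ≤ M t * L := fun t => mul_nonneg (hM0 t) hL0.le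
  have hWL0 : ∀ t j, 0 ≤ W t j * L := fun t j => by positivity
  have hGn : ∀ t, (0 : ℝ) ≤ G * n t := fun t => by positivity
  have hc1n : ∀ t, (0 : ℝ) ≤ c1 * n t := fun t => by positivity
  have hLn0 : ∀ t, (0 : ℝ) ≤ L * n t := fun t => by positivity
  have hlogn : ∀ t, Real.log (2 * b) ≤ Real.log (2 * b) * n t := fun t =>
    le_mul_of_one_le_right hlog2b.le (hn1' t)
  -- the subspace theorem
  obtain ⟨v, y, hvy, hfreq⟩ := gstepE r 1 2 (by omega) (fun _ _ => 1)
    (fun _ _ => isAlgebraic_one) ![g, b] (fun v => by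
      fin_cases v
      · change 1 ≤ g; omega
      · change 1 ≤ b; omega) c2 (ε * L) (by
      rw [hc2]
      nlinarith) (by positivity) (fun t => (n t : ℝ)) hNlim (fun t v _ => ![n t, 0] v)
    (fun t _ => g ^ n t)
    (fun t _ => by simp) (fun t v j => ![0, W t j] v) (fun t j => b ^ W t j)
    (fun t j => by simp) (fun t _ => (T t * u t : ℕ)) (fun t => P t)
    (fun t => Or.inl fun h => by
      have h1 : ((T t * u t : ℕ) : ℤ) = 0 := congrFun h 0
      have h2 : 0 < T t * u t := Nat.mul_pos (hT1 t) (hu t)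
      have h3 : T t * u t = 0 := by exact_mod_cast h1
      omega)
    (fun t _ => (g : ℝ) ^ n t * (T t * u t))
    (fun t j => 2 * b * Real.exp (M t * L + W t j * L - l t * L)) (fun t _ => by
      have := hTR t
      have := huR t
      positivity) (fun t _ => by positivity) (fun t _ => by
      have h1 := hTR t
      have h2 := huR t
      rw [Real.log_mul (by positivity) (by positivity), Real.log_mul (by positivity) (by positivity),
        Real.log_pow, ← hG, abs_of_nonneg (by
          have := hlT t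
          have := hlu t
          have := hGn t
          linarith)]
      have h3 := hTlog t
      have h4 := hMn t
      have h5 := hlun t
      have h6 := hGn t
      have h7 := hc1n t
      have h8 := hLn0 t
      have h9 := hlogn t
      rw [hc2]
      nlinarith [hn1' t]) (fun t j => by
      rw [Real.log_mul (by positivity) (Real.exp_ne_zero _), Real.log_exp]
      have h3 := hMn t
      have h4 := hWn t j
      have h5 := hln t
      have h6 := hl0 t
      have h7 := hML0 t
      have h8 := hWL0 t j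
      have h9 := hlogn t
      have h10 := hn1' t
      have h11 := hGn t
      have h12 := hc1n t
      have h13 := hLn0 t
      rw [abs_le, hc2]
      constructor <;> nlinarith) (fun t _ => by
      push_cast
      rw [Real.log_pow, ← hG]
      have h6 := hGn t
      have h7 := hc1n t
      have h8 := hLn0 t
      have h9 := hlogn t
      have h10 := hn1' t
      rw [hc2]
      nlinarith) (fun t j => by
      push_cast
      rw [Real.log_pow, ← hL]
      have h4 := hWn t j
      have h6 := hGn t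
      have h7 := hc1n t
      have h8 := hLn0 t
      have h9 := hlogn t
      have h10 := hn1' t
      rw [hc2]
      nlinarith) (fun t _ => by
      push_cast
      rw [abs_of_nonneg (by positivity)]) (fun t j => by
      have h4 := hsmall t j
      rw [Fin.sum_univ_one]
      push_cast
      rw [show (1 : ℝ) * ((g : ℝ) ^ n t * ((T t : ℝ) * (u t : ℝ))) =
        (T t : ℝ) * (u t * (g : ℝ) ^ n t) by ring]
      exact h4) (fun t => by
      have h1 := hTR t
      have h2 := huR t
      have h3 : ∀ j : Fin r, Real.log (2 * b * Real.exp (M t * L + W t j * L - l t * L)) =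
          (Real.log (2 * b) + (M t * L - l t * L)) + W t j * L := by
        intro j
        rw [Real.log_mul (by positivity) (Real.exp_ne_zero _), Real.log_exp]
        ring
      rw [Fin.sum_univ_one, Fin.sum_univ_one, Finset.sum_congr rfl fun j _ => h3 j,
        Finset.sum_add_distrib, Finset.sum_const, Finset.card_univ, Fintype.card_fin, nsmul_eq_mul]
      have h4 : ∀ j : Fin r, Real.log ((b ^ W t j : ℕ) : ℝ) = W t j * L := by
        intro j
        push_cast
        rw [Real.log_pow, hL]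
      rw [Finset.sum_congr rfl fun j _ => h4 j]
      push_cast
      rw [Real.log_mul (by positivity) (by positivity), Real.log_mul (by positivity) (by positivity),
        Real.log_pow, ← hG]
      have h5 := hTlog t
      have h6 := mul_le_mul_of_nonneg_right (hbad' t).le hL0.le
      have h7 := hlu t
      have h8 : (0 : ℝ) ≤ t * (1 + Real.log (u t)) * L := by positivity
      have h9 : (1 + r * Real.log (2 * b)) * (1 + Real.log (u t)) ≤ C0 * L * (1 + Real.log (u t)) :=
        mul_le_mul_of_nonneg_right hC0c (by linarith)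
      have h10 : 0 ≤ r * Real.log (2 * b) * Real.log (u t) := by positivity
      linarith)
  simp only [Fin.sum_univ_one, Fin.isValue] at hfreq
  -- the sum of the coefficients
  obtain ⟨K, hK⟩ : ∃ K : ℝ, K = ∑ j, |(v j : ℝ)| + 1 := ⟨_, rfl⟩
  have hK1 : 1 ≤ K := by
    rw [hK]
    have : 0 ≤ ∑ j, |(v j : ℝ)| := Finset.sum_nonneg fun j _ => abs_nonneg _
    linarith
  obtain ⟨sv, hsv⟩ : ∃ sv : ℤ, sv = ∑ j, v j := ⟨_, rfl⟩
  obtain ⟨K2, hK2⟩ : ∃ K2 : ℝ, K2 = Real.log (2 * b * K) + Real.log b + Real.log (|(sv : ℝ)| + 1) +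
    ε * L + 1 := ⟨_, rfl⟩
  obtain ⟨δ', hδ'⟩ : ∃ δ' : ℝ, δ' = ε * L / (r + 1) := ⟨_, rfl⟩
  have hδ'0 : 0 < δ' := by rw [hδ']; positivity
  have hev : ∀ᶠ t : ℕ in atTop, (r + 1) / L * (K2 + 1) ≤ (t : ℝ) :=
    tendsto_natCast_atTop_atTop.eventually (eventually_ge_atTop _)
  have hlog2bK : 0 ≤ Real.log (2 * b * K) := Real.log_nonneg (by nlinarith)
  have hlogsv : 0 ≤ Real.log (|(sv : ℝ)| + 1) := Real.log_nonneg (by
    have := abs_nonneg (sv : ℝ)
    linarith)
  have hK20 : 1 ≤ K2 := by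
    rw [hK2, ← hL]
    have : 0 < ε * L := by positivity
    linarith
  -- the gap for large `t`
  have hgapL : ∀ t : ℕ, (r + 1) / L * (K2 + 1) ≤ (t : ℝ) →
      δ' * n t + (K2 + 1) * (1 + Real.log (u t)) ≤ (l t - M t) * L := by
    intro t ht
    have h1 := hgap t
    have h2 := hlu t
    have h3 : (r + 1) / L * (K2 + 1) * (1 + Real.log (u t)) ≤ t * (1 + Real.log (u t)) :=
      mul_le_mul_of_nonneg_right ht (by linarith)
    have h4 : 0 ≤ C0 * (1 + Real.log (u t)) := by positivity
    have h5 : ε * n t + (r + 1) / L * (K2 + 1) * (1 + Real.log (u t)) ≤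
        (r + 1) * (l t - M t) := by linarith
    have h6 := mul_le_mul_of_nonneg_right h5 (by positivity : (0 : ℝ) ≤ L / (r + 1))
    have h7 : (ε * n t + (r + 1) / L * (K2 + 1) * (1 + Real.log (u t))) * (L / (r + 1)) =
        δ' * n t + (K2 + 1) * (1 + Real.log (u t)) := by
      rw [hδ']; field_simp
    have h8 : (r + 1) * (l t - M t) * (L / (r + 1)) = (l t - M t) * L := by
      field_simp
    rw [h7, h8] at h6
    exact h6
  have hxW : ∀ t j, W t j * L ≤ L + (Real.log (u t) + n t * G) := fun t j => by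
    have := hWL t j
    linarith
  have hlogx : ∀ t, Real.log ((u t : ℝ) * (g : ℝ) ^ n t) = Real.log (u t) + n t * G := by
    intro t
    have := huR t
    rw [Real.log_mul (by positivity) (by positivity), Real.log_pow, ← hG]
  have hxp : ∀ t, (0 : ℝ) < (u t : ℝ) * (g : ℝ) ^ n t := fun t => by
    have := huR t
    positivity
  -- identity
  have hid : ∀ t, ∑ j, (v j : ℝ) * (((b ^ W t j : ℕ) : ℝ) * P t j) + (y 0 : ℝ) *
      (((g ^ n t : ℕ) : ℝ) * (((T t * u t : ℕ) : ℤ) : ℝ)) = 0 →
      ((sv + y 0 : ℤ) : ℝ) * ((T t : ℝ) * (u t * (g : ℝ) ^ n t)) =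
      ∑ j, (v j : ℝ) * ((T t : ℝ) * (u t * (g : ℝ) ^ n t) - (b : ℝ) ^ W t j * P t j) := by
    intro t h
    have h1 : ∑ j, (v j : ℝ) * ((T t : ℝ) * (u t * (g : ℝ) ^ n t) - (b : ℝ) ^ W t j * P t j) =
        (sv : ℝ) * ((T t : ℝ) * (u t * (g : ℝ) ^ n t)) -
        ∑ j, (v j : ℝ) * (((b ^ W t j : ℕ) : ℝ) * P t j) := by
      rw [hsv]
      push_cast
      rw [Finset.sum_mul, ← Finset.sum_sub_distrib]
      exact Finset.sum_congr rfl fun j _ => by ring
    rw [h1]
    push_cast at h ⊢
    linarith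
  -- bound for sums of the small quantities
  have hsum : ∀ t (J : Finset (Fin r)) (w : ℝ), (∀ j ∈ J, W t j * L ≤ w) →
      |∑ j ∈ J, (v j : ℝ) * ((T t : ℝ) * (u t * (g : ℝ) ^ n t) - (b : ℝ) ^ W t j * P t j)| ≤
      K * (2 * b * Real.exp (M t * L + w - l t * L)) := by
    intro t J w hw
    refine (Finset.abs_sum_le_sum_abs _ _).trans ?_
    have h1 : ∀ j ∈ J, |(v j : ℝ) * ((T t : ℝ) * (u t * (g : ℝ) ^ n t) - (b : ℝ) ^ W t j * P t j)| ≤
        |(v j : ℝ)| * (2 * b * Real.exp (M t * L + w - l t * L)) := by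
      intro j hj
      rw [abs_mul]
      refine mul_le_mul_of_nonneg_left ((hsmall t j).trans ?_) (abs_nonneg _)
      refine mul_le_mul_of_nonneg_left (Real.exp_le_exp.2 ?_) (by positivity)
      have := hw j hj
      linarith
    refine (Finset.sum_le_sum h1).trans ?_
    rw [← Finset.sum_mul]
    refine mul_le_mul_of_nonneg_right ?_ (by positivity)
    rw [hK]
    have h2 : ∑ j ∈ J, |(v j : ℝ)| ≤ ∑ j, |(v j : ℝ)| :=
      Finset.sum_le_sum_of_subset_of_nonneg (Finset.subset_univ J) fun j _ _ => abs_nonneg _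
    linarith
  have hlogY : ∀ t (w : ℝ), Real.log (K * (2 * b * Real.exp (M t * L + w - l t * L))) =
      Real.log (2 * b * K) + (M t * L + w - l t * L) := by
    intro t w
    rw [show K * (2 * b * Real.exp (M t * L + w - l t * L)) =
      2 * b * K * Real.exp (M t * L + w - l t * L) by ring,
      Real.log_mul (by positivity) (Real.exp_ne_zero _), Real.log_exp]
  -- the sum of all coefficients vanishes
  have hY : sv + y 0 = 0 := by
    by_contra hne
    obtain ⟨t, hrelt, hlarge⟩ := (hfreq.and_eventually hev).exists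
    have h1 := hid t hrelt
    have h2 := hsum t univ (L + (Real.log (u t) + n t * G)) fun j _ => hxW t j
    rw [← h1, abs_mul, abs_of_nonneg (by
      have := hxp t
      positivity : (0 : ℝ) ≤ (T t : ℝ) * (u t * (g : ℝ) ^ n t))] at h2
    have h3 : (1 : ℝ) ≤ |((sv + y 0 : ℤ) : ℝ)| := by
      rw [← Int.cast_abs]
      exact_mod_cast Int.one_le_abs hne
    have h4 : (u t : ℝ) * (g : ℝ) ^ n t ≤
        K * (2 * b * Real.exp (M t * L + (L + (Real.log (u t) + n t * G)) - l t * L)) := by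
      have h5 := hTR t
      have h6 := hxp t
      have h7 : (u t : ℝ) * (g : ℝ) ^ n t ≤ (T t : ℝ) * (u t * (g : ℝ) ^ n t) := by nlinarith
      have h8 : (T t : ℝ) * (u t * (g : ℝ) ^ n t) ≤
          |((sv + y 0 : ℤ) : ℝ)| * ((T t : ℝ) * (u t * (g : ℝ) ^ n t)) := by nlinarith
      linarith
    have h5 := Real.log_le_log (hxp t) h4
    rw [hlogY, hlogx] at h5
    have h6 := hgapL t hlarge
    have h7 : K2 + 1 ≤ (K2 + 1) * (1 + Real.log (u t)) := by
      have := hlu t
      nlinarith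
    have h8 : 0 ≤ δ' * n t := by positivity
    have h9 : Real.log (2 * b * K) + L ≤ K2 := by
      rw [hK2, ← hL]
      have : 0 < ε * L := by positivity
      linarith
    linarith
  have hbl : ∀ k : ℕ, (b : ℝ) ^ k = Real.exp (k * L) := by
    intro k
    rw [hL, ← Real.log_pow, Real.exp_log (by positivity)]
  -- divisibility
  have hnd : ∀ t : ℕ, (r + 1) / L * (K2 + 1) ≤ (t : ℝ) → ∀ a : ℤ, a ≠ 0 → |(a : ℝ)| ≤ |(sv : ℝ)| + 1 →
      ¬ ((b : ℤ) ^ l t ∣ a * (T t * (u t * g ^ n t) : ℕ)) := by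
    intro t ht a ha hasv hdvd
    have hcop : IsCoprime ((b : ℤ) ^ l t) ((g : ℤ) ^ n t) :=
      (Nat.Coprime.isCoprime (Nat.Coprime.pow_right _ (Nat.Coprime.pow_left _ hco.symm)) :
        IsCoprime ((b ^ l t : ℕ) : ℤ) ((g ^ n t : ℕ) : ℤ)) |> fun h => by push_cast at h; exact h
    have h1 : (b : ℤ) ^ l t ∣ (a * (T t * u t : ℕ)) * (g : ℤ) ^ n t := by
      have h2 : a * ((T t * (u t * g ^ n t) : ℕ) : ℤ) = (a * (T t * u t : ℕ)) * (g : ℤ) ^ n t := by
        push_cast; ring
      rw [← h2]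
      exact hdvd
    have h2 := hcop.dvd_of_dvd_mul_right h1
    have hTu : ((T t * u t : ℕ) : ℤ) ≠ 0 := by
      have : 0 < T t * u t := Nat.mul_pos (hT1 t) (hu t)
      exact_mod_cast this.ne'
    have h3 := Int.le_of_dvd (abs_pos.2 (mul_ne_zero ha hTu)) ((dvd_abs _ _).2 h2)
    have h4 : (b : ℝ) ^ l t ≤ (|(sv : ℝ)| + 1) * (T t * u t) := by
      have h5 : (b : ℝ) ^ l t ≤ |(a : ℝ)| * (T t * u t) := by
        have h6 : (((b : ℤ) ^ l t : ℤ) : ℝ) ≤ ((|a * (T t * u t : ℕ)| : ℤ) : ℝ) := by exact_mod_cast h3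
        rw [Int.cast_abs] at h6
        push_cast at h6
        rw [abs_mul, abs_of_nonneg (by positivity : (0 : ℝ) ≤ (T t : ℝ) * u t)] at h6
        exact h6
      exact h5.trans (mul_le_mul_of_nonneg_right hasv (by positivity))
    have h5 := hTR t
    have h6 := huR t
    have h7 := Real.log_le_log (by positivity) h4
    have h8 : (0 : ℝ) < |(sv : ℝ)| + 1 := by
      have := abs_nonneg (sv : ℝ)
      linarith
    rw [Real.log_pow, ← hL, Real.log_mul h8.ne' (by positivity),
      Real.log_mul (by positivity) (by positivity)] at h7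
    have h9 := hgapL t ht
    have h10 := hTlog t
    have h11 : 0 ≤ δ' * n t := by positivity
    have h12 : Real.log (|(sv : ℝ)| + 1) ≤ K2 := by
      rw [hK2, ← hL]
      have : 0 < ε * L := by positivity
      linarith
    have h13 := hlu t
    have h14 : K2 + Real.log (u t) + 1 ≤ (K2 + 1) * (1 + Real.log (u t)) := by nlinarith
    linarith
  have hsv0 : sv = 0 := by
    by_contra hne
    obtain ⟨t, hrelt, hlarge⟩ := (hfreq.and_eventually hev).exists
    have hy0 : y 0 = -sv := by linarith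
    apply hnd t hlarge sv hne (by linarith)
    have h1 : (sv * ((T t * (u t * g ^ n t) : ℕ) : ℤ)) = ∑ j, v j * ((b : ℤ) ^ W t j * P t j) := by
      have h2 : ((sv * ((T t * (u t * g ^ n t) : ℕ) : ℤ) : ℤ) : ℝ) =
          ((∑ j, v j * ((b : ℤ) ^ W t j * P t j) : ℤ) : ℝ) := by
        rw [hy0] at hrelt
        push_cast at hrelt ⊢
        linarith
      exact_mod_cast h2
    rw [h1]
    refine Finset.dvd_sum fun j _ => ?_
    exact Dvd.dvd.mul_left (Dvd.dvd.mul_right (pow_dvd_pow _ (hlW t j)) _) _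
  have hy0 : y 0 = 0 := by linarith
  have hv0 : v ≠ 0 := by
    rcases hvy with h | h
    · exact h
    · exact absurd (funext fun i => by rw [Fin.fin_one_eq_zero i]; exact hy0) h
  obtain ⟨j1, hj1⟩ : ∃ j, v j ≠ 0 := by
    by_contra h
    push Not at h
    exact hv0 (funext h)
  -- the highest window
  have htop : ∀ t : ℕ, (∑ j, (v j : ℝ) * (((b ^ W t j : ℕ) : ℝ) * P t j) + (y 0 : ℝ) *
      (((g ^ n t : ℕ) : ℝ) * (((T t * u t : ℕ) : ℤ) : ℝ)) = 0) →
      (r + 1) / L * (K2 + 1) ≤ (t : ℝ) →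
      ∃ j0 : Fin r, |(T t : ℝ) * (u t * (g : ℝ) ^ n t) - (b : ℝ) ^ W t j0 * P t j0| ≤
        K * (2 * b * Real.exp (M t * L + (W t j0 * L - l t * L) - l t * L)) := by
    intro t hrelt ht
    obtain ⟨j0, hj0, hmax⟩ := Finset.exists_max_image (univ.filter fun j => v j ≠ 0) (W t)
      ⟨j1, by simp [hj1]⟩
    rw [mem_filter] at hj0
    refine ⟨j0, ?_⟩
    have h1 := hid t hrelt
    rw [hY] at h1
    rw [← Finset.add_sum_erase _ _ (mem_univ j0)] at h1
    have h2 : (v j0 : ℝ) * ((T t : ℝ) * (u t * (g : ℝ) ^ n t) - (b : ℝ) ^ W t j0 * P t j0) =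
        -∑ j ∈ (univ.erase j0).filter (fun j => v j ≠ 0), (v j : ℝ) *
          ((T t : ℝ) * (u t * (g : ℝ) ^ n t) - (b : ℝ) ^ W t j * P t j) := by
      have h3 : ∑ j ∈ (univ.erase j0).filter (fun j => v j ≠ 0), (v j : ℝ) *
          ((T t : ℝ) * (u t * (g : ℝ) ^ n t) - (b : ℝ) ^ W t j * P t j) =
          ∑ j ∈ univ.erase j0, (v j : ℝ) *
          ((T t : ℝ) * (u t * (g : ℝ) ^ n t) - (b : ℝ) ^ W t j * P t j) := by
        refine Finset.sum_filter_of_ne fun j _ hj hv => hj ?_
        rw [hv]; simp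
      rw [h3]
      push_cast at h1
      linarith
    have h3 : (1 : ℝ) ≤ |(v j0 : ℝ)| := by
      rw [← Int.cast_abs]
      exact_mod_cast Int.one_le_abs hj0.2
    have h4 := hsum t ((univ.erase j0).filter fun j => v j ≠ 0) (W t j0 * L - l t * L) (by
      intro j hj
      rw [mem_filter, mem_erase] at hj
      have h5 := hmax j (by rw [mem_filter]; exact ⟨mem_univ j, hj.2⟩)
      have hlpos : 0 < l t := by
        have h6 := hgapL t ht
        have h7 := hlu t
        have h8 : 0 < (K2 + 1) * (1 + Real.log (u t)) := by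
          have : 0 < K2 + 1 := by linarith
          positivity
        have h9 : 0 ≤ δ' * n t := by positivity
        have h10 := hML0 t
        have h11 : 0 < (l t : ℝ) * L := by linarith
        have h12 : (0 : ℝ) < l t := pos_of_mul_pos_left h11 hL0.le
        exact_mod_cast h12
      have h6 : W t j + l t ≤ W t j0 := by
        rcases hdis t j j0 hj.1.1 with h | h
        · exact h
        · omega
      have h7 : (W t j : ℝ) + l t ≤ W t j0 := by exact_mod_cast h6
      have h8 := mul_le_mul_of_nonneg_right h7 hL0.le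
      linarith)
    have h5 := congrArg abs h2
    rw [abs_mul, abs_neg] at h5
    have h6 : |(T t : ℝ) * (u t * (g : ℝ) ^ n t) - (b : ℝ) ^ W t j0 * P t j0| ≤
        |(v j0 : ℝ)| * |(T t : ℝ) * (u t * (g : ℝ) ^ n t) - (b : ℝ) ^ W t j0 * P t j0| :=
      le_mul_of_one_le_left (abs_nonneg _) h3
    linarith
  obtain ⟨φ, hφ, hφP⟩ := extraction_of_frequently_atTop (hfreq.and_eventually hev)
  choose j0 hj0 using fun k => htop (φ k) (hφP k).1 (hφP k).2
  have hMlL : ∀ t, M t * L ≤ l t * L := fun t => mul_le_mul_of_nonneg_right (hMl t) hL0.le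
  refine ridout1 g b (by omega) (by omega) (c2 * (2 + Real.log (2 * b * K))) (min δ' 1)
    ?_ (lt_min hδ'0 one_pos) (fun k => (n (φ k) : ℝ)) (hNlim.comp hφ.tendsto_atTop)
    (fun k => n (φ k)) (fun k => ((T (φ k) * u (φ k) : ℕ) : ℤ)) ?_ (fun k => W (φ k) (j0 k))
    (fun k => P (φ k) (j0 k))
    (fun k => K * (2 * b * Real.exp (M (φ k) * L + (W (φ k) (j0 k) * L - l (φ k) * L) -
      l (φ k) * L))) ?_ ?_ ?_ ?_ ?_ ?_ ?_ ?_ ?_
  · have h1 : 1 ≤ c2 := by rw [hc2]; linarith
    nlinarith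
  · intro k
    have : 0 < T (φ k) * u (φ k) := Nat.mul_pos (hT1 _) (hu _)
    exact_mod_cast this.ne'
  · intro k; positivity
  · intro k
    have h1 := hTR (φ k)
    have h2 := huR (φ k)
    push_cast
    rw [abs_of_nonneg (by positivity), Real.log_mul (by positivity) (by positivity)]
    have h3 := hTlog (φ k)
    have h4 := hMn (φ k)
    have h5 := hlun (φ k)
    have h6 := hGn (φ k)
    have h7 := hc1n (φ k)
    have h8 := hLn0 (φ k)
    have h9 := hlogn (φ k)
    have h10 : c2 * n (φ k) ≤ c2 * (2 + Real.log (2 * b * K)) * n (φ k) := by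
      have : 0 ≤ c2 * n (φ k) := by rw [hc2]; positivity
      nlinarith
    refine le_trans ?_ h10
    rw [hc2]
    nlinarith [hn1' (φ k)]
  · intro k
    rw [← hG]
    have h6 := hGn (φ k)
    have h7 := hc1n (φ k)
    have h8 := hLn0 (φ k)
    have h9 := hlogn (φ k)
    have h10 : c2 * n (φ k) ≤ c2 * (2 + Real.log (2 * b * K)) * n (φ k) := by
      have : 0 ≤ c2 * n (φ k) := by rw [hc2]; positivity
      nlinarith
    refine le_trans ?_ h10
    rw [hc2]
    nlinarith [hn1' (φ k)]
  · intro k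
    rw [← hL]
    have h4 := hWn (φ k) (j0 k)
    have h6 := hGn (φ k)
    have h7 := hc1n (φ k)
    have h8 := hLn0 (φ k)
    have h9 := hlogn (φ k)
    have h10 : c2 * n (φ k) ≤ c2 * (2 + Real.log (2 * b * K)) * n (φ k) := by
      have : 0 ≤ c2 * n (φ k) := by rw [hc2]; positivity
      nlinarith
    refine le_trans ?_ h10
    rw [hc2]
    nlinarith [hn1' (φ k)]
  · intro k
    rw [hlogY]
    have h3 := hMn (φ k)
    have h4 := hWn (φ k) (j0 k)
    have h5 := hln (φ k)
    have h6 := hl0 (φ k)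
    have h7 := hML0 (φ k)
    have h8 := hWL0 (φ k) (j0 k)
    have h9 := hlogn (φ k)
    have h10 := hn1' (φ k)
    have h11 := hGn (φ k)
    have h12 := hc1n (φ k)
    have h13 := hLn0 (φ k)
    have h14 : Real.log (2 * b * K) ≤ Real.log (2 * b * K) * (c2 * n (φ k)) := by
      refine le_mul_of_one_le_right hlog2bK ?_
      have : 1 ≤ c2 := by rw [hc2]; linarith
      nlinarith
    have h15 : c2 * (2 + Real.log (2 * b * K)) * n (φ k) =
      2 * (c2 * n (φ k)) + Real.log (2 * b * K) * (c2 * n (φ k)) := by ring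
    rw [h15, abs_le]
    have h16 : 2 * ((L + c1 + G) * n (φ k)) ≤ 2 * (c2 * n (φ k)) - 2 * ((L + c1 + G) * n (φ k)) := by
      rw [hc2]
      nlinarith
    constructor <;> nlinarith
  · intro k
    have h1 := hj0 k
    push_cast
    rw [show (g : ℝ) ^ n (φ k) * ((T (φ k) : ℝ) * (u (φ k) : ℝ)) =
      (T (φ k) : ℝ) * (u (φ k) * (g : ℝ) ^ n (φ k)) by ring]
    exact h1
  · intro k
    have h1 := hTR (φ k)
    have h2 := huR (φ k)
    rw [hlogY]
    push_cast
    rw [abs_of_nonneg (by positivity), Real.log_mul (by positivity) (by positivity), ← hL]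
    have h3 := hTlog (φ k)
    have h4 := hgapL (φ k) (hφP k).2
    have h5 := hlu (φ k)
    have h6 : min δ' 1 * (n (φ k) : ℝ) ≤ δ' * n (φ k) :=
      mul_le_mul_of_nonneg_right (min_le_left _ _) (by positivity)
    have h7 : 0 ≤ δ' * (n (φ k) : ℝ) := by positivity
    have h8 : Real.log (2 * b * K) ≤ K2 := by
      rw [hK2, ← hL]
      have : 0 < ε * L := by positivity
      linarith
    have h9 : K2 + Real.log (u (φ k)) + 1 ≤ (K2 + 1) * (1 + Real.log (u (φ k))) := by nlinarith
    linarith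
  · intro k
    have h1 := hTR (φ k)
    have h2 := huR (φ k)
    rw [hlogY]
    push_cast
    rw [abs_of_nonneg (by positivity), Real.log_mul (x := (T (φ k) : ℝ)) (y := (u (φ k) : ℝ))
      (by positivity) (by positivity), ← hG]
    have h3 := hlT (φ k)
    have h4 := hgapL (φ k) (hφP k).2
    have h5 := hlu (φ k)
    have h6 : min δ' 1 * (n (φ k) : ℝ) ≤ δ' * n (φ k) :=
      mul_le_mul_of_nonneg_right (min_le_left _ _) (by positivity)
    have h7 := hxW (φ k) (j0 k)
    have h8 : Real.log (2 * b * K) + L ≤ K2 := by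
      rw [hK2, ← hL]
      have : 0 < ε * L := by positivity
      linarith
    have h9 : K2 + Real.log (u (φ k)) + 1 ≤ (K2 + 1) * (1 + Real.log (u (φ k))) := by nlinarith
    have h10 := hl0 (φ k)
    linarith
  · intro k hdvd
    apply hnd (φ k) (hφP k).2 1 one_ne_zero (by
      have := abs_nonneg (sv : ℝ)
      simp only [Int.cast_one, abs_one]
      linarith)
    refine (pow_dvd_pow (b : ℤ) (hlW (φ k) (j0 k))).trans (hdvd.trans (dvd_of_eq ?_))
    push_cast
    ring

end Pool.Agent.V1189.RT
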