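import Pool.Agent.V1189.RT.FormsD
import Pool.Agent.V1189.RT.Joint

/-!
# Windows of digits of the multipliers in the p-adic Littlewood conjecture

Author: helper89.
-/

set_option autoImplicit false

namespace Pool.Agent.V1189.RT.Joint

open Finset
open Pool.Agent.W47.JL
open Pool.Agent.Results.MP_a49cf6_nt.DigitRecurrences (Recurrence)

/-- from the inequality for recurrences to the inequality for the joint order -/
lemma jointOf (b y r : ℕ) (hr : 1 ≤ r) (W : Fin r → ℕ) (l : ℕ) (hW : IsWindows b y r W l)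
    (e κ K A L : ℝ) (hL : 0 ≤ L) (he : 0 ≤ e) (hκ : 0 ≤ κ)
    (hK : ∀ m : ℕ, Pool.Agent.Results.MP_a49cf6_nt.DigitRecurrences.F 17 m ≤ (1 + κ) * m + K)
    (hmain : ∀ (l' m' : ℕ) (c : ℕ → ℚ), l' ≤ l →
      (∀ k, Recurrence (fun i => (dH b y (W k - i) : ℤ)) c l' m') →
      (r : ℝ) * l' * L ≤ (e + r) * ((m' + 15 * err m') * L) + A) :
    (r : ℝ) * l * L ≤ (e + r) * (jointOrder b y r W l * L) + (e + r) * κ * (l * L) +
      (e + r) * K * L + A := by
  obtain ⟨m, hm⟩ : ∃ m : ℕ, m = jointOrder b y r W l := ⟨_, rfl⟩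
  obtain ⟨m', c, hm'm, hrec⟩ := to_recurrence b y r W l
  rw [← hm] at hm'm hrec ⊢
  have hml : m ≤ l := by rw [hm]; exact jointOrder_le _ _ _ _ _
  have h1 := hmain (l - (m - m')) m' c (by omega) hrec
  have h2 := hK m'
  have h3 : (m' : ℝ) + 15 * err m' ≤
      Pool.Agent.Results.MP_a49cf6_nt.DigitRecurrences.F 17 m' := by
    have h4 := err_ge m'
    have h5 : Pool.Agent.Results.MP_a49cf6_nt.DigitRecurrences.F 17 m' =
      m' + 17 * err m' := rfl
    rw [h5]; linarith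
  have hm'mR : (m' : ℝ) ≤ m := by exact_mod_cast hm'm
  have hmlR : (m : ℝ) ≤ l := by exact_mod_cast hml
  have hm'0 : (0 : ℝ) ≤ m' := Nat.cast_nonneg _
  have hr0 : (0 : ℝ) ≤ r := Nat.cast_nonneg _
  have hcast : ((l - (m - m') : ℕ) : ℝ) = l - m + m' := by
    rw [Nat.cast_sub (by omega), Nat.cast_sub (by omega)]
    ring
  rw [hcast] at h1
  have h4 : (e + r) * ((m' + 15 * err m') * L) ≤ (e + r) * ((m' + κ * l + K) * L) := by
    refine mul_le_mul_of_nonneg_left (mul_le_mul_of_nonneg_right ?_ hL) (by linarith)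
    have h5 : κ * (m' : ℝ) ≤ κ * l := mul_le_mul_of_nonneg_left (hm'mR.trans hmlR) hκ
    linarith
  have h7 : e * (m' * L) ≤ e * (m * L) :=
    mul_le_mul_of_nonneg_left (mul_le_mul_of_nonneg_right hm'mR hL) he
  nlinarith

/-- the distance to the nearest integer -/
noncomputable def dist (x : ℝ) : ℝ := |x - round x|

/-- the matrix of the forms `x_0` and `α_i x_0 - x_(i+1)` -/
noncomputable def mat {n : ℕ} (α : Fin n → ℝ) : Matrix (Fin (n + 1)) (Fin (n + 1)) ℝ :=
  Matrix.of fun i j => Fin.cases (Fin.cases 1 (fun _ => 0) j)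
    (fun i' => Fin.cases (α i') (fun j' => if i' = j' then -1 else 0) j) i

lemma mat_zero {n : ℕ} (α : Fin n → ℝ) (w : Fin (n + 1) → ℝ) : ∑ j, mat α 0 j * w j = w 0 := by
  rw [Fin.sum_univ_succ]
  simp [mat]

lemma mat_succ {n : ℕ} (α : Fin n → ℝ) (w : Fin (n + 1) → ℝ) (i : Fin n) :
    ∑ j, mat α i.succ j * w j = α i * w 0 - w i.succ := by
  rw [Fin.sum_univ_succ]
  simp [mat]
  ring

lemma mat_det {n : ℕ} (α : Fin n → ℝ) : (mat α).det ≠ 0 := by
  intro h
  obtain ⟨w, hw0, hw⟩ := Matrix.exists_mulVec_eq_zero_iff.2 h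
  apply hw0
  have h0 : w 0 = 0 := by
    have h1 : ∑ j, mat α 0 j * w j = 0 := congrFun hw 0
    rwa [mat_zero] at h1
  funext i
  refine Fin.cases h0 (fun i' => ?_) i
  have h1 : ∑ j, mat α i'.succ j * w j = 0 := congrFun hw i'.succ
  rw [mat_succ, h0] at h1
  change w i'.succ = 0
  linarith

lemma mat_alg {n : ℕ} (α : Fin n → ℝ) (halg : ∀ i, IsAlgebraic ℚ (α i)) (i j : Fin (n + 1)) :
    IsAlgebraic ℚ (mat α i j) := by
  refine Fin.cases ?_ (fun i' => ?_) i
  · refine Fin.cases ?_ (fun j' => ?_) j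
    · simp only [mat, Matrix.of_apply, Fin.cases_zero]; exact isAlgebraic_one
    · simp only [mat, Matrix.of_apply, Fin.cases_zero, Fin.cases_succ]; exact isAlgebraic_zero
  · refine Fin.cases ?_ (fun j' => ?_) j
    · simp only [mat, Matrix.of_apply, Fin.cases_zero, Fin.cases_succ]; exact halg i'
    · simp only [mat, Matrix.of_apply, Fin.cases_succ]
      by_cases h : i' = j'
      · rw [if_pos h]; exact isAlgebraic_one.neg
      · rw [if_neg h]; exact isAlgebraic_zero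

/-- the point belonging to `q` -/
noncomputable def pt {n : ℕ} (α : Fin n → ℝ) (q : ℕ) : Fin (n + 1) → ℤ :=
  Fin.cons (q : ℤ) fun i => round ((q : ℝ) * α i)

lemma pt_zero {n : ℕ} (α : Fin n → ℝ) (q : ℕ) : pt α q 0 = q := rfl
lemma pt_succ {n : ℕ} (α : Fin n → ℝ) (q : ℕ) (i : Fin n) :
    pt α q i.succ = round ((q : ℝ) * α i) := rfl

lemma dist_le_one (x : ℝ) : dist x ≤ 1 := by
  have h1 := abs_sub_round x
  unfold dist
  linarith

/-- a finite set of hyperplanes contains only finitely many of the points -/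
lemma pt_hyperplanes {n : ℕ} (α : Fin n → ℝ)
    (hli : LinearIndependent ℚ (Fin.cons 1 α : Fin (n + 1) → ℝ)) (S : Finset (Fin (n + 1) → ℤ))
    (hS : ∀ s ∈ S, s ≠ 0) : ∃ Q : ℝ, 1 ≤ Q ∧ ∀ q : ℕ, Q < q → ∀ s ∈ S, ∑ j, s j * pt α q j ≠ 0 := by
  obtain ⟨lam, hlam⟩ : ∃ lam : (Fin (n + 1) → ℤ) → ℝ, ∀ s, lam s =
    s 0 + ∑ i, (s (Fin.succ i) : ℝ) * α i := ⟨fun s => s 0 + ∑ i, (s (Fin.succ i) : ℝ) * α i, fun _ => rfl⟩
  have hlam0 : ∀ s ∈ S, lam s ≠ 0 := by
    intro s hs h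
    apply hS s hs
    have hliZ : LinearIndependent ℤ (Fin.cons 1 α : Fin (n + 1) → ℝ) :=
      (LinearIndependent.iff_fractionRing ℤ ℚ).mpr hli
    have h1 := Fintype.linearIndependent_iff.1 hliZ s (by
      rw [Fin.sum_univ_succ]
      simp only [Fin.cons_zero, Fin.cons_succ, zsmul_eq_mul, mul_one]
      rw [hlam] at h
      exact h)
    funext i
    exact h1 i
  obtain ⟨Q, hQ⟩ : ∃ Q : ℝ, Q = 1 + ∑ s ∈ S, (∑ i, |(s i : ℝ)|) / |lam s| := ⟨_, rfl⟩
  have hQs : ∀ s ∈ S, (∑ i, |(s i : ℝ)|) / |lam s| < Q := by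
    intro s hs
    have h1 : (∑ i, |(s i : ℝ)|) / |lam s| ≤ ∑ s ∈ S, (∑ i, |(s i : ℝ)|) / |lam s| :=
      Finset.single_le_sum (f := fun s => (∑ i, |(s i : ℝ)|) / |lam s|) (fun s _ => by positivity) hs
    rw [hQ]; linarith
  refine ⟨Q, ?_, fun q hqQ s hs h => ?_⟩
  · have : 0 ≤ ∑ s ∈ S, (∑ i, |(s i : ℝ)|) / |lam s| := Finset.sum_nonneg fun s _ => by positivity
    rw [hQ]; linarith
  have h1 : ((∑ j, s j * pt α q j : ℤ) : ℝ) = 0 := by rw [h]; simp
  rw [Fin.sum_univ_succ] at h1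
  push_cast at h1
  simp only [pt_zero, pt_succ] at h1
  have h2 : lam s * q = ∑ i : Fin n, (s i.succ : ℝ) * (q * α i - round ((q : ℝ) * α i)) := by
    rw [hlam]
    simp_rw [mul_sub]
    rw [Finset.sum_sub_distrib, add_mul, Finset.sum_mul]
    have h3 : ∑ i : Fin n, (s i.succ : ℝ) * (q * α i) = ∑ i : Fin n, (s i.succ : ℝ) * α i * q :=
      Finset.sum_congr rfl fun i _ => by ring
    rw [h3]
    push_cast at h1
    linarith
  have h3 : |lam s| * q ≤ ∑ i, |(s i : ℝ)| := by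
    have h4 := congrArg abs h2
    rw [abs_mul, Nat.abs_cast] at h4
    rw [h4]
    refine (Finset.abs_sum_le_sum_abs _ _).trans ?_
    rw [Fin.sum_univ_succ]
    have h5 : ∑ i : Fin n, |(s i.succ : ℝ) * (q * α i - round ((q : ℝ) * α i))| ≤
        ∑ i : Fin n, |(s i.succ : ℝ)| := by
      refine Finset.sum_le_sum fun i _ => ?_
      rw [abs_mul]
      exact mul_le_of_le_one_right (abs_nonneg _) (dist_le_one _)
    have := abs_nonneg (s 0 : ℝ)
    linarith
  have h4 : (q : ℝ) ≤ (∑ i, |(s i : ℝ)|) / |lam s| := by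
    rw [le_div_iff₀ (abs_pos.2 (hlam0 s hs))]
    linarith
  have h5 := hQs s hs
  linarith

lemma pt_le {n : ℕ} (α : Fin n → ℝ) (q : ℕ) (hq : 1 ≤ q) (j : Fin (n + 1)) :
    ((pt α q j).natAbs : ℝ) ≤ (2 + ∑ i, |α i|) * q := by
  have hqR : (1 : ℝ) ≤ q := by exact_mod_cast hq
  have h0 : 0 ≤ ∑ i, |α i| := Finset.sum_nonneg fun i _ => abs_nonneg _
  refine Fin.cases ?_ (fun i => ?_) j
  · rw [pt_zero, Int.natAbs_natCast]
    nlinarith
  · rw [pt_succ, Nat.cast_natAbs, Int.cast_abs]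
    have h6 := dist_le_one ((q : ℝ) * α i)
    unfold dist at h6
    have h7 : |((round ((q : ℝ) * α i) : ℤ) : ℝ)| ≤ |(q : ℝ) * α i| + 1 := by
      have h8 : ((round ((q : ℝ) * α i) : ℤ) : ℝ) = q * α i - (q * α i - round ((q : ℝ) * α i)) := by
        ring
      rw [h8]
      exact (abs_sub _ _).trans (by linarith)
    have h8 : |α i| ≤ ∑ i, |α i| :=
      Finset.single_le_sum (f := fun i => |α i|) (fun i _ => abs_nonneg _) (mem_univ i)
    rw [abs_mul, Nat.abs_cast] at h7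
    nlinarith

lemma pt_prod {n : ℕ} (α : Fin n → ℝ) (q : ℕ) :
    ∏ i, |∑ j, mat α i j * (pt α q j : ℝ)| = q * ∏ i, dist (q * α i) := by
  rw [Fin.prod_univ_succ]
  have h3 : |∑ j, mat α 0 j * (pt α q j : ℝ)| = q := by
    rw [mat_zero α fun j => (pt α q j : ℝ), pt_zero, Int.cast_natCast, Nat.abs_cast]
  have h4 : ∀ i : Fin n, |∑ j, mat α i.succ j * (pt α q j : ℝ)| = dist (q * α i) := by
    intro i
    rw [mat_succ α fun j => (pt α q j : ℝ), pt_zero, pt_succ, dist, Int.cast_natCast, mul_comm (α i)]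
  rw [h3, Finset.prod_congr rfl fun i _ => h4 i]

lemma pt_single {n : ℕ} (α : Fin n → ℝ) (q : ℕ) :
    ∑ j, (Pi.single 0 1 : Fin (n + 1) → ℤ) j * pt α q j = q := by
  rw [Finset.sum_eq_single 0]
  · rw [Pi.single_eq_same, one_mul, pt_zero]
  · intro j _ hj
    rw [Pi.single_eq_of_ne hj, zero_mul]
  · intro h; exact absurd (mem_univ _) h

/-- the digits of the part of `q` prime to `p` -/
theorem padicDigits (n p R : ℕ) (hp : p.Prime) (α : Fin n → ℝ)
    (halg : ∀ i, IsAlgebraic ℚ (α i)) (hli : LinearIndependent ℚ (Fin.cons 1 α : Fin (n + 1) → ℝ))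
    (ε : ℝ) (hε : 0 < ε) : ∃ C : ℝ, 0 ≤ C ∧ ∀ v q' : ℕ, 1 ≤ q' → p.Coprime q' →
      ∀ (W : Fin R → ℕ) (l m : ℕ) (c : ℕ → ℚ), (∀ k, l ≤ W k) → (∀ k, p ^ W k ≤ p * q') →
      (∀ k k', k ≠ k' → W k + l ≤ W k' ∨ W k' + l ≤ W k) →
      (∀ k, Recurrence (fun i => (dH p q' (W k - i) : ℤ)) c l m) →
      (R : ℝ) * l * Real.log p ≤ ((n + 1 : ℝ) + R) * ((m + 15 * err m) * Real.log p) +
        Real.log (max 1 (q' * ∏ i, dist ((p ^ v * q' : ℕ) * α i))) +
        ε * Real.log (p ^ v * q' : ℕ) + C := by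
  have hp2 : 2 ≤ p := hp.two_le
  have hbR : (2 : ℝ) ≤ p := by exact_mod_cast hp2
  obtain ⟨A, hA⟩ : ∃ A : ℝ, A = 2 + ∑ i, |α i| := ⟨_, rfl⟩
  have hA2 : 2 ≤ A := by
    have : 0 ≤ ∑ i, |α i| := Finset.sum_nonneg fun i _ => abs_nonneg _
    rw [hA]; linarith
  have hlogA : 0 ≤ Real.log A := Real.log_nonneg (by linarith)
  obtain ⟨S, C0, hC0, hS, hprop⟩ := formsCoreD (n + 1) p R 1 (fun _ => p) (fun _ => by omega)
    (by omega) hp2 (mat α) (mat_alg α halg) (mat_det α) (Pi.single 0 1) ε hε univ (2 * p)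
    (by linarith)
  obtain ⟨L, hL⟩ : ∃ L : ℝ, L = Real.log p := ⟨_, rfl⟩
  have hL0 : 0 < L := by rw [hL]; exact Real.log_pos (by linarith)
  have hR0 : (0 : ℝ) ≤ R := Nat.cast_nonneg _
  have hn0 : (0 : ℝ) ≤ n := Nat.cast_nonneg _
  obtain ⟨Q, hQ1, hQ⟩ := pt_hyperplanes α hli S hS
  have hlogQ : 0 ≤ Real.log Q := Real.log_nonneg hQ1
  obtain ⟨C2, hC2⟩ : ∃ C2 : ℝ, C2 = C0 + |Real.log C0| / L + 4 := ⟨_, rfl⟩
  have hC20 : 0 ≤ C2 := by
    have : 0 ≤ |Real.log C0| / L := by positivity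
    rw [hC2]; linarith
  refine ⟨C0 + R * C2 * L + ε * Real.log (A + 1) + R * (L + Real.log Q), by
      have : 0 ≤ Real.log (A + 1) := Real.log_nonneg (by linarith)
      positivity, fun v q' hq' hcop W l m c hlW hpow hdis hrec => ?_⟩
  have hlogA1 : 0 ≤ Real.log (A + 1) := Real.log_nonneg (by linarith)
  obtain ⟨q, hq⟩ : ∃ q : ℕ, q = p ^ v * q' := ⟨_, rfl⟩
  rw [← hq]
  have hpv : 1 ≤ p ^ v := Nat.one_le_pow _ _ (by omega)
  have hqq' : q' ≤ q := by rw [hq]; exact Nat.le_mul_of_pos_left _ hpv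
  have hq1 : 1 ≤ q := hq'.trans hqq'
  have hqR : (1 : ℝ) ≤ q := by exact_mod_cast hq1
  have hlq : 0 ≤ Real.log q := Real.log_nonneg hqR
  obtain ⟨M, hM⟩ : ∃ M : ℝ, M = m + 15 * err m := ⟨_, rfl⟩
  have herr : 0 ≤ err m := le_trans (by norm_num) (err_ge m)
  have hM0 : 0 ≤ M := by rw [hM]; positivity
  have hlF : 0 ≤ Real.log (max 1 (q' * ∏ i, dist (q * α i))) := Real.log_nonneg (le_max_left _ _)
  have hbad : (l : ℝ) * L ≤ M * L + (C2 * L + (L + Real.log Q)) → (R : ℝ) * l * L ≤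
      ((n + 1 : ℝ) + R) * (M * L) + Real.log (max 1 (q' * ∏ i, dist (q * α i))) + ε * Real.log q +
      (C0 + R * C2 * L + ε * Real.log (A + 1) + R * (L + Real.log Q)) := by
    intro h
    have h1 : (R : ℝ) * (l * L) ≤ R * (M * L + (C2 * L + (L + Real.log Q))) :=
      mul_le_mul_of_nonneg_left h hR0
    have h2 : 0 ≤ ((n : ℝ) + 1) * (M * L) := by positivity
    have h3 : 0 ≤ ε * Real.log q := by positivity
    have h4 : 0 ≤ ε * Real.log (A + 1) := by positivity
    linarith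
  have hC2L : 0 ≤ C2 * L := by positivity
  rw [← hM, ← hL]
  rcases Nat.eq_zero_or_pos R with hRz | hRz
  · subst hRz
    have h2 : 0 ≤ ((n : ℝ) + 1 + ((0 : ℕ) : ℝ)) * (M * L) := by positivity
    have h3 : 0 ≤ ε * Real.log q := by positivity
    have h4 : 0 ≤ ε * Real.log (A + 1) := by positivity
    have h5 : 0 ≤ C0 + ((0 : ℕ) : ℝ) * C2 * L + ε * Real.log (A + 1) + ((0 : ℕ) : ℝ) * (L + Real.log Q) := by
      positivity
    have h6 : ((0 : ℕ) : ℝ) * l * L = 0 := by simp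
    rw [h6]
    positivity
  rcases le_or_gt (q : ℝ) Q with hqQ | hqQ
  · apply hbad
    have h1 : (p : ℝ) ^ W ⟨0, hRz⟩ ≤ p * q := by
      have : p ^ W ⟨0, hRz⟩ ≤ p * q := (hpow _).trans (Nat.mul_le_mul_left _ hqq')
      exact_mod_cast this
    have h2 := Real.log_le_log (by positivity) h1
    rw [Real.log_pow, Real.log_mul (by positivity) (by positivity), ← hL] at h2
    have h3 : (l : ℝ) ≤ W ⟨0, hRz⟩ := by exact_mod_cast hlW _
    have h4 := mul_le_mul_of_nonneg_right h3 hL0.le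
    have h5 : Real.log q ≤ Real.log Q := Real.log_le_log (by linarith) hqQ
    have h6 : 0 ≤ M * L := by positivity
    linarith
  rcases winRelX R p (fun _ => q') hp2 W l m c hlW hrec with h |
    ⟨T, Z, hT1, hTlog, hZ⟩
  · rw [← hM] at h
    apply hbad
    have h1 : (l : ℝ) * L ≤ (M + 3) * L := mul_le_mul_of_nonneg_right h hL0.le
    have h2 : 3 * L ≤ C2 * L := mul_le_mul_of_nonneg_right (by
      have : 0 ≤ |Real.log C0| / L := by positivity
      rw [hC2]; linarith) hL0.le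
    linarith
  rw [← hM, ← hL] at hTlog
  rw [← hM, ← hL] at hZ
  rcases le_or_gt (M + C2) l with hgap | hgap
  swap
  · apply hbad
    have h1 : (l : ℝ) * L ≤ (M + C2) * L := mul_le_mul_of_nonneg_right hgap.le hL0.le
    linarith
  obtain ⟨H, hH⟩ : ∃ H : ℕ, H = ⌈A * q⌉₊ := ⟨_, rfl⟩
  have h1 := hprop (pt α q) H (hQ q hqQ) (fun j => by
      have h2 := pt_le α q hq1 j
      rw [← hA] at h2
      have h3 : A * q ≤ H := by rw [hH]; exact Nat.le_ceil _
      exact_mod_cast h2.trans h3) T M (fun k => W k + v) (fun _ => l) Z (p ^ v) (fun _ => v) (v + l)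
    hT1 (by rw [← hL]; exact hTlog) (fun k _ => by have := hlW k; omega) (fun k _ => by
      rw [pt_single, Int.natAbs_natCast, hq, pow_add]
      have h2 := hpow k
      calc p ^ W k * p ^ v ≤ p * q' * p ^ v := Nat.mul_le_mul_right _ h2
        _ = p * (p ^ v * q') := by ring) (fun k _ k' _ hne => by
      rcases hdis k k' hne with h | h
      · left; omega
      · right; omega) (fun k _ => by
      have : 0 ≤ |Real.log C0| / L := by positivity
      rw [hC2] at hgap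
      linarith) (fun k _ => by
      rw [pt_single, ← hL]
      have h2 := hZ k
      have h3 : (T : ℝ) * ((q : ℤ) : ℝ) - (p : ℝ) ^ (W k + v) * Z k =
          (p : ℝ) ^ v * ((T : ℝ) * q' - (p : ℝ) ^ W k * Z k) := by
        rw [hq, pow_add]
        push_cast
        ring
      have h4 : (p : ℝ) ^ v = Real.exp (v * L) := by
        rw [hL, ← Real.log_pow, Real.exp_log (by positivity)]
      rw [h3, abs_mul, abs_of_nonneg (by positivity : (0 : ℝ) ≤ (p : ℝ) ^ v)]
      calc (p : ℝ) ^ v * |(T : ℝ) * q' - (p : ℝ) ^ W k * Z k| ≤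
          (p : ℝ) ^ v * (2 * p * Real.exp (M * L + W k * L - l * L)) :=
            mul_le_mul_of_nonneg_left h2 (by positivity)
        _ = 2 * p * (Real.exp (v * L) * Real.exp (M * L + W k * L - l * L)) := by rw [h4]; ring
        _ = 2 * p * Real.exp ((M + ((W k + v : ℕ) : ℝ) - l) * L) := by
            rw [← Real.exp_add]
            push_cast
            congr 2
            ring) (by simp) (by
      rw [pt_single, hq]
      push_cast
      exact Dvd.intro _ rfl) (fun k _ => by have := hlW k; omega) (by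
      intro c' hc' hc'C hdvd
      rw [pt_single, hq] at hdvd
      have h2 : (p : ℤ) ^ l ∣ c' * T * q' := by
        have h3 : (p : ℤ) ^ v * (p : ℤ) ^ l ∣ (p : ℤ) ^ v * (c' * T * q') := by
          rw [← pow_add]
          refine hdvd.trans (dvd_of_eq ?_)
          push_cast
          ring
        exact (mul_dvd_mul_iff_left (by positivity)).1 h3
      have h4 : IsCoprime ((p : ℤ) ^ l) (q' : ℤ) := by
        have h5 : Nat.Coprime (p ^ l) q' := Nat.Coprime.pow_left _ hcop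
        have h6 := Nat.Coprime.isCoprime h5
        push_cast at h6
        exact h6
      have h5 := h4.dvd_of_dvd_mul_right h2
      have hcT : c' * T ≠ 0 := mul_ne_zero hc' (by exact_mod_cast (by omega : T ≠ 0))
      have h6 := Int.le_of_dvd (abs_pos.2 hcT) ((dvd_abs _ _).2 h5)
      have h7 : (p : ℝ) ^ l ≤ |(c' : ℝ)| * T := by
        have h8 : (((p : ℤ) ^ l : ℤ) : ℝ) ≤ ((|c' * T| : ℤ) : ℝ) := by exact_mod_cast h6
        rw [Int.cast_abs] at h8
        push_cast at h8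
        rw [abs_mul, Nat.abs_cast] at h8
        exact h8
      have hc1 : (1 : ℝ) ≤ |(c' : ℝ)| := by
        rw [← Int.cast_abs]
        exact_mod_cast Int.one_le_abs hc'
      have hTR : (1 : ℝ) ≤ T := by exact_mod_cast hT1
      have h8 := Real.log_le_log (by positivity) h7
      rw [Real.log_pow, Real.log_mul (by linarith) (by linarith), ← hL] at h8
      have h9 : Real.log |(c' : ℝ)| ≤ Real.log C0 := Real.log_le_log (by linarith) hc'C
      have h10 : |Real.log C0| / L * L = |Real.log C0| := by field_simp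
      have h11 : (M + C2) * L ≤ l * L := mul_le_mul_of_nonneg_right hgap hL0.le
      have h12 : (M + C2) * L = M * L + C0 * L + |Real.log C0| + 4 * L := by
        rw [hC2, add_mul, add_mul, add_mul, h10]
        ring
      have h13 := le_abs_self (Real.log C0)
      have h14 : 0 ≤ C0 * L := by positivity
      linarith)
  rw [Finset.sum_const, Finset.card_univ, Fintype.card_fin, nsmul_eq_mul, ← hL] at h1
  have h2 : logFD (n + 1) (mat α) (pt α q) (p ^ v) =
      Real.log (max 1 (q' * ∏ i, dist (q * α i))) := by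
    unfold logFD
    rw [pt_prod]
    congr 2
    have h3 : (q : ℝ) = p ^ v * q' := by rw [hq]; push_cast; ring
    rw [Nat.cast_pow, h3]
    have h4 : (0 : ℝ) < (p : ℝ) ^ v := by positivity
    field_simp
  have hHlog : Real.log H ≤ Real.log (A + 1) + Real.log q := by
    rw [← Real.log_mul (by linarith) (by linarith)]
    have hAq : 0 < A * q := by positivity
    have h3 : 1 ≤ H := by rw [hH]; exact Nat.one_le_ceil_iff.2 hAq
    refine Real.log_le_log (by exact_mod_cast h3) ?_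
    have h4 := Nat.ceil_lt_add_one hAq.le
    rw [← hH] at h4
    linarith
  rw [h2] at h1
  have h3 : ε * Real.log H ≤ ε * (Real.log (A + 1) + Real.log q) :=
    mul_le_mul_of_nonneg_left hHlog hε.le
  have h4 : 0 ≤ R * C2 * L := by positivity
  have h5 : 0 ≤ R * (L + Real.log Q) := by positivity
  push_cast at h1
  linarith

end Pool.Agent.V1189.RT.Joint
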