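import Pool.Agent.V1189.RT.GStep
import Pool.Agent.V1189.RT.Digits

/-!
# Good multipliers of algebraic tuples: one coordinate

Author: helper89.
-/

set_option autoImplicit false

namespace Pool.Agent.V1189.RT

open Finset Filter Topology

/-- simultaneous approximation with one coordinate divisible by a power of `b` -/
theorem one (n b : ℕ) (hb : 2 ≤ b) (α : Fin n → ℝ) (halg : ∀ i, IsAlgebraic ℚ (α i))
    (hli : LinearIndependent ℚ (Fin.cons 1 α : Fin (n + 1) → ℝ)) (c δ : ℝ) (hc : 1 ≤ c)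
    (hδ : 0 < δ) (N : ℕ → ℝ) (hN : Tendsto N atTop atTop) (e : ℕ → ℕ) (z : ℕ → ℤ)
    (P : ℕ → Fin n → ℤ) (A : ℕ → ℝ) (B : ℕ → Fin n → ℝ) (hz : ∀ t, z t ≠ 0)
    (hA0 : ∀ t, 0 < A t) (hB0 : ∀ t i, 0 < B t i) (hAc : ∀ t, |Real.log (A t)| ≤ c * N t)
    (hBc : ∀ t i, |Real.log (B t i)| ≤ c * N t) (hec : ∀ t, e t * Real.log b ≤ c * N t)
    (hA : ∀ t, |(b : ℝ) ^ e t * z t| ≤ A t)
    (hB : ∀ t i, |α i * ((b : ℝ) ^ e t * z t) - P t i| ≤ B t i)
    (hsum : ∀ t, Real.log (A t) + ∑ i, Real.log (B t i) + δ * N t ≤ e t * Real.log b)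
    (hbig : ∀ K : ℝ, ∀ᶠ t in atTop, K * ∑ i, B t i < |(b : ℝ) ^ e t * z t|) : False := by
  have hbR : (2 : ℝ) ≤ b := by exact_mod_cast hb
  have hcN : ∀ t, 0 ≤ c * N t := fun t => (abs_nonneg _).trans (hAc t)
  obtain ⟨u, v, hne, hfreq⟩ := gstep n 1 1 (by omega) (fun i _ => α i) (fun i _ => halg i)
    (fun _ => b) (fun _ => by omega) c δ hc hδ N hN (fun t _ _ => e t) (fun t _ => b ^ e t)
    (fun t _ => by simp) (fun _ _ => 0) (fun _ => 1) (fun t => by simp) (fun t _ => z t) P
    (fun t => Or.inl fun h => hz t (congrFun h 0)) (fun t _ => A t) B (fun t _ => hA0 t) hB0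
    (fun t _ => hAc t) hBc (fun t _ => by
      push_cast
      rw [Real.log_pow]
      exact hec t) (fun t => by
      rw [Nat.cast_one, Real.log_one]
      exact hcN t) (fun t _ => by
      push_cast
      exact hA t) (fun t i => by
      rw [Fin.sum_univ_one]
      push_cast
      rw [one_mul]
      exact hB t i) (fun t => by
      rw [Fin.sum_univ_one, Fin.sum_univ_one, Nat.cast_one, Real.log_one, mul_zero, add_zero]
      push_cast
      rw [Real.log_pow]
      exact hsum t)
  by_cases hu : u = 0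
  · have hv : v ≠ 0 := hne.resolve_left (not_not.2 hu)
    obtain ⟨t, ht⟩ := hfreq.exists
    apply hv
    rw [hu, Fin.sum_univ_one] at ht
    simp only [Pi.zero_apply, Int.cast_zero, zero_mul, Finset.sum_const_zero, zero_add] at ht
    have hzR : (z t : ℝ) ≠ 0 := by exact_mod_cast hz t
    push_cast at ht
    have h1 : (v 0 : ℝ) = 0 := by
      rcases mul_eq_zero.1 ht with h | h
      · exact h
      · exact absurd h (mul_ne_zero (by positivity) hzR)
    funext j
    rw [Fin.fin_one_eq_zero j]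
    exact_mod_cast h1
  · have hirr := irr α hli u hu (v 0)
    obtain ⟨a, ha⟩ : ∃ a : ℝ, a = (v 0 : ℝ) + ∑ i, (u i : ℝ) * α i := ⟨_, rfl⟩
    rw [← ha] at hirr
    have ha0 : 0 < |a| := abs_pos.2 hirr.ne_zero
    obtain ⟨U, hU⟩ : ∃ U : ℝ, U = ∑ i, |(u i : ℝ)| := ⟨_, rfl⟩
    have hU0 : 0 ≤ U := by rw [hU]; exact Finset.sum_nonneg fun i _ => abs_nonneg _
    have hUi : ∀ i, |(u i : ℝ)| ≤ U := fun i => by
      rw [hU]; exact Finset.single_le_sum (f := fun i => |(u i : ℝ)|) (fun _ _ => abs_nonneg _)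
        (mem_univ i)
    obtain ⟨t, ht1, ht2⟩ := (hfreq.and_eventually (hbig (U / |a|))).exists
    obtain ⟨Y, hY⟩ : ∃ Y : ℝ, Y = (b : ℝ) ^ e t * z t := ⟨_, rfl⟩
    rw [← hY] at ht2
    rw [Fin.sum_univ_one] at ht1
    push_cast at ht1
    rw [← hY] at ht1
    have h1 : a * Y = ∑ i, (u i : ℝ) * (α i * Y - P t i) := by
      have h2 : ∑ i, (u i : ℝ) * (α i * Y - P t i) = (∑ i, (u i : ℝ) * α i) * Y -
          ∑ i, (u i : ℝ) * P t i := by
        rw [Finset.sum_mul, ← Finset.sum_sub_distrib]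
        exact Finset.sum_congr rfl fun i _ => by ring
      rw [h2, ha]
      have h3 : ∑ i, (u i : ℝ) * (1 * (P t i : ℝ)) = ∑ i, (u i : ℝ) * P t i :=
        Finset.sum_congr rfl fun i _ => by ring
      rw [h3] at ht1
      linarith
    have h4 : |a| * |Y| ≤ U * ∑ i, B t i := by
      rw [← abs_mul, h1, Finset.mul_sum]
      refine (Finset.abs_sum_le_sum_abs _ _).trans (Finset.sum_le_sum fun i _ => ?_)
      rw [abs_mul]
      have h5 := hB t i
      rw [← hY] at h5
      exact mul_le_mul (hUi i) h5 (abs_nonneg _) hU0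
    have h6 : U / |a| * (∑ i, B t i) * |a| = U * ∑ i, B t i := by
      field_simp
    nlinarith

/-- the distances to the nearest integers -/
noncomputable def dn (x : ℝ) : ℝ := |x - round x|

lemma dn_le (x : ℝ) : dn x ≤ 1 / 2 := abs_sub_round x

lemma dn_pos (α : ℝ) (hα : Irrational α) (q : ℕ) (hq : 1 ≤ q) : 0 < dn (q * α) := by
  unfold dn
  rw [abs_pos, sub_ne_zero]
  have h1 : Irrational ((q : ℝ) * α) := hα.natCast_mul (by omega)
  exact fun h => h1 ⟨round ((q : ℝ) * α), by push_cast; exact h.symm⟩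

lemma irr1 {n : ℕ} (α : Fin n → ℝ) (hli : LinearIndependent ℚ (Fin.cons 1 α : Fin (n + 1) → ℝ))
    (i : Fin n) : Irrational (α i) := by
  classical
  have h := irr α hli (Pi.single i 1) (by
    intro h
    have := congrFun h i
    simp at this) 0
  have h1 : ((0 : ℤ) : ℝ) + ∑ j, ((Pi.single i 1 : Fin n → ℤ) j : ℝ) * α j = α i := by
    rw [Finset.sum_eq_single i]
    · simp
    · intro j _ hj
      simp [Pi.single_apply, hj]
    · intro h; exact absurd (mem_univ _) h
  rwa [h1] at h

/-- **Schmidt's theorem on products.** -/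
theorem product (n : ℕ) (α : Fin n → ℝ) (halg : ∀ i, IsAlgebraic ℚ (α i))
    (hli : LinearIndependent ℚ (Fin.cons 1 α : Fin (n + 1) → ℝ)) (ε : ℝ) (hε : 0 < ε) :
    ∃ C : ℝ, 0 ≤ C ∧ ∀ q : ℕ, 1 ≤ q →
      -∑ i, Real.log (dn (q * α i)) ≤ (1 + ε) * Real.log q + C := by
  by_contra hcon
  push Not at hcon
  have h0 : ∀ t : ℕ, ∃ q : ℕ, 1 ≤ q ∧
      (1 + ε) * Real.log q + t < -∑ i, Real.log (dn (q * α i)) := fun t =>
    hcon t (Nat.cast_nonneg t)
  choose q hq hbad using h0
  have hpos : ∀ t i, 0 < dn (q t * α i) := fun t i => dn_pos _ (irr1 α hli i) _ (hq t)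
  have hlog0 : ∀ t i, Real.log (dn (q t * α i)) ≤ 0 := fun t i =>
    Real.log_nonpos (hpos t i).le ((dn_le _).trans (by norm_num))
  -- `q` tends to infinity
  have hqt : Tendsto q atTop atTop := by
    rw [tendsto_atTop]
    intro Q
    classical
    obtain ⟨K, hK⟩ : ∃ K : ℝ, K = ∑ r ∈ range Q, |∑ i, Real.log (dn (r * α i))| := ⟨_, rfl⟩
    obtain ⟨t0, ht0⟩ := exists_nat_gt K
    filter_upwards [eventually_ge_atTop t0] with t ht
    by_contra hlt
    push Not at hlt
    have h1 := hbad t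
    have h2 : |∑ i, Real.log (dn (q t * α i))| ≤ K := by
      rw [hK]
      exact Finset.single_le_sum (f := fun r : ℕ => |∑ i, Real.log (dn (r * α i))|)
        (fun _ _ => abs_nonneg _) (mem_range.2 hlt)
    have h3 := neg_abs_le (∑ i, Real.log (dn (q t * α i)))
    have h4 : 0 ≤ (1 + ε) * Real.log (q t) :=
      mul_nonneg (by linarith) (Real.log_nonneg (by exact_mod_cast hq t))
    have h5 : (t0 : ℝ) ≤ t := by exact_mod_cast ht
    linarith
  have hNt : Tendsto (fun t => Real.log (q t)) atTop atTop :=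
    Real.tendsto_log_atTop.comp (tendsto_natCast_atTop_atTop.comp hqt)
  have hqp : ∀ t, (1 : ℝ) ≤ q t := fun t => by exact_mod_cast hq t
  have hlq : ∀ t, 0 ≤ Real.log (q t) := fun t => Real.log_nonneg (hqp t)
  refine one n 2 le_rfl α halg hli 4 (min ε 1) (by norm_num) (lt_min hε one_pos)
    (fun t => Real.log (q t)) hNt (fun _ => 0) (fun t => (q t : ℤ))
    (fun t i => round (q t * α i)) (fun t => q t)
    (fun t i => max (dn (q t * α i)) (Real.exp (-(3 * Real.log (q t)))))
    (fun t => by have := hq t; omega) (fun t => by linarith [hqp t])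
    (fun t i => lt_max_of_lt_left (hpos t i)) (fun t => by
      rw [abs_of_nonneg (hlq t)]; linarith [hlq t]) (fun t i => by
      have h1 : max (dn (q t * α i)) (Real.exp (-(3 * Real.log (q t)))) ≤ 1 :=
        max_le ((dn_le _).trans (by norm_num)) (Real.exp_le_one_iff.2 (by linarith [hlq t]))
      have h2 : -(3 * Real.log (q t)) ≤
          Real.log (max (dn (q t * α i)) (Real.exp (-(3 * Real.log (q t))))) := by
        rw [Real.le_log_iff_exp_le (lt_max_of_lt_left (hpos t i))]
        exact le_max_right _ _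
      rw [abs_of_nonpos (Real.log_nonpos (le_max_of_le_left (hpos t i).le) h1)]
      linarith [hlq t]) (fun t => by
      rw [Nat.cast_zero, zero_mul]; linarith [hlq t]) (fun t => by
      push_cast
      rw [pow_zero, one_mul, abs_of_nonneg (by linarith [hqp t])]) (fun t i => by
      push_cast
      rw [pow_zero, one_mul, mul_comm]
      exact le_max_left _ _) (fun t => ?_) (fun K => ?_)
  · rw [Nat.cast_zero, zero_mul]
    by_cases hsm : ∃ i, dn (q t * α i) ≤ Real.exp (-(3 * Real.log (q t)))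
    · obtain ⟨i0, hi0⟩ := hsm
      have h1 : ∑ i, Real.log (max (dn (q t * α i)) (Real.exp (-(3 * Real.log (q t))))) ≤
          -(3 * Real.log (q t)) := by
        rw [← Finset.add_sum_erase _ _ (mem_univ i0), max_eq_right hi0, Real.log_exp]
        have h2 : ∑ i ∈ univ.erase i0, Real.log (max (dn (q t * α i))
            (Real.exp (-(3 * Real.log (q t))))) ≤ 0 := by
          refine Finset.sum_nonpos fun i _ => ?_
          exact Real.log_nonpos (le_max_of_le_left (hpos t i).le)
            (max_le ((dn_le _).trans (by norm_num)) (Real.exp_le_one_iff.2 (by linarith [hlq t])))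
        linarith
      have h3 : min ε 1 * Real.log (q t) ≤ 1 * Real.log (q t) :=
        mul_le_mul_of_nonneg_right (min_le_right _ _) (hlq t)
      linarith [hlq t]
    · push Not at hsm
      have h1 : ∑ i, Real.log (max (dn (q t * α i)) (Real.exp (-(3 * Real.log (q t))))) =
          ∑ i, Real.log (dn (q t * α i)) :=
        Finset.sum_congr rfl fun i _ => by rw [max_eq_left (hsm i).le]
      rw [h1]
      have h2 := hbad t
      have h3 : min ε 1 * Real.log (q t) ≤ ε * Real.log (q t) :=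
        mul_le_mul_of_nonneg_right (min_le_left _ _) (hlq t)
      have h4 : (0 : ℝ) ≤ t := Nat.cast_nonneg t
      linarith
  · have h1 : ∀ t, ∑ i, max (dn (q t * α i)) (Real.exp (-(3 * Real.log (q t)))) ≤ n := by
      intro t
      have h2 : ∑ i, max (dn (q t * α i)) (Real.exp (-(3 * Real.log (q t)))) ≤
          ∑ _i : Fin n, (1 : ℝ) := Finset.sum_le_sum fun i _ =>
        max_le ((dn_le _).trans (by norm_num)) (Real.exp_le_one_iff.2 (by linarith [hlq t]))
      rwa [Finset.sum_const, Finset.card_univ, Fintype.card_fin, nsmul_eq_mul, mul_one] at h2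
    have hqt' : Tendsto (fun t => (q t : ℝ)) atTop atTop := tendsto_natCast_atTop_atTop.comp hqt
    filter_upwards [hqt'.eventually (eventually_gt_atTop (|K| * n))] with t ht
    push_cast
    rw [pow_zero, one_mul, abs_of_nonneg (by linarith [hqp t])]
    have h0 : 0 ≤ ∑ i, max (dn (q t * α i)) (Real.exp (-(3 * Real.log (q t)))) :=
      Finset.sum_nonneg fun i _ => le_max_of_le_left (hpos t i).le
    have h2 := h1 t
    have h3 := le_abs_self K
    nlinarith [abs_nonneg K]

end Pool.Agent.V1189.RT
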