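import Pool.Agent.V1189.RT.Pow
import Pool.Agent.V1189.RT.Good

/-!
# Digits of the numerator and the denominator of good rational approximations

Author: helper89.
-/

set_option autoImplicit false

namespace Pool.Agent.V1189.RT

open Finset Filter Topology
open Pool.Agent.W47.JL
open Pool.Agent.Results.MP_a49cf6_nt.DigitRecurrences (Recurrence)

/-- a common multiplier for windows of the digits of several numbers -/
theorem winRelX (r b : ℕ) (x : Fin r → ℕ) (hb : 2 ≤ b) (W : Fin r → ℕ) (l m : ℕ) (c : ℕ → ℚ)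
    (hW : ∀ j, l ≤ W j)
    (hrec : ∀ j, Recurrence (fun i => (dH b (x j) (W j - i) : ℤ)) c l m) :
    (l : ℝ) ≤ m + 15 * err m + 3 ∨ ∃ (T : ℕ) (P : Fin r → ℤ), 1 ≤ T ∧
      Real.log T ≤ (m + 15 * err m) * Real.log b ∧
      ∀ j, |(T : ℝ) * x j - (b : ℝ) ^ W j * P j| ≤ 2 * b *
        Real.exp ((m + 15 * err m) * Real.log b + W j * Real.log b - l * Real.log b) := by
  have hbR : (2 : ℝ) ≤ b := by exact_mod_cast hb
  have hb0 : (0 : ℝ) < b := by linarith
  rcases relation r b hb (fun j i => (dH b (x j) (W j - i) : ℤ)) c l m (fun j i => by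
    rw [abs_of_nonneg (by positivity)]
    unfold dH
    exact_mod_cast (Nat.mod_lt _ (by omega)).le) hrec with h | ⟨T, p, hT1, hTlog, hp⟩
  · exact Or.inl h
  right
  obtain ⟨M, hM⟩ : ∃ M : ℝ, M = m + 15 * err m := ⟨_, rfl⟩
  rw [← hM] at hTlog hp ⊢
  refine ⟨T, fun j => p j + T * ((x j / b ^ W j : ℕ) : ℤ), hT1, hTlog, fun j => ?_⟩
  change |(T : ℝ) * x j - (b : ℝ) ^ W j * ((p j + T * ((x j / b ^ W j : ℕ) : ℤ) : ℤ) : ℝ)| ≤ _
  have h1 := fracH b (x j) hb (W j) l (hW j)
  have h2 := hp j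
  have hcast : ∑ i ∈ range l, (((dH b (x j) (W j - (i + 1)) : ℕ) : ℤ) : ℝ) / (b : ℝ) ^ (i + 1) =
      ∑ i ∈ range l, (dH b (x j) (W j - (i + 1)) : ℝ) / (b : ℝ) ^ (i + 1) :=
    Finset.sum_congr rfl fun i _ => by push_cast; rfl
  rw [hcast] at h2
  obtain ⟨S, hS⟩ : ∃ S : ℝ, S = ∑ i ∈ range l, (dH b (x j) (W j - (i + 1)) : ℝ) /
    (b : ℝ) ^ (i + 1) := ⟨_, rfl⟩
  rw [← hS] at h1 h2
  obtain ⟨F, hF⟩ : ∃ F : ℕ, F = x j / b ^ W j := ⟨_, rfl⟩
  rw [← hF] at h1 ⊢
  have hT0 : (0 : ℝ) < T := by exact_mod_cast hT1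
  have hTe : (T : ℝ) ≤ Real.exp (M * Real.log b) := by
    rw [← Real.log_le_iff_le_exp hT0]; exact hTlog
  have hbl : ∀ k : ℕ, (b : ℝ) ^ k = Real.exp (k * Real.log b) := by
    intro k
    rw [← Real.log_pow, Real.exp_log (by positivity)]
  have h3 : |(T : ℝ) * ((x j : ℝ) / (b : ℝ) ^ W j) - ((p j : ℝ) + T * F)| ≤
      2 * b * Real.exp (M * Real.log b - l * Real.log b) := by
    have h4 : (T : ℝ) * ((x j : ℝ) / (b : ℝ) ^ W j) - ((p j : ℝ) + T * F) =
        T * ((x j : ℝ) / (b : ℝ) ^ W j - F - S) + (T * S - p j) := by ring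
    rw [h4]
    refine (abs_add_le _ _).trans ?_
    rw [abs_mul, abs_of_pos hT0]
    have h5 : (T : ℝ) * |(x j : ℝ) / (b : ℝ) ^ W j - F - S| ≤
        Real.exp (M * Real.log b) * (1 / (b : ℝ) ^ l) :=
      mul_le_mul hTe h1 (abs_nonneg _) (Real.exp_pos _).le
    have h6 : Real.exp (M * Real.log b) * (1 / (b : ℝ) ^ l) =
        Real.exp (M * Real.log b - l * Real.log b) := by
      rw [hbl, Real.exp_sub]; ring
    rw [h6] at h5
    have h7 : 0 < Real.exp (M * Real.log b - l * Real.log b) := Real.exp_pos _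
    nlinarith
  have h8 : (T : ℝ) * x j - (b : ℝ) ^ W j * ((p j + T * ((F : ℕ) : ℤ) : ℤ) : ℝ) =
      (b : ℝ) ^ W j * ((T : ℝ) * ((x j : ℝ) / (b : ℝ) ^ W j) - ((p j : ℝ) + T * F)) := by
    push_cast
    field_simp
  rw [h8, abs_mul, abs_of_pos (by positivity : (0 : ℝ) < (b : ℝ) ^ W j)]
  have h9 := mul_le_mul_of_nonneg_left h3 (by positivity : (0 : ℝ) ≤ (b : ℝ) ^ W j)
  refine h9.trans (le_of_eq ?_)
  rw [hbl (W j), show M * Real.log b + W j * Real.log b - l * Real.log b =
    W j * Real.log b + (M * Real.log b - l * Real.log b) by ring, Real.exp_add]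
  ring

lemma li_single (β : ℝ) (hβ : Irrational β) :
    LinearIndependent ℚ (Fin.cons 1 ![β] : Fin (1 + 1) → ℝ) := by
  rw [Fintype.linearIndependent_iff]
  intro g hg
  rw [Fin.sum_univ_succ, Fin.sum_univ_one] at hg
  simp only [Fin.cons_zero, Fin.cons_succ, Rat.smul_def, mul_one, Matrix.cons_val_fin_one] at hg
  have h1 : g (Fin.succ 0) = 0 := by
    by_contra hne
    apply hβ
    refine ⟨-(g 0 / g (Fin.succ 0)), ?_⟩
    have hneR : (g (Fin.succ 0) : ℝ) ≠ 0 := by exact_mod_cast hne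
    rw [Rat.cast_neg, Rat.cast_div, neg_eq_iff_eq_neg, div_eq_iff hneR]
    linarith
  have h0 : g 0 = 0 := by
    rw [h1, Rat.cast_zero, zero_mul, add_zero] at hg
    exact_mod_cast hg
  intro j
  refine Fin.cases h0 (fun i => ?_) j
  rw [Fin.fin_one_eq_zero i]
  exact h1

/-- `u + v ξ ≠ 0` for an irrational `ξ` -/
lemma irr_ne (ξ : ℝ) (hξ : Irrational ξ) (u v : ℤ) (h : u ≠ 0 ∨ v ≠ 0) : (u : ℝ) + v * ξ ≠ 0 := by
  by_cases hv : v = 0
  · rw [hv]
    simp only [Int.cast_zero, zero_mul, add_zero]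
    exact_mod_cast h.resolve_right (not_not.2 hv)
  · have h1 := (hξ.intCast_mul hv).intCast_add u
    exact h1.ne_zero

theorem langDigits (b : ℕ) (hb : 2 ≤ b) (ξ : ℝ) (hξ0 : 0 < ξ) (halg : IsAlgebraic ℚ ξ)
    (hirr : Irrational ξ) (K : ℝ) (hK : 1 ≤ K) (ε : ℝ) (hε : 0 < ε) :
    ∃ C : ℝ, 0 ≤ C ∧ ∀ q p : ℕ, 1 ≤ q → q * |q * ξ - p| ≤ K → ∀ (h h' l m : ℕ) (c : ℕ → ℚ),
      l ≤ h → l ≤ h' → b ^ h ≤ b * q → b ^ h' ≤ b * p →
      Recurrence (fun i => (dH b q (h - i) : ℤ)) c l m →
      Recurrence (fun i => (dH b p (h' - i) : ℤ)) c l m →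
      2 * (l : ℝ) ≤ 4 * (m + 15 * err m) + ε * Real.log q + C := by
  have hbR : (2 : ℝ) ≤ b := by exact_mod_cast hb
  obtain ⟨L, hL⟩ : ∃ L : ℝ, L = Real.log b := ⟨_, rfl⟩
  have hL0 : 0 < L := by rw [hL]; exact Real.log_pos (by linarith)
  have hlogK : 0 ≤ Real.log K := Real.log_nonneg hK
  have hlog2b : 0 < Real.log (2 * b) := Real.log_pos (by linarith)
  obtain ⟨K2, hK2⟩ : ∃ K2 : ℝ, K2 = 2 * b + K := ⟨_, rfl⟩
  have hK21 : 1 ≤ K2 := by rw [hK2]; linarith
  have hlogK2 : 0 ≤ Real.log K2 := Real.log_nonneg hK21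
  have h2bK2 : Real.log (2 * b) ≤ Real.log K2 := Real.log_le_log (by linarith) (by rw [hK2]; linarith)
  obtain ⟨C0, hC0⟩ : ∃ C0 : ℝ, C0 = 8 + (Real.log K + Real.log (2 * b) + Real.log K2) / L := ⟨_, rfl⟩
  have hC0a : 8 ≤ C0 := by
    have : 0 ≤ (Real.log K + Real.log (2 * b) + Real.log K2) / L := by positivity
    rw [hC0]; linarith
  have hC0c : Real.log K + Real.log (2 * b) + Real.log K2 ≤ C0 * L := by
    have h1 : (Real.log K + Real.log (2 * b) + Real.log K2) / L * L =
      Real.log K + Real.log (2 * b) + Real.log K2 := by field_simp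
    have h3 : (Real.log K + Real.log (2 * b) + Real.log K2) / L ≤ C0 := by rw [hC0]; linarith
    rw [← h1]
    exact mul_le_mul_of_nonneg_right h3 hL0.le
  by_contra hcon
  push Not at hcon
  have h0 : ∀ t : ℕ, ∃ (q p h h' l m : ℕ) (c : ℕ → ℚ), 1 ≤ q ∧ q * |q * ξ - p| ≤ K ∧
      l ≤ h ∧ l ≤ h' ∧ b ^ h ≤ b * q ∧ b ^ h' ≤ b * p ∧
      Recurrence (fun i => (dH b q (h - i) : ℤ)) c l m ∧
      Recurrence (fun i => (dH b p (h' - i) : ℤ)) c l m ∧
      4 * (m + 15 * err m) + ε * Real.log q + (t + C0) < 2 * (l : ℝ) := by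
    intro t
    obtain ⟨q, p, h1, h2, h, h', l, m, c, h3, h4, h5, h6, h7, h8, h9⟩ := hcon (t + C0) (by positivity)
    exact ⟨q, p, h, h', l, m, c, h1, h2, h3, h4, h5, h6, h7, h8, h9⟩
  choose q p h h' l m c hq hqK hlh hlh' hbq hbp hrec hrec' hbad using h0
  obtain ⟨M, hM⟩ : ∃ M : ℕ → ℝ, ∀ t, M t = m t + 15 * err (m t) := ⟨_, fun t => rfl⟩
  have hM0 : ∀ t, 0 ≤ M t := fun t => by
    rw [hM]
    have := err_ge (m t)
    have h2 : (0 : ℝ) ≤ m t := Nat.cast_nonneg _
    linarith
  have hbad' : ∀ t, 4 * M t + ε * Real.log (q t) + (t + C0) < 2 * (l t : ℝ) := by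
    intro t
    rw [hM]
    exact hbad t
  have hqR : ∀ t, (1 : ℝ) ≤ q t := fun t => by exact_mod_cast hq t
  have hlq : ∀ t, 0 ≤ Real.log (q t) := fun t => Real.log_nonneg (hqR t)
  have hp1 : ∀ t, 1 ≤ p t := fun t => by
    have h1 := hbp t
    have h2 : 0 < b ^ h' t := by positivity
    by_contra h3
    have h4 : p t = 0 := by omega
    rw [h4, mul_zero] at h1
    omega
  have hpR : ∀ t, (1 : ℝ) ≤ p t := fun t => by exact_mod_cast hp1 t
  have hdist : ∀ t, |(q t : ℝ) * ξ - p t| ≤ K / q t := fun t => by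
    rw [le_div_iff₀ (by linarith [hqR t])]
    have := hqK t
    linarith
  have hdist1 : ∀ t, |(q t : ℝ) * ξ - p t| ≤ K := fun t =>
    (hdist t).trans (div_le_self (by linarith) (hqR t))
  have hpq : ∀ t, (p t : ℝ) ≤ (ξ + K) * q t := fun t => by
    have h1 := (abs_le.1 (hdist1 t)).1
    have h2 : K ≤ K * q t := le_mul_of_one_le_right (by linarith) (hqR t)
    nlinarith
  have hbl : ∀ k : ℕ, (b : ℝ) ^ k = Real.exp (k * L) := by
    intro k
    rw [hL, ← Real.log_pow, Real.exp_log (by positivity)]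
  have hhq : ∀ t, Real.exp (h t * L) ≤ b * q t := fun t => by
    rw [← hbl]; exact_mod_cast hbq t
  have hhp : ∀ t, Real.exp (h' t * L) ≤ b * p t := fun t => by
    rw [← hbl]; exact_mod_cast hbp t
  have hhL : ∀ t, h t * L ≤ L + Real.log (q t) := fun t => by
    have h1 := Real.log_le_log (Real.exp_pos _) (hhq t)
    have := hqR t
    rw [Real.log_exp, Real.log_mul (by positivity) (by positivity), ← hL] at h1
    exact h1
  have hξK : (1 : ℝ) ≤ ξ + K := by linarith
  have hhL' : ∀ t, h' t * L ≤ L + Real.log (ξ + K) + Real.log (q t) := fun t => by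
    have h1 := Real.log_le_log (Real.exp_pos _) (hhp t)
    have h2 := hpR t
    have h3 := hqR t
    rw [Real.log_exp, Real.log_mul (by positivity) (by positivity), ← hL] at h1
    have h4 := Real.log_le_log (by positivity) (hpq t)
    rw [Real.log_mul (by positivity) (by positivity)] at h4
    linarith
  have hlhR : ∀ t, (l t : ℝ) * L ≤ h t * L := fun t =>
    mul_le_mul_of_nonneg_right (by exact_mod_cast hlh t) hL0.le
  have hlhR' : ∀ t, (l t : ℝ) * L ≤ h' t * L := fun t =>
    mul_le_mul_of_nonneg_right (by exact_mod_cast hlh' t) hL0.le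
  -- `log q` tends to infinity
  have hkey : ∀ t : ℕ, (t : ℝ) * L ≤ 2 * Real.log (q t) := by
    intro t
    have h1 := mul_le_mul_of_nonneg_right (hbad' t).le hL0.le
    have h2 := hhL t
    have h3 := hlhR t
    have h4 : 0 ≤ M t * L := mul_nonneg (hM0 t) hL0.le
    have h5 : 0 ≤ ε * Real.log (q t) * L := mul_nonneg (mul_nonneg hε.le (hlq t)) hL0.le
    have h6 : 8 * L ≤ C0 * L := mul_le_mul_of_nonneg_right hC0a hL0.le
    nlinarith
  have hNlim : Tendsto (fun t => Real.log (q t)) atTop atTop := by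
    have h1 : Tendsto (fun t : ℕ => (t : ℝ) * (L / 2)) atTop atTop :=
      tendsto_natCast_atTop_atTop.atTop_mul_const (by positivity)
    refine tendsto_atTop_mono (fun t => ?_) h1
    have h2 := hkey t
    linarith
  -- shift to `log q ≥ 1`
  obtain ⟨t0, ht0⟩ := eventually_atTop.1 (hNlim.eventually (eventually_ge_atTop (1 : ℝ)))
  -- the relation
  have hrel : ∀ t, ∃ (T : ℕ) (Z Z' : ℤ), 1 ≤ T ∧ Real.log T ≤ M t * L ∧
      |(T : ℝ) * q t - (b : ℝ) ^ h t * Z| ≤ 2 * b * Real.exp (M t * L + h t * L - l t * L) ∧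
      |(T : ℝ) * p t - (b : ℝ) ^ h' t * Z'| ≤
        2 * b * Real.exp (M t * L + h' t * L - l t * L) := by
    intro t
    rcases winRelX 2 b ![q t, p t] hb ![h t, h' t] (l t) (m t) (c t) (fun j => by
      fin_cases j
      · exact hlh t
      · exact hlh' t) (fun j => by
      fin_cases j
      · exact hrec t
      · exact hrec' t) with h1 | h1
    · exfalso
      have h2 := hbad' t
      rw [hM] at h2
      have h3 := err_ge (m t)
      have h4 : (0 : ℝ) ≤ m t := Nat.cast_nonneg _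
      have h5 : (0 : ℝ) ≤ t := Nat.cast_nonneg t
      have h6 : 0 ≤ ε * Real.log (q t) := mul_nonneg hε.le (hlq t)
      linarith
    · obtain ⟨T, P, h1, h2, h3⟩ := h1
      rw [← hM, ← hL] at h2
      have h4 := h3 0
      have h5 := h3 1
      rw [← hM, ← hL] at h4 h5
      exact ⟨T, P 0, P 1, h1, h2, by simpa using h4, by simpa using h5⟩
  choose T Z Z' hT1 hTlog hX hX' using hrel
  have hTR : ∀ t, (1 : ℝ) ≤ T t := fun t => by exact_mod_cast hT1 t
  have hlT : ∀ t, 0 ≤ Real.log (T t) := fun t => Real.log_nonneg (hTR t)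
  have hTe : ∀ t, (T t : ℝ) ≤ Real.exp (M t * L) := fun t => by
    rw [← Real.log_le_iff_le_exp (by linarith [hTR t])]; exact hTlog t
  have hML0 : ∀ t, 0 ≤ M t * L := fun t => mul_nonneg (hM0 t) hL0.le
  have hbadL : ∀ t, 4 * (M t * L) + ε * L * Real.log (q t) + t * L + C0 * L ≤ 2 * (l t * L) := by
    intro t
    have h1 := mul_le_mul_of_nonneg_right (hbad' t).le hL0.le
    linarith
  have hqε : ∀ t, 0 ≤ ε * L * Real.log (q t) := fun t => mul_nonneg (by positivity) (hlq t)
  have htL : ∀ t : ℕ, (0 : ℝ) ≤ t * L := fun t => by positivity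
  have hC0L : 0 ≤ C0 * L := by linarith
  have hMlL : ∀ t, 2 * (M t * L) + (ε * L / 2 * Real.log (q t) + t * L / 2 + C0 * L / 2) ≤ l t * L :=
    fun t => by
    have := hbadL t
    linarith
  have hX3 : ∀ t, |ξ * (T t * q t) - (b : ℝ) ^ h' t * Z' t| ≤
      K2 * Real.exp (M t * L + h' t * L - l t * L) := by
    intro t
    have h1 : ξ * (T t * q t) - (b : ℝ) ^ h' t * Z' t =
        (T t : ℝ) * (q t * ξ - p t) + (T t * p t - (b : ℝ) ^ h' t * Z' t) := by ring
    rw [h1]
    refine (abs_add_le _ _).trans ?_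
    rw [abs_mul, Nat.abs_cast]
    have h2 : (T t : ℝ) * |q t * ξ - p t| ≤ Real.exp (M t * L) * K :=
      mul_le_mul (hTe t) (hdist1 t) (abs_nonneg _) (Real.exp_pos _).le
    have h3 : Real.exp (M t * L) ≤ Real.exp (M t * L + h' t * L - l t * L) :=
      Real.exp_le_exp.2 (by linarith [hlhR' t])
    have h4 := mul_le_mul_of_nonneg_right h3 (by linarith : (0 : ℝ) ≤ K)
    rw [hK2]
    linarith [hX' t]
  obtain ⟨c2, hc2⟩ : ∃ c2 : ℝ, c2 = 6 * L + 6 + Real.log (ξ + K) + Real.log K + Real.log (2 * b) +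
    Real.log K2 := ⟨_, rfl⟩
  have hlogξK : 0 ≤ Real.log (ξ + K) := Real.log_nonneg hξK
  have hc21 : 1 ≤ c2 := by rw [hc2]; linarith
  -- bounds in terms of `log q`
  have hN1 : ∀ t, t0 ≤ t → 1 ≤ Real.log (q t) := ht0
  have hbnd : ∀ t, t0 ≤ t → ∀ y : ℝ, y ≤ 4 * (L + Real.log (ξ + K) + Real.log (q t)) +
      (Real.log K + Real.log (2 * b) + Real.log K2) → y ≤ 4 * c2 * Real.log (q t) := by
    intro t ht y hy
    have h1 := hN1 t ht
    refine hy.trans ?_
    rw [hc2]
    nlinarith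
  have hMq : ∀ t, 2 * (M t * L) ≤ L + Real.log (q t) := fun t => by
    have h1 := hMlL t
    have h2 := hlhR t
    have h3 := hhL t
    have h4 := hqε t
    have h5 := htL t
    linarith
  obtain ⟨w, y, hwy, hfreq⟩ := gstepE 3 1 1 (by omega) (fun i _ => ![ξ, 1, ξ] i)
    (fun i _ => by
      fin_cases i
      · exact halg
      · exact isAlgebraic_one
      · exact halg) (fun _ => b) (fun _ => by omega) (4 * c2) (ε * L) (by linarith) (by positivity)
    (fun t => Real.log (q (t + t0))) (hNlim.comp (tendsto_add_atTop_nat t0)) (fun _ _ _ => 0)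
    (fun _ _ => 1) (fun _ _ => by simp) (fun t _ i => ![0, h (t + t0), h' (t + t0)] i)
    (fun t i => b ^ (![0, h (t + t0), h' (t + t0)] i : ℕ)) (fun _ _ => by simp)
    (fun t _ => (T (t + t0) * q (t + t0) : ℕ))
    (fun t i => ![((T (t + t0) * p (t + t0) : ℕ) : ℤ), Z (t + t0), Z' (t + t0)] i)
    (fun t => Or.inl fun h1 => by
      have h2 : ((T (t + t0) * q (t + t0) : ℕ) : ℤ) = 0 := congrFun h1 0
      have h3 : 0 < T (t + t0) * q (t + t0) := Nat.mul_pos (hT1 _) (hq _)
      have h4 : T (t + t0) * q (t + t0) = 0 := by exact_mod_cast h2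
      omega)
    (fun t _ => (T (t + t0) : ℝ) * q (t + t0))
    (fun t i => ![(T (t + t0) : ℝ) * (K / q (t + t0)),
      2 * b * Real.exp (M (t + t0) * L + h (t + t0) * L - l (t + t0) * L),
      K2 * Real.exp (M (t + t0) * L + h' (t + t0) * L - l (t + t0) * L)] i)
    (fun t _ => by
      have := hTR (t + t0)
      have := hqR (t + t0)
      positivity) (fun t i => by
      have := hTR (t + t0)
      have := hqR (t + t0)
      fin_cases i
      · change 0 < (T (t + t0) : ℝ) * (K / q (t + t0))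
        positivity
      · change 0 < 2 * (b : ℝ) * Real.exp _
        positivity
      · change 0 < K2 * Real.exp _
        positivity) (fun t _ => by
      have h1 := hTR (t + t0)
      have h2 := hqR (t + t0)
      rw [Real.log_mul (by positivity) (by positivity), abs_of_nonneg (by
        linarith [hlT (t + t0), hlq (t + t0)])]
      refine hbnd (t + t0) (by omega) _ ?_
      have h3 := hTlog (t + t0)
      have h4 := hMq (t + t0)
      have h5 := hlq (t + t0)
      have h6 := hlT (t + t0)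
      linarith) (fun t i => by
      have h1 := hTR (t + t0)
      have h2 := hqR (t + t0)
      have h3 := hTlog (t + t0)
      have h4 := hMq (t + t0)
      have h5 := hlq (t + t0)
      have h6 := hlT (t + t0)
      have h7 := hhL (t + t0)
      have h8 := hhL' (t + t0)
      have h9 := hlhR (t + t0)
      have h10 := hlhR' (t + t0)
      have h11 := hML0 (t + t0)
      have h12 : (0 : ℝ) ≤ l (t + t0) * L := by positivity
      fin_cases i
      · change |Real.log ((T (t + t0) : ℝ) * (K / q (t + t0)))| ≤ _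
        rw [Real.log_mul (by positivity) (by positivity), Real.log_div (by positivity)
          (by positivity), abs_le]
        have h13 := hbnd (t + t0) (by omega) (Real.log (T (t + t0)) + (Real.log K -
          Real.log (q (t + t0)))) (by linarith)
        have h14 := hbnd (t + t0) (by omega) (-(Real.log (T (t + t0)) + (Real.log K -
          Real.log (q (t + t0))))) (by linarith)
        constructor <;> linarith
      · change |Real.log (2 * (b : ℝ) * Real.exp _)| ≤ _
        rw [Real.log_mul (by positivity) (Real.exp_ne_zero _), Real.log_exp, abs_le]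
        have h13 := hbnd (t + t0) (by omega) (Real.log (2 * b) + (M (t + t0) * L +
          h (t + t0) * L - l (t + t0) * L)) (by linarith)
        have h14 := hbnd (t + t0) (by omega) (-(Real.log (2 * b) + (M (t + t0) * L +
          h (t + t0) * L - l (t + t0) * L))) (by linarith)
        constructor <;> linarith
      · change |Real.log (K2 * Real.exp _)| ≤ _
        rw [Real.log_mul (by positivity) (Real.exp_ne_zero _), Real.log_exp, abs_le]
        have h13 := hbnd (t + t0) (by omega) (Real.log K2 + (M (t + t0) * L +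
          h' (t + t0) * L - l (t + t0) * L)) (by linarith)
        have h14 := hbnd (t + t0) (by omega) (-(Real.log K2 + (M (t + t0) * L +
          h' (t + t0) * L - l (t + t0) * L))) (by linarith)
        constructor <;> linarith) (fun t _ => by
      rw [Nat.cast_one, Real.log_one]
      have := hlq (t + t0)
      positivity) (fun t i => by
      have h7 := hhL (t + t0)
      have h8 := hhL' (t + t0)
      have h5 := hlq (t + t0)
      fin_cases i
      · change Real.log ((b ^ 0 : ℕ) : ℝ) ≤ _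
        rw [pow_zero, Nat.cast_one, Real.log_one]
        positivity
      · change Real.log ((b ^ h (t + t0) : ℕ) : ℝ) ≤ _
        rw [Nat.cast_pow, Real.log_pow, ← hL]
        exact hbnd (t + t0) (by omega) _ (by linarith)
      · change Real.log ((b ^ h' (t + t0) : ℕ) : ℝ) ≤ _
        rw [Nat.cast_pow, Real.log_pow, ← hL]
        exact hbnd (t + t0) (by omega) _ (by linarith)) (fun t _ => by
      push_cast
      rw [one_mul, abs_of_nonneg (by positivity)]) (fun t i => by
      rw [Fin.sum_univ_one]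
      fin_cases i
      · change |ξ * (((1 : ℕ) : ℝ) * (((T (t + t0) * q (t + t0) : ℕ) : ℤ) : ℝ)) -
          ((b ^ 0 : ℕ) : ℝ) * (((T (t + t0) * p (t + t0) : ℕ) : ℤ) : ℝ)| ≤
          (T (t + t0) : ℝ) * (K / q (t + t0))
        push_cast
        rw [one_mul, pow_zero, one_mul,
          show ξ * ((T (t + t0) : ℝ) * q (t + t0)) - T (t + t0) * p (t + t0) =
          T (t + t0) * (q (t + t0) * ξ - p (t + t0)) by ring, abs_mul, Nat.abs_cast]
        exact mul_le_mul_of_nonneg_left (hdist _) (Nat.cast_nonneg _)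
      · change |1 * (((1 : ℕ) : ℝ) * (((T (t + t0) * q (t + t0) : ℕ) : ℤ) : ℝ)) -
          ((b ^ h (t + t0) : ℕ) : ℝ) * (Z (t + t0) : ℝ)| ≤ _
        push_cast
        rw [one_mul, one_mul]
        exact hX _
      · change |ξ * (((1 : ℕ) : ℝ) * (((T (t + t0) * q (t + t0) : ℕ) : ℤ) : ℝ)) -
          ((b ^ h' (t + t0) : ℕ) : ℝ) * (Z' (t + t0) : ℝ)| ≤ _
        push_cast
        rw [one_mul]
        exact hX3 _) (fun t => by
      have h1 := hTR (t + t0)
      have h2 := hqR (t + t0)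
      rw [Fin.sum_univ_one, Fin.sum_univ_one, Fin.sum_univ_three, Fin.sum_univ_three]
      change Real.log ((T (t + t0) : ℝ) * q (t + t0)) +
        (Real.log ((T (t + t0) : ℝ) * (K / q (t + t0))) +
        Real.log (2 * b * Real.exp (M (t + t0) * L + h (t + t0) * L - l (t + t0) * L)) +
        Real.log (K2 * Real.exp (M (t + t0) * L + h' (t + t0) * L - l (t + t0) * L))) +
        ε * L * Real.log (q (t + t0)) ≤ Real.log ((1 : ℕ) : ℝ) +
        (Real.log ((b ^ 0 : ℕ) : ℝ) + Real.log ((b ^ h (t + t0) : ℕ) : ℝ) +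
        Real.log ((b ^ h' (t + t0) : ℕ) : ℝ))
      rw [Real.log_mul (x := (T (t + t0) : ℝ)) (y := (q (t + t0) : ℝ)) (by positivity)
        (by positivity), Real.log_mul (x := (T (t + t0) : ℝ)) (y := K / q (t + t0)) (by positivity)
        (by positivity), Real.log_div (by positivity) (by positivity),
        Real.log_mul (x := 2 * (b : ℝ)) (by positivity) (Real.exp_ne_zero _),
        Real.log_mul (x := K2) (by positivity) (Real.exp_ne_zero _), Real.log_exp, Real.log_exp,
        pow_zero, Nat.cast_one, Real.log_one, Nat.cast_pow, Nat.cast_pow, Real.log_pow,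
        Real.log_pow, ← hL]
      have h3 := hTlog (t + t0)
      have h4 := hbadL (t + t0)
      have h5 := htL (t + t0)
      linarith)
  simp only [Fin.sum_univ_one, Fin.sum_univ_three, Fin.isValue] at hfreq
  have hfreq2 : ∃ᶠ t in atTop, (w 0 : ℝ) * (T t * p t) + w 1 * ((b : ℝ) ^ h t * Z t) +
      w 2 * ((b : ℝ) ^ h' t * Z' t) + y 0 * (T t * q t) = 0 := by
    refine (tendsto_add_atTop_nat t0).frequently (hfreq.mono fun t ht => ?_)
    change (w 0 : ℝ) * (((b ^ 0 : ℕ) : ℝ) * (((T (t + t0) * p (t + t0) : ℕ) : ℤ) : ℝ)) +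
      w 1 * (((b ^ h (t + t0) : ℕ) : ℝ) * (Z (t + t0) : ℝ)) +
      w 2 * (((b ^ h' (t + t0) : ℕ) : ℝ) * (Z' (t + t0) : ℝ)) +
      y 0 * (((1 : ℕ) : ℝ) * (((T (t + t0) * q (t + t0) : ℕ) : ℤ) : ℝ)) = 0 at ht
    push_cast at ht
    linarith
  -- constants
  obtain ⟨K3, hK3⟩ : ∃ K3 : ℝ, K3 = (|(w 1 : ℝ)| + |(w 2 : ℝ)| + |(w 0 : ℝ) + w 2| + 1) *
    (2 * b * (b * (ξ + K)) + K) := ⟨_, rfl⟩
  have hK30 : 0 < K3 := by rw [hK3]; positivity
  have hev : ∀ κ : ℝ, ∀ᶠ t : ℕ in atTop, κ ≤ (t : ℝ) := fun κ =>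
    tendsto_natCast_atTop_atTop.eventually (eventually_ge_atTop _)
  -- the identity
  have hid : ∀ t, (w 0 : ℝ) * (T t * p t) + w 1 * ((b : ℝ) ^ h t * Z t) +
      w 2 * ((b : ℝ) ^ h' t * Z' t) + y 0 * (T t * q t) = 0 →
      (((y 0 + w 1 : ℤ) : ℝ) + ((w 0 + w 2 : ℤ) : ℝ) * ξ) * (T t * q t) =
      w 1 * (T t * q t - (b : ℝ) ^ h t * Z t) + w 2 * (T t * p t - (b : ℝ) ^ h' t * Z' t) +
      (w 0 + w 2) * (T t * (q t * ξ - p t)) := by
    intro t ht
    push_cast
    linarith
  have hcoef : y 0 + w 1 = 0 ∧ w 0 + w 2 = 0 := by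
    by_contra hne
    have hne' : y 0 + w 1 ≠ 0 ∨ w 0 + w 2 ≠ 0 := by
      by_contra h1
      push Not at h1
      exact hne h1
    have h1 := irr_ne ξ hirr (y 0 + w 1) (w 0 + w 2) hne'
    obtain ⟨κ, hκ⟩ : ∃ κ : ℝ, κ = |((y 0 + w 1 : ℤ) : ℝ) + ((w 0 + w 2 : ℤ) : ℝ) * ξ| := ⟨_, rfl⟩
    have hκ0 : 0 < κ := by rw [hκ]; exact abs_pos.2 h1
    obtain ⟨t, ht, hlarge⟩ := (hfreq2.and_eventually
      (hev ((Real.log K3 - Real.log κ + 1) * 2 / L))).exists
    have h2 := congrArg abs (hid t ht)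
    rw [abs_mul, ← hκ, abs_of_nonneg (by positivity : (0 : ℝ) ≤ (T t : ℝ) * q t)] at h2
    have h3 : Real.exp (M t * L + h t * L - l t * L) ≤
        b * q t * Real.exp (M t * L - l t * L) := by
      rw [show M t * L + h t * L - l t * L = h t * L + (M t * L - l t * L) by ring, Real.exp_add]
      exact mul_le_mul_of_nonneg_right (hhq t) (Real.exp_pos _).le
    have h4 : Real.exp (M t * L + h' t * L - l t * L) ≤
        b * ((ξ + K) * q t) * Real.exp (M t * L - l t * L) := by
      rw [show M t * L + h' t * L - l t * L = h' t * L + (M t * L - l t * L) by ring, Real.exp_add]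
      refine mul_le_mul_of_nonneg_right ((hhp t).trans ?_) (Real.exp_pos _).le
      exact mul_le_mul_of_nonneg_left (hpq t) (by linarith)
    obtain ⟨Q, hQ⟩ : ∃ Q : ℝ, Q = q t * Real.exp (M t * L - l t * L) := ⟨_, rfl⟩
    have hQ0 : 0 < Q := by
      have := hqR t
      rw [hQ]; positivity
    have h5 : |(T t : ℝ) * q t - (b : ℝ) ^ h t * Z t| ≤ 2 * b * (b * (ξ + K)) * Q := by
      refine (hX t).trans ?_
      have h6 : 2 * b * Real.exp (M t * L + h t * L - l t * L) ≤
          2 * b * (b * q t * Real.exp (M t * L - l t * L)) :=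
        mul_le_mul_of_nonneg_left h3 (by positivity)
      refine h6.trans ?_
      rw [hQ]
      have h7 : (0 : ℝ) ≤ 2 * b * (b * q t * Real.exp (M t * L - l t * L)) := by positivity
      nlinarith
    have h6 : |(T t : ℝ) * p t - (b : ℝ) ^ h' t * Z' t| ≤ 2 * b * (b * (ξ + K)) * Q := by
      refine (hX' t).trans ?_
      have h6 := mul_le_mul_of_nonneg_left h4 (by positivity : (0 : ℝ) ≤ 2 * b)
      refine h6.trans (le_of_eq ?_)
      rw [hQ]; ring
    have h7 : |(T t : ℝ) * (q t * ξ - p t)| ≤ K * Q := by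
      rw [abs_mul, Nat.abs_cast]
      have h8 : (T t : ℝ) * |q t * ξ - p t| ≤ Real.exp (M t * L) * (K / q t) :=
        mul_le_mul (hTe t) (hdist t) (abs_nonneg _) (Real.exp_pos _).le
      refine h8.trans ?_
      have h9 : Real.exp (l t * L) ≤ b * q t := (Real.exp_le_exp.2 (hlhR t)).trans (hhq t)
      have h9' : Real.exp (l t * L) ≤ (q t : ℝ) * q t := by
        -- twice `l ≤ log q`
        have h10 := hlhR t
        have h11 := hhL t
        rw [← Real.log_le_log_iff (Real.exp_pos _) (by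
          have := hqR t
          positivity), Real.log_exp, Real.log_mul (by
          have := hqR t
          positivity) (by
          have := hqR t
          positivity)]
        have h12 := hbadL t
        have h13 := hC0L
        have h14 := hqε t
        have h15 := htL t
        have h16 := hML0 t
        have h17 : 8 * L ≤ C0 * L := mul_le_mul_of_nonneg_right hC0a hL0.le
        linarith
      rw [hQ, Real.exp_sub]
      have h10 : 0 < Real.exp (l t * L) := Real.exp_pos _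
      have h11 := hqR t
      rw [mul_div_assoc', div_le_iff₀ (by positivity)]
      have h12 : K * (q t * (Real.exp (M t * L) / Real.exp (l t * L))) * q t =
          K * Real.exp (M t * L) * ((q t * q t) / Real.exp (l t * L)) := by ring
      rw [h12]
      have h13 : 1 ≤ (q t : ℝ) * q t / Real.exp (l t * L) := by
        rw [le_div_iff₀ h10]; linarith
      have h14 : 0 ≤ K * Real.exp (M t * L) := by positivity
      nlinarith
    have h8 : κ * (T t * q t) ≤ K3 * Q := by
      rw [h2]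
      refine (abs_add_le _ _).trans ?_
      have h9 := abs_add_le ((w 1 : ℝ) * (T t * q t - (b : ℝ) ^ h t * Z t))
        ((w 2 : ℝ) * (T t * p t - (b : ℝ) ^ h' t * Z' t))
      rw [abs_mul, abs_mul (w 2 : ℝ)] at h9
      rw [abs_mul ((w 0 : ℝ) + w 2)]
      have h10 := mul_le_mul_of_nonneg_left h5 (abs_nonneg (w 1 : ℝ))
      have h11 := mul_le_mul_of_nonneg_left h6 (abs_nonneg (w 2 : ℝ))
      have h12 := mul_le_mul_of_nonneg_left h7 (abs_nonneg ((w 0 : ℝ) + w 2))
      rw [hK3]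
      have h13 : 0 ≤ |(w 1 : ℝ)| * (K * Q) := by positivity
      have h14 : 0 ≤ |(w 2 : ℝ)| * (K * Q) := by positivity
      have h15 : 0 ≤ |(w 0 : ℝ) + w 2| * (2 * b * (b * (ξ + K)) * Q) := by positivity
      have h16 : 0 ≤ (2 * b * (b * (ξ + K)) + K) * Q := by positivity
      linarith
    have h9 : κ * q t ≤ K3 * Q := by
      refine le_trans ?_ h8
      refine mul_le_mul_of_nonneg_left ?_ hκ0.le
      exact le_mul_of_one_le_left (Nat.cast_nonneg _) (hTR t)
    have h10 := Real.log_le_log (by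
      have := hqR t
      positivity) h9
    have h11 := hqR t
    rw [hQ, Real.log_mul (by positivity) (by positivity), Real.log_mul (by positivity)
      (by positivity), Real.log_mul (by positivity) (by positivity), Real.log_exp] at h10
    have h12 := hMlL t
    have h13 : (Real.log K3 - Real.log κ + 1) * 2 / L * L = (Real.log K3 - Real.log κ + 1) * 2 := by
      field_simp
    have h14 := mul_le_mul_of_nonneg_right hlarge hL0.le
    rw [h13] at h14
    have h15 := hqε t
    have h16 := hML0 t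
    linarith
  obtain ⟨hc1, hc2'⟩ := hcoef
  have hw12 : w 1 ≠ 0 ∨ w 2 ≠ 0 := by
    by_contra h1
    push Not at h1
    have h2 : w 0 = 0 := by omega
    have h3 : y 0 = 0 := by omega
    rcases hwy with h4 | h4
    · apply h4
      funext i
      fin_cases i
      · exact h2
      · exact h1.1
      · exact h1.2
    · exact h4 (funext fun i => by rw [Fin.fin_one_eq_zero i]; exact h3)
  -- divisibility
  have hdiv : ∀ t, (w 0 : ℝ) * (T t * p t) + w 1 * ((b : ℝ) ^ h t * Z t) +
      w 2 * ((b : ℝ) ^ h' t * Z' t) + y 0 * (T t * q t) = 0 →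
      ∃ z : ℤ, (b : ℤ) ^ l t * z = (T t : ℤ) * (w 1 * q t + w 2 * p t) := by
    intro t ht
    have h1 : ((T t : ℤ) * (w 1 * q t + w 2 * p t) : ℤ) =
        w 1 * ((b : ℤ) ^ h t * Z t) + w 2 * ((b : ℤ) ^ h' t * Z' t) := by
      have h2 : (((T t : ℤ) * (w 1 * q t + w 2 * p t) : ℤ) : ℝ) =
          ((w 1 * ((b : ℤ) ^ h t * Z t) + w 2 * ((b : ℤ) ^ h' t * Z' t) : ℤ) : ℝ) := by
        have h3 : (y 0 : ℝ) = -(w 1 : ℝ) := by
          have : ((y 0 + w 1 : ℤ) : ℝ) = 0 := by rw [hc1]; simp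
          push_cast at this
          linarith
        have h4 : (w 0 : ℝ) = -(w 2 : ℝ) := by
          have : ((w 0 + w 2 : ℤ) : ℝ) = 0 := by rw [hc2']; simp
          push_cast at this
          linarith
        rw [h3, h4] at ht
        push_cast
        linarith
      exact_mod_cast h2
    have h2 : (b : ℤ) ^ l t ∣ (T t : ℤ) * (w 1 * q t + w 2 * p t) := by
      rw [h1]
      exact dvd_add (Dvd.dvd.mul_left (Dvd.dvd.mul_right (pow_dvd_pow _ (hlh t)) _) _)
        (Dvd.dvd.mul_left (Dvd.dvd.mul_right (pow_dvd_pow _ (hlh' t)) _) _)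
    obtain ⟨z, hz⟩ := h2
    exact ⟨z, hz.symm⟩
  -- the last step
  have hθ := irr_ne ξ hirr (w 1) (w 2) hw12
  obtain ⟨θ, hθd⟩ : ∃ θ : ℝ, θ = (w 1 : ℝ) + w 2 * ξ := ⟨_, rfl⟩
  rw [← hθd] at hθ
  have hθ0 : 0 < |θ| := abs_pos.2 hθ
  have hq2 : ∀ t, |((w 1 : ℝ) * q t + w 2 * p t) - θ * q t| ≤ |(w 2 : ℝ)| * K := fun t => by
    have h1 : ((w 1 : ℝ) * q t + w 2 * p t) - θ * q t = -(w 2 * (q t * ξ - p t)) := by
      rw [hθd]; ring
    rw [h1, abs_neg, abs_mul]
    exact mul_le_mul_of_nonneg_left (hdist1 t) (abs_nonneg _)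
  obtain ⟨β, a, O, hβirr, hβalg, hO⟩ : ∃ (β a : ℝ) (O : ℕ → ℤ), Irrational β ∧ IsAlgebraic ℚ β ∧
      ∀ t, |β * ((w 1 : ℝ) * q t + w 2 * p t) - O t| ≤ (|a| + 1) * (K / q t) := by
    by_cases hw1 : w 1 = 0
    · have hw2 : w 2 ≠ 0 := hw12.resolve_left (not_not.2 hw1)
      have hw2R : (w 2 : ℝ) ≠ 0 := by exact_mod_cast hw2
      refine ⟨((w 2 : ℝ) * ξ)⁻¹, ξ⁻¹, fun t => (q t : ℤ), (hirr.intCast_mul hw2).inv,
        ((isAlgebraic_int _).mul halg).inv, fun t => ?_⟩
      have h1 : ((w 2 : ℝ) * ξ)⁻¹ * ((w 1 : ℝ) * q t + w 2 * p t) - ((q t : ℤ) : ℝ) =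
          -(ξ⁻¹ * (q t * ξ - p t)) := by
        rw [hw1]
        push_cast
        field_simp
        ring
      rw [h1, abs_neg, abs_mul]
      refine (mul_le_mul_of_nonneg_left (hdist t) (abs_nonneg _)).trans ?_
      have h2 : 0 ≤ K / q t := by
        have := hqR t
        positivity
      nlinarith
    · refine ⟨ξ / θ, (w 1 : ℝ) / θ, fun t => (p t : ℤ), ?_, ?_, fun t => ?_⟩
      · have h1 : ξ / θ = ((w 1 : ℝ) * ξ⁻¹ + w 2)⁻¹ := by
          have hξne : ξ ≠ 0 := hξ0.ne'
          have h2 : (w 1 : ℝ) * ξ⁻¹ + w 2 = θ / ξ := by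
            rw [hθd]; field_simp
          rw [h2, inv_div]
        rw [h1]
        exact ((hirr.inv.intCast_mul hw1).add_intCast (w 2)).inv
      · rw [hθd, div_eq_mul_inv]
        exact halg.mul ((isAlgebraic_int _).add ((isAlgebraic_int _).mul halg)).inv
      · have h1 : ξ / θ * ((w 1 : ℝ) * q t + w 2 * p t) - ((p t : ℤ) : ℝ) =
            (w 1 : ℝ) / θ * (q t * ξ - p t) := by
          push_cast
          rw [div_mul_eq_mul_div, div_mul_eq_mul_div, ← sub_eq_zero]
          field_simp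
          rw [hθd]; ring
        rw [h1, abs_mul]
        refine (mul_le_mul_of_nonneg_left (hdist t) (abs_nonneg _)).trans ?_
        have h2 : 0 ≤ K / q t := by
          have := hqR t
          positivity
        nlinarith
  obtain ⟨K4, hK4⟩ : ∃ K4 : ℝ, K4 = |θ| + |(w 2 : ℝ)| * K + 1 := ⟨_, rfl⟩
  have hK41 : 1 ≤ K4 := by
    have : 0 ≤ |(w 2 : ℝ)| * K := by positivity
    rw [hK4]; linarith
  have hlogK4 : 0 ≤ Real.log K4 := Real.log_nonneg hK41
  have hloga : 0 ≤ Real.log (|a| + 1) := Real.log_nonneg (by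
    have := abs_nonneg a
    linarith)
  have hq2u : ∀ t, |(w 1 : ℝ) * q t + w 2 * p t| ≤ K4 * q t := fun t => by
    have h1 := hq2 t
    have h2 : |(w 1 : ℝ) * q t + w 2 * p t| ≤ |θ * q t| + |(w 2 : ℝ)| * K := by
      have h3 := abs_sub_abs_le_abs_sub ((w 1 : ℝ) * q t + w 2 * p t) (θ * q t)
      linarith
    rw [abs_mul, Nat.abs_cast] at h2
    have h3 : |(w 2 : ℝ)| * K ≤ |(w 2 : ℝ)| * K * q t :=
      le_mul_of_one_le_right (by positivity) (hqR t)
    have h4 := hqR t
    rw [hK4]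
    nlinarith
  have hq2l : ∀ t, |θ| * q t - |(w 2 : ℝ)| * K ≤ |(w 1 : ℝ) * q t + w 2 * p t| := fun t => by
    have h1 := hq2 t
    have h3 := abs_sub_abs_le_abs_sub (θ * q t) ((w 1 : ℝ) * q t + w 2 * p t)
    rw [abs_mul, Nat.abs_cast, abs_sub_comm] at h3
    linarith
  obtain ⟨φ, hφ, hφP⟩ := extraction_of_frequently_atTop ((hfreq2.and_eventually
    (hev (2 * (Real.log K4 + Real.log (|a| + 1) + Real.log K + 1) / L))).and_eventually
    ((eventually_ge_atTop t0).and (hNlim.eventually (eventually_ge_atTop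
      (Real.log ((|(w 2 : ℝ)| * K + 1) / |θ|) + 1)))))
  choose z hz using fun k => hdiv (φ k) (hφP k).1.1
  have hzR : ∀ k, (b : ℝ) ^ l (φ k) * z k = T (φ k) * ((w 1 : ℝ) * q (φ k) + w 2 * p (φ k)) := by
    intro k
    have h1 := hz k
    exact_mod_cast h1
  have hN1' : ∀ k, 1 ≤ Real.log (q (φ k)) := fun k => hN1 _ (hφP k).2.1
  -- the combination is not small
  have hpos : ∀ k, 1 ≤ |(w 1 : ℝ) * q (φ k) + w 2 * p (φ k)| := by
    intro k
    have h1 := hq2l (φ k)
    have h2 := (hφP k).2.2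
    have h3 : (|(w 2 : ℝ)| * K + 1) / |θ| ≤ q (φ k) := by
      have h4 : 0 < (|(w 2 : ℝ)| * K + 1) / |θ| := by positivity
      rw [← Real.log_le_log_iff h4 (by linarith [hqR (φ k)])]
      linarith
    rw [div_le_iff₀ hθ0] at h3
    linarith
  refine one 1 b hb ![β] (fun i => by
    rw [Fin.fin_one_eq_zero i]; exact hβalg) (li_single β hβirr)
    (4 * (L + 1 + Real.log (ξ + K) + Real.log K4 + Real.log (|a| + 1) + Real.log K) + 1)
    (ε * L / 2) (by nlinarith) (by positivity) (fun k => Real.log (q (φ k)))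
    (hNlim.comp hφ.tendsto_atTop) (fun k => l (φ k)) z (fun k _ => T (φ k) * O (φ k))
    (fun k => K4 * (T (φ k) * q (φ k))) (fun k _ => T (φ k) * ((|a| + 1) * (K / q (φ k))))
    (fun k h1 => ?_) (fun k => ?_) (fun k _ => ?_) (fun k => ?_) (fun k _ => ?_) (fun k => ?_)
    (fun k => ?_) (fun k i => ?_) (fun k => ?_) (fun κ => ?_)
  · have h2 := hzR k
    rw [h1] at h2
    have h3 := hpos k
    have h4 := hTR (φ k)
    have h5 : |(T (φ k) : ℝ) * ((w 1 : ℝ) * q (φ k) + w 2 * p (φ k))| = 0 := by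
      rw [← h2]; simp
    rw [abs_mul, Nat.abs_cast] at h5
    nlinarith
  · have := hTR (φ k)
    have := hqR (φ k)
    positivity
  · have := hTR (φ k)
    have := hqR (φ k)
    positivity
  · have h1 := hTR (φ k)
    have h2 := hqR (φ k)
    have h3 := hTlog (φ k)
    have h4 := hMq (φ k)
    have h5 := hN1' k
    have h6 := hlT (φ k)
    rw [Real.log_mul (by positivity) (by positivity), Real.log_mul (by positivity) (by positivity),
      abs_of_nonneg (by linarith)]
    nlinarith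
  · have h1 := hTR (φ k)
    have h2 := hqR (φ k)
    have h3 := hTlog (φ k)
    have h4 := hMq (φ k)
    have h5 := hN1' k
    have h6 := hlT (φ k)
    rw [Real.log_mul (by positivity) (by positivity), Real.log_mul (by positivity) (by positivity),
      Real.log_div (by positivity) (by positivity), abs_le]
    constructor <;> nlinarith
  · have h1 := hlhR (φ k)
    have h2 := hhL (φ k)
    have h5 := hN1' k
    rw [← hL]
    nlinarith
  · rw [hzR, abs_mul, Nat.abs_cast]
    have h1 := mul_le_mul_of_nonneg_left (hq2u (φ k)) (Nat.cast_nonneg (T (φ k)) : (0 : ℝ) ≤ _)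
    refine h1.trans (le_of_eq ?_)
    ring
  · rw [hzR]
    have h1 : (![β] : Fin 1 → ℝ) i = β := by rw [Fin.fin_one_eq_zero i]; rfl
    rw [h1]
    push_cast
    have h2 : β * ((T (φ k) : ℝ) * ((w 1 : ℝ) * q (φ k) + w 2 * p (φ k))) - T (φ k) * O (φ k) =
        T (φ k) * (β * ((w 1 : ℝ) * q (φ k) + w 2 * p (φ k)) - O (φ k)) := by ring
    rw [h2, abs_mul, Nat.abs_cast]
    exact mul_le_mul_of_nonneg_left (hO (φ k)) (Nat.cast_nonneg _)
  · have h1 := hTR (φ k)
    have h2 := hqR (φ k)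
    rw [Fin.sum_univ_one, Real.log_mul (by positivity) (by positivity),
      Real.log_mul (x := (T (φ k) : ℝ)) (y := (q (φ k) : ℝ)) (by positivity) (by positivity),
      Real.log_mul (x := (T (φ k) : ℝ)) (by positivity) (by positivity),
      Real.log_mul (x := |a| + 1) (by positivity) (by positivity),
      Real.log_div (by positivity) (by positivity), ← hL]
    have h3 := hTlog (φ k)
    have h4 := hMlL (φ k)
    have h5 := (hφP k).1.2
    have h6 : 2 * (Real.log K4 + Real.log (|a| + 1) + Real.log K + 1) / L * L =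
      2 * (Real.log K4 + Real.log (|a| + 1) + Real.log K + 1) := by field_simp
    have h7 := mul_le_mul_of_nonneg_right h5 hL0.le
    rw [h6] at h7
    linarith
  · -- size
    have h1 : ∀ᶠ k in atTop, Real.log (|κ| * ((|a| + 1) * K) + 1) + 1 ≤ Real.log (q (φ k)) :=
      (hNlim.comp hφ.tendsto_atTop).eventually (eventually_ge_atTop _)
    refine h1.mono fun k hk => ?_
    rw [hzR, abs_mul, Nat.abs_cast, Fin.sum_univ_one]
    have h2 := hTR (φ k)
    have h3 := hqR (φ k)
    have h4 : |κ| * ((|a| + 1) * K) + 1 < q (φ k) := by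
      have h5 : 0 < |κ| * ((|a| + 1) * K) + 1 := by positivity
      rw [← Real.log_lt_log_iff h5 (by linarith)]
      linarith
    have h5 : κ * (T (φ k) * ((|a| + 1) * (K / q (φ k)))) ≤
        |κ| * (T (φ k) * ((|a| + 1) * (K / q (φ k)))) :=
      mul_le_mul_of_nonneg_right (le_abs_self κ) (by positivity)
    have h6 : |κ| * (T (φ k) * ((|a| + 1) * (K / q (φ k)))) =
        T (φ k) * ((|κ| * ((|a| + 1) * K)) / q (φ k)) := by ring
    have h7 : (|κ| * ((|a| + 1) * K)) / q (φ k) < 1 := by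
      rw [div_lt_one (by linarith)]; linarith
    have h8 : (T (φ k) : ℝ) * ((|κ| * ((|a| + 1) * K)) / q (φ k)) < T (φ k) * 1 :=
      mul_lt_mul_of_pos_left h7 (by linarith)
    have h9 : (T (φ k) : ℝ) * 1 ≤ T (φ k) * |(w 1 : ℝ) * q (φ k) + w 2 * p (φ k)| :=
      mul_le_mul_of_nonneg_left (hpos k) (by linarith)
    linarith

end Pool.Agent.V1189.RT
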