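import Pool.Agent.V1189.RT.Digits

/-!
# Linear recurrences for the digits of an integer

Author: helper89. The lemmas on linear recurrences (a small integral relation by the box principle, division
by `X - b`) are those of helper47, helper928, helper639 (`S_SMALL`, `S_DESC`).
-/

set_option autoImplicit false

namespace Pool.Agent.V1189.RT

open Finset Polynomial
open Pool.Agent.W47.JL
open Pool.Agent.Results.MP_a49cf6_nt.DigitRecurrences (Recurrence)

/-- A common recurrence of small order gives simultaneous rational approximations to the numbers with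
the terms as digits. -/
theorem relation (J b : ℕ) (hb : 2 ≤ b) (s : Fin J → ℕ → ℤ) (c : ℕ → ℚ) (l m : ℕ)
    (hs : ∀ j i, |s j i| ≤ b) (hrec : ∀ j, Recurrence (s j) c l m) :
    (l : ℝ) ≤ m + 15 * err m + 3 ∨ ∃ (Q : ℕ) (p : Fin J → ℤ), 1 ≤ Q ∧
      Real.log Q ≤ (m + 15 * err m) * Real.log b ∧
      ∀ j, |(Q : ℝ) * (∑ i ∈ range l, (s j (i + 1) : ℝ) / (b : ℝ) ^ (i + 1)) - p j| ≤
        b * Real.exp ((m + 15 * err m) * Real.log b - l * Real.log b) := by
  have hbR : (2 : ℝ) ≤ b := by exact_mod_cast hb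
  have hb0 : (0 : ℝ) < b := by linarith
  have hlb0 : 0 < Real.log b := Real.log_pos (by linarith)
  have hm0 : (0 : ℝ) ≤ m := Nat.cast_nonneg m
  have herr := err_ge m
  obtain ⟨k0, K', hk0, hK', hpar⟩ := params m
  have hpar1 : M1 b m k0 K' ≤ m + 15 * err m := hpar b hbR
  have hM1 := M1_ge b m k0 K' hb
  have hk00 : (0 : ℝ) ≤ k0 := Nat.cast_nonneg k0
  obtain ⟨X, hX⟩ : ∃ X : ℝ, X = ((m : ℝ) + k0 + 1) * (((m : ℝ) + 1 + k0) * b) ^ K' := ⟨_, rfl⟩
  have hX0 : 0 < X := by rw [hX]; positivity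
  have h8 : M1 b m k0 K' * Real.log b = (m + k0) * Real.log b + Real.log X := by
    rw [M1, ← hX]
    field_simp
  by_cases hL : m + k0 ≤ l
  swap
  · left
    have : (l : ℝ) ≤ m + k0 := by exact_mod_cast (by omega : l ≤ m + k0)
    linarith
  have h3' : ((l - (m + k0) : ℕ) : ℝ) = l - (m + k0) := by
    rw [Nat.cast_sub hL]; push_cast; ring
  by_cases hbig : (m + k0 + 1) * ((m + 1 + k0) * b) ^ K' * b < b ^ (l - (m + k0))
  swap
  · left
    push Not at hbig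
    have h1 : ((b : ℝ) ^ (l - (m + k0))) ≤
        ((m : ℝ) + k0 + 1) * (((m : ℝ) + 1 + k0) * b) ^ K' * b := by exact_mod_cast hbig
    rw [← hX] at h1
    have h2 := Real.log_le_log (by positivity) h1
    rw [Real.log_pow, Real.log_mul hX0.ne' hb0.ne', h3'] at h2
    have h4 : (l : ℝ) * Real.log b ≤ (M1 b m k0 K' + 1) * Real.log b := by linarith
    have h5 := le_of_mul_le_mul_right h4 hlb0
    linarith
  right
  have hrec' : ∀ (j : Fin J) (i : ℕ), i + m < l → ((s j (i + m + 1) : ℤ) : ℚ) =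
      ∑ q ∈ range m, c q * ((s j (i + q + 1) : ℤ) : ℚ) := by
    intro j i hi
    have h1 := hrec j (i + 1) (by omega) (by omega)
    rw [show i + m + 1 = i + 1 + m by ring, h1]
    exact Finset.sum_congr rfl fun q _ => by rw [show i + q + 1 = i + 1 + q by ring]
  obtain ⟨t, ht0, htd, htH, htr⟩ := Pool.Agent.W928.JL.small J (fun j i => s j (i + 1)) b (by omega)
    (fun j i => hs j _) m k0 (l - (m + k0)) l K' hk0 hK' (by omega) c hrec'
  obtain ⟨t', htd', htH', htr', ht0'⟩ := Pool.Agent.W639.JL.desc J (fun j i => s j (i + 1)) b b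
    (((m + 1 + k0) * b) ^ K') (m + k0)
    (l - (m + k0)) hb (fun j i => hs j _) hbig t htd ht0 htH htr
  have hXe : (((m + k0 : ℕ) : ℝ) + 1) * (((m + 1 + k0) * b) ^ K' : ℕ) = X := by
    rw [hX]; push_cast; ring
  have heval := eval_le t' (((m + 1 + k0) * b) ^ K') (m + k0) b (by omega) htH' htd'
  have heval2 : |((t'.eval (b : ℤ) : ℤ) : ℝ)| ≤ X * (b : ℝ) ^ (m + k0) := by
    rw [← hXe]
    exact_mod_cast heval
  obtain ⟨Q, hQ⟩ : ∃ Q : ℕ, Q = (t'.eval (b : ℤ)).natAbs := ⟨_, rfl⟩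
  have hQR : (Q : ℝ) = |((t'.eval (b : ℤ) : ℤ) : ℝ)| := by
    rw [hQ, Nat.cast_natAbs, Int.cast_abs]
  have hq1 : 1 ≤ Q := by rw [hQ]; exact Int.natAbs_pos.2 ht0'
  have hQp : (0 : ℝ) < Q := by exact_mod_cast hq1
  have hM1b : M1 b m k0 K' * Real.log b ≤ (m + 15 * err m) * Real.log b :=
    mul_le_mul_of_nonneg_right hpar1 hlb0.le
  have hlogQ : Real.log Q ≤ M1 b m k0 K' * Real.log b := by
    have h1 : Real.log Q ≤ Real.log (X * (b : ℝ) ^ (m + k0)) :=
      Real.log_le_log hQp (by rw [hQR]; exact heval2)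
    rw [Real.log_mul hX0.ne' (by positivity), Real.log_pow] at h1
    push_cast at h1
    linarith
  have hbp : (0 : ℝ) < (b : ℝ) ^ (l - (m + k0)) := by positivity
  have happ : ∀ j, ∃ p : ℤ, |(Q : ℝ) * (∑ i ∈ range l, (s j (i + 1) : ℝ) / (b : ℝ) ^ (i + 1)) - p| ≤
      X * b / (b : ℝ) ^ (l - (m + k0)) := by
    intro j
    obtain ⟨p, hp⟩ := approxS b (((m + 1 + k0) * b) ^ K') (l - (m + k0)) (m + k0) l b
      (fun i => s j (i + 1)) t' hb htH' htd' (htr' j) (fun i => hs j _) hL (by omega)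
    rw [hXe] at hp
    have hsg : ∃ p' : ℤ, |(Q : ℝ) * (∑ i ∈ range l, (s j (i + 1) : ℝ) / (b : ℝ) ^ (i + 1)) - p'| =
        |((t'.eval (b : ℤ) : ℤ) : ℝ) * (∑ i ∈ range l, (s j (i + 1) : ℝ) / (b : ℝ) ^ (i + 1)) - p| := by
      rcases abs_cases ((t'.eval (b : ℤ) : ℤ) : ℝ) with ⟨h1, _⟩ | ⟨h1, _⟩
      · exact ⟨p, by rw [hQR, h1]⟩
      · refine ⟨-p, ?_⟩
        rw [hQR, h1, ← abs_neg]
        congr 1
        push_cast
        ring
    obtain ⟨p', hp'⟩ := hsg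
    refine ⟨p', ?_⟩
    rw [hp', le_div_iff₀ hbp]
    exact hp
  choose p hp using happ
  refine ⟨Q, p, hq1, hlogQ.trans hM1b, fun j => (hp j).trans ?_⟩
  have h1 : X * b / (b : ℝ) ^ (l - (m + k0)) =
      b * Real.exp (M1 b m k0 K' * Real.log b - l * Real.log b) := by
    have h2 : M1 b m k0 K' * Real.log b - l * Real.log b =
        Real.log (X / (b : ℝ) ^ (l - (m + k0))) := by
      rw [Real.log_div hX0.ne' hbp.ne', Real.log_pow, h3', h8]
      ring
    rw [h2, Real.exp_log (by positivity)]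
    ring
  rw [h1]
  exact mul_le_mul_of_nonneg_left (Real.exp_le_exp.2 (by linarith)) hb0.le

/-- the `i`-th digit of `q` from the left in base `b` -/
def dL (b q i : ℕ) : ℕ := q / b ^ (Nat.log b q + 1 - i) % b

lemma expandN (b q : ℕ) (hb : 2 ≤ b) (w : ℕ) : ∀ l : ℕ, w + l ≤ Nat.log b q + 1 →
    ((q / b ^ (Nat.log b q + 1 - (w + l)) : ℕ) : ℝ) = (b : ℝ) ^ l *
      (((q / b ^ (Nat.log b q + 1 - w) : ℕ) : ℝ) +
        ∑ i ∈ range l, (dL b q (w + (i + 1)) : ℝ) / (b : ℝ) ^ (i + 1)) := by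
  have hbR : (2 : ℝ) ≤ b := by exact_mod_cast hb
  have hb0 : (0 : ℝ) < b := by linarith
  intro l
  induction l with
  | zero => intro _; simp
  | succ l ih =>
    intro hl
    have h1 := ih (by omega)
    obtain ⟨k, hk⟩ : ∃ k, Nat.log b q + 1 - (w + (l + 1)) = k := ⟨_, rfl⟩
    have hk' : Nat.log b q + 1 - (w + l) = k + 1 := by omega
    rw [hk'] at h1
    rw [hk, Finset.sum_range_succ]
    have h2 : q / b ^ k = b * (q / b ^ (k + 1)) + dL b q (w + (l + 1)) := by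
      unfold dL
      rw [hk, pow_succ, ← Nat.div_div_eq_div_mul]
      exact (Nat.div_add_mod _ _).symm
    have h3 : ((q / b ^ k : ℕ) : ℝ) = b * ((q / b ^ (k + 1) : ℕ) : ℝ) + dL b q (w + (l + 1)) := by
      rw [h2]; push_cast; rfl
    rw [h3, h1]
    have h4 : (b : ℝ) ^ (l + 1) * ((dL b q (w + (l + 1)) : ℝ) / (b : ℝ) ^ (l + 1)) =
        dL b q (w + (l + 1)) := by field_simp
    have h5 : ∀ C S d : ℝ, (b : ℝ) ^ (l + 1) * (C + (S + d / (b : ℝ) ^ (l + 1))) =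
        (b : ℝ) ^ (l + 1) * (C + S) + (b : ℝ) ^ (l + 1) * (d / (b : ℝ) ^ (l + 1)) :=
      fun C S d => by ring
    rw [h5, h4, pow_succ]
    ring

/-- a multiple of `q` from a recurrence for a window of digits of `q` -/
theorem intRel (b q : ℕ) (hb : 2 ≤ b) (w l m : ℕ) (c : ℕ → ℚ)
    (hwl : w + l ≤ Nat.log b q + 1)
    (hrec : Recurrence (fun i => (dL b q (w + i) : ℤ)) c l m) :
    (l : ℝ) ≤ m + 15 * err m + 3 ∨ ∃ (T : ℕ) (X Z : ℤ), 1 ≤ T ∧
      Real.log T ≤ (m + 15 * err m) * Real.log b ∧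
      (T : ℝ) * q = X + (b : ℝ) ^ (Nat.log b q + 1 - w) * Z ∧
      |(X : ℝ)| ≤ 2 * b * Real.exp ((m + 15 * err m + (Nat.log b q + 1 - w - l : ℕ)) *
        Real.log b) := by
  have hbR : (2 : ℝ) ≤ b := by exact_mod_cast hb
  have hb0 : (0 : ℝ) < b := by linarith
  have hlb0 : 0 < Real.log b := Real.log_pos (by linarith)
  rcases relation 1 b hb (fun _ i => (dL b q (w + i) : ℤ)) c l m (fun _ i => by
    rw [abs_of_nonneg (by positivity)]
    unfold dL
    exact_mod_cast (Nat.mod_lt _ (by omega)).le) (fun _ => hrec) with h | ⟨T, p, hT1, hTlog, hp⟩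
  · exact Or.inl h
  right
  obtain ⟨M, hM⟩ : ∃ M : ℝ, M = m + 15 * err m := ⟨_, rfl⟩
  rw [← hM] at hTlog hp ⊢
  obtain ⟨N, hN⟩ : ∃ N, N = Nat.log b q + 1 := ⟨_, rfl⟩
  obtain ⟨u, hu⟩ : ∃ u, u = N - w - l := ⟨_, rfl⟩
  have hexp := expandN b q hb w l hwl
  rw [← hN] at hexp hwl ⊢
  rw [← hu]
  have hNwl : N - (w + l) = u := by omega
  have hNw : N - w = u + l := by omega
  rw [hNwl, hNw] at hexp
  rw [hNw]
  obtain ⟨y, hy⟩ : ∃ y : ℝ, y = ∑ i ∈ range l, (dL b q (w + (i + 1)) : ℝ) / (b : ℝ) ^ (i + 1) :=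
    ⟨_, rfl⟩
  have hp0 := hp 0
  have hcast : ∑ i ∈ range l, (((dL b q (w + (i + 1)) : ℕ) : ℤ) : ℝ) / (b : ℝ) ^ (i + 1) = y := by
    rw [hy]
    exact Finset.sum_congr rfl fun i _ => by push_cast; rfl
  rw [hcast] at hp0
  rw [← hy] at hexp
  obtain ⟨C, hC⟩ : ∃ C : ℕ, C = q / b ^ (u + l) := ⟨_, rfl⟩
  obtain ⟨V, hV⟩ : ∃ V : ℕ, V = q / b ^ u := ⟨_, rfl⟩
  obtain ⟨A, hAd⟩ : ∃ A : ℕ, A = q % b ^ u := ⟨_, rfl⟩
  rw [← hC, ← hV] at hexp
  have hq : (q : ℝ) = (b : ℝ) ^ u * (V : ℝ) + (A : ℝ) := by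
    rw [hV, hAd]
    exact_mod_cast (Nat.div_add_mod q (b ^ u)).symm
  have hA : (A : ℝ) ≤ (b : ℝ) ^ u := by
    rw [hAd]
    exact_mod_cast (Nat.mod_lt _ (pow_pos (by omega) u)).le
  have hA0 : (0 : ℝ) ≤ (A : ℝ) := Nat.cast_nonneg _
  have hTR : (1 : ℝ) ≤ T := by exact_mod_cast hT1
  have hTexp : (T : ℝ) ≤ Real.exp (M * Real.log b) :=
    (Real.log_le_iff_le_exp (by linarith)).1 hTlog
  refine ⟨T, (T : ℤ) * q - (b : ℤ) ^ (u + l) * ((T : ℤ) * (C : ℤ) + p 0),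
    (T : ℤ) * (C : ℤ) + p 0, hT1, hTlog, by push_cast; ring, ?_⟩
  push_cast
  have h1 : (T : ℝ) * q - (b : ℝ) ^ (u + l) * ((T : ℝ) * C + p 0) =
      (b : ℝ) ^ (u + l) * (T * y - p 0) + T * A := by
    rw [hq, hexp, pow_add]
    ring
  rw [h1]
  refine (abs_add_le _ _).trans ?_
  have h2 : |(b : ℝ) ^ (u + l) * (T * y - p 0)| ≤ b * Real.exp ((M + u) * Real.log b) := by
    rw [abs_mul, abs_of_pos (by positivity)]
    refine (mul_le_mul_of_nonneg_left hp0 (by positivity)).trans (le_of_eq ?_)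
    have h3 : (b : ℝ) ^ (u + l) = Real.exp (((u + l : ℕ) : ℝ) * Real.log b) := by
      rw [Real.exp_nat_mul, Real.exp_log hb0]
    rw [h3, mul_left_comm, ← Real.exp_add]
    congr 2
    push_cast
    ring
  have h3 : |(T : ℝ) * A| ≤ b * Real.exp ((M + u) * Real.log b) := by
    rw [abs_of_nonneg (by positivity)]
    have h4 : (T : ℝ) * A ≤ Real.exp (M * Real.log b) * (b : ℝ) ^ u :=
      mul_le_mul hTexp hA hA0 (Real.exp_pos _).le
    have h5 : Real.exp (M * Real.log b) * (b : ℝ) ^ u = Real.exp ((M + u) * Real.log b) := by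
      have h6 : (b : ℝ) ^ u = Real.exp ((u : ℝ) * Real.log b) := by
        rw [Real.exp_nat_mul, Real.exp_log hb0]
      rw [h6, ← Real.exp_add]
      congr 1
      ring
    rw [h5] at h4
    have h7 := Real.exp_pos ((M + u) * Real.log b)
    nlinarith
  linarith

end Pool.Agent.V1189.RT
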