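import Pool.Agent.V1189.RT.GStepE
import Pool.Agent.V1189.RT.IntDigits
import Pool.Agent.V1189.RT.Good

/-!
# Joint linear complexity of disjoint windows of digits of algebraic numbers

Author: helper89.
-/

set_option autoImplicit false

namespace Pool.Agent.V1189.RT

open Finset Filter Topology
open Pool.Agent.W47.JL
open Pool.Agent.Results.MP_a49cf6_nt.DigitRecurrences (Recurrence digit)

/-- a multiplier `T` with all `T b ^ w α` close to integers -/
theorem winRelA (R b : ℕ) (hb : 2 ≤ b) (α : Fin R → ℝ) (w : Fin R → ℕ) (l m : ℕ) (c : ℕ → ℚ)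
    (hrec : ∀ j, Recurrence (fun i => digit b (α j) (w j + i)) c l m) :
    (l : ℝ) ≤ m + 15 * err m + 3 ∨ ∃ (T : ℕ) (P : Fin R → ℤ), 1 ≤ T ∧
      Real.log T ≤ (m + 15 * err m) * Real.log b ∧
      ∀ j, |(T : ℝ) * (α j * (b : ℝ) ^ w j) - P j| ≤ 2 * b *
        Real.exp ((m + 15 * err m) * Real.log b - l * Real.log b) := by
  have hbR : (2 : ℝ) ≤ b := by exact_mod_cast hb
  have hb0 : (0 : ℝ) < b := by linarith
  rcases relation R b hb (fun j i => digit b (α j) (w j + i)) c l m (fun j i =>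
    Pool.Agent.Results.MP_a49cf6_nt.DigitRecurrences.dig_abs b hb (α j) (w j + i)) hrec with
    h | ⟨T, p, hT1, hTlog, hp⟩
  · exact Or.inl h
  right
  obtain ⟨M, hM⟩ : ∃ M : ℝ, M = m + 15 * err m := ⟨_, rfl⟩
  rw [← hM] at hTlog hp ⊢
  refine ⟨T, fun j => p j + T * ⌊α j * (b : ℝ) ^ w j⌋, hT1, hTlog, fun j => ?_⟩
  change |(T : ℝ) * (α j * (b : ℝ) ^ w j) - ((p j + T * ⌊α j * (b : ℝ) ^ w j⌋ : ℤ) : ℝ)| ≤ _
  have h1 := expand b hb (α j) (w j) l
  have h2 := hp j
  obtain ⟨S, hS⟩ : ∃ S : ℝ, S = ∑ i ∈ range l, (digit b (α j) (w j + (i + 1)) : ℝ) /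
    (b : ℝ) ^ (i + 1) := ⟨_, rfl⟩
  obtain ⟨F, hF⟩ : ∃ F : ℤ, F = ⌊α j * (b : ℝ) ^ w j⌋ := ⟨_, rfl⟩
  obtain ⟨θ, hθ⟩ : ∃ θ : ℝ, θ = Int.fract (α j * (b : ℝ) ^ (w j + l)) := ⟨_, rfl⟩
  have hθ0 : 0 ≤ θ := by rw [hθ]; exact Int.fract_nonneg _
  have hθ1 : θ ≤ 1 := by rw [hθ]; exact (Int.fract_lt_one _).le
  rw [← hS] at h2
  rw [← hF, ← hS, ← hθ] at h1
  rw [← hF]
  have hT0 : (0 : ℝ) < T := by exact_mod_cast hT1
  have hTe : (T : ℝ) ≤ Real.exp (M * Real.log b) := by
    rw [← Real.log_le_iff_le_exp hT0]; exact hTlog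
  have hbl : (b : ℝ) ^ l = Real.exp (l * Real.log b) := by
    rw [← Real.log_pow, Real.exp_log (by positivity)]
  have h4 : (T : ℝ) * (α j * (b : ℝ) ^ w j) - ((p j + T * F : ℤ) : ℝ) =
      (T * S - p j) + T * (θ / (b : ℝ) ^ l) := by
    rw [h1]; push_cast; ring
  rw [h4]
  refine (abs_add_le _ _).trans ?_
  have h5 : |(T : ℝ) * (θ / (b : ℝ) ^ l)| ≤ Real.exp (M * Real.log b - l * Real.log b) := by
    rw [abs_of_nonneg (by positivity), Real.exp_sub, ← hbl, mul_div_assoc']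
    refine div_le_div_of_nonneg_right ?_ (by positivity)
    nlinarith
  have h7 : 0 < Real.exp (M * Real.log b - l * Real.log b) := Real.exp_pos _
  nlinarith

theorem algWindows (n r b : ℕ) (hn : 1 ≤ n) (hr : 1 ≤ r) (hb : 2 ≤ b) (α : Fin n → ℝ)
    (halg : ∀ i, IsAlgebraic ℚ (α i))
    (hli : LinearIndependent ℚ (Fin.cons 1 α : Fin (n + 1) → ℝ)) (ε : ℝ) (hε : 0 < ε) :
    ∃ C : ℝ, 0 ≤ C ∧ ∀ (N : ℕ) (w : Fin r → ℕ) (l m : ℕ) (c : ℕ → ℚ), (∀ j, w j + l ≤ N) →
      (∀ i j, i ≠ j → w i + l ≤ w j ∨ w j + l ≤ w i) →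
      (∀ i j, Recurrence (fun q => digit b (α i) (w j + q)) c l m) →
      ((n * r : ℕ) : ℝ) * l ≤ ((n * r : ℕ) + 1) * (m + 15 * err m) + ε * N + C := by
  have hbR : (2 : ℝ) ≤ b := by exact_mod_cast hb
  obtain ⟨R, hR⟩ : ∃ R, R = n * r := ⟨_, rfl⟩
  have hR1 : 1 ≤ R := by rw [hR]; exact Nat.mul_pos hn hr
  have hRR : (1 : ℝ) ≤ R := by exact_mod_cast hR1
  subst hR
  obtain ⟨L, hL⟩ : ∃ L : ℝ, L = Real.log b := ⟨_, rfl⟩
  have hL0 : 0 < L := by rw [hL]; exact Real.log_pos (by linarith)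
  have hlog2b : 0 < Real.log (2 * b) := Real.log_pos (by linarith)
  obtain ⟨C0, hC0⟩ : ∃ C0 : ℝ, C0 = 4 * (((n * r : ℕ) : ℝ) + 1) +
    (1 + (n * r : ℕ) * Real.log (2 * b)) / L := ⟨_, rfl⟩
  have hC0b : 4 * (((n * r : ℕ) : ℝ) + 1) ≤ C0 := by
    have h1 : 0 ≤ (1 + (n * r : ℕ) * Real.log (2 * b)) / L := by positivity
    rw [hC0]; linarith
  have hC0c : 1 + (n * r : ℕ) * Real.log (2 * b) ≤ C0 * L := by
    have h1 : (1 + (n * r : ℕ) * Real.log (2 * b)) / L * L = 1 + (n * r : ℕ) * Real.log (2 * b) := by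
      field_simp
    have h3 : (1 + (n * r : ℕ) * Real.log (2 * b)) / L ≤ C0 := by rw [hC0]; linarith
    rw [← h1]
    exact mul_le_mul_of_nonneg_right h3 hL0.le
  have hC00 : 0 < C0 := by linarith
  by_contra hcon
  push Not at hcon
  have h0 : ∀ t : ℕ, ∃ (N : ℕ) (w : Fin r → ℕ) (l m : ℕ) (c : ℕ → ℚ), (∀ j, w j + l ≤ N) ∧
      (∀ i j, i ≠ j → w i + l ≤ w j ∨ w j + l ≤ w i) ∧
      (∀ i j, Recurrence (fun q => digit b (α i) (w j + q)) c l m) ∧
      ((n * r : ℕ) + 1) * (m + 15 * err m) + ε * N + (t + C0) < ((n * r : ℕ) : ℝ) * l := by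
    intro t
    obtain ⟨N, w, l, m, c, h1, h2, h3, h4⟩ := hcon (t + C0) (by positivity)
    exact ⟨N, w, l, m, c, h1, h2, h3, h4⟩
  choose N w l m c hwN hdis hrec hbad using h0
  obtain ⟨M, hM⟩ : ∃ M : ℕ → ℝ, ∀ t, M t = m t + 15 * err (m t) := ⟨_, fun t => rfl⟩
  have hM0 : ∀ t, 0 ≤ M t := fun t => by
    rw [hM]
    have := err_ge (m t)
    have h2 : (0 : ℝ) ≤ m t := Nat.cast_nonneg _
    linarith
  have hbad' : ∀ t, (((n * r : ℕ) : ℝ) + 1) * M t + ε * N t + (t + C0) < ((n * r : ℕ) : ℝ) * l t := by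
    intro t
    rw [hM]
    exact hbad t
  have hlN : ∀ t, (l t : ℝ) ≤ N t := fun t => by
    have := hwN t ⟨0, hr⟩
    exact_mod_cast (by omega : l t ≤ N t)
  have hwNR : ∀ t j, (w t j : ℝ) ≤ N t := fun t j => by
    have := hwN t j
    exact_mod_cast (by omega : w t j ≤ N t)
  have hkey : ∀ t : ℕ, (t : ℝ) + C0 ≤ ((n * r : ℕ) : ℝ) * N t := by
    intro t
    have h1 := hbad' t
    have h2 := mul_le_mul_of_nonneg_left (hlN t) (by linarith : (0 : ℝ) ≤ ((n * r : ℕ) : ℝ))
    have h3 : 0 ≤ (((n * r : ℕ) : ℝ) + 1) * M t := mul_nonneg (by linarith) (hM0 t)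
    have h4 : 0 ≤ ε * (N t : ℝ) := by positivity
    linarith
  have hR0 : (0 : ℝ) < ((n * r : ℕ) : ℝ) := by linarith
  have hNlim : Tendsto (fun t => (N t : ℝ)) atTop atTop := by
    have h1 : Tendsto (fun t : ℕ => (t : ℝ) / ((n * r : ℕ) : ℝ)) atTop atTop :=
      tendsto_natCast_atTop_atTop.atTop_div_const hR0
    refine tendsto_atTop_mono (fun t => ?_) h1
    rw [div_le_iff₀ hR0]
    have h2 := hkey t
    linarith
  have hN1 : ∀ t, (1 : ℝ) ≤ N t := by
    intro t
    have h1 := hkey t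
    have h2 : (0 : ℝ) ≤ t := Nat.cast_nonneg t
    have h3 : 0 < ((n * r : ℕ) : ℝ) * N t := by linarith
    have h4 : (0 : ℝ) < N t := pos_of_mul_pos_right h3 hR0.le
    have h5 : 0 < N t := by exact_mod_cast h4
    exact_mod_cast h5
  have hgap : ∀ t, (ε * N t + (t + C0)) ≤ (((n * r : ℕ) : ℝ) + 1) * (l t - M t) := by
    intro t
    have h1 := hbad' t
    have h2 : (0 : ℝ) ≤ l t := Nat.cast_nonneg _
    linarith
  -- the relation
  have hrel : ∀ t, ∃ (T : ℕ) (P : Fin (n * r) → ℤ), 1 ≤ T ∧ Real.log T ≤ M t * L ∧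
      ∀ k, |(T : ℝ) * (α (finProdFinEquiv.symm k).1 * (b : ℝ) ^ w t (finProdFinEquiv.symm k).2) -
        P k| ≤ 2 * b * Real.exp (M t * L - l t * L) := by
    intro t
    rcases winRelA (n * r) b hb (fun k => α (finProdFinEquiv.symm k).1)
      (fun k => w t (finProdFinEquiv.symm k).2) (l t) (m t) (c t) (fun k => hrec t _ _) with h | h
    · exfalso
      have h1 := hgap t
      rw [hM] at h1
      have h3 : (0 : ℝ) ≤ t := Nat.cast_nonneg t
      have h4 : (0 : ℝ) ≤ ε * N t := by positivity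
      have h6 : (((n * r : ℕ) : ℝ) + 1) * (l t - (m t + 15 * err (m t))) ≤
          (((n * r : ℕ) : ℝ) + 1) * 3 := mul_le_mul_of_nonneg_left (by linarith) (by linarith)
      linarith
    · obtain ⟨T, P, h1, h2, h3⟩ := h
      rw [← hM, ← hL] at h2
      refine ⟨T, P, h1, h2, fun j => ?_⟩
      have h4 := h3 j
      rw [← hM, ← hL] at h4
      exact h4
  choose T P hT1 hTlog hsmall using hrel
  have hTR : ∀ t, (1 : ℝ) ≤ T t := fun t => by exact_mod_cast hT1 t
  have hlT : ∀ t, 0 ≤ Real.log (T t) := fun t => Real.log_nonneg (hTR t)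
  have hMl : ∀ t, M t ≤ l t := fun t => by
    have h1 := hgap t
    have h3 : (0 : ℝ) ≤ t := Nat.cast_nonneg t
    have h4 : (0 : ℝ) ≤ ε * N t := by positivity
    have h6 : 0 ≤ (((n * r : ℕ) : ℝ) + 1) * (l t - M t) := by linarith
    have h7 : 0 ≤ (l t : ℝ) - M t := nonneg_of_mul_nonneg_right h6 (by linarith)
    linarith
  have hlL : ∀ t, l t * L ≤ N t * L := fun t => mul_le_mul_of_nonneg_right (hlN t) hL0.le
  have hML : ∀ t, M t * L ≤ l t * L := fun t => mul_le_mul_of_nonneg_right (hMl t) hL0.le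
  have hML0 : ∀ t, 0 ≤ M t * L := fun t => mul_nonneg (hM0 t) hL0.le
  have hl0 : ∀ t, (0 : ℝ) ≤ l t * L := fun t => by positivity
  have hN0 : ∀ t, (0 : ℝ) ≤ N t * L := fun t => by positivity
  have hlogn : ∀ t, Real.log (2 * b) ≤ Real.log (2 * b) * N t := fun t =>
    le_mul_of_one_le_right hlog2b.le (hN1 t)
  have hbl : ∀ k : ℕ, (b : ℝ) ^ k = Real.exp (k * L) := by
    intro k
    rw [hL, ← Real.log_pow, Real.exp_log (by positivity)]
  -- `V = N`
  obtain ⟨e, he⟩ : ∃ e : ℕ → Fin (n * r) → ℕ, ∀ t k, e t k = N t - w t (finProdFinEquiv.symm k).2 :=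
    ⟨_, fun t k => rfl⟩
  have heN : ∀ t k, e t k + w t (finProdFinEquiv.symm k).2 = N t := fun t k => by
    have := hwN t (finProdFinEquiv.symm k).2
    rw [he]; omega
  have heL : ∀ t k, (e t k : ℝ) * L ≤ N t * L := fun t k => by
    have := heN t k
    exact mul_le_mul_of_nonneg_right (by exact_mod_cast (by omega : e t k ≤ N t)) hL0.le
  have heL0 : ∀ t k, 0 ≤ (e t k : ℝ) * L := fun t k => by positivity
  have hsmall2 : ∀ t k, |α (finProdFinEquiv.symm k).1 * ((b : ℝ) ^ N t * T t) -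
      (b : ℝ) ^ e t k * P t k| ≤ 2 * b * Real.exp (M t * L - l t * L + e t k * L) := by
    intro t k
    have h1 : α (finProdFinEquiv.symm k).1 * ((b : ℝ) ^ N t * T t) - (b : ℝ) ^ e t k * P t k =
        (b : ℝ) ^ e t k * ((T t : ℝ) * (α (finProdFinEquiv.symm k).1 *
          (b : ℝ) ^ w t (finProdFinEquiv.symm k).2) - P t k) := by
      rw [← heN t k, pow_add]; ring
    rw [h1, abs_mul, abs_of_pos (by positivity : (0 : ℝ) < (b : ℝ) ^ e t k)]
    refine (mul_le_mul_of_nonneg_left (hsmall t k) (by positivity)).trans (le_of_eq ?_)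
    rw [hbl, Real.exp_add]
    ring
  obtain ⟨c2, hc2⟩ : ∃ c2 : ℝ, c2 = 4 * L + Real.log (2 * b) + 1 := ⟨_, rfl⟩
  have hc21 : 1 ≤ c2 := by rw [hc2]; linarith
  obtain ⟨v, y, hvy, hfreq⟩ := gstepE (n * r) 1 1 (by omega)
    (fun k _ => α (finProdFinEquiv.symm k).1)
    (fun k _ => halg _) (fun _ => b) (fun _ => by omega) c2 (ε * L) hc21 (by positivity)
    (fun t => (N t : ℝ)) hNlim (fun t _ _ => N t) (fun t _ => b ^ N t)
    (fun t _ => by simp) (fun t _ k => e t k) (fun t k => b ^ e t k)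
    (fun t k => by simp) (fun t _ => (T t : ℕ)) (fun t => P t)
    (fun t => Or.inl fun h => by
      have h1 : ((T t : ℕ) : ℤ) = 0 := congrFun h 0
      have h2 := hT1 t
      omega)
    (fun t _ => (b : ℝ) ^ N t * T t)
    (fun t k => 2 * b * Real.exp (M t * L - l t * L + e t k * L)) (fun t _ => by
      have := hTR t
      positivity) (fun t _ => by positivity) (fun t _ => by
      have h1 := hTR t
      rw [Real.log_mul (by positivity) (by positivity), Real.log_pow, ← hL, abs_of_nonneg (by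
          have := hlT t
          have := hN0 t
          linarith)]
      have h3 := hTlog t
      have h4 := hML t
      have h5 := hlL t
      have h6 := hlogn t
      have h7 := hN0 t
      have h8 := hN1 t
      rw [hc2]
      nlinarith) (fun t k => by
      rw [Real.log_mul (by positivity) (Real.exp_ne_zero _), Real.log_exp]
      have h3 := heL t k
      have h3' := heL0 t k
      have h4 := hML t
      have h4' := hML0 t
      have h5 := hlL t
      have h6 := hlogn t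
      have h7 := hN0 t
      have h8 := hN1 t
      rw [abs_le, hc2]
      constructor <;> nlinarith) (fun t _ => by
      push_cast
      rw [Real.log_pow, ← hL]
      have h6 := hlogn t
      have h7 := hN0 t
      have h8 := hN1 t
      rw [hc2]
      nlinarith) (fun t k => by
      push_cast
      rw [Real.log_pow, ← hL]
      have h3 := heL t k
      have h6 := hlogn t
      have h7 := hN0 t
      have h8 := hN1 t
      rw [hc2]
      nlinarith) (fun t _ => by
      push_cast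
      rw [abs_of_nonneg (by positivity)]) (fun t k => by
      have h4 := hsmall2 t k
      rw [Fin.sum_univ_one]
      push_cast
      exact h4) (fun t => by
      have h1 := hTR t
      have h3 : ∀ k : Fin (n * r), Real.log (2 * b * Real.exp (M t * L - l t * L + e t k * L)) =
          (Real.log (2 * b) + (M t * L - l t * L)) + e t k * L := by
        intro k
        rw [Real.log_mul (by positivity) (Real.exp_ne_zero _), Real.log_exp]
        ring
      rw [Fin.sum_univ_one, Fin.sum_univ_one, Finset.sum_congr rfl fun j _ => h3 j,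
        Finset.sum_add_distrib, Finset.sum_const, Finset.card_univ, Fintype.card_fin, nsmul_eq_mul]
      have h4 : ∀ k : Fin (n * r), Real.log ((b ^ e t k : ℕ) : ℝ) = e t k * L := by
        intro k
        push_cast
        rw [Real.log_pow, hL]
      rw [Finset.sum_congr rfl fun j _ => h4 j]
      rw [Real.log_mul (by positivity) (by positivity), Nat.cast_pow (α := ℝ) b (N t)]
      have h5 := hTlog t
      have h6 := mul_le_mul_of_nonneg_right (hbad' t).le hL0.le
      have h8 : (0 : ℝ) ≤ (t : ℝ) * L := by positivity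
      linarith)
  simp only [Fin.sum_univ_one, Fin.isValue] at hfreq
  -- constants
  obtain ⟨K, hK⟩ : ∃ K : ℝ, K = ∑ k, |(v k : ℝ)| + 1 := ⟨_, rfl⟩
  have hK1 : 1 ≤ K := by
    rw [hK]
    have : 0 ≤ ∑ k, |(v k : ℝ)| := Finset.sum_nonneg fun j _ => abs_nonneg _
    linarith
  obtain ⟨s, hs⟩ : ∃ s : Fin n → ℤ, ∀ i, s i = ∑ j, v (finProdFinEquiv (i, j)) := ⟨_, fun i => rfl⟩
  obtain ⟨θ, hθ⟩ : ∃ θ : ℝ, θ = ∑ i, (s i : ℝ) * α i + y 0 := ⟨_, rfl⟩
  have hsumα : ∑ k, (v k : ℝ) * α (finProdFinEquiv.symm k).1 = ∑ i, (s i : ℝ) * α i := by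
    rw [← Equiv.sum_comp finProdFinEquiv, Fintype.sum_prod_type]
    refine Finset.sum_congr rfl fun i _ => ?_
    rw [hs]
    push_cast
    rw [Finset.sum_mul]
    exact Finset.sum_congr rfl fun j _ => by rw [Equiv.symm_apply_apply]
  have hid : ∀ t, ∑ k, (v k : ℝ) * (((b ^ e t k : ℕ) : ℝ) * P t k) + (y 0 : ℝ) *
      (((b ^ N t : ℕ) : ℝ) * (((T t : ℕ) : ℤ) : ℝ)) = 0 →
      θ * ((b : ℝ) ^ N t * T t) = ∑ k, (v k : ℝ) * (α (finProdFinEquiv.symm k).1 *
        ((b : ℝ) ^ N t * T t) - (b : ℝ) ^ e t k * P t k) := by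
    intro t h
    have h1 : ∑ k, (v k : ℝ) * (α (finProdFinEquiv.symm k).1 * ((b : ℝ) ^ N t * T t) -
        (b : ℝ) ^ e t k * P t k) = (∑ k, (v k : ℝ) * α (finProdFinEquiv.symm k).1) *
        ((b : ℝ) ^ N t * T t) - ∑ k, (v k : ℝ) * (((b ^ e t k : ℕ) : ℝ) * P t k) := by
      rw [Finset.sum_mul, ← Finset.sum_sub_distrib]
      exact Finset.sum_congr rfl fun k _ => by push_cast; ring
    rw [h1, hsumα, hθ]
    push_cast at h ⊢
    linarith
  have hsum : ∀ t (J : Finset (Fin (n * r))) (x : ℝ), (∀ k ∈ J, e t k * L ≤ x) →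
      |∑ k ∈ J, (v k : ℝ) * (α (finProdFinEquiv.symm k).1 *
        ((b : ℝ) ^ N t * T t) - (b : ℝ) ^ e t k * P t k)| ≤
      K * (2 * b * Real.exp (M t * L - l t * L + x)) := by
    intro t J x hx
    refine (Finset.abs_sum_le_sum_abs _ _).trans ?_
    have h1 : ∀ k ∈ J, |(v k : ℝ) * (α (finProdFinEquiv.symm k).1 *
        ((b : ℝ) ^ N t * T t) - (b : ℝ) ^ e t k * P t k)| ≤
        |(v k : ℝ)| * (2 * b * Real.exp (M t * L - l t * L + x)) := by
      intro k hk
      rw [abs_mul]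
      refine mul_le_mul_of_nonneg_left ((hsmall2 t k).trans ?_) (abs_nonneg _)
      refine mul_le_mul_of_nonneg_left (Real.exp_le_exp.2 ?_) (by positivity)
      have := hx k hk
      linarith
    refine (Finset.sum_le_sum h1).trans ?_
    rw [← Finset.sum_mul]
    refine mul_le_mul_of_nonneg_right ?_ (by positivity)
    rw [hK]
    have h2 : ∑ j ∈ J, |(v j : ℝ)| ≤ ∑ j, |(v j : ℝ)| :=
      Finset.sum_le_sum_of_subset_of_nonneg (Finset.subset_univ J) fun j _ _ => abs_nonneg _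
    linarith
  have hlogY : ∀ t (x : ℝ), Real.log (K * (2 * b * Real.exp (M t * L - l t * L + x))) =
      Real.log (2 * b * K) + (M t * L - l t * L + x) := by
    intro t x
    rw [show K * (2 * b * Real.exp (M t * L - l t * L + x)) =
      2 * b * K * Real.exp (M t * L - l t * L + x) by ring,
      Real.log_mul (by positivity) (Real.exp_ne_zero _), Real.log_exp]
  obtain ⟨δ', hδ'⟩ : ∃ δ' : ℝ, δ' = ε * L / (((n * r : ℕ) : ℝ) + 1) := ⟨_, rfl⟩
  have hδ'0 : 0 < δ' := by rw [hδ']; positivity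
  have hgapL : ∀ (K2 : ℝ) (t : ℕ), (((n * r : ℕ) : ℝ) + 1) / L * K2 ≤ (t : ℝ) →
      δ' * N t + K2 ≤ (l t - M t) * L := by
    intro K2 t ht
    have h1 := hgap t
    have h5 : ε * N t + (((n * r : ℕ) : ℝ) + 1) / L * K2 ≤
        (((n * r : ℕ) : ℝ) + 1) * (l t - M t) := by linarith
    have h6 := mul_le_mul_of_nonneg_right h5
      (by positivity : (0 : ℝ) ≤ L / (((n * r : ℕ) : ℝ) + 1))
    have h7 : (ε * N t + (((n * r : ℕ) : ℝ) + 1) / L * K2) * (L / (((n * r : ℕ) : ℝ) + 1)) =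
        δ' * N t + K2 := by
      rw [hδ']; field_simp
    have h8 : (((n * r : ℕ) : ℝ) + 1) * (l t - M t) * (L / (((n * r : ℕ) : ℝ) + 1)) =
        (l t - M t) * L := by field_simp
    rw [h7, h8] at h6
    exact h6
  have hevt : ∀ K2 : ℝ, ∀ᶠ t : ℕ in atTop, (((n * r : ℕ) : ℝ) + 1) / L * K2 ≤ (t : ℝ) := fun K2 =>
    tendsto_natCast_atTop_atTop.eventually (eventually_ge_atTop _)
  -- the coefficients of `α` vanish
  have hθ0 : s = 0 ∧ y 0 = 0 := by
    by_contra hne
    have hθne : θ ≠ 0 := by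
      by_cases hs0 : s = 0
      · have hy0 : y 0 ≠ 0 := fun h => hne ⟨hs0, h⟩
        rw [hθ, hs0]
        simp only [Pi.zero_apply, Int.cast_zero, zero_mul, Finset.sum_const_zero, zero_add]
        exact_mod_cast hy0
      · have h1 := irr α hli s hs0 (y 0)
        rw [hθ, add_comm]
        exact h1.ne_zero
    obtain ⟨t, hrelt, hlarge⟩ := (hfreq.and_eventually
      (hevt (Real.log (2 * b * K) - Real.log |θ| + 1))).exists
    have h1 := hid t hrelt
    have h2 := hsum t univ (N t * L) fun k _ => heL t k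
    rw [← h1, abs_mul, abs_of_nonneg (by positivity : (0 : ℝ) ≤ (b : ℝ) ^ N t * T t)] at h2
    have h3 := hTR t
    have h4 := Real.log_le_log (by positivity) h2
    rw [hlogY, Real.log_mul (by positivity) (by positivity),
      Real.log_mul (by positivity) (by positivity), Real.log_pow, ← hL] at h4
    have h5 := hgapL _ t hlarge
    have h6 := hlT t
    have h7 : 0 ≤ δ' * N t := by positivity
    linarith
  obtain ⟨hs0, hy0⟩ := hθ0
  have hv0 : v ≠ 0 := by
    rcases hvy with h | h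
    · exact h
    · exact absurd (funext fun i => by rw [Fin.fin_one_eq_zero i]; exact hy0) h
  obtain ⟨k1, hk1⟩ : ∃ j, v j ≠ 0 := by
    by_contra h
    push Not at h
    exact hv0 (funext h)
  have hθz : θ = 0 := by rw [hθ, hs0, hy0]; simp
  -- the first window
  have htop : ∀ t : ℕ, (∑ k, (v k : ℝ) * (((b ^ e t k : ℕ) : ℝ) * P t k) + (y 0 : ℝ) *
      (((b ^ N t : ℕ) : ℝ) * (((T t : ℕ) : ℤ) : ℝ)) = 0) → 0 < l t →
      ∃ j0 : Fin r, (∃ i, v (finProdFinEquiv (i, j0)) ≠ 0) ∧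
      |∑ i, (v (finProdFinEquiv (i, j0)) : ℝ) * (α i * ((b : ℝ) ^ N t * T t) -
        (b : ℝ) ^ (N t - w t j0) * P t (finProdFinEquiv (i, j0)))| ≤
        K * (2 * b * Real.exp (M t * L - l t * L + (((N t - w t j0 : ℕ) : ℝ) * L - l t * L))) := by
    intro t hrelt hlt
    obtain ⟨k0, hk0, hmin⟩ := Finset.exists_min_image (univ.filter fun k => v k ≠ 0)
      (fun k => w t (finProdFinEquiv.symm k).2) ⟨k1, by simp [hk1]⟩
    rw [mem_filter] at hk0
    obtain ⟨j0, hj0⟩ : ∃ j0, j0 = (finProdFinEquiv.symm k0).2 := ⟨_, rfl⟩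
    refine ⟨j0, ⟨(finProdFinEquiv.symm k0).1, ?_⟩, ?_⟩
    · have h1 : finProdFinEquiv ((finProdFinEquiv.symm k0).1, j0) = k0 := by
        rw [hj0]; exact Equiv.apply_symm_apply finProdFinEquiv k0
      rw [h1]; exact hk0.2
    have h1 := hid t hrelt
    rw [hθz, zero_mul, ← Finset.sum_filter_add_sum_filter_not univ
      (fun k => (finProdFinEquiv.symm k).2 = j0)] at h1
    have h2 : ∑ k ∈ univ.filter (fun k : Fin (n * r) => (finProdFinEquiv.symm k).2 = j0),
        (v k : ℝ) * (α (finProdFinEquiv.symm k).1 *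
        ((b : ℝ) ^ N t * T t) - (b : ℝ) ^ e t k * P t k) =
        ∑ i, (v (finProdFinEquiv (i, j0)) : ℝ) * (α i * ((b : ℝ) ^ N t * T t) -
        (b : ℝ) ^ (N t - w t j0) * P t (finProdFinEquiv (i, j0))) := by
      symm
      refine Finset.sum_bij (fun i _ => finProdFinEquiv (i, j0)) (fun i _ => ?_) (fun i _ i' _ h => ?_)
        (fun k hk => ?_) (fun i _ => ?_)
      · rw [mem_filter, Equiv.symm_apply_apply]
        exact ⟨mem_univ _, rfl⟩
      · have := finProdFinEquiv.injective h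
        exact (Prod.mk.inj this).1
      · rw [mem_filter] at hk
        refine ⟨(finProdFinEquiv.symm k).1, mem_univ _, ?_⟩
        rw [← hk.2]
        exact Equiv.apply_symm_apply finProdFinEquiv k
      · rw [he, Equiv.symm_apply_apply]
    rw [h2] at h1
    have h3 : ∑ i, (v (finProdFinEquiv (i, j0)) : ℝ) * (α i * ((b : ℝ) ^ N t * T t) -
        (b : ℝ) ^ (N t - w t j0) * P t (finProdFinEquiv (i, j0))) =
        -∑ k ∈ (univ.filter (fun k : Fin (n * r) => ¬ (finProdFinEquiv.symm k).2 = j0)).filter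
          (fun k => v k ≠ 0),
        (v k : ℝ) * (α (finProdFinEquiv.symm k).1 *
        ((b : ℝ) ^ N t * T t) - (b : ℝ) ^ e t k * P t k) := by
      have h4 : ∑ k ∈ (univ.filter (fun k : Fin (n * r) => ¬ (finProdFinEquiv.symm k).2 = j0)).filter
          (fun k => v k ≠ 0), (v k : ℝ) * (α (finProdFinEquiv.symm k).1 *
          ((b : ℝ) ^ N t * T t) - (b : ℝ) ^ e t k * P t k) =
          ∑ k ∈ univ.filter (fun k : Fin (n * r) => ¬ (finProdFinEquiv.symm k).2 = j0),
          (v k : ℝ) * (α (finProdFinEquiv.symm k).1 *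
          ((b : ℝ) ^ N t * T t) - (b : ℝ) ^ e t k * P t k) := by
        refine Finset.sum_filter_of_ne fun k _ hk hv => hk ?_
        rw [hv]; simp
      rw [h4]
      linarith
    rw [h3, abs_neg]
    refine hsum t _ _ fun k hk => ?_
    rw [mem_filter, mem_filter] at hk
    have h5 := hmin k (by rw [mem_filter]; exact ⟨mem_univ k, hk.2⟩)
    change w t (finProdFinEquiv.symm k0).2 ≤ w t (finProdFinEquiv.symm k).2 at h5
    rw [← hj0] at h5
    have h6 : w t j0 + l t ≤ w t (finProdFinEquiv.symm k).2 := by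
      rcases hdis t (finProdFinEquiv.symm k).2 j0 hk.1.2 with h | h
      · omega
      · exact h
    have h7 : e t k + l t ≤ N t - w t j0 := by
      have := hwN t (finProdFinEquiv.symm k).2
      rw [he]; omega
    have h8 : (e t k : ℝ) + l t ≤ ((N t - w t j0 : ℕ) : ℝ) := by exact_mod_cast h7
    have h9 := mul_le_mul_of_nonneg_right h8 hL0.le
    linarith
  -- one window infinitely often
  have hfix : ∃ j0 : Fin r, (∃ i, v (finProdFinEquiv (i, j0)) ≠ 0) ∧ ∃ᶠ t in atTop,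
      |∑ i, (v (finProdFinEquiv (i, j0)) : ℝ) * (α i * ((b : ℝ) ^ N t * T t) -
        (b : ℝ) ^ (N t - w t j0) * P t (finProdFinEquiv (i, j0)))| ≤
        K * (2 * b * Real.exp (M t * L - l t * L + (((N t - w t j0 : ℕ) : ℝ) * L - l t * L))) ∧
      (((n * r : ℕ) : ℝ) + 1) / L * (Real.log (2 * b * K) + 2 + ε * L) ≤ (t : ℝ) := by
    by_contra hno
    push Not at hno
    have h1 : ∀ᶠ t in atTop, ∀ j0 : Fin r, (∃ i, v (finProdFinEquiv (i, j0)) ≠ 0) →
        ¬ (|∑ i, (v (finProdFinEquiv (i, j0)) : ℝ) * (α i * ((b : ℝ) ^ N t * T t) -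
        (b : ℝ) ^ (N t - w t j0) * P t (finProdFinEquiv (i, j0)))| ≤
        K * (2 * b * Real.exp (M t * L - l t * L + (((N t - w t j0 : ℕ) : ℝ) * L - l t * L))) ∧
      (((n * r : ℕ) : ℝ) + 1) / L * (Real.log (2 * b * K) + 2 + ε * L) ≤ (t : ℝ)) := by
      rw [Filter.eventually_all]
      intro j0
      by_cases hj : ∃ i, v (finProdFinEquiv (i, j0)) ≠ 0
      · exact (hno j0 hj).mono fun t ht _ h => absurd h.2 (not_le.2 (ht h.1))
      · exact Filter.Eventually.of_forall fun t h => absurd h hj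
    obtain ⟨t, ⟨hrelt, hlarge⟩, hnot⟩ := ((hfreq.and_eventually
      (hevt (Real.log (2 * b * K) + 2 + ε * L))).and_eventually h1).exists
    have hlt : 0 < l t := by
      have h2 := hgapL _ t hlarge
      have h3 : 0 ≤ Real.log (2 * b * K) := Real.log_nonneg (by nlinarith)
      have h4 : 0 ≤ δ' * N t := by positivity
      have h5 := hML0 t
      have h6 : 0 < (l t : ℝ) * L := by
        have : 0 < ε * L := by positivity
        linarith
      have h7 : (0 : ℝ) < l t := pos_of_mul_pos_left h6 hL0.le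
      exact_mod_cast h7
    obtain ⟨j0, hj0, hle⟩ := htop t hrelt hlt
    exact hnot j0 hj0 ⟨hle, hlarge⟩
  obtain ⟨j0, ⟨i0, hi0⟩, hfr⟩ := hfix
  obtain ⟨φ, hφ, hφP⟩ := extraction_of_frequently_atTop hfr
  obtain ⟨β, hβ⟩ : ∃ β : ℝ, β = ∑ i, (v (finProdFinEquiv (i, j0)) : ℝ) * α i := ⟨_, rfl⟩
  have hβirr : ∀ z : ℤ, Irrational ((z : ℝ) + β) := fun z => by
    rw [hβ]
    exact irr α hli (fun i => v (finProdFinEquiv (i, j0))) (fun h => hi0 (congrFun h i0)) z
  have hβalg : IsAlgebraic ℚ β := by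
    rw [hβ, ← mem_algebraicClosure_iff]
    exact sum_mem fun i _ => mul_mem (intCast_mem _ _) (mem_algebraicClosure_iff.2 (halg i))
  have hlog2bK : 0 ≤ Real.log (2 * b * K) := Real.log_nonneg (by nlinarith)
  have hβ1 : ∀ k, |β * ((b : ℝ) ^ w (φ k) j0 * T (φ k)) -
      ((∑ i, v (finProdFinEquiv (i, j0)) * P (φ k) (finProdFinEquiv (i, j0)) : ℤ) : ℝ)| ≤
      K * (2 * b * Real.exp (M (φ k) * L - l (φ k) * L + -(l (φ k) * L))) := by
    intro k
    have h1 := (hφP k).1
    have h2 := hwN (φ k) j0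
    have h3 : (b : ℝ) ^ N (φ k) = (b : ℝ) ^ (N (φ k) - w (φ k) j0) * (b : ℝ) ^ w (φ k) j0 := by
      rw [← pow_add]; congr 1; omega
    have h4 : ∑ i, (v (finProdFinEquiv (i, j0)) : ℝ) * (α i * ((b : ℝ) ^ N (φ k) * T (φ k)) -
        (b : ℝ) ^ (N (φ k) - w (φ k) j0) * P (φ k) (finProdFinEquiv (i, j0))) =
        (b : ℝ) ^ (N (φ k) - w (φ k) j0) * (β * ((b : ℝ) ^ w (φ k) j0 * T (φ k)) -
      ((∑ i, v (finProdFinEquiv (i, j0)) * P (φ k) (finProdFinEquiv (i, j0)) : ℤ) : ℝ)) := by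
      rw [hβ, h3]
      push_cast
      rw [Finset.sum_mul, ← Finset.sum_sub_distrib, Finset.mul_sum]
      exact Finset.sum_congr rfl fun i _ => by ring
    rw [h4, abs_mul, abs_of_pos (by positivity)] at h1
    have h5 : K * (2 * b * Real.exp (M (φ k) * L - l (φ k) * L +
        (((N (φ k) - w (φ k) j0 : ℕ) : ℝ) * L - l (φ k) * L))) =
        (b : ℝ) ^ (N (φ k) - w (φ k) j0) *
        (K * (2 * b * Real.exp (M (φ k) * L - l (φ k) * L + -(l (φ k) * L)))) := by
      rw [hbl, show M (φ k) * L - l (φ k) * L +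
        (((N (φ k) - w (φ k) j0 : ℕ) : ℝ) * L - l (φ k) * L) =
        ((N (φ k) - w (φ k) j0 : ℕ) : ℝ) * L +
          (M (φ k) * L - l (φ k) * L + -(l (φ k) * L)) by ring,
        Real.exp_add]
      ring
    rw [h5] at h1
    exact le_of_mul_le_mul_left h1 (by positivity)
  obtain ⟨v', y', hvy', hfreq'⟩ := gstepE 1 1 1 (by omega) (fun _ _ => β) (fun _ _ => hβalg)
    (fun _ => b) (fun _ => by omega) (c2 * (2 + Real.log (2 * b * K))) δ' (by nlinarith) hδ'0
    (fun k => (N (φ k) : ℝ)) (hNlim.comp hφ.tendsto_atTop) (fun k _ _ => w (φ k) j0)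
    (fun k _ => b ^ w (φ k) j0) (fun k _ => by simp) (fun _ _ _ => 0) (fun _ _ => 1)
    (fun k _ => by simp) (fun k _ => (T (φ k) : ℕ))
    (fun k _ => ∑ i, v (finProdFinEquiv (i, j0)) * P (φ k) (finProdFinEquiv (i, j0)))
    (fun k => Or.inl fun h => by
      have h1 : ((T (φ k) : ℕ) : ℤ) = 0 := congrFun h 0
      have h2 := hT1 (φ k)
      omega)
    (fun k _ => (b : ℝ) ^ w (φ k) j0 * T (φ k))
    (fun k _ => K * (2 * b * Real.exp (M (φ k) * L - l (φ k) * L + -(l (φ k) * L))))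
    (fun k _ => by
      have := hTR (φ k)
      positivity) (fun k _ => by positivity) (fun k _ => by
      have h1 := hTR (φ k)
      have h2 : (w (φ k) j0 : ℝ) * L ≤ N (φ k) * L :=
        mul_le_mul_of_nonneg_right (hwNR (φ k) j0) hL0.le
      have h2' : (0 : ℝ) ≤ (w (φ k) j0 : ℝ) * L := by positivity
      rw [Real.log_mul (by positivity) (by positivity), Real.log_pow, ← hL, abs_of_nonneg (by
          have := hlT (φ k)
          linarith)]
      have h3 := hTlog (φ k)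
      have h4 := hML (φ k)
      have h5 := hlL (φ k)
      have h6 := hlogn (φ k)
      have h7 := hN0 (φ k)
      have h8 := hN1 (φ k)
      have h9 : c2 * N (φ k) ≤ c2 * (2 + Real.log (2 * b * K)) * N (φ k) := by
        have : 0 ≤ c2 * N (φ k) := by positivity
        nlinarith
      refine le_trans ?_ h9
      rw [hc2]
      nlinarith) (fun k _ => by
      rw [hlogY]
      have h4 := hML (φ k)
      have h4' := hML0 (φ k)
      have h4'' := hl0 (φ k)
      have h5 := hlL (φ k)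
      have h6 := hlogn (φ k)
      have h7 := hN0 (φ k)
      have h8 := hN1 (φ k)
      have h9 : c2 * (2 + Real.log (2 * b * K)) * N (φ k) =
        2 * (c2 * N (φ k)) + Real.log (2 * b * K) * (c2 * N (φ k)) := by ring
      have h10 : Real.log (2 * b * K) ≤ Real.log (2 * b * K) * (c2 * N (φ k)) := by
        refine le_mul_of_one_le_right hlog2bK ?_
        nlinarith
      have h11 : 4 * ((N (φ k) : ℝ) * L) ≤ c2 * N (φ k) := by
        rw [hc2]
        nlinarith
      rw [h9, abs_le]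
      constructor <;> nlinarith) (fun k _ => by
      push_cast
      rw [Real.log_pow, ← hL]
      have h2 : (w (φ k) j0 : ℝ) * L ≤ N (φ k) * L :=
        mul_le_mul_of_nonneg_right (hwNR (φ k) j0) hL0.le
      have h6 := hlogn (φ k)
      have h7 := hN0 (φ k)
      have h8 := hN1 (φ k)
      have h9 : c2 * N (φ k) ≤ c2 * (2 + Real.log (2 * b * K)) * N (φ k) := by
        have : 0 ≤ c2 * N (φ k) := by positivity
        nlinarith
      refine le_trans ?_ h9
      rw [hc2]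
      nlinarith) (fun k _ => by
      rw [Nat.cast_one, Real.log_one]
      have h8 := hN1 (φ k)
      positivity) (fun k _ => by
      push_cast
      rw [abs_of_nonneg (by positivity)]) (fun k _ => by
      have h4 := hβ1 k
      rw [Fin.sum_univ_one, Nat.cast_one, one_mul]
      push_cast at h4 ⊢
      exact h4) (fun k => by
      have h1 := hTR (φ k)
      rw [Fin.sum_univ_one, Fin.sum_univ_one, Fin.sum_univ_one, Fin.sum_univ_one, hlogY,
        Real.log_mul (by positivity) (by positivity), Nat.cast_pow (α := ℝ) b (w (φ k) j0)]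
      simp only [Nat.cast_one, Real.log_one, add_zero]
      have h5 := hTlog (φ k)
      have h6 := hgapL _ (φ k) (hφP k).2
      have h7 : 0 ≤ δ' * N (φ k) := by positivity
      have h8 : 0 < ε * L := by positivity
      linarith)
  simp only [Fin.sum_univ_one, Fin.isValue] at hfreq'
  have hne : (v' 0 : ℝ) * β + y' 0 ≠ 0 := by
    by_cases h1 : v' 0 = 0
    · have h2 : y' 0 ≠ 0 := by
        intro h2
        rcases hvy' with h | h
        · exact h (funext fun i => by rw [Fin.fin_one_eq_zero i]; exact h1)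
        · exact h (funext fun i => by rw [Fin.fin_one_eq_zero i]; exact h2)
      rw [h1]
      simp only [Int.cast_zero, zero_mul, zero_add]
      exact_mod_cast h2
    · have h2 : Irrational ((v' 0 : ℝ) * β) := by
        have h3 := hβirr 0
        simp only [Int.cast_zero, zero_add] at h3
        exact h3.intCast_mul h1
      have h3 := h2.add_intCast (y' 0)
      exact h3.ne_zero
  obtain ⟨κ, hκ⟩ : ∃ κ : ℝ, κ = |(v' 0 : ℝ) * β + y' 0| := ⟨_, rfl⟩
  have hκ0 : 0 < κ := by rw [hκ]; exact abs_pos.2 hne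
  have hev' : ∀ᶠ k in atTop, (((n * r : ℕ) : ℝ) + 1) / L * (Real.log (2 * b * K) +
      Real.log (|(v' 0 : ℝ)| + 1) - Real.log κ + 1) ≤ (φ k : ℝ) :=
    hφ.tendsto_atTop.eventually (hevt _)
  obtain ⟨k, hrelk, hlarge⟩ := (hfreq'.and_eventually hev').exists
  have h1 : ((v' 0 : ℝ) * β + y' 0) * ((b : ℝ) ^ w (φ k) j0 * T (φ k)) = (v' 0 : ℝ) *
      (β * ((b : ℝ) ^ w (φ k) j0 * T (φ k)) -
      ((∑ i, v (finProdFinEquiv (i, j0)) * P (φ k) (finProdFinEquiv (i, j0)) : ℤ) : ℝ)) := by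
    rw [Nat.cast_one, one_mul] at hrelk
    push_cast at hrelk ⊢
    linarith
  have h2 := congrArg abs h1
  rw [abs_mul ((v' 0 : ℝ) * β + y' 0) _, abs_mul (v' 0 : ℝ) _, ← hκ, abs_of_nonneg
    (by positivity : (0 : ℝ) ≤ (b : ℝ) ^ w (φ k) j0 * T (φ k))] at h2
  have h3 := mul_le_mul_of_nonneg_left (hβ1 k) (abs_nonneg (v' 0 : ℝ))
  have h4 := hTR (φ k)
  have h5 : κ ≤ (|(v' 0 : ℝ)| + 1) *
      (K * (2 * b * Real.exp (M (φ k) * L - l (φ k) * L + -(l (φ k) * L)))) := by
    have h6 : (1 : ℝ) ≤ (b : ℝ) ^ w (φ k) j0 * T (φ k) := by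
      have h7 : (1 : ℝ) ≤ (b : ℝ) ^ w (φ k) j0 := one_le_pow₀ (by linarith)
      nlinarith
    have h7 : κ ≤ κ * ((b : ℝ) ^ w (φ k) j0 * T (φ k)) := le_mul_of_one_le_right hκ0.le h6
    have h8 : 0 ≤ K * (2 * b * Real.exp (M (φ k) * L - l (φ k) * L + -(l (φ k) * L))) := by
      positivity
    linarith
  have h6 := Real.log_le_log hκ0 h5
  rw [Real.log_mul (by positivity) (by positivity), hlogY] at h6
  have h7 := hgapL _ (φ k) hlarge
  have h8 : 0 ≤ δ' * N (φ k) := by positivity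
  have h9 := hl0 (φ k)
  linarith

end Pool.Agent.V1189.RT
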