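import Pool.Agent.V1189.RT.Padic

/-!
# Windows of digits of `A 9 ^ n` in base `6`

Author: helper89.
-/

set_option autoImplicit false

namespace Pool.Agent.V1189.RT.Joint

open Finset
open Pool.Agent.W47.JL
open Pool.Agent.Results.MP_a49cf6_nt.DigitRecurrences (Recurrence)

/-- windows of the digits of `A 9 ^ n` in base `6` -/
theorem ninePowers (A R k0 : ℕ) (hA : 1 ≤ A) (hR : 1 ≤ R) (ε : ℝ) (hε : 0 < ε) :
    ∃ C : ℝ, 0 ≤ C ∧ ∀ n : ℕ,
      ∀ (W : Fin R → ℕ) (l m : ℕ) (c : ℕ → ℚ), (∀ k, l ≤ W k) →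
      (∀ k, 6 ^ W k ≤ 6 * (A * 9 ^ n)) → (∀ k k', k ≠ k' → W k + l ≤ W k' ∨ W k' + l ≤ W k) →
      (∀ k, (R : ℝ) / (R + 1) * l * Real.log 6 ≤ (W k + k0) * Real.log 2) →
      (∀ k, Recurrence (fun i => (dH 6 (A * 9 ^ n) (W k - i) : ℤ)) c l m) →
      (R : ℝ) * l * Real.log 6 ≤ (1 + R : ℝ) * ((m + 15 * err m) * Real.log 6) + ε * n + C := by
  obtain ⟨L, hL⟩ : ∃ L : ℝ, L = Real.log 6 := ⟨_, rfl⟩
  have hL0 : 0 < L := by rw [hL]; exact Real.log_pos (by norm_num)
  obtain ⟨L2, hL2⟩ : ∃ L2 : ℝ, L2 = Real.log 2 := ⟨_, rfl⟩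
  have hL20 : 0 < L2 := by rw [hL2]; exact Real.log_pos (by norm_num)
  have hRR : (1 : ℝ) ≤ R := by exact_mod_cast hR
  have hAR : (1 : ℝ) ≤ A := by exact_mod_cast hA
  have hlA : 0 ≤ Real.log A := Real.log_nonneg hAR
  obtain ⟨ε', hε'⟩ : ∃ ε' : ℝ, ε' = ε / Real.log 9 := ⟨_, rfl⟩
  have hl9 : 0 < Real.log 9 := Real.log_pos (by norm_num)
  have hε'0 : 0 < ε' := by rw [hε']; positivity
  obtain ⟨S, C0, hC0, hS, hprop⟩ := formsCoreD 1 6 R 1 (fun _ => 9) (fun _ => by omega)
    (by omega) (by omega) 1 (fun i j => by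
      by_cases hij : i = j
      · rw [hij, Matrix.one_apply_eq]; exact isAlgebraic_one
      · rw [Matrix.one_apply_ne hij]; exact isAlgebraic_zero) (by rw [Matrix.det_one]; norm_num)
    (fun _ => 1) ε' hε'0 univ (2 * 6) (by norm_num)
  -- the constants
  obtain ⟨C2, hC2⟩ : ∃ C2 : ℝ, C2 = C0 + |Real.log C0| + Real.log A + (k0 + 4) * L2 + 4 * L + 1 := ⟨_, rfl⟩
  have hC20 : 0 ≤ C2 := by rw [hC2]; positivity
  refine ⟨C0 + Real.log A + ε' * Real.log A + (R + 1) * C2 * (1 + L), by positivity,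
    fun n W l m c hlW hpow hdis hhigh hrec => ?_⟩
  obtain ⟨M, hM⟩ : ∃ M : ℝ, M = m + 15 * err m := ⟨_, rfl⟩
  have herr : 0 ≤ err m := le_trans (by norm_num) (err_ge m)
  have hM0 : 0 ≤ M := by rw [hM]; positivity
  rw [← hM, ← hL]
  -- the easy case
  have hbad : (R : ℝ) * (l * L) ≤ (1 + R) * (M * L) + (R + 1) * C2 * (1 + L) → (R : ℝ) * l * L ≤
      (1 + R) * (M * L) + ε * n +
        (C0 + Real.log A + ε' * Real.log A + (R + 1) * C2 * (1 + L)) := by
    intro h
    have h3 : 0 ≤ ε * n := by positivity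
    have h4 : 0 ≤ ε' * Real.log A := by positivity
    linarith
  rcases le_or_gt ((R : ℝ) * (l * L)) ((1 + R) * (M * L) + (R + 1) * C2 * (1 + L)) with h | hgood
  · exact hbad h
  have hMl : M * L + C2 * (1 + L) ≤ (R : ℝ) / (R + 1) * l * L := by
    rw [div_mul_eq_mul_div, div_mul_eq_mul_div, le_div_iff₀ (by linarith)]
    nlinarith
  have hMl2 : M * L + C2 * (1 + L) ≤ l * L := by
    refine hMl.trans ?_
    have h1 : (R : ℝ) / (R + 1) ≤ 1 := by
      rw [div_le_one (by linarith)]; linarith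
    have h2 : 0 ≤ (l : ℝ) * L := by positivity
    calc (R : ℝ) / (R + 1) * l * L = (R : ℝ) / (R + 1) * (l * L) := by ring
      _ ≤ 1 * (l * L) := mul_le_mul_of_nonneg_right h1 h2
      _ = l * L := one_mul _
  have hgap : M + C2 ≤ l := by
    have h1 : (M + C2) * L ≤ l * L := by
      have : 0 ≤ C2 * 1 := by linarith
      linarith
    exact le_of_mul_le_mul_right h1 hL0
  rcases winRelX R 6 (fun _ => A * 9 ^ n) (by omega) W l m c hlW hrec with h |
    ⟨T, Z, hT1, hTlog, hZ⟩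
  · exfalso
    rw [← hM] at h
    have h1 : 4 * L ≤ C2 := by
      have h2 : 0 ≤ |Real.log C0| := abs_nonneg _
      have h3 : (0 : ℝ) ≤ (k0 + 4) * L2 := by positivity
      rw [hC2]; linarith
    have h2 : (3 : ℝ) < C2 := by
      have h3 : 1 ≤ L := by
        rw [hL, Real.le_log_iff_exp_le (by norm_num)]
        have := Real.exp_one_lt_d9
        linarith
      linarith
    linarith
  push_cast at hTlog hZ
  rw [← hM, ← hL] at hTlog
  rw [← hM, ← hL] at hZ
  obtain ⟨y, hy⟩ : ∃ y : ℕ, y = A * 9 ^ n := ⟨_, rfl⟩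
  have hy1 : 1 ≤ y := by rw [hy]; exact Nat.mul_pos hA (by positivity)
  have hsum1 : ∀ f : Fin 1 → ℤ, ∑ j, f j * (fun _ : Fin 1 => (y : ℤ)) j = f 0 * y := fun f => by
    rw [Fin.sum_univ_one]
  -- the smallest window
  obtain ⟨kmin, -, hkmin⟩ := Finset.exists_min_image univ W ⟨⟨0, hR⟩, mem_univ _⟩
  have h1 := hprop (fun _ => (y : ℤ)) y (fun s hs h => by
      rw [hsum1] at h
      rcases mul_eq_zero.1 h with h | h
      · apply hS s hs
        funext i
        rw [Fin.fin_one_eq_zero i]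
        exact h
      · omega) (fun j => by simp) T M W (fun _ => l) Z (9 ^ n) (fun _ => n) (W kmin)
    hT1 (by push_cast; rw [← hL]; exact hTlog) (fun k _ => hlW k) (fun k _ => by
      rw [Fin.sum_univ_one, one_mul, Int.natAbs_natCast, hy]
      exact hpow k) (fun k _ k' _ hne => hdis k k' hne) (fun k _ => by
      have h2 : 0 ≤ |Real.log C0| := abs_nonneg _
      have h3 : (0 : ℝ) ≤ (k0 + 4) * L2 := by positivity
      rw [hC2] at hgap
      linarith) (fun k _ => by
      rw [Fin.sum_univ_one, one_mul]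
      have h2 := hZ k
      push_cast
      rw [← hL]
      have h3 : (y : ℝ) = A * 9 ^ n := by rw [hy]; push_cast; ring
      rw [h3]
      refine h2.trans (le_of_eq ?_)
      congr 2
      ring) (by simp) (by
      rw [Fin.sum_univ_one, one_mul, hy]
      push_cast
      exact Dvd.intro_left _ rfl) (fun k _ => hkmin k (mem_univ _)) (by
      intro c' hc' hc'C hdvd
      rw [Fin.sum_univ_one, one_mul, hy] at hdvd
      have h2 : (2 : ℤ) ^ W kmin ∣ c' * T * A := by
        have h3 : (2 : ℤ) ^ W kmin ∣ (c' * T * A) * 9 ^ n := by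
          have h4 : (2 : ℤ) ^ W kmin ∣ (6 : ℤ) ^ W kmin := pow_dvd_pow_of_dvd (by norm_num) _
          refine h4.trans ((by exact_mod_cast hdvd : (6 : ℤ) ^ W kmin ∣ _).trans (dvd_of_eq ?_))
          push_cast
          ring
        have h4 : IsCoprime ((2 : ℤ) ^ W kmin) ((9 : ℤ) ^ n) :=
          IsCoprime.pow (by norm_num)
        exact h4.dvd_of_dvd_mul_right h3
      have hcT : c' * T * A ≠ 0 := mul_ne_zero (mul_ne_zero hc' (by exact_mod_cast (by omega : T ≠ 0)))
        (by exact_mod_cast (by omega : A ≠ 0))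
      have h6 := Int.le_of_dvd (abs_pos.2 hcT) ((dvd_abs _ _).2 h2)
      have h7 : (2 : ℝ) ^ W kmin ≤ |(c' : ℝ)| * T * A := by
        have h8 : (((2 : ℤ) ^ W kmin : ℤ) : ℝ) ≤ ((|c' * T * A| : ℤ) : ℝ) := by exact_mod_cast h6
        rw [Int.cast_abs] at h8
        push_cast at h8
        rw [abs_mul, abs_mul, Nat.abs_cast, Nat.abs_cast] at h8
        exact h8
      have hc1 : (1 : ℝ) ≤ |(c' : ℝ)| := by
        rw [← Int.cast_abs]
        exact_mod_cast Int.one_le_abs hc'
      have hTR : (1 : ℝ) ≤ T := by exact_mod_cast hT1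
      have h8 := Real.log_le_log (by positivity) h7
      rw [Real.log_pow, Real.log_mul (by positivity) (by linarith),
        Real.log_mul (by linarith) (by linarith), ← hL2] at h8
      have h9 : Real.log |(c' : ℝ)| ≤ Real.log C0 := Real.log_le_log (by linarith) hc'C
      have h13 := le_abs_self (Real.log C0)
      have h14 := hhigh kmin
      rw [← hL, ← hL2, add_mul] at h14
      have h15 : C0 + |Real.log C0| + Real.log A + (k0 + 4) * L2 + 4 * L + 1 ≤ C2 * (1 + L) := by
        have : 0 ≤ C2 * L := by positivity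
        rw [← hC2]; linarith
      have h16 : ((k0 : ℝ) + 4) * L2 = k0 * L2 + 4 * L2 := by ring
      linarith)
  rw [Finset.sum_const, Finset.card_univ, Fintype.card_fin, nsmul_eq_mul] at h1
  have h2 : logFD 1 1 (fun _ => (y : ℤ)) (9 ^ n) = Real.log A := by
    unfold logFD
    rw [Fin.prod_univ_one, Fin.sum_univ_one, Matrix.one_apply_eq, one_mul, Int.cast_natCast,
      Nat.abs_cast, hy]
    push_cast
    rw [mul_div_assoc, div_self (by positivity), mul_one, max_eq_right hAR]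
  have h3 : Real.log y = Real.log A + n * Real.log 9 := by
    rw [hy]
    push_cast
    rw [Real.log_mul (by linarith) (by positivity), Real.log_pow]
  rw [h2, h3] at h1
  push_cast at h1
  rw [← hL] at h1
  have h4 : ε' * (Real.log A + n * Real.log 9) = ε' * Real.log A + ε * n := by
    rw [hε']; field_simp
  rw [h4] at h1
  have h5 : 0 ≤ (R + 1) * C2 * (1 + L) := by positivity
  linarith

end Pool.Agent.V1189.RT.Joint
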