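import Pool.Agent.V1189.RT.Forms
import Pool.Agent.V1189.RT.Lang

/-!
# Windows of digits and products of linear forms with algebraic coefficients

Author: helper89.
-/

set_option autoImplicit false

namespace Pool.Agent.V1189.RT

open Finset Filter Topology
open Pool.Agent.W47.JL
open Pool.Agent.Results.MP_a49cf6_nt.DigitRecurrences (Recurrence)

theorem formsDigits (d b r : ℕ) (hd : 1 ≤ d) (hb : 2 ≤ b)
    (g : Matrix (Fin d) (Fin d) ℝ) (halg : ∀ i j, IsAlgebraic ℚ (g i j)) (hdet : g.det ≠ 0)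
    (a : Fin d → ℤ) (ε : ℝ) (hε : 0 < ε) :
    ∃ (S : Finset (Fin d → ℤ)) (C : ℝ), 0 ≤ C ∧ (∀ s ∈ S, s ≠ 0) ∧
      ∀ (x : Fin d → ℤ) (H : ℕ), (∀ s ∈ S, ∑ j, s j * x j ≠ 0) → (∀ j, (x j).natAbs ≤ H) →
      ∀ (W : Fin r → ℕ) (l m : ℕ) (c : ℕ → ℚ), (∀ k, l ≤ W k) →
      (∀ k, b ^ W k ≤ b * (∑ j, a j * x j).natAbs) →
      (∀ k k', k ≠ k' → W k + l ≤ W k' ∨ W k' + l ≤ W k) →
      (∀ k, Recurrence (fun i => (dH b (∑ j, a j * x j).natAbs (W k - i) : ℤ)) c l m) →
      (r : ℝ) * l * Real.log b ≤ (d + r) * ((m + 15 * err m) * Real.log b) + logF d g x +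
        ε * Real.log H + C := by
  have hbR : (2 : ℝ) ≤ b := by exact_mod_cast hb
  obtain ⟨S, C0, hC0, hS, hprop⟩ := formsCore d b r hd hb g halg hdet a ε hε univ (2 * b)
    (by linarith)
  obtain ⟨L, hL⟩ : ∃ L : ℝ, L = Real.log b := ⟨_, rfl⟩
  have hL0 : 0 < L := by rw [hL]; exact Real.log_pos (by linarith)
  have hr0 : (0 : ℝ) ≤ r := Nat.cast_nonneg _
  refine ⟨S, C0 + r * (C0 + 3) * L, by positivity, hS, fun x H hx hH W l m c hlW hpow hdis hrec => ?_⟩
  obtain ⟨M, hM⟩ : ∃ M : ℝ, M = m + 15 * err m := ⟨_, rfl⟩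
  have herr : 0 ≤ err m := le_trans (by norm_num) (err_ge m)
  have hM0 : 0 ≤ M := by
    rw [hM]
    positivity
  have hlF := logF_nonneg d g x
  have hlH : 0 ≤ Real.log H := Real.log_natCast_nonneg _
  have hεH : 0 ≤ ε * Real.log H := by positivity
  have hdR : (1 : ℝ) ≤ d := by exact_mod_cast hd
  have hbad : (l : ℝ) ≤ M + (C0 + 3) → (r : ℝ) * l * L ≤ (d + r) * (M * L) + logF d g x +
      ε * Real.log H + (C0 + r * (C0 + 3) * L) := by
    intro h
    have h1 : (r : ℝ) * l * L ≤ r * (M + (C0 + 3)) * L := by gcongr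
    have h2 : 0 ≤ d * (M * L) := by positivity
    linarith
  rw [← hM, ← hL]
  rcases winRelX r b (fun _ => (∑ j, a j * x j).natAbs) hb W l m c hlW hrec with h |
    ⟨T, Z, hT1, hTlog, hZ⟩
  · rw [← hM] at h
    exact hbad (by linarith)
  rw [← hM, ← hL] at hTlog
  rw [← hM, ← hL] at hZ
  rcases le_or_gt (M + C0) l with hgap | hgap
  · have h1 := hprop x H hx hH T M W (fun _ => l) (fun k => (∑ j, a j * x j).sign * Z k) hT1
      (by rw [← hL]; exact hTlog) (fun k _ => hlW k) (fun k _ => hpow k)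
      (fun k _ k' _ hne => hdis k k' hne) (fun _ _ => hgap) (fun k _ => by
      obtain ⟨y, hy⟩ : ∃ y : ℤ, y = ∑ j, a j * x j := ⟨_, rfl⟩
      have h2 := hZ k
      rw [← hy] at h2 ⊢
      rw [← hL]
      have h3 : (y : ℝ) = (y.sign : ℝ) * ((y.natAbs : ℕ) : ℝ) := by
        have h6 := congrArg (Int.cast : ℤ → ℝ) (Int.sign_mul_natAbs y)
        rw [Int.cast_mul, Int.cast_natCast] at h6
        exact h6.symm
      have h4 : |((y.sign : ℤ) : ℝ)| ≤ 1 := by
        rcases lt_trichotomy y 0 with h | h | h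
        · rw [Int.sign_eq_neg_one_of_neg h]; simp
        · rw [h]; simp
        · rw [Int.sign_eq_one_of_pos h]; simp
      have h5 : (T : ℝ) * (y : ℝ) - (b : ℝ) ^ W k * (((y.sign * Z k : ℤ)) : ℝ) =
          (y.sign : ℝ) * ((T : ℝ) * ((y.natAbs : ℕ) : ℝ) - (b : ℝ) ^ W k * Z k) := by
        rw [h3, Int.cast_mul]
        ring
      rw [h5, abs_mul]
      refine (mul_le_of_le_one_left (abs_nonneg _) h4).trans (h2.trans (le_of_eq ?_))
      congr 2
      ring)
    rw [Finset.sum_const, Finset.card_univ, Fintype.card_fin, nsmul_eq_mul, ← hL] at h1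
    have h2 : 0 ≤ r * (C0 + 3) * L := by positivity
    linarith
  · exact hbad (by linarith)

end Pool.Agent.V1189.RT
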