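import Pool.Agent.V1189.RT.FormsD
import Pool.Agent.TH338.LG.Sst

/-!
# Windows of digits and products of rational linear forms at finitely many places

Author: helper89. From the subspace theorem `Pool.Agent.TH338.LG.subspace` of the library (helper461 and
others).
-/

set_option autoImplicit false

namespace Pool.Agent.V1189.RT

open Finset Filter Topology Pool.Agent.TH461.SST

/-- the subspace theorem for an arbitrary index set -/
theorem subZ {ι : Type} [Fintype ι] [DecidableEq ι] [Nonempty ι] (s : ℕ) (M0 : Matrix ι ι ℤ)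
    (M : Fin s → Matrix ι ι ℤ) (b : Fin s → ℕ) (hP : Places M0 M b) (c γ : ℝ) (hc : 1 ≤ c)
    (hγ : 0 < γ) (N : ℕ → ℝ) (hN : Tendsto N atTop atTop) (e : ℕ → Fin s → ι → ℕ) (A : ℕ → ι → ℝ)
    (hsize : ∀ t, Size b c γ (N t) (e t) (A t)) (x : ℕ → ι → ℤ) (hx : ∀ t, x t ≠ 0)
    (hsol : ∀ t, Sol M0 M b (e t) (A t) (x t)) :
    ∃ y : ι → ℤ, y ≠ 0 ∧ ∃ᶠ t in atTop, ∑ l, y l * x t l = 0 := by
  classical
  obtain ⟨σ⟩ : Nonempty (ι ≃ Fin (Fintype.card ι)) := ⟨Fintype.equivFin ι⟩
  obtain ⟨h1, h2, h3, h4⟩ := hP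
  obtain ⟨y, hy0, hy⟩ := Pool.Agent.TH338.LG.subspace (Fintype.card ι) s Fintype.card_pos
    (M0.submatrix σ.symm σ.symm) (fun v => (M v).submatrix σ.symm σ.symm) b
    ⟨by rw [Matrix.det_submatrix_equiv_self]; exact h1,
      fun v => by rw [Matrix.det_submatrix_equiv_self]; exact h2 v, h3, h4⟩ c γ hc hγ N hN
    (fun t v l => e t v (σ.symm l)) (fun t l => A t (σ.symm l)) (fun t => by
      obtain ⟨k1, k2, k3, k4⟩ := hsize t
      refine ⟨fun v l => k1 v _, fun l => k2 _, fun l => k3 _, ?_⟩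
      rw [Equiv.sum_comp σ.symm fun l => Real.log (A t l)]
      refine k4.trans (le_of_eq ?_)
      exact Finset.sum_congr rfl fun v _ =>
        (Equiv.sum_comp σ.symm fun l => (e t v l : ℝ) * Real.log (b v)).symm)
    (fun t l => x t (σ.symm l)) (fun t h => hx t (by
      funext l
      have := congrFun h (σ l)
      simpa using this)) (fun t => by
      obtain ⟨k1, k2⟩ := hsol t
      refine ⟨fun l => ?_, fun v l => ?_⟩
      · have h5 := k1 (σ.symm l)
        have h6 : ∑ j, (M0.submatrix σ.symm σ.symm) l j * x t (σ.symm j) =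
            ∑ j, M0 (σ.symm l) j * x t j :=
          Equiv.sum_comp σ.symm fun j => M0 (σ.symm l) j * x t j
        rw [h6]
        exact h5
      · have h5 := k2 v (σ.symm l)
        have h6 : ∑ j, ((M v).submatrix σ.symm σ.symm) l j * x t (σ.symm j) =
            ∑ j, M v (σ.symm l) j * x t j :=
          Equiv.sum_comp σ.symm fun j => M v (σ.symm l) j * x t j
        rw [h6]
        exact h5)
  refine ⟨fun l => y (σ l), ?_, ?_⟩
  · intro h
    apply hy0
    funext l
    have h5 := congrFun h (σ.symm l)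
    simpa using h5
  · refine hy.mono fun t ht => ?_
    rw [← ht, ← Equiv.sum_comp σ]
    exact Finset.sum_congr rfl fun l _ => by rw [Equiv.symm_apply_apply]

/-- the inequality for the points outside the hyperplanes in `S` -/
def CorePropS (d b r s : ℕ) (p : Fin s → ℕ) (hm : Fin s → Matrix (Fin d) (Fin d) ℤ)
    (g : Matrix (Fin d) (Fin d) ℝ) (a : Fin d → ℤ) (ε K : ℝ)
    (P : Finset (Fin r)) (S : Finset (Fin d → ℤ)) (C : ℝ) : Prop :=
  ∀ (x : Fin d → ℤ) (H : ℕ), (∀ s ∈ S, ∑ j, s j * x j ≠ 0) → (∀ j, (x j).natAbs ≤ H) →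
    ∀ (T : ℕ) (M : ℝ) (W l : Fin r → ℕ) (Z : Fin r → ℤ) (D : ℕ) (f : Fin s → Fin d → ℕ),
      1 ≤ T → Real.log T ≤ M * Real.log b →
      (∀ k ∈ P, l k ≤ W k) → (∀ k ∈ P, b ^ W k ≤ b * (∑ j, a j * x j).natAbs) →
      (∀ k ∈ P, ∀ k' ∈ P, k ≠ k' → W k + l k' ≤ W k' ∨ W k' + l k ≤ W k) →
      (∀ k ∈ P, M + C ≤ l k) →
      (∀ k ∈ P, |(T : ℝ) * ((∑ j, a j * x j : ℤ) : ℝ) - (b : ℝ) ^ W k * Z k| ≤
        K * Real.exp ((M + W k - l k) * Real.log b)) →
      D = ∏ v, ∏ i, p v ^ f v i → (∀ v i, (p v : ℤ) ^ f v i ∣ ∑ j, hm v i j * x j) →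
      (∀ v i, ∑ j, hm v i j * x j ≠ 0) →
      ∑ k ∈ P, (l k : ℝ) * Real.log b ≤
        (d + P.card) * (M * Real.log b) + logFD d g x D + ε * Real.log H + C

set_option maxHeartbeats 4000000 in
theorem formsCoreS (d b r s : ℕ) (p : Fin s → ℕ) (hp2 : ∀ v, 2 ≤ p v)
    (hpb : ∀ v, Nat.Coprime (p v) b) (hpp : ∀ v v', v ≠ v' → Nat.Coprime (p v) (p v'))
    (hm : Fin s → Matrix (Fin d) (Fin d) ℤ) (hdeth : ∀ v, (hm v).det ≠ 0) (hd : 1 ≤ d) (hb : 2 ≤ b)
    (gz : Matrix (Fin d) (Fin d) ℤ) (hdetz : gz.det ≠ 0) (g : Matrix (Fin d) (Fin d) ℝ)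
    (hgz : ∀ i j, g i j = gz i j) (a : Fin d → ℤ) (ε : ℝ) (hε : 0 < ε) :
    ∀ (P : Finset (Fin r)) (K : ℝ), 1 ≤ K → ∃ (S : Finset (Fin d → ℤ)) (C : ℝ), 0 ≤ C ∧
      (∀ s ∈ S, s ≠ 0) ∧ CorePropS d b r s p hm g a ε K P S C := by
  classical
  intro P
  induction P using Finset.strongInduction with
  | H P IH =>
  intro K hK
  by_contra hcon
  push Not at hcon
  have hbR : (2 : ℝ) ≤ b := by exact_mod_cast hb
  have hdR : (1 : ℝ) ≤ d := by exact_mod_cast hd
  obtain ⟨L, hL⟩ : ∃ L : ℝ, L = Real.log b := ⟨_, rfl⟩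
  have hL0 : 0 < L := by rw [hL]; exact Real.log_pos (by linarith)
  have hlogK : 0 ≤ Real.log K := Real.log_nonneg hK
  obtain ⟨G, hG⟩ : ∃ G : ℝ, G = 1 + ∑ i, ∑ j, |g i j| := ⟨_, rfl⟩
  have hG1 : 1 ≤ G := by
    have : 0 ≤ ∑ i, ∑ j, |g i j| := Finset.sum_nonneg fun i _ => Finset.sum_nonneg fun j _ => abs_nonneg _
    rw [hG]; linarith
  have hlogG : 0 ≤ Real.log G := Real.log_nonneg hG1
  obtain ⟨Ga, hGa⟩ : ∃ Ga : ℝ, Ga = 1 + ∑ j, |(a j : ℝ)| := ⟨_, rfl⟩
  have hGa1 : 1 ≤ Ga := by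
    have : 0 ≤ ∑ j, |(a j : ℝ)| := Finset.sum_nonneg fun j _ => abs_nonneg _
    rw [hGa]; linarith
  have hlogGa : 0 ≤ Real.log Ga := Real.log_nonneg hGa1
  obtain ⟨w, hw⟩ : ∃ w : ℝ, w = L + Real.log Ga + 1 := ⟨_, rfl⟩
  have hw1 : 1 ≤ w := by rw [hw]; linarith
  have hr0 : (0 : ℝ) ≤ r := Nat.cast_nonneg _
  obtain ⟨C1, hC1⟩ : ∃ C1 : ℝ, C1 = (r + 1) * w + d * Real.log G + (r + 1) * Real.log K := ⟨_, rfl⟩
  have hC10 : 0 ≤ C1 := by rw [hC1]; positivity
  have hnr : (P.card : ℝ) ≤ r := by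
    have h1 := Finset.card_le_univ P
    rw [Fintype.card_fin] at h1
    exact_mod_cast h1
  obtain ⟨f, hf⟩ : ∃ f : ℕ → (Fin d → ℤ), Function.Surjective f := exists_surjective_nat _
  have hseq : ∀ t : ℕ, ∃ (x : Fin d → ℤ) (H : ℕ), (∀ s ∈ ((range t).image f).filter (fun s => s ≠ 0),
      ∑ j, s j * x j ≠ 0) ∧ (∀ j, (x j).natAbs ≤ H) ∧
    ∃ (T : ℕ) (M : ℝ) (W l : Fin r → ℕ) (Z : Fin r → ℤ) (D : ℕ) (f : Fin s → Fin d → ℕ),
      1 ≤ T ∧ Real.log T ≤ M * L ∧
      (∀ k ∈ P, l k ≤ W k) ∧ (∀ k ∈ P, b ^ W k ≤ b * (∑ j, a j * x j).natAbs) ∧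
      (∀ k ∈ P, ∀ k' ∈ P, k ≠ k' → W k + l k' ≤ W k' ∨ W k' + l k ≤ W k) ∧
      (∀ k ∈ P, M + (t + C1) ≤ l k) ∧
      (∀ k ∈ P, |(T : ℝ) * ((∑ j, a j * x j : ℤ) : ℝ) - (b : ℝ) ^ W k * Z k| ≤
        K * Real.exp ((M + W k - l k) * L)) ∧
      D = ∏ v, ∏ i, p v ^ f v i ∧ (∀ v i, (p v : ℤ) ^ f v i ∣ ∑ j, hm v i j * x j) ∧
      (∀ v i, ∑ j, hm v i j * x j ≠ 0) ∧
      (d + P.card) * (M * L) + logFD d g x D + ε * Real.log H + (t + C1) < ∑ k ∈ P, (l k : ℝ) * L := by
    intro t
    have h1 := hcon (((range t).image f).filter (fun s => s ≠ 0)) (t + C1) (by positivity)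
      (fun s hs => (mem_filter.1 hs).2)
    unfold CorePropS at h1
    push Not at h1
    obtain ⟨x, H, h2, h3, T, M, W, l, Z, D, f, h4, h5, h6, h7, h8, h9, h10, h12, h13, h14,
      h11⟩ := h1
    rw [← hL] at h5 h10 h11
    exact ⟨x, H, h2, h3, T, M, W, l, Z, D, f, h4, h5, h6, h7, h8, h9, h10, h12, h13, h14,
      h11⟩
  choose x0 H0 hS0 hH0 T0 M0 W0 l0 Z0 D0 f0 hT0 hTlog0 hlW0 hpow0 hdis0 hgap0 hX0 hD0 hDx0 hhx0
    hviol0 using hseq
  obtain ⟨φ, hφ, hhom⟩ := homog (ι := Fin d ⊕ P) fun t => Sum.elim (fun j => (T0 t : ℤ) * x0 t j)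
    (fun k => (b : ℤ) ^ W0 t k * Z0 t k)
  -- the subsequences
  obtain ⟨x, hx⟩ : ∃ x : ℕ → Fin d → ℤ, x = fun t => x0 (φ t) := ⟨_, rfl⟩
  obtain ⟨H, hH⟩ : ∃ H : ℕ → ℕ, H = fun t => H0 (φ t) := ⟨_, rfl⟩
  obtain ⟨T, hT⟩ : ∃ T : ℕ → ℕ, T = fun t => T0 (φ t) := ⟨_, rfl⟩
  obtain ⟨M, hM⟩ : ∃ M : ℕ → ℝ, M = fun t => M0 (φ t) := ⟨_, rfl⟩
  obtain ⟨W, hW⟩ : ∃ W : ℕ → Fin r → ℕ, W = fun t => W0 (φ t) := ⟨_, rfl⟩
  obtain ⟨l, hl⟩ : ∃ l : ℕ → Fin r → ℕ, l = fun t => l0 (φ t) := ⟨_, rfl⟩
  obtain ⟨Z, hZ⟩ : ∃ Z : ℕ → Fin r → ℤ, Z = fun t => Z0 (φ t) := ⟨_, rfl⟩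
  obtain ⟨DD, hDD⟩ : ∃ DD : ℕ → ℕ, DD = fun t => D0 (φ t) := ⟨_, rfl⟩
  obtain ⟨ff, hff⟩ : ∃ ff : ℕ → Fin s → Fin d → ℕ, ff = fun t => f0 (φ t) := ⟨_, rfl⟩
  have hφt : ∀ t : ℕ, (t : ℝ) ≤ φ t := fun t => by exact_mod_cast hφ.le_apply
  have hav : ∀ s : Fin d → ℤ, s ≠ 0 → ∃ t1, ∀ t ≥ t1, ∑ j, s j * x t j ≠ 0 := by
    intro s hs
    obtain ⟨i, hi⟩ := hf s
    refine ⟨i + 1, fun t ht => ?_⟩
    rw [hx]
    refine hS0 (φ t) s ?_
    rw [mem_filter, mem_image]
    refine ⟨⟨i, ?_, hi⟩, hs⟩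
    rw [mem_range]
    have := hφ.le_apply (x := t)
    omega
  have hHx : ∀ t j, (x t j).natAbs ≤ H t := fun t j => by rw [hx, hH]; exact hH0 _ _
  have hT1 : ∀ t, 1 ≤ T t := fun t => by rw [hT]; exact hT0 _
  have hTlog : ∀ t, Real.log (T t) ≤ M t * L := fun t => by rw [hT, hM]; exact hTlog0 _
  have hlW : ∀ t, ∀ k ∈ P, l t k ≤ W t k := fun t => by rw [hl, hW]; exact hlW0 _
  have hpow : ∀ t, ∀ k ∈ P, b ^ W t k ≤ b * (∑ j, a j * x t j).natAbs := fun t => by
    rw [hW, hx]; exact hpow0 _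
  have hdis : ∀ t, ∀ k ∈ P, ∀ k' ∈ P, k ≠ k' → W t k + l t k' ≤ W t k' ∨ W t k' + l t k ≤ W t k :=
    fun t => by rw [hl, hW]; exact hdis0 _
  have hgap : ∀ t : ℕ, ∀ k ∈ P, M t + (t + C1) ≤ l t k := by
    intro t k hk
    have h1 := hgap0 (φ t) k hk
    have h2 := hφt t
    rw [hM, hl]
    change M0 (φ t) + (t + C1) ≤ l0 (φ t) k
    linarith
  have hX : ∀ t, ∀ k ∈ P, |(T t : ℝ) * ((∑ j, a j * x t j : ℤ) : ℝ) - (b : ℝ) ^ W t k * Z t k| ≤
        K * Real.exp ((M t + W t k - l t k) * L) := fun t => by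
    rw [hT, hx, hW, hZ, hM, hl]; exact hX0 _
  have hviol : ∀ t : ℕ, (d + P.card) * (M t * L) + logFD d g (x t) (DD t) + ε * Real.log (H t) +
      (t + C1) < ∑ k ∈ P, (l t k : ℝ) * L := by
    intro t
    have h1 := hviol0 (φ t)
    have h2 := hφt t
    rw [hM, hx, hH, hl, hDD]
    change (d + P.card) * (M0 (φ t) * L) + logFD d g (x0 (φ t)) (D0 (φ t)) +
      ε * Real.log (H0 (φ t)) + (t + C1) < ∑ k ∈ P, (l0 (φ t) k : ℝ) * L
    linarith
  have hDf : ∀ t, DD t = ∏ v, ∏ i, p v ^ ff t v i := fun t => by rw [hDD, hff]; exact hD0 _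
  have hDx : ∀ t v i, (p v : ℤ) ^ ff t v i ∣ ∑ j, hm v i j * x t j := fun t => by
    rw [hff, hx]; exact hDx0 _
  have hhx : ∀ t v i, ∑ j, hm v i j * x t j ≠ 0 := fun t => by rw [hx]; exact hhx0 _
  have hhom' : ∀ y : (Fin d ⊕ P) → ℤ, (∃ᶠ t in atTop, ∑ j, y (Sum.inl j) * ((T t : ℤ) * x t j) +
      ∑ k : P, y (Sum.inr k) * ((b : ℤ) ^ W t k * Z t k) = 0) →
      ∀ t, ∑ j, y (Sum.inl j) * ((T t : ℤ) * x t j) +
      ∑ k : P, y (Sum.inr k) * ((b : ℤ) ^ W t k * Z t k) = 0 := by
    intro y hy t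
    have h1 := hhom y (hy.mono fun t ht => by
      rw [Fintype.sum_sum_type]
      rw [hT, hx, hW, hZ] at ht
      exact ht) t
    rw [Fintype.sum_sum_type] at h1
    rw [hT, hx, hW, hZ]
    exact h1
  clear hhom hviol0 hX0 hgap0 hdis0 hpow0 hlW0 hTlog0 hT0 hH0 hS0 hD0 hDx0 hhx0 hx hH hT hM hW
    hl hZ hDD hff
  -- basic inequalities
  have hTR : ∀ t, (1 : ℝ) ≤ T t := fun t => by exact_mod_cast hT1 t
  have hlT : ∀ t, 0 ≤ Real.log (T t) := fun t => Real.log_nonneg (hTR t)
  have hML0 : ∀ t, 0 ≤ M t * L := fun t => (hlT t).trans (hTlog t)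
  have hM0 : ∀ t, 0 ≤ M t := fun t => nonneg_of_mul_nonneg_left (hML0 t) hL0
  have hlH0 : ∀ t, 0 ≤ Real.log (H t) := fun t => Real.log_natCast_nonneg _
  have hPne : P.Nonempty := by
    by_contra hemp
    rw [Finset.not_nonempty_iff_eq_empty] at hemp
    have h1 := hviol 0
    rw [hemp] at h1
    simp only [Finset.card_empty, Finset.sum_empty, Nat.cast_zero] at h1
    have h2 := hML0 0
    have h3 := logFD_nonneg d g (x 0) (DD 0)
    have h4 := hlH0 0
    have h5 : 0 ≤ (d + 0 : ℝ) * (M 0 * L) := by positivity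
    have h6 : 0 ≤ ε * Real.log (H 0) := by positivity
    linarith
  obtain ⟨kk, hkk⟩ := hPne
  have hax : ∀ t, 1 ≤ (∑ j, a j * x t j).natAbs := by
    intro t
    by_contra h
    have h1 : (∑ j, a j * x t j).natAbs = 0 := by omega
    have h2 := hpow t kk hkk
    rw [h1, mul_zero] at h2
    have : 0 < b ^ W t kk := by positivity
    omega
  have hHp : ∀ t, 1 ≤ H t := by
    intro t
    by_contra h
    have h1 : ∀ j, x t j = 0 := by
      intro j
      have := hHx t j
      omega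
    have h2 := hax t
    simp [h1] at h2
  have hHR : ∀ t, (1 : ℝ) ≤ H t := fun t => by exact_mod_cast hHp t
  have hxR : ∀ t j, |(x t j : ℝ)| ≤ H t := by
    intro t j
    have h1 : ((x t j).natAbs : ℝ) ≤ H t := by exact_mod_cast hHx t j
    rwa [Nat.cast_natAbs, Int.cast_abs] at h1
  have haxR : ∀ t, (((∑ j, a j * x t j).natAbs : ℕ) : ℝ) ≤ Ga * H t := by
    intro t
    rw [Nat.cast_natAbs, Int.cast_abs]
    push_cast
    refine (Finset.abs_sum_le_sum_abs _ _).trans ?_
    have h1 : ∑ j, |(a j : ℝ) * x t j| ≤ ∑ j, |(a j : ℝ)| * H t := by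
      refine Finset.sum_le_sum fun j _ => ?_
      rw [abs_mul]
      exact mul_le_mul_of_nonneg_left (hxR t j) (abs_nonneg _)
    rw [← Finset.sum_mul] at h1
    have h2 : ∑ j, |(a j : ℝ)| ≤ Ga := by rw [hGa]; linarith
    exact h1.trans (mul_le_mul_of_nonneg_right h2 (by linarith [hHR t]))
  have hWL : ∀ t, ∀ k ∈ P, W t k * L ≤ L + Real.log Ga + Real.log (H t) := by
    intro t k hk
    have h1 : (b : ℝ) ^ W t k ≤ b * (Ga * H t) := by
      have h2 : ((b ^ W t k : ℕ) : ℝ) ≤ ((b * (∑ j, a j * x t j).natAbs : ℕ) : ℝ) := by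
        exact_mod_cast hpow t k hk
      push_cast at h2
      exact h2.trans (mul_le_mul_of_nonneg_left (by
        have := haxR t
        push_cast at this
        exact this) (by linarith))
    have h3 := Real.log_le_log (by positivity) h1
    have h4 := hHR t
    rw [Real.log_pow, Real.log_mul (by positivity) (by positivity),
      Real.log_mul (by positivity) (by positivity), ← hL] at h3
    linarith
  have hlWL : ∀ t, ∀ k ∈ P, (l t k : ℝ) * L ≤ W t k * L := by
    intro t k hk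
    have h1 : (l t k : ℝ) ≤ W t k := by exact_mod_cast hlW t k hk
    exact mul_le_mul_of_nonneg_right h1 hL0.le
  have hsl : ∀ t, ∑ k ∈ P, (l t k : ℝ) * L ≤ r * (L + Real.log Ga + Real.log (H t)) := by
    intro t
    have h1 : ∑ k ∈ P, (l t k : ℝ) * L ≤ ∑ _k ∈ P, (L + Real.log Ga + Real.log (H t)) :=
      Finset.sum_le_sum fun k hk => (hlWL t k hk).trans (hWL t k hk)
    rw [Finset.sum_const, nsmul_eq_mul] at h1
    have h2 := hlH0 t
    exact h1.trans (mul_le_mul_of_nonneg_right hnr (by linarith))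
  have hpos : ∀ t, 0 ≤ ((d : ℝ) + P.card) * (M t * L) ∧ 0 ≤ ε * Real.log (H t) := by
    intro t
    have h1 := hML0 t
    have h2 := hlH0 t
    constructor <;> positivity
  have hrN : ∀ t : ℕ, (t : ℝ) + r + 1 ≤ r * Real.log (H t) := by
    intro t
    have h1 := hviol t
    have h2 := hsl t
    have h3 := hpos t
    have h4 := logFD_nonneg d g (x t) (DD t)
    have h5 : (r + 1) * w ≤ C1 := by
      rw [hC1]
      have : 0 ≤ d * Real.log G := by positivity
      have : 0 ≤ (r + 1) * Real.log K := by positivity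
      linarith
    have h6 : (r : ℝ) * w = r * (L + Real.log Ga) + r := by rw [hw]; ring
    have h7 : (r : ℝ) * (L + Real.log Ga + Real.log (H t)) = r * (L + Real.log Ga) +
      r * Real.log (H t) := by ring
    have h8 : ((r : ℝ) + 1) * w = r * w + w := by ring
    linarith
  have hr1 : (1 : ℝ) ≤ r := by
    have h1 : r ≠ 0 := by
      intro h
      subst h
      exact kk.elim0
    exact_mod_cast Nat.one_le_iff_ne_zero.2 h1
  have hN1 : ∀ t, 1 ≤ Real.log (H t) := by
    intro t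
    have h1 := hrN t
    have h2 : (0 : ℝ) ≤ t := Nat.cast_nonneg t
    by_contra h
    push Not at h
    nlinarith
  have hNlim : Tendsto (fun t => Real.log (H t)) atTop atTop := by
    have h1 : Tendsto (fun t : ℕ => (t : ℝ) / r) atTop atTop :=
      tendsto_natCast_atTop_atTop.atTop_div_const (by linarith)
    refine tendsto_atTop_mono (fun t => ?_) h1
    rw [div_le_iff₀ (by linarith)]
    have := hrN t
    linarith
  -- the functions
  obtain ⟨v, hv⟩ : ∃ v : (Fin d ⊕ P) → (ℕ → ℚ), v = Sum.elim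
      (fun (j : Fin d) (t : ℕ) => (((T t : ℤ) * x t j : ℤ) : ℚ))
      (fun (k : P) (t : ℕ) => (((b : ℤ) ^ W t k * Z t k : ℤ) : ℚ)) := ⟨_, rfl⟩
  have hvl : ∀ j t, v (Sum.inl j) t = (((T t : ℤ) * x t j : ℤ) : ℚ) := fun j t => by rw [hv]; rfl
  have hvr : ∀ k t, v (Sum.inr k) t = (((b : ℤ) ^ W t k * Z t k : ℤ) : ℚ) := fun k t => by
    rw [hv]; rfl
  have hXli : LinearIndependent ℚ fun i => v (Sum.inl i) := by
    by_contra h
    rw [← LinearIndependent.iff_fractionRing ℤ ℚ, Fintype.not_linearIndependent_iff] at h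
    obtain ⟨s, hs, i, hi⟩ := h
    obtain ⟨t1, ht1⟩ := hav s (fun h => hi (congrFun h i))
    apply ht1 t1 le_rfl
    have h1 := congrFun hs t1
    simp only [Finset.sum_apply, Pi.smul_apply, Pi.zero_apply] at h1
    simp only [zsmul_eq_mul, hvl] at h1
    have h2 : (T t1 : ℤ) * ∑ j, s j * x t1 j = 0 := by
      rw [Finset.mul_sum]
      have h3 : ∑ j, s j * ((T t1 : ℤ) * x t1 j) = 0 := by exact_mod_cast h1
      rw [← h3]
      exact Finset.sum_congr rfl fun j _ => by ring
    rcases mul_eq_zero.1 h2 with h | h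
    · have := hT1 t1
      omega
    · exact h
  have hYli : LinearIndependent ℚ fun k => v (Sum.inr k) := by
    by_contra h
    rw [← LinearIndependent.iff_fractionRing ℤ ℚ, Fintype.not_linearIndependent_iff] at h
    obtain ⟨c0, hc0, i0, hi0⟩ := h
    obtain ⟨c, hc⟩ : ∃ c : Fin r → ℤ, ∀ k : P, c k = c0 k :=
      ⟨fun k => if h : k ∈ P then c0 ⟨k, h⟩ else 0, fun k => dif_pos k.2⟩
    have hrel : ∀ t, ∑ k ∈ P, (c k : ℝ) * ((b : ℝ) ^ W t k * Z t k) = 0 := by
      intro t
      have h1 := congrFun hc0 t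
      simp only [Finset.sum_apply, Pi.smul_apply, Pi.zero_apply] at h1
      simp only [zsmul_eq_mul, hvr] at h1
      have h2 : ∑ k : P, c0 k * ((b : ℤ) ^ W t k * Z t k) = 0 := by exact_mod_cast h1
      rw [← Finset.sum_coe_sort P]
      have h3 : ∑ k : P, (c k : ℝ) * ((b : ℝ) ^ W t k * Z t k) =
          ((∑ k : P, c0 k * ((b : ℤ) ^ W t k * Z t k) : ℤ) : ℝ) := by
        push_cast
        exact Finset.sum_congr rfl fun k _ => by rw [hc k]
      rw [h3, h2, Int.cast_zero]
    have hcex : ∃ k ∈ P, c k ≠ 0 := ⟨i0, i0.2, by rw [hc]; exact hi0⟩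
    obtain ⟨CS, hCS⟩ : ∃ CS : ℝ, CS = ∑ k ∈ P, |(c k : ℝ)| := ⟨_, rfl⟩
    have hCS1 : 1 ≤ CS := by
      obtain ⟨k, hk, hck⟩ := hcex
      have h1 : (1 : ℝ) ≤ |(c k : ℝ)| := by
        rw [← Int.cast_abs]
        exact_mod_cast Int.one_le_abs hck
      rw [hCS]
      exact h1.trans (Finset.single_le_sum (f := fun k => |(c k : ℝ)|) (fun k _ => abs_nonneg _) hk)
    have hsum0 : ∑ k ∈ P, c k = 0 := by
      by_contra hne
      obtain ⟨t, ht⟩ : ∃ t : ℕ, Real.log (b * (CS * K)) / L < t := exists_nat_gt _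
      rw [div_lt_iff₀ hL0] at ht
      obtain ⟨y, hy⟩ : ∃ y : ℝ, y = (T t : ℝ) * ((∑ j, a j * x t j : ℤ) : ℝ) := ⟨_, rfl⟩
      have hXt := hX t
      rw [← hy] at hXt
      have h1 : ((∑ k ∈ P, c k : ℤ) : ℝ) * y = ∑ k ∈ P, (c k : ℝ) * (y - (b : ℝ) ^ W t k * Z t k) := by
        simp_rw [mul_sub]
        rw [Finset.sum_sub_distrib, hrel t, sub_zero, ← Finset.sum_mul]
        push_cast
        rfl
      obtain ⟨q, hq⟩ : ∃ q : ℝ, q = (((∑ j, a j * x t j).natAbs : ℕ) : ℝ) := ⟨_, rfl⟩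
      have hq1 : 1 ≤ q := by rw [hq]; exact_mod_cast hax t
      have hyq : q ≤ |y| := by
        rw [hy, abs_mul, Nat.abs_cast, hq, Nat.cast_natAbs, Int.cast_abs]
        exact le_mul_of_one_le_left (abs_nonneg _) (hTR t)
      have h2 : |∑ k ∈ P, (c k : ℝ) * (y - (b : ℝ) ^ W t k * Z t k)| ≤
          ∑ k ∈ P, |(c k : ℝ)| * (K * (b * q * Real.exp (-(t * L)))) := by
        refine (Finset.abs_sum_le_sum_abs _ _).trans (Finset.sum_le_sum fun k hk => ?_)
        rw [abs_mul]
        refine mul_le_mul_of_nonneg_left ((hXt k hk).trans ?_) (abs_nonneg _)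
        refine mul_le_mul_of_nonneg_left ?_ (by linarith)
        have h3 : (b : ℝ) ^ W t k ≤ b * q := by
          rw [hq]
          exact_mod_cast hpow t k hk
        have h4 : (b : ℝ) ^ W t k = Real.exp (W t k * L) := by
          rw [hL, ← Real.log_pow, Real.exp_log (by positivity)]
        have h5 := hgap t k hk
        have h6 : (M t + W t k - l t k) * L ≤ W t k * L + -(t * L) := by
          have : (M t + t) * L ≤ l t k * L := mul_le_mul_of_nonneg_right (by linarith) hL0.le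
          linarith
        calc Real.exp ((M t + W t k - l t k) * L) ≤ Real.exp (W t k * L + -(t * L)) :=
              Real.exp_le_exp.2 h6
          _ = (b : ℝ) ^ W t k * Real.exp (-(t * L)) := by rw [Real.exp_add, h4]
          _ ≤ b * q * Real.exp (-(t * L)) := mul_le_mul_of_nonneg_right h3 (Real.exp_nonneg _)
      rw [← h1, ← Finset.sum_mul, ← hCS, abs_mul] at h2
      have h3 : (1 : ℝ) ≤ |((∑ k ∈ P, c k : ℤ) : ℝ)| := by
        rw [← Int.cast_abs]
        exact_mod_cast Int.one_le_abs hne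
      have h4 : |y| ≤ |((∑ k ∈ P, c k : ℤ) : ℝ)| * |y| := le_mul_of_one_le_left (abs_nonneg _) h3
      have h5 : q ≤ q * (b * (CS * K) * Real.exp (-(t * L))) := by
        calc q ≤ CS * (K * (b * q * Real.exp (-(t * L)))) := by linarith
          _ = q * (b * (CS * K) * Real.exp (-(t * L))) := by ring
      have h6 : 1 ≤ b * (CS * K) * Real.exp (-(t * L)) := by
        have : q * 1 ≤ q * (b * (CS * K) * Real.exp (-(t * L))) := by linarith
        exact le_of_mul_le_mul_left this (by linarith)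
      have h7 := Real.log_le_log one_pos h6
      have hbp : 0 < (b : ℝ) * (CS * K) := by positivity
      rw [Real.log_one, Real.log_mul hbp.ne' (Real.exp_ne_zero _), Real.log_exp] at h7
      linarith
    have hIH : ∀ P' : Finset (Fin r), ∃ (S : Finset (Fin d → ℤ)) (C : ℝ), 0 ≤ C ∧
        (∀ s ∈ S, s ≠ 0) ∧ (P' ⊂ P → CorePropS d b r s p hm g a ε (CS * K) P' S C) := by
      intro P'
      by_cases hP' : P' ⊂ P
      · obtain ⟨S, C, h1, h2, h3⟩ := IH P' hP' (CS * K) (by nlinarith)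
        exact ⟨S, C, h1, h2, fun _ => h3⟩
      · exact ⟨∅, 0, le_rfl, by simp, fun h => absurd h hP'⟩
    choose S' C' hC'0 hS'0 hprop using hIH
    -- a large index
    obtain ⟨t2, ht2⟩ : ∃ t2, ∀ s ∈ univ.biUnion S', ∀ t ≥ t2, ∑ j, s j * x t j ≠ 0 := by
      have h1 : ∀ s : Fin d → ℤ, ∃ t1, s ≠ 0 → ∀ t ≥ t1, ∑ j, s j * x t j ≠ 0 := by
        intro s
        by_cases hs : s = 0
        · exact ⟨0, fun h => absurd hs h⟩
        · obtain ⟨t1, ht1⟩ := hav s hs
          exact ⟨t1, fun _ => ht1⟩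
      choose τ hτ using h1
      refine ⟨(univ.biUnion S').sup τ, fun s hs t ht => ?_⟩
      have hs0 : s ≠ 0 := by
        rw [mem_biUnion] at hs
        obtain ⟨P', -, hP'⟩ := hs
        exact hS'0 P' s hP'
      exact hτ s hs0 t (le_trans (Finset.le_sup hs) ht)
    obtain ⟨t3, ht3⟩ := exists_nat_gt (∑ P', C' P')
    obtain ⟨t, ht⟩ : ∃ t, t = max t2 t3 := ⟨_, rfl⟩
    have hC't : ∀ P', C' P' ≤ t := by
      intro P'
      have h1 : C' P' ≤ ∑ P', C' P' := Finset.single_le_sum (f := C') (fun _ _ => hC'0 _) (mem_univ P')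
      have h2 : (t3 : ℝ) ≤ t := by rw [ht]; exact_mod_cast le_max_right _ _
      linarith
    have hlpos : ∀ k ∈ P, 1 ≤ l t k := by
      intro k hk
      have h1 := hgap t k hk
      have h2 := hM0 t
      have h3 : (0 : ℝ) ≤ t := Nat.cast_nonneg t
      have h4 : (r + 1) * w ≤ C1 := by
        rw [hC1]
        have : 0 ≤ d * Real.log G := by positivity
        have : 0 ≤ (r + 1) * Real.log K := by positivity
        linarith
      have h5 : (0 : ℝ) < l t k := by nlinarith
      exact_mod_cast h5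
    obtain ⟨P', l', hP', hll', hl'W, hdis', hX', hsum'⟩ := mergeStep r P b K (M t) L
      ((T t : ℝ) * ((∑ j, a j * x t j : ℤ) : ℝ)) hK hL0 (W t) (l t) (Z t) c hlpos (hlW t) (hdis t)
      (hX t) hcex hsum0 (hrel t)
    rw [← hCS] at hX'
    have hfin := hprop P' hP' (x t) (H t) (fun s hs => ht2 s (by
      rw [mem_biUnion]; exact ⟨P', mem_univ _, hs⟩) t (by rw [ht]; exact le_max_left _ _)) (hHx t)
      (T t) (M t) (W t) l' (Z t) (DD t) (ff t) (hT1 t) (by rw [← hL]; exact hTlog t) hl'W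
      (fun k hk => hpow t k (hP'.1 hk)) hdis' (fun k hk => by
        have h1 := hgap t k (hP'.1 hk)
        have h2 : (l t k : ℝ) ≤ l' k := by exact_mod_cast hll' k hk
        have h3 := hC't P'
        linarith) (by rw [← hL]; exact hX') (hDf t) (hDx t) (hhx t)
    rw [← hL] at hfin
    have h1 := hviol t
    have h2 : ∑ k ∈ P, (l t k : ℝ) * L ≤ ∑ k ∈ P', (l' k : ℝ) * L := by
      rw [← Finset.sum_mul, ← Finset.sum_mul]
      refine mul_le_mul_of_nonneg_right ?_ hL0.le
      exact_mod_cast hsum'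
    have h3 : (P'.card : ℝ) ≤ P.card := by exact_mod_cast Finset.card_le_card hP'.1
    have h4 := hML0 t
    have h5 : ((d : ℝ) + P'.card) * (M t * L) ≤ (d + P.card) * (M t * L) :=
      mul_le_mul_of_nonneg_right (by linarith) h4
    have h6 := hC't P'
    linarith
  -- the coordinates
  obtain ⟨J, I, e, N0, Q, hli, hQ, hQrel⟩ := coords v hXli hYli
  let M1 : Matrix (Fin d ⊕ J) (Fin d ⊕ J) ℤ :=
    Matrix.fromBlocks gz 0 (Matrix.of fun _ j => -(a j)) 1
  have hdet1 : M1.det ≠ 0 := by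
    change (Matrix.fromBlocks gz 0 _ 1).det ≠ 0
    rw [Matrix.det_fromBlocks_zero₁₂, Matrix.det_one, mul_one]
    exact hdetz
  let Mv : Fin (s + 1) → Matrix (Fin d ⊕ J) (Fin d ⊕ J) ℤ :=
    Fin.cons Q fun u => Matrix.fromBlocks (hm u) 0 0 1
  have hdetv : ∀ u, (Mv u).det ≠ 0 := by
    intro u
    refine Fin.cases ?_ (fun u' => ?_) u
    · exact hQ
    · change (Matrix.fromBlocks (hm u') 0 0 1).det ≠ 0
      rw [Matrix.det_fromBlocks_zero₁₂, Matrix.det_one, mul_one]
      exact hdeth u'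
  let pb : Fin (s + 1) → ℕ := Fin.cons b p
  have hplaces : Places M1 Mv pb := by
    refine ⟨hdet1, hdetv, ?_, ?_⟩
    · intro u
      refine Fin.cases ?_ (fun u' => ?_) u
      · exact hb
      · exact hp2 u'
    · intro u u'
      refine Fin.cases ?_ (fun w => ?_) u <;> refine Fin.cases ?_ (fun w' => ?_) u'
      · intro h; exact absurd rfl h
      · intro _; exact (hpb w').symm
      · intro _; exact hpb w
      · intro h; exact hpp w w' (fun h' => h (by rw [h']))
  let xs : ℕ → (Fin d ⊕ J) → ℤ := fun t => Sum.elim (fun j => (T t : ℤ) * x t j)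
    (fun k => (b : ℤ) ^ W t k * Z t k)
  let ex : ℕ → Fin (s + 1) → (Fin d ⊕ J) → ℕ := fun t =>
    Fin.cons (fun i => Sum.elim (fun _ => 0) (fun k : P => W t k) (e i))
      (fun u => Sum.elim (fun i => ff t u i) (fun _ => 0))
  let A : ℕ → (Fin d ⊕ J) → ℝ := fun t => Sum.elim
    (fun i => (T t : ℝ) * max |∑ j, g i j * (x t j : ℝ)| (1 / (H t : ℝ) ^ d))
    (fun k => K * Real.exp ((M t + W t k - l t k) * L))
  have hDD1 : ∀ t, 1 ≤ DD t := by
    intro t
    rw [hDf]
    exact Finset.one_le_prod' fun u _ => Finset.one_le_prod' fun i _ => Nat.one_le_pow _ _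
      (by have := hp2 u; omega)
  have hbd : ∀ t i, |∑ j, g i j * (x t j : ℝ)| ≤ G * H t := by
    intro t i
    refine (Finset.abs_sum_le_sum_abs _ _).trans ?_
    have h1 : ∑ j, |g i j * (x t j : ℝ)| ≤ ∑ j, |g i j| * H t := by
      refine Finset.sum_le_sum fun j _ => ?_
      rw [abs_mul]
      exact mul_le_mul_of_nonneg_left (hxR t j) (abs_nonneg _)
    rw [← Finset.sum_mul] at h1
    have h2 : ∑ j, |g i j| ≤ G := by
      have h3 : ∑ j, |g i j| ≤ ∑ i, ∑ j, |g i j| :=
        Finset.single_le_sum (f := fun i => ∑ j, |g i j|)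
          (fun i _ => Finset.sum_nonneg fun j _ => abs_nonneg _) (mem_univ i)
      rw [hG]; linarith
    exact h1.trans (mul_le_mul_of_nonneg_right h2 (by linarith [hHR t]))
  have hmaxpos : ∀ t i, 0 < max |∑ j, g i j * (x t j : ℝ)| (1 / (H t : ℝ) ^ d) := by
    intro t i
    have := hHR t
    exact lt_max_of_lt_right (by positivity)
  have hA0 : ∀ t i, 0 < A t i := by
    rintro t (i | k)
    · exact mul_pos (by linarith [hTR t]) (hmaxpos t i)
    · exact mul_pos (by linarith) (Real.exp_pos _)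
  have hlmax : ∀ t i, -(d * Real.log (H t)) ≤
      Real.log (max |∑ j, g i j * (x t j : ℝ)| (1 / (H t : ℝ) ^ d)) ∧
      Real.log (max |∑ j, g i j * (x t j : ℝ)| (1 / (H t : ℝ) ^ d)) ≤
        Real.log G + Real.log (H t) := by
    intro t i
    have h1 := hHR t
    have h2 : 1 / (H t : ℝ) ^ d ≤ 1 := by
      rw [div_le_one (by positivity)]
      exact one_le_pow₀ h1
    constructor
    · have h3 := Real.log_le_log (by positivity) (le_max_right |∑ j, g i j * (x t j : ℝ)|
        (1 / (H t : ℝ) ^ d))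
      rw [one_div, Real.log_inv, Real.log_pow] at h3
      rw [one_div]
      exact h3
    · rw [← Real.log_mul (by linarith) (by linarith)]
      exact Real.log_le_log (hmaxpos t i) (max_le (hbd t i) (by nlinarith))
  have hMLn : ∀ t, M t * L ≤ r * w * Real.log (H t) := by
    intro t
    have h1 := hviol t
    have h2 := hsl t
    have h3 := hpos t
    have h4 := logFD_nonneg d g (x t) (DD t)
    have h5 := hN1 t
    have h6 := hML0 t
    have h7 : (0 : ℝ) ≤ t := Nat.cast_nonneg t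
    have h8 : M t * L ≤ (d + P.card) * (M t * L) := by
      refine le_mul_of_one_le_left h6 ?_
      have : (0 : ℝ) ≤ P.card := Nat.cast_nonneg _
      linarith
    have h9 : r * (L + Real.log Ga + Real.log (H t)) ≤ r * w * Real.log (H t) := by
      rw [mul_assoc]
      refine mul_le_mul_of_nonneg_left ?_ hr0
      rw [hw]
      nlinarith
    linarith
  have hWLn : ∀ t, ∀ k ∈ P, W t k * L ≤ w * Real.log (H t) := by
    intro t k hk
    have h1 := hWL t k hk
    have h2 := hN1 t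
    have h3 : L + Real.log Ga + Real.log (H t) ≤ w * Real.log (H t) := by
      rw [hw]
      nlinarith
    linarith
  obtain ⟨Gh, hGh⟩ : ∃ Gh : ℝ, Gh = 1 + ∑ u, ∑ i, ∑ j, |((hm u i j : ℤ) : ℝ)| := ⟨_, rfl⟩
  have hGh1 : 1 ≤ Gh := by
    have : 0 ≤ ∑ u, ∑ i, ∑ j, |((hm u i j : ℤ) : ℝ)| := Finset.sum_nonneg fun u _ =>
      Finset.sum_nonneg fun i _ => Finset.sum_nonneg fun j _ => abs_nonneg _
    rw [hGh]; linarith
  have hlogGh : 0 ≤ Real.log Gh := Real.log_nonneg hGh1
  have hffb : ∀ t u i, (ff t u i : ℝ) * Real.log (p u) ≤ Real.log Gh + Real.log (H t) := by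
    intro t u i
    have h0 : (2 : ℝ) ≤ p u := by exact_mod_cast hp2 u
    have h1 : ((p u ^ ff t u i : ℕ) : ℝ) ≤ |((∑ j, hm u i j * x t j : ℤ) : ℝ)| := by
      have h2 : p u ^ ff t u i ≤ (∑ j, hm u i j * x t j).natAbs := by
        refine Nat.le_of_dvd (Int.natAbs_pos.2 (hhx t u i)) ?_
        refine Int.natCast_dvd.1 ?_
        push_cast
        exact hDx t u i
      rw [← Int.cast_abs, ← Nat.cast_natAbs]
      exact_mod_cast h2
    have h2 : |((∑ j, hm u i j * x t j : ℤ) : ℝ)| ≤ Gh * H t := by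
      push_cast
      refine (Finset.abs_sum_le_sum_abs _ _).trans ?_
      have h3 : ∑ j, |(hm u i j : ℝ) * (x t j : ℝ)| ≤ ∑ j, |(hm u i j : ℝ)| * H t := by
        refine Finset.sum_le_sum fun j _ => ?_
        rw [abs_mul]
        exact mul_le_mul_of_nonneg_left (hxR t j) (abs_nonneg _)
      rw [← Finset.sum_mul] at h3
      have h4 : ∑ j, |((hm u i j : ℤ) : ℝ)| ≤ Gh := by
        have h5 : ∑ j, |((hm u i j : ℤ) : ℝ)| ≤ ∑ i, ∑ j, |((hm u i j : ℤ) : ℝ)| :=
          Finset.single_le_sum (f := fun i => ∑ j, |((hm u i j : ℤ) : ℝ)|)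
            (fun i _ => Finset.sum_nonneg fun j _ => abs_nonneg _) (mem_univ i)
        have h6 : ∑ i, ∑ j, |((hm u i j : ℤ) : ℝ)| ≤ ∑ u, ∑ i, ∑ j, |((hm u i j : ℤ) : ℝ)| :=
          Finset.single_le_sum (f := fun u => ∑ i, ∑ j, |((hm u i j : ℤ) : ℝ)|)
            (fun u _ => Finset.sum_nonneg fun i _ => Finset.sum_nonneg fun j _ => abs_nonneg _)
            (mem_univ u)
        rw [hGh]; linarith
      exact h3.trans (mul_le_mul_of_nonneg_right h4 (by linarith [hHR t]))
    have h3 := h1.trans h2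
    rw [Nat.cast_pow] at h3
    have h4 := Real.log_le_log (by positivity) h3
    rwa [Real.log_pow, Real.log_mul (by linarith) (by linarith [hHR t])] at h4
  obtain ⟨c2, hc2⟩ : ∃ c2 : ℝ, c2 = (r + 1) * w + Real.log G + Real.log K + d + 1 +
    Real.log Gh := ⟨_, rfl⟩
  have hc21 : 1 ≤ c2 := by
    have : 0 ≤ (r + 1) * w := by positivity
    rw [hc2]; linarith
  have hc2n : ∀ t, c2 * Real.log (H t) = r * w * Real.log (H t) + w * Real.log (H t) +
      Real.log G * Real.log (H t) + Real.log K * Real.log (H t) + d * Real.log (H t) +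
      Real.log (H t) + Real.log Gh * Real.log (H t) := by
    intro t; rw [hc2]; ring
  have hnn : ∀ t, 0 ≤ r * w * Real.log (H t) ∧ 0 ≤ w * Real.log (H t) ∧
      Real.log G ≤ Real.log G * Real.log (H t) ∧ Real.log K ≤ Real.log K * Real.log (H t) ∧
      0 ≤ d * Real.log (H t) ∧ Real.log Gh ≤ Real.log Gh * Real.log (H t) := by
    intro t
    have h1 := hN1 t
    refine ⟨by positivity, by positivity, le_mul_of_one_le_right hlogG h1,
      le_mul_of_one_le_right hlogK h1, by positivity, le_mul_of_one_le_right hlogGh h1⟩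
  have hAlog : ∀ t i, |Real.log (A t i)| ≤ c2 * Real.log (H t) := by
    rintro t (i | k)
    · change |Real.log ((T t : ℝ) * max |∑ j, g i j * (x t j : ℝ)| (1 / (H t : ℝ) ^ d))| ≤ _
      rw [Real.log_mul (by linarith [hTR t]) (hmaxpos t i).ne']
      have h1 := hlmax t i
      have h2 := hlT t
      have h3 := hTlog t
      have h4 := hMLn t
      have h5 := hnn t
      have h6 := hc2n t
      have h7 := hN1 t
      rw [abs_le]
      constructor <;> linarith
    · change |Real.log (K * Real.exp ((M t + W t k - l t k) * L))| ≤ _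
      rw [Real.log_mul (by linarith) (Real.exp_ne_zero _), Real.log_exp]
      have hkP : ((k : P) : Fin r) ∈ P := (k : P).2
      have h1 := hML0 t
      have h2 := hMLn t
      have h3 := hWLn t k hkP
      have h4 := hlWL t k hkP
      have h5 := hnn t
      have h6 := hc2n t
      have h7 := hN1 t
      have h8 : 0 ≤ (l t k : ℝ) * L := by positivity
      rw [abs_le]
      constructor <;> nlinarith
  have hexlog : ∀ t u i, (ex t u i : ℝ) * Real.log (pb u) ≤ c2 * Real.log (H t) := by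
    intro t u i
    have h5 := hnn t
    have h6 := hc2n t
    have h7 := hN1 t
    refine Fin.cases ?_ (fun u' => ?_) u
    · change ((Sum.elim (fun _ => 0) (fun k : P => W t k) (e i) : ℕ) : ℝ) * Real.log b ≤ _
      rw [← hL]
      rcases e i with i' | k
      · simp only [Sum.elim_inl, Nat.cast_zero, zero_mul]
        linarith
      · simp only [Sum.elim_inr]
        have h8 := hWLn t k k.2
        linarith
    · change ((Sum.elim (fun i => ff t u' i) (fun _ => 0) i : ℕ) : ℝ) * Real.log (p u') ≤ _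
      rcases i with i | k
      · simp only [Sum.elim_inl]
        have h8 := hffb t u' i
        linarith
      · simp only [Sum.elim_inr, Nat.cast_zero, zero_mul]
        linarith
  have hDlog : ∀ t, ∑ u, ∑ i, (ex t u i : ℝ) * Real.log (pb u) =
      Real.log (DD t) + ∑ k ∈ P, W t k * L := by
    intro t
    rw [Fin.sum_univ_succ, add_comm]
    congr 1
    · rw [hDf]
      push_cast
      rw [Real.log_prod fun u _ => by
        have := hp2 u
        have h0 : (0 : ℝ) < p u := by exact_mod_cast (by omega : 0 < p u)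
        exact (Finset.prod_pos fun i _ => pow_pos h0 _).ne']
      refine Finset.sum_congr rfl fun u _ => ?_
      have := hp2 u
      have h0 : (0 : ℝ) < p u := by exact_mod_cast (by omega : 0 < p u)
      rw [Real.log_prod fun i _ => (pow_pos h0 _).ne', Fintype.sum_sum_type]
      change ∑ i, (ff t u i : ℝ) * Real.log (p u) + ∑ _k : J, ((0 : ℕ) : ℝ) * Real.log (p u) = _
      simp only [Nat.cast_zero, zero_mul, Finset.sum_const_zero, add_zero, Real.log_pow]
    · obtain ⟨F, hF⟩ : ∃ F : (I ⊕ P) → ℝ, F =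
        fun i' => ((Sum.elim (fun _ => 0) (fun k : P => W t k) i' : ℕ) : ℝ) * L := ⟨_, rfl⟩
      have h1 : ∀ i, (ex t 0 i : ℝ) * Real.log (pb 0) = F (e i) := by
        intro i
        rw [hF]
        change ((Sum.elim (fun _ => 0) (fun k : P => W t k) (e i) : ℕ) : ℝ) * Real.log b = _
        rw [← hL]
      rw [Finset.sum_congr rfl fun i _ => h1 i, Equiv.sum_comp e F, Fintype.sum_sum_type, hF]
      simp only [Sum.elim_inl, Sum.elim_inr, Nat.cast_zero, zero_mul, Finset.sum_const_zero,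
        zero_add]
      exact Finset.sum_coe_sort P fun k => (W t k : ℝ) * L
  have hnon : Nonempty (Fin d ⊕ J) := ⟨Sum.inl ⟨0, hd⟩⟩
  have hsize : ∀ t, Size pb c2 ε (Real.log (H t)) (ex t) (A t) := by
    intro t
    refine ⟨hexlog t, hA0 t, hAlog t, ?_⟩
    rw [hDlog, Fintype.sum_sum_type]
    change ∑ i, Real.log ((T t : ℝ) * max |∑ j, g i j * (x t j : ℝ)| (1 / (H t : ℝ) ^ d)) +
      ∑ k : J, Real.log (K * Real.exp ((M t + W t k - l t k) * L)) + ε * Real.log (H t) ≤ _
    have h1 : ∑ i, Real.log ((T t : ℝ) * max |∑ j, g i j * (x t j : ℝ)| (1 / (H t : ℝ) ^ d)) =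
        d * Real.log (T t) +
          Real.log (∏ i, max |∑ j, g i j * (x t j : ℝ)| (1 / (H t : ℝ) ^ d)) := by
      rw [Real.log_prod fun i _ => (hmaxpos t i).ne', Finset.sum_congr rfl fun i _ =>
        Real.log_mul (show (T t : ℝ) ≠ 0 by linarith [hTR t]) (hmaxpos t i).ne',
        Finset.sum_add_distrib, Finset.sum_const, Finset.card_univ, Fintype.card_fin,
        nsmul_eq_mul]
    have h2 : Real.log (∏ i, max |∑ j, g i j * (x t j : ℝ)| (1 / (H t : ℝ) ^ d)) ≤
        d * Real.log G + logF d g (x t) := by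
      have h3 := prodmax d (fun i => |∑ j, g i j * (x t j : ℝ)|) G (H t) hG1 (hHR t)
        (fun i => abs_nonneg _) (hbd t)
      have h4 := Real.log_le_log (Finset.prod_pos fun i _ => hmaxpos t i) h3
      rw [Real.log_mul (by positivity) (by positivity), Real.log_pow] at h4
      exact h4
    have h3 : ∑ k : J, Real.log (K * Real.exp ((M t + W t k - l t k) * L)) ≤
        ∑ k ∈ P, (Real.log K + (M t + W t k - l t k) * L) := by
      have h4 : ∀ k : P, 0 ≤ Real.log K + (M t + W t k - l t k) * L := by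
        intro k
        have h5 := hlWL t k k.2
        have h6 := hML0 t
        nlinarith
      rw [← Finset.sum_coe_sort P (fun k => Real.log K + (M t + W t k - l t k) * L)]
      calc ∑ k : J, Real.log (K * Real.exp ((M t + W t k - l t k) * L)) =
          ∑ k : J, (fun k : P => Real.log K + (M t + W t k - l t k) * L) k := by
            refine Finset.sum_congr rfl fun k _ => ?_
            rw [Real.log_mul (by linarith) (Real.exp_ne_zero _), Real.log_exp]
        _ = ∑ k ∈ J, (fun k : P => Real.log K + (M t + W t k - l t k) * L) k :=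
            Finset.sum_coe_sort J (fun k : P => Real.log K + (M t + W t k - l t k) * L)
        _ ≤ ∑ k : P, (Real.log K + (M t + W t k - l t k) * L) :=
            Finset.sum_le_univ_sum_of_nonneg h4
    have h4 : ∑ k ∈ P, (Real.log K + (M t + W t k - l t k) * L) =
        P.card * Real.log K + P.card * (M t * L) + ∑ k ∈ P, W t k * L -
          ∑ k ∈ P, (l t k : ℝ) * L := by
      rw [← nsmul_eq_mul, ← nsmul_eq_mul, ← Finset.sum_const, ← Finset.sum_const,
        ← Finset.sum_add_distrib, ← Finset.sum_add_distrib, ← Finset.sum_sub_distrib]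
      exact Finset.sum_congr rfl fun k _ => by ring
    have h5 := hviol t
    have h6 := hTlog t
    have h7 : (d : ℝ) * Real.log (T t) ≤ d * (M t * L) :=
      mul_le_mul_of_nonneg_left h6 (by linarith)
    have h8 : (P.card : ℝ) * Real.log K ≤ (r + 1) * Real.log K :=
      mul_le_mul_of_nonneg_right (by linarith) hlogK
    have h9 : d * Real.log G + (r + 1) * Real.log K ≤ C1 := by
      rw [hC1]
      have : 0 ≤ (r + 1) * w := by positivity
      linarith
    have h10 : (0 : ℝ) ≤ t := Nat.cast_nonneg t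
    have h11 := logF_le_logFD d g (x t) (DD t) (hDD1 t)
    linarith
  obtain ⟨y, hy0, hy⟩ := subZ (s + 1) M1 Mv pb hplaces c2 ε hc21 hε
    (fun t => Real.log (H t)) hNlim ex A hsize xs (fun t h => by
      have h1 : ∀ j, x t j = 0 := by
        intro j
        have h2 : (T t : ℤ) * x t j = 0 := congrFun h (Sum.inl j)
        rcases mul_eq_zero.1 h2 with h3 | h3
        · have := hT1 t
          omega
        · exact h3
      have h2 := hax t
      simp [h1] at h2) (fun t => by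
      refine ⟨?_, ?_⟩
      · rintro (i | k)
        · have h0 : ∑ j, M1 (Sum.inl i) j * xs t j = (T t : ℤ) * ∑ j, gz i j * x t j := by
            rw [Fintype.sum_sum_type]
            have h1 : ∑ j, M1 (Sum.inl i) (Sum.inl j) * xs t (Sum.inl j) =
                (T t : ℤ) * ∑ j, gz i j * x t j := by
              rw [Finset.mul_sum]
              refine Finset.sum_congr rfl fun j _ => ?_
              change gz i j * ((T t : ℤ) * x t j) = _
              ring
            have h2 : ∑ k, M1 (Sum.inl i) (Sum.inr k) * xs t (Sum.inr k) = 0 := by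
              refine Finset.sum_eq_zero fun k _ => ?_
              change (0 : ℤ) * _ = 0
              rw [zero_mul]
            rw [h1, h2, add_zero]
          rw [h0]
          push_cast
          rw [abs_mul, Nat.abs_cast]
          refine mul_le_mul_of_nonneg_left ?_ (Nat.cast_nonneg _)
          refine le_trans (le_of_eq ?_) (le_max_left _ _)
          congr 1
          exact Finset.sum_congr rfl fun j _ => by rw [hgz]
        · have h0 : ∑ j, M1 (Sum.inr k) j * xs t j =
              -((T t : ℤ) * (∑ j, a j * x t j) - (b : ℤ) ^ W t k * Z t k) := by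
            rw [Fintype.sum_sum_type]
            have h1 : ∑ j, M1 (Sum.inr k) (Sum.inl j) * xs t (Sum.inl j) =
                -((T t : ℤ) * (∑ j, a j * x t j)) := by
              rw [Finset.mul_sum, ← Finset.sum_neg_distrib]
              refine Finset.sum_congr rfl fun j _ => ?_
              change -(a j) * ((T t : ℤ) * x t j) = _
              ring
            have h2 : ∑ k', M1 (Sum.inr k) (Sum.inr k') * xs t (Sum.inr k') =
                (b : ℤ) ^ W t k * Z t k := by
              rw [Finset.sum_eq_single k]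
              · change (1 : Matrix J J ℤ) k k * ((b : ℤ) ^ W t k * Z t k) = _
                rw [Matrix.one_apply_eq]
                ring
              · intro k' _ hk'
                change (1 : Matrix J J ℤ) k k' * _ = 0
                rw [Matrix.one_apply_ne (Ne.symm hk'), zero_mul]
              · intro h; exact absurd (mem_univ _) h
            rw [h1, h2]
            ring
          rw [h0]
          have h3 := hX t k (k : P).2
          push_cast at h3 ⊢
          rw [abs_neg]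
          exact h3
      · intro u i
        refine Fin.cases ?_ (fun u' => ?_) u
        · change (b : ℤ) ^ (Sum.elim (fun _ => 0) (fun k : P => W t k) (e i) : ℕ) ∣
            ∑ j, Q i j * xs t j
          have h1 := congrFun (hQrel i) t
          simp only [Pi.smul_apply, Finset.sum_apply] at h1
          have h3 : ∀ j, (Sum.elim (fun i => v (Sum.inl i)) (fun j : J => v (Sum.inr j)) j :
              ℕ → ℚ) t = ((xs t j : ℤ) : ℚ) := by
            rintro (j | j)
            · exact hvl j t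
            · exact hvr j t
          simp only [h3, smul_eq_mul] at h1
          rcases hei : e i with i' | k
          · simp
          · rw [hei] at h1
            have h4 : N0 * ((b : ℤ) ^ W t k * Z t k) = ∑ j, Q i j * xs t j := by
              have h5 : (N0 : ℚ) * (((b : ℤ) ^ W t k * Z t k : ℤ) : ℚ) =
                  ∑ j, (Q i j : ℚ) * ((xs t j : ℤ) : ℚ) := by
                rw [← h1]
                exact congrArg _ (hvr k t).symm
              exact_mod_cast h5
            rw [← h4]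
            exact ⟨N0 * Z t k, by simp only [Sum.elim_inr]; ring⟩
        · change (p u' : ℤ) ^ (Sum.elim (fun i => ff t u' i) (fun _ => 0) i : ℕ) ∣
            ∑ j, (Matrix.fromBlocks (hm u') 0 0 1 : Matrix (Fin d ⊕ J) (Fin d ⊕ J) ℤ) i j * xs t j
          rcases i with i | k
          · have h0 : ∑ j, (Matrix.fromBlocks (hm u') 0 0 1 :
                Matrix (Fin d ⊕ J) (Fin d ⊕ J) ℤ) (Sum.inl i) j * xs t j =
                (T t : ℤ) * ∑ j, hm u' i j * x t j := by
              rw [Fintype.sum_sum_type]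
              have h1 : ∑ j, (Matrix.fromBlocks (hm u') 0 0 1 :
                  Matrix (Fin d ⊕ J) (Fin d ⊕ J) ℤ) (Sum.inl i) (Sum.inl j) * xs t (Sum.inl j) =
                  (T t : ℤ) * ∑ j, hm u' i j * x t j := by
                rw [Finset.mul_sum]
                refine Finset.sum_congr rfl fun j _ => ?_
                change hm u' i j * ((T t : ℤ) * x t j) = _
                ring
              have h2 : ∑ k, (Matrix.fromBlocks (hm u') 0 0 1 :
                  Matrix (Fin d ⊕ J) (Fin d ⊕ J) ℤ) (Sum.inl i) (Sum.inr k) * xs t (Sum.inr k) =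
                  0 := by
                refine Finset.sum_eq_zero fun k _ => ?_
                change (0 : ℤ) * _ = 0
                rw [zero_mul]
              rw [h1, h2, add_zero]
            rw [h0]
            exact Dvd.dvd.mul_left (hDx t u' i) _
          · simp)
  -- the relation holds always
  obtain ⟨yy, hyy, hyy0⟩ : ∃ yy : P → ℤ, (∀ k : J, yy k = y (Sum.inr k)) ∧ ∀ k ∉ J, yy k = 0 :=
    ⟨fun k => if h : k ∈ J then y (Sum.inr ⟨k, h⟩) else 0, fun k => dif_pos k.2,
      fun k hk => dif_neg hk⟩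
  have hext : ∀ t, ∑ i, y i * xs t i = ∑ j, (Sum.elim (fun j => y (Sum.inl j)) yy :
      (Fin d ⊕ P) → ℤ) (Sum.inl j) * ((T t : ℤ) * x t j) +
      ∑ k : P, (Sum.elim (fun j => y (Sum.inl j)) yy : (Fin d ⊕ P) → ℤ) (Sum.inr k) *
        ((b : ℤ) ^ W t k * Z t k) := by
    intro t
    rw [Fintype.sum_sum_type]
    congr 1
    simp only [Sum.elim_inr]
    calc ∑ k : J, y (Sum.inr k) * xs t (Sum.inr k) =
        ∑ k : J, (fun k : P => yy k * ((b : ℤ) ^ W t k * Z t k)) k := by
          refine Finset.sum_congr rfl fun k _ => ?_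
          change y (Sum.inr k) * ((b : ℤ) ^ W t k * Z t k) = yy k * ((b : ℤ) ^ W t k * Z t k)
          rw [hyy]
      _ = ∑ k ∈ J, (fun k : P => yy k * ((b : ℤ) ^ W t k * Z t k)) k :=
          Finset.sum_coe_sort J (fun k : P => yy k * ((b : ℤ) ^ W t k * Z t k))
      _ = ∑ k : P, yy k * ((b : ℤ) ^ W t k * Z t k) := by
          apply Finset.sum_subset (Finset.subset_univ J)
          intro k _ hk
          rw [hyy0 k hk, zero_mul]
  have hall := hhom' (Sum.elim (fun j => y (Sum.inl j)) yy) (hy.mono fun t ht => by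
    rw [← hext t]; exact ht)
  apply hy0
  have hlin := Fintype.linearIndependent_iff.1 hli (fun i => (y i : ℚ)) (by
    funext t
    simp only [Finset.sum_apply, Pi.smul_apply, Pi.zero_apply]
    have h1 := hall t
    rw [← hext t] at h1
    have h2 : ((∑ i, y i * xs t i : ℤ) : ℚ) = 0 := by rw [h1]; simp
    rw [← h2]
    push_cast
    refine Finset.sum_congr rfl fun i _ => ?_
    rw [smul_eq_mul]
    congr 1
    rcases i with j | k
    · exact hvl j t
    · exact hvr k t)
  funext i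
  have := hlin i
  exact_mod_cast this

end Pool.Agent.V1189.RT
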