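import Pool.Agent.V1189.RT.SubD

/-!
# The subspace theorem for simultaneous linear forms with algebraic coefficients

Author: helper89.
-/

set_option autoImplicit false

namespace Pool.Agent.V1189.RT

open Finset Filter Topology

theorem gstep (n K s : ℕ) (hnK : 1 ≤ n + K) (G : Fin n → Fin K → ℝ)
    (halg : ∀ i j, IsAlgebraic ℚ (G i j)) (β : Fin s → ℕ) (hβ : ∀ v, 1 ≤ β v) (c δ : ℝ)
    (hc : 1 ≤ c) (hδ : 0 < δ) (N : ℕ → ℝ) (hN : Tendsto N atTop atTop)
    (e : ℕ → Fin s → Fin K → ℕ) (D : ℕ → Fin K → ℕ) (hD : ∀ t j, D t j = ∏ v, β v ^ e t v j)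
    (f : ℕ → Fin s → ℕ) (E : ℕ → ℕ) (hE : ∀ t, E t = ∏ v, β v ^ f t v)
    (x : ℕ → Fin K → ℤ) (p : ℕ → Fin n → ℤ) (hne : ∀ t, x t ≠ 0 ∨ p t ≠ 0)
    (A : ℕ → Fin K → ℝ) (B : ℕ → Fin n → ℝ) (hA0 : ∀ t j, 0 < A t j) (hB0 : ∀ t i, 0 < B t i)
    (hAc : ∀ t j, |Real.log (A t j)| ≤ c * N t) (hBc : ∀ t i, |Real.log (B t i)| ≤ c * N t)
    (hDc : ∀ t j, Real.log (D t j) ≤ c * N t) (hEc : ∀ t, Real.log (E t) ≤ c * N t)
    (hA : ∀ t j, |(D t j : ℝ) * x t j| ≤ A t j)
    (hB : ∀ t i, |∑ j, G i j * ((D t j : ℝ) * x t j) - (E t : ℝ) * p t i| ≤ B t i)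
    (hsum : ∀ t, ∑ j, Real.log (A t j) + ∑ i, Real.log (B t i) + δ * N t ≤
      ∑ j, Real.log (D t j) + n * Real.log (E t)) :
    ∃ (u : Fin n → ℤ) (v : Fin K → ℤ), (u ≠ 0 ∨ v ≠ 0) ∧ ∃ᶠ t in atTop,
      ∑ i, (u i : ℝ) * ((E t : ℝ) * p t i) + ∑ j, (v j : ℝ) * ((D t j : ℝ) * x t j) = 0 := by
  classical
  -- the number field
  set F : IntermediateField ℚ ℝ :=
    IntermediateField.adjoin ℚ (Set.range fun q : Fin n × Fin K => G q.1 q.2) with hFdef
  have hF : FiniteDimensional ℚ F := by
    apply IntermediateField.finiteDimensional_adjoin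
    rintro z ⟨i, rfl⟩
    exact (halg i.1 i.2).isIntegral
  have : NumberField F := { to_charZero := inferInstance, to_finiteDimensional := hF }
  let c0 : Fin n × Fin K → F := fun q =>
    ⟨G q.1 q.2, IntermediateField.subset_adjoin ℚ _ ⟨q, rfl⟩⟩
  obtain ⟨Nn, hNn⟩ := IsLocalization.exist_integer_multiples_of_finite
    (nonZeroDivisors (NumberField.RingOfIntegers F)) c0
  have hN0 : (Nn : NumberField.RingOfIntegers F) ≠ 0 := nonZeroDivisors.ne_zero Nn.2
  have hN' : ∀ i, ∃ M : NumberField.RingOfIntegers F,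
      algebraMap (NumberField.RingOfIntegers F) F M
        = algebraMap (NumberField.RingOfIntegers F) F (Nn : NumberField.RingOfIntegers F)
          * c0 i := by
    intro i
    obtain ⟨M, hM⟩ := hNn i
    refine ⟨M, ?_⟩
    rw [hM, Algebra.smul_def]
  choose d hd using hN'
  have hinj : Function.Injective (algebraMap (NumberField.RingOfIntegers F) F) :=
    IsFractionRing.injective _ _
  set ψ : NumberField.RingOfIntegers F →+* ℝ :=
    (algebraMap F ℝ).comp (algebraMap (NumberField.RingOfIntegers F) F) with hψ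
  set φ : NumberField.RingOfIntegers F →+* ℂ := Complex.ofRealHom.comp ψ with hφ
  set ν : ℝ := ψ (Nn : NumberField.RingOfIntegers F) with hν
  have hν0 : ν ≠ 0 := by
    intro h
    apply hN0
    apply hinj
    rw [map_zero]
    apply (algebraMap F ℝ).injective
    rw [map_zero]
    exact h
  have hνp : 0 < |ν| := abs_pos.2 hν0
  set lν : ℝ := Real.log |ν| with hlν
  have hψd : ∀ i j, ψ (d (i, j)) = ν * G i j := by
    intro i j
    have h1 := congrArg (algebraMap F ℝ) (hd (i, j))
    rw [map_mul] at h1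
    exact h1
  -- the tail
  obtain ⟨t0, ht0⟩ : ∃ t0, ∀ t, t0 ≤ t → (1 : ℝ) ≤ N t ∧ n * lν ≤ δ / 2 * N t := by
    have h2 : ∀ᶠ t in atTop, (1 : ℝ) ≤ N t := hN.eventually (eventually_ge_atTop 1)
    have h3 : ∀ᶠ t in atTop, n * lν / (δ / 2) ≤ N t := hN.eventually (eventually_ge_atTop _)
    obtain ⟨t0, ht0⟩ := eventually_atTop.1 (h2.and h3)
    refine ⟨t0, fun t ht => ⟨(ht0 t ht).1, ?_⟩⟩
    have h4 := (ht0 t ht).2
    rw [div_le_iff₀ (by positivity)] at h4
    linarith
  have hN1 : ∀ t, 1 ≤ N (t + t0) := fun t => (ht0 (t + t0) (Nat.le_add_left _ _)).1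
  let G' : Matrix (Fin n) (Fin K) (NumberField.RingOfIntegers F) := Matrix.of fun i j => d (i, j)
  let M0 : Matrix (Fin n ⊕ Fin K) (Fin n ⊕ Fin K) (NumberField.RingOfIntegers F) :=
    Matrix.fromBlocks (Matrix.diagonal fun _ => -(Nn : NumberField.RingOfIntegers F)) G' 0 1
  have hdet : M0.det ≠ 0 := by
    change (Matrix.fromBlocks (Matrix.diagonal fun _ => -(Nn : NumberField.RingOfIntegers F)) G' 0
      1).det ≠ 0
    rw [Matrix.det_fromBlocks_zero₂₁, Matrix.det_one, mul_one, Matrix.det_diagonal]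
    exact Finset.prod_ne_zero_iff.2 fun _ _ => neg_ne_zero.2 hN0
  have hre : ∀ i j, (φ (M0 i j)).im = 0 := by
    intro i j
    rw [hφ, RingHom.comp_apply, Complex.ofRealHom_eq_coe, Complex.ofReal_im]
  have hrn : ∀ w, ‖φ w‖ = |ψ w| := by
    intro w
    rw [hφ, RingHom.comp_apply, Complex.ofRealHom_eq_coe, Complex.norm_real, Real.norm_eq_abs]
  let e' : ℕ → Fin s → Fin n ⊕ Fin K → ℕ := fun t v =>
    Sum.elim (fun _ => f (t + t0) v) (fun j => e (t + t0) v j)
  let D' : ℕ → Fin n ⊕ Fin K → ℕ := fun t => Sum.elim (fun _ => E (t + t0)) (fun j => D (t + t0) j)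
  let A' : ℕ → Fin n ⊕ Fin K → ℝ := fun t =>
    Sum.elim (fun i => |ν| * B (t + t0) i) (fun j => A (t + t0) j)
  let z : ℕ → Fin n ⊕ Fin K → ℤ := fun t => Sum.elim (p (t + t0)) (x (t + t0))
  have hne' : Nonempty (Fin n ⊕ Fin K) := by
    rcases Nat.eq_zero_or_pos n with h | h
    · exact ⟨Sum.inr ⟨0, by omega⟩⟩
    · exact ⟨Sum.inl ⟨0, h⟩⟩
  obtain ⟨C, hC⟩ : ∃ C : ℝ, C = (n + K + 1) * c + |lν| := ⟨_, rfl⟩
  have hlν0 := abs_nonneg lν
  have hn0 : (0 : ℝ) ≤ n := Nat.cast_nonneg n
  have hK0 : (0 : ℝ) ≤ K := Nat.cast_nonneg K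
  have hcN : ∀ t, 0 ≤ c * N (t + t0) := fun t =>
    mul_nonneg (by linarith) (by linarith [hN1 t])
  have hCc : ∀ t, |lν| + c * N (t + t0) ≤ C * N (t + t0) := by
    intro t
    have h1 := hN1 t
    have h2 : |lν| ≤ |lν| * N (t + t0) := le_mul_of_one_le_right hlν0 h1
    have h3 : 0 ≤ ((n : ℝ) + K) * (c * N (t + t0)) := mul_nonneg (by positivity) (hcN t)
    rw [hC]
    nlinarith
  obtain ⟨y, hy0, hy⟩ := subD (NumberField.RingOfIntegers F) φ M0 hdet hre s β hβ C (δ / 2)
    (by rw [hC]; nlinarith) (by linarith) (fun t => N (t + t0))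
    (hN.comp (tendsto_add_atTop_nat t0)) e' D' (by
      intro t l
      rcases l with i | j
      · exact hE (t + t0)
      · exact hD (t + t0) j) A' (by
      intro t l
      rcases l with i | j
      · exact mul_pos hνp (hB0 _ i)
      · exact hA0 _ j) (by
      intro t l
      rcases l with i | j
      · change |Real.log (|ν| * B (t + t0) i)| ≤ _
        rw [Real.log_mul hνp.ne' (hB0 _ i).ne']
        refine (abs_add_le _ _).trans ?_
        have h1 := hBc (t + t0) i
        have h2 := hCc t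
        linarith
      · have h1 := hAc (t + t0) j
        have h2 := hCc t
        change |Real.log (A (t + t0) j)| ≤ _
        linarith) (by
      intro t
      rw [Fintype.sum_sum_type]
      have h1 : ∑ i : Fin n, Real.log (D' t (Sum.inl i)) ≤ ∑ _i : Fin n, c * N (t + t0) :=
        Finset.sum_le_sum fun i _ => hEc (t + t0)
      have h2 : ∑ j : Fin K, Real.log (D' t (Sum.inr j)) ≤ ∑ _j : Fin K, c * N (t + t0) :=
        Finset.sum_le_sum fun j _ => hDc (t + t0) j
      rw [Finset.sum_const, Finset.card_univ, Fintype.card_fin, nsmul_eq_mul] at h1 h2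
      have h3 := hCc t
      have h4 := hcN t
      have h5 : 0 ≤ |lν| * N (t + t0) := mul_nonneg hlν0 (by linarith [hN1 t])
      rw [hC]
      nlinarith) (by
      intro t
      rw [Fintype.sum_sum_type, Fintype.sum_sum_type]
      have h1 : ∑ i : Fin n, Real.log (A' t (Sum.inl i)) =
          n * lν + ∑ i, Real.log (B (t + t0) i) := by
        have h2 : ∀ i : Fin n, Real.log (A' t (Sum.inl i)) = lν + Real.log (B (t + t0) i) := by
          intro i
          change Real.log (|ν| * B (t + t0) i) = _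
          rw [Real.log_mul hνp.ne' (hB0 _ i).ne']
        rw [Finset.sum_congr rfl fun i _ => h2 i, Finset.sum_add_distrib, Finset.sum_const,
          Finset.card_univ, Fintype.card_fin, nsmul_eq_mul]
      have h2 : ∑ i : Fin n, Real.log (D' t (Sum.inl i)) = n * Real.log (E (t + t0)) := by
        change ∑ i : Fin n, Real.log (E (t + t0)) = _
        rw [Finset.sum_const, Finset.card_univ, Fintype.card_fin, nsmul_eq_mul]
      rw [h1, h2]
      have h3 := hsum (t + t0)
      have h4 := (ht0 (t + t0) (Nat.le_add_left _ _)).2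
      change _ + ∑ j, Real.log (A (t + t0) j) + _ ≤ _ + ∑ j, Real.log (D (t + t0) j)
      linarith) z (by
      intro t h
      rcases hne (t + t0) with h1 | h1
      · apply h1
        funext j
        exact congrFun h (Sum.inr j)
      · apply h1
        funext i
        exact congrFun h (Sum.inl i)) (by
      intro t l
      rw [hrn, map_sum, Fintype.sum_sum_type]
      rcases l with i | j
      · have h1 : ∑ i' : Fin n, ψ (M0 (Sum.inl i) (Sum.inl i') *
            (((D' t (Sum.inl i') : ℤ) * z t (Sum.inl i') : ℤ) : NumberField.RingOfIntegers F)) =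
            -(ν * ((E (t + t0) : ℝ) * p (t + t0) i)) := by
          rw [Finset.sum_eq_single i]
          · rw [map_mul, map_intCast]
            change ψ (Matrix.diagonal (fun _ => -(Nn : NumberField.RingOfIntegers F)) i i) *
              (((E (t + t0) : ℤ) * p (t + t0) i : ℤ) : ℝ) = _
            rw [Matrix.diagonal_apply_eq, map_neg]
            push_cast
            ring
          · intro i' _ hi'
            rw [map_mul]
            change ψ (Matrix.diagonal (fun _ => -(Nn : NumberField.RingOfIntegers F)) i i') * _ = 0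
            rw [Matrix.diagonal_apply_ne _ (Ne.symm hi'), map_zero, zero_mul]
          · intro h; exact absurd (mem_univ _) h
        have h2 : ∑ j : Fin K, ψ (M0 (Sum.inl i) (Sum.inr j) *
            (((D' t (Sum.inr j) : ℤ) * z t (Sum.inr j) : ℤ) : NumberField.RingOfIntegers F)) =
            ν * ∑ j, G i j * ((D (t + t0) j : ℝ) * x (t + t0) j) := by
          rw [Finset.mul_sum]
          refine Finset.sum_congr rfl fun j _ => ?_
          rw [map_mul, map_intCast]
          change ψ (d (i, j)) * (((D (t + t0) j : ℤ) * x (t + t0) j : ℤ) : ℝ) = _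
          rw [hψd]
          push_cast
          ring
        rw [h1, h2]
        have h4 : -(ν * ((E (t + t0) : ℝ) * p (t + t0) i)) +
            ν * ∑ j, G i j * ((D (t + t0) j : ℝ) * x (t + t0) j) =
            ν * (∑ j, G i j * ((D (t + t0) j : ℝ) * x (t + t0) j) -
              (E (t + t0) : ℝ) * p (t + t0) i) := by ring
        rw [h4, abs_mul]
        exact mul_le_mul_of_nonneg_left (hB (t + t0) i) (abs_nonneg _)
      · have h1 : ∑ i' : Fin n, ψ (M0 (Sum.inr j) (Sum.inl i') *
            (((D' t (Sum.inl i') : ℤ) * z t (Sum.inl i') : ℤ) : NumberField.RingOfIntegers F)) =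
            0 := by
          refine Finset.sum_eq_zero fun i' _ => ?_
          rw [map_mul]
          change ψ ((0 : Matrix (Fin K) (Fin n) (NumberField.RingOfIntegers F)) j i') * _ = 0
          rw [Matrix.zero_apply, map_zero, zero_mul]
        have h2 : ∑ j' : Fin K, ψ (M0 (Sum.inr j) (Sum.inr j') *
            (((D' t (Sum.inr j') : ℤ) * z t (Sum.inr j') : ℤ) : NumberField.RingOfIntegers F)) =
            (D (t + t0) j : ℝ) * x (t + t0) j := by
          rw [Finset.sum_eq_single j]
          · rw [map_mul, map_intCast]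
            change ψ ((1 : Matrix (Fin K) (Fin K) (NumberField.RingOfIntegers F)) j j) *
              (((D (t + t0) j : ℤ) * x (t + t0) j : ℤ) : ℝ) = _
            rw [Matrix.one_apply_eq, map_one]
            push_cast
            ring
          · intro j' _ hj'
            rw [map_mul]
            change ψ ((1 : Matrix (Fin K) (Fin K) (NumberField.RingOfIntegers F)) j j') * _ = 0
            rw [Matrix.one_apply_ne (Ne.symm hj'), map_zero, zero_mul]
          · intro h; exact absurd (mem_univ _) h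
        rw [h1, h2, zero_add]
        exact hA (t + t0) j)
  refine ⟨fun i => y (Sum.inl i), fun j => y (Sum.inr j), ?_, ?_⟩
  · by_contra h
    push Not at h
    apply hy0
    funext l
    rcases l with i | j
    · exact congrFun h.1 i
    · exact congrFun h.2 j
  · refine (tendsto_add_atTop_nat t0).frequently (hy.mono fun t ht => ?_)
    have h1 : ((∑ l, y l * ((D' t l : ℤ) * z t l) : ℤ) : ℝ) = 0 := by rw [ht]; simp
    rw [Fintype.sum_sum_type] at h1
    push_cast at h1
    exact h1

end Pool.Agent.V1189.RT
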