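import Pool.Agent.V1189.RT.Good
import Pool.Agent.V1189.RT.IntDigits

/-!
# The digits of good multipliers of algebraic tuples

Author: helper89.
-/

set_option autoImplicit false

namespace Pool.Agent.V1189.RT

open Finset Filter Topology
open Pool.Agent.W47.JL (err err_ge)
open Pool.Agent.Results.MP_a49cf6_nt.DigitRecurrences (Recurrence)

lemma log_q (b q : ℕ) (hb : 2 ≤ b) (hq : 1 ≤ q) :
    Real.log q ≤ (Nat.log b q + 1 : ℕ) * Real.log b ∧
      ((Nat.log b q + 1 : ℕ) - 1) * Real.log b ≤ Real.log q := by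
  have hbR : (2 : ℝ) ≤ b := by exact_mod_cast hb
  have hb0 : (0 : ℝ) < b := by linarith
  have hq0 : (0 : ℝ) < q := by exact_mod_cast hq
  constructor
  · have h1 : (q : ℝ) ≤ (b : ℝ) ^ (Nat.log b q + 1) := by
      exact_mod_cast (Nat.lt_pow_succ_log_self (by omega : 1 < b) q).le
    have h2 := Real.log_le_log hq0 h1
    rwa [Real.log_pow] at h2
  · have h1 : (b : ℝ) ^ Nat.log b q ≤ q := by
      exact_mod_cast Nat.pow_log_le_self b (by omega : q ≠ 0)
    have h2 := Real.log_le_log (by positivity) h1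
    rw [Real.log_pow] at h2
    push_cast
    linarith

/-- the exceptional cases -/
lemma except (n b : ℕ) (hb : 2 ≤ b) (α : Fin n → ℝ)
    (hli : LinearIndependent ℚ (Fin.cons 1 α : Fin (n + 1) → ℝ)) (u : Fin n → ℤ) (v : Fin 2 → ℤ)
    (huv : u ≠ 0 ∨ v 1 ≠ 0) :
    ∃ K : ℝ, 0 < K ∧ ∀ (q T : ℕ) (X Z : ℤ) (h : ℕ) (P : Fin n → ℝ) (S : ℝ), 0 ≤ S →
      (T : ℝ) * q = X + (b : ℝ) ^ h * Z → (∀ i, |α i * (T * q) - P i| ≤ S) →
      ∑ i, (u i : ℝ) * P i + ((v 0 : ℝ) * X + (v 1 : ℝ) * ((b : ℝ) ^ h * Z)) = 0 →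
      (b : ℝ) ^ h ≤ K * (|(X : ℝ)| + S) ∨ (T : ℝ) * q = X := by
  have hbR : (2 : ℝ) ≤ b := by exact_mod_cast hb
  obtain ⟨a, ha⟩ : ∃ a : ℝ, a = ∑ i, (u i : ℝ) * α i := ⟨_, rfl⟩
  have hav : a + v 1 ≠ 0 := by
    by_cases hu : u = 0
    · have h1 : a = 0 := by rw [ha, hu]; simp
      rw [h1, zero_add]
      exact_mod_cast huv.resolve_left (not_not.2 hu)
    · have h1 := irr α hli u hu (v 1)
      rw [← ha, add_comm] at h1
      exact h1.ne_zero
  obtain ⟨U, hU⟩ : ∃ U : ℝ, U = ∑ i, |(u i : ℝ)| := ⟨_, rfl⟩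
  have hU0 : 0 ≤ U := by rw [hU]; exact Finset.sum_nonneg fun i _ => abs_nonneg _
  have hav0 : 0 < |a + v 1| := abs_pos.2 hav
  have hav1 := abs_nonneg (a + v 0)
  refine ⟨(|a + v 0| + U + 1) / |a + v 1|, by positivity, fun q T X Z h P S hS hTq hP hrel => ?_⟩
  by_cases hZ : Z = 0
  · right
    rw [hTq, hZ]; simp
  left
  have h1 : (a + v 1) * ((b : ℝ) ^ h * Z) =
      ∑ i, (u i : ℝ) * (α i * (T * q) - P i) - (a + v 0) * X := by
    have h2 : ∑ i, (u i : ℝ) * (α i * (T * q) - P i) = a * (T * q) - ∑ i, (u i : ℝ) * P i := by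
      rw [ha, Finset.sum_mul, ← Finset.sum_sub_distrib]
      exact Finset.sum_congr rfl fun i _ => by ring
    rw [h2, hTq]
    linarith
  have h3 : |∑ i, (u i : ℝ) * (α i * (T * q) - P i)| ≤ U * S := by
    rw [hU, Finset.sum_mul]
    refine (Finset.abs_sum_le_sum_abs _ _).trans (Finset.sum_le_sum fun i _ => ?_)
    rw [abs_mul]
    exact mul_le_mul_of_nonneg_left (hP i) (abs_nonneg _)
  have h4 : |a + v 1| * ((b : ℝ) ^ h * |(Z : ℝ)|) ≤ U * S + |a + v 0| * |(X : ℝ)| := by
    have h5 := congrArg abs h1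
    rw [abs_mul, abs_mul, abs_of_pos (by positivity : (0 : ℝ) < (b : ℝ) ^ h)] at h5
    rw [h5]
    refine (abs_sub _ _).trans ?_
    rw [abs_mul (a + v 0)]
    linarith
  have hZ1 : (1 : ℝ) ≤ |(Z : ℝ)| := by exact_mod_cast Int.one_le_abs hZ
  have hbh : (0 : ℝ) < (b : ℝ) ^ h := by positivity
  rw [div_mul_eq_mul_div, le_div_iff₀ hav0]
  have hX0 := abs_nonneg (X : ℝ)
  have h6 : (b : ℝ) ^ h * |a + v 1| ≤ |a + v 1| * ((b : ℝ) ^ h * |(Z : ℝ)|) := by
    have := mul_le_mul_of_nonneg_left hZ1 (mul_nonneg hav0.le hbh.le)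
    linarith
  have h7 : 0 ≤ (U + 1) * |(X : ℝ)| := by positivity
  have h8 : 0 ≤ (|a + v 0| + 1) * S := by positivity
  nlinarith

theorem goodDigits (n b : ℕ) (hb : 2 ≤ b) (α : Fin n → ℝ) (halg : ∀ i, IsAlgebraic ℚ (α i))
    (hli : LinearIndependent ℚ (Fin.cons 1 α : Fin (n + 1) → ℝ)) (ε : ℝ) (hε : 0 < ε) :
    ∃ C : ℝ, 0 ≤ C ∧ ∀ q : ℕ, 1 ≤ q → ∀ (w l m : ℕ) (c : ℕ → ℚ), w + l ≤ Nat.log b q + 1 →
      Recurrence (fun i => (dL b q (w + i) : ℤ)) c l m →
      -∑ i, Real.log (dn (q * α i)) ≤ ((n + 2) * (m + 15 * err m) +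
        ((Nat.log b q + 1 : ℕ) - l) + ε * (Nat.log b q + 1 : ℕ)) * Real.log b + C := by
  have hbR : (2 : ℝ) ≤ b := by exact_mod_cast hb
  have hb0 : (0 : ℝ) < b := by linarith
  obtain ⟨Lg, hLg⟩ : ∃ Lg : ℝ, Lg = Real.log b := ⟨_, rfl⟩
  have hLg0 : 0.69 ≤ Lg := by
    have h1 := Real.log_two_gt_d9
    have h2 := Real.log_le_log (by norm_num : (0 : ℝ) < 2) hbR
    rw [hLg]; linarith
  have hn0 : (0 : ℝ) ≤ n := Nat.cast_nonneg n
  obtain ⟨CS, hCS0, hCS⟩ := product n α halg hli (ε / 2) (by linarith)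
  by_contra hcon
  push Not at hcon
  have h0 : ∀ t : ℕ, ∃ (q : ℕ) (w l m : ℕ) (c : ℕ → ℚ), 1 ≤ q ∧ w + l ≤ Nat.log b q + 1 ∧
      Recurrence (fun i => (dL b q (w + i) : ℤ)) c l m ∧
      ((n + 2) * (m + 15 * err m) + ((Nat.log b q + 1 : ℕ) - l) + ε * (Nat.log b q + 1 : ℕ)) *
        Lg + (t + CS + 5 * Lg) < -∑ i, Real.log (dn (q * α i)) := by
    intro t
    obtain ⟨q, hq, w, l, m, c, h1, h2, h3⟩ := hcon (t + CS + 5 * Lg) (by positivity)
    rw [← hLg] at h3
    exact ⟨q, w, l, m, c, hq, h1, h2, h3⟩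
  choose q w l m c hq hwl hrec hbad using h0
  obtain ⟨N, hN⟩ : ∃ N : ℕ → ℕ, N = fun t => Nat.log b (q t) + 1 := ⟨_, rfl⟩
  have hNt : ∀ t, Nat.log b (q t) + 1 = N t := fun t => by rw [hN]
  obtain ⟨M, hM⟩ : ∃ M : ℕ → ℝ, M = fun t => m t + 15 * err (m t) := ⟨_, rfl⟩
  have hMt : ∀ t, (m t : ℝ) + 15 * err (m t) = M t := fun t => by rw [hM]
  have hM0 : ∀ t, 0 ≤ M t := by
    intro t
    rw [← hMt]
    have h1 := err_ge (m t)
    have h2 : (0 : ℝ) ≤ m t := Nat.cast_nonneg _
    linarith
  have hlogq : ∀ t, Real.log (q t) ≤ N t * Lg ∧ ((N t : ℝ) - 1) * Lg ≤ Real.log (q t) := by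
    intro t
    have h1 := log_q b (q t) hb (hq t)
    rw [hNt, ← hLg] at h1
    exact h1
  simp only [hNt] at hwl hbad
  simp only [hMt] at hbad
  have hlN : ∀ t, (l t : ℝ) ≤ N t := fun t => by
    have := hwl t
    exact_mod_cast (by omega : l t ≤ N t)
  have hpr : ∀ t, -∑ i, Real.log (dn (q t * α i)) ≤ (1 + ε / 2) * (N t * Lg) + CS := by
    intro t
    have h1 := hCS (q t) (hq t)
    have h2 := mul_le_mul_of_nonneg_left (hlogq t).1 (by linarith : 0 ≤ 1 + ε / 2)
    linarith
  -- the window is much longer than the order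
  have hkey : ∀ t, ((n + 2) * M t + ε / 2 * N t + 5) * Lg + t < l t * Lg := by
    intro t
    have h1 := hbad t
    have h2 := hpr t
    nlinarith
  have hlM : ∀ t, M t + ε / 2 * N t + 5 < l t := by
    intro t
    have h1 := hkey t
    have h2 : (0 : ℝ) ≤ t := Nat.cast_nonneg t
    have h3 : ((n + 2) * M t + ε / 2 * N t + 5) * Lg < l t * Lg := by linarith
    have h4 := lt_of_mul_lt_mul_right h3 (by linarith)
    have h5 : 0 ≤ (n + 1 : ℝ) * M t := mul_nonneg (by linarith) (hM0 t)
    linarith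
  have hNtop : Tendsto (fun t => (N t : ℝ)) atTop atTop := by
    have h1 : ∀ t : ℕ, (t : ℝ) / Lg ≤ N t := by
      intro t
      rw [div_le_iff₀ (by linarith)]
      have h2 := hkey t
      have h3 := hlN t
      have h4 : 0 ≤ ((n + 2) * M t + ε / 2 * N t + 5) * Lg := by
        have := hM0 t
        positivity
      nlinarith
    exact tendsto_atTop_mono h1 (tendsto_natCast_atTop_atTop.atTop_div_const (by linarith))
  have hN1 : ∀ t, (1 : ℝ) ≤ N t := fun t => by
    rw [← hNt]; push_cast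
    have : (0 : ℝ) ≤ Nat.log b (q t) := Nat.cast_nonneg _
    linarith
  -- the multiples
  have hrel : ∀ t, ∃ (T : ℕ) (X Z : ℤ), 1 ≤ T ∧ Real.log T ≤ M t * Lg ∧
      (T : ℝ) * q t = X + (b : ℝ) ^ (N t - w t) * Z ∧
      |(X : ℝ)| ≤ 2 * b * Real.exp ((M t + (N t - w t - l t : ℕ)) * Lg) := by
    intro t
    rcases intRel b (q t) hb (w t) (l t) (m t) (c t) (by rw [hNt]; exact hwl t) (hrec t) with h | h
    · rw [hMt] at h
      have h1 := hlM t
      have h2 : 0 ≤ ε / 2 * (N t : ℝ) := by positivity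
      linarith
    · rw [hNt, hMt, ← hLg] at h
      exact h
  choose T X Z hT1 hTlog hTq hX using hrel
  have hTR : ∀ t, (1 : ℝ) ≤ T t := fun t => by exact_mod_cast hT1 t
  have hTexp : ∀ t, (T t : ℝ) ≤ Real.exp (M t * Lg) := fun t =>
    (Real.log_le_iff_le_exp (by linarith [hTR t])).1 (hTlog t)
  have hqR : ∀ t, (1 : ℝ) ≤ q t := fun t => by exact_mod_cast hq t
  have hqexp : ∀ t, (q t : ℝ) ≤ Real.exp (N t * Lg) := fun t =>
    (Real.log_le_iff_le_exp (by linarith [hqR t])).1 (hlogq t).1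
  have hqexp2 : ∀ t, Real.exp ((N t - 1) * Lg) ≤ q t := fun t =>
    (Real.le_log_iff_exp_le (by linarith [hqR t])).1 (hlogq t).2
  have hpow : ∀ k : ℕ, (b : ℝ) ^ k = Real.exp (k * Lg) := by
    intro k
    rw [hLg, Real.exp_nat_mul, Real.exp_log hb0]
  have hu : ∀ t, ((N t - w t - l t : ℕ) : ℝ) = N t - w t - l t := by
    intro t
    have h1 := hwl t
    rw [Nat.cast_sub (by omega), Nat.cast_sub (by omega)]
  have hNw : ∀ t, ((N t - w t : ℕ) : ℝ) = N t - w t := by
    intro t
    have h1 := hwl t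
    rw [Nat.cast_sub (by omega)]
  have hw0 : ∀ t, (0 : ℝ) ≤ w t := fun t => Nat.cast_nonneg _
  have hu0 : ∀ t, (0 : ℝ) ≤ (N t : ℝ) - w t - l t := fun t => by
    rw [← hu]; exact Nat.cast_nonneg _
  have hpos : ∀ t i, 0 < dn (q t * α i) := fun t i => dn_pos _ (irr1 α hli i) _ (hq t)
  have hlog0 : ∀ t i, Real.log (dn (q t * α i)) ≤ 0 := fun t i =>
    Real.log_nonpos (hpos t i).le ((dn_le _).trans (by norm_num))
  have hlogi : ∀ t i, -Real.log (dn (q t * α i)) ≤ (1 + ε / 2) * (N t * Lg) + CS := by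
    intro t i
    refine le_trans ?_ (hpr t)
    have h1 : ∑ j, Real.log (dn (q t * α j)) ≤ Real.log (dn (q t * α i)) := by
      rw [← Finset.add_sum_erase _ _ (mem_univ i)]
      have := Finset.sum_nonpos (s := univ.erase i) fun j _ => hlog0 t j
      linarith
    linarith
  -- a common constant
  obtain ⟨c0, hc0⟩ : ∃ c0 : ℝ, c0 = Real.log (3 * b) + (4 + ε) * Lg + CS + 1 := ⟨_, rfl⟩
  have hl3b : 0 ≤ Real.log (3 * b) := Real.log_nonneg (by linarith)
  have hc01 : 1 ≤ c0 := by rw [hc0]; nlinarith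
  have hc0N : ∀ t, Real.log (3 * b) + (4 + ε) * Lg * N t + CS ≤ c0 * N t := by
    intro t
    have h1 := hN1 t
    have h2 : Real.log (3 * b) ≤ Real.log (3 * b) * N t := le_mul_of_one_le_right hl3b h1
    have h3 : CS ≤ CS * N t := le_mul_of_one_le_right hCS0 h1
    rw [hc0]
    nlinarith
  have hl2b : Real.log (2 * b) ≤ Real.log (3 * b) :=
    Real.log_le_log (by positivity) (by linarith)
  have hl2b0 : 0 ≤ Real.log (2 * b) := Real.log_nonneg (by linarith)
  have hl6 : Real.log (2 * b) + Real.log (3 * b) ≤ 5 * Lg := by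
    rw [← Real.log_mul (by positivity) (by positivity)]
    have h1 : (2 * (b : ℝ) * (3 * b)) ≤ b ^ 5 := by
      have h2 : (8 : ℝ) ≤ b ^ 3 := by
        calc (8 : ℝ) = 2 ^ 3 := by norm_num
          _ ≤ b ^ 3 := pow_le_pow_left₀ (by norm_num) hbR 3
      have h3 : (b : ℝ) ^ 5 = b ^ 3 * b ^ 2 := by ring
      nlinarith [sq_nonneg (b : ℝ)]
    have h4 := Real.log_le_log (by positivity) h1
    rw [Real.log_pow, ← hLg] at h4
    push_cast at h4
    exact h4
  have hBlog : ∀ t i, Real.log (Real.exp (M t * Lg) * dn (q t * α i)) =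
      M t * Lg + Real.log (dn (q t * α i)) := fun t i => by
    rw [Real.log_mul (Real.exp_pos _).ne' (hpos t i).ne', Real.log_exp]
  have hMN : ∀ t, M t * Lg ≤ N t * Lg := fun t => by
    have h1 := hlM t
    have h2 := hlN t
    have h3 : 0 ≤ ε / 2 * (N t : ℝ) := by positivity
    exact mul_le_mul_of_nonneg_right (by linarith) (by linarith)
  have hML0 : ∀ t, 0 ≤ M t * Lg := fun t => mul_nonneg (hM0 t) (by linarith)
  have hNL0 : ∀ t, 0 ≤ (N t : ℝ) * Lg := fun t => by positivity
  have hBabs : ∀ t i, |Real.log (Real.exp (M t * Lg) * dn (q t * α i))| ≤ c0 * N t := by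
    intro t i
    rw [hBlog]
    have h1 := hlogi t i
    have h2 := hlog0 t i
    have h3 := hMN t
    have h4 := hc0N t
    have h5 := hML0 t
    have h6 := hNL0 t
    rw [abs_le]
    constructor
    · nlinarith
    · nlinarith
  have hFi : ∀ t i, |α i * ((T t : ℝ) * q t) - (T t : ℝ) * (round (q t * α i) : ℤ)| ≤
      Real.exp (M t * Lg) * dn (q t * α i) := by
    intro t i
    have h1 : α i * ((T t : ℝ) * q t) - (T t : ℝ) * (round (q t * α i) : ℤ) =
        T t * (q t * α i - round (q t * α i)) := by ring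
    rw [h1, abs_mul, abs_of_pos (by linarith [hTR t])]
    exact mul_le_mul_of_nonneg_right (hTexp t) (abs_nonneg _)
  have hFi1 : ∀ t i, |α i * ((T t : ℝ) * q t) - (T t : ℝ) * (round (q t * α i) : ℤ)| ≤
      Real.exp (M t * Lg) := fun t i => (hFi t i).trans (by
    have h1 := dn_le (q t * α i)
    have h2 := Real.exp_pos (M t * Lg)
    nlinarith)
  -- smallness
  have hsmall : ∀ K : ℝ, ∀ᶠ t in atTop,
      K * (2 * b * Real.exp ((M t + (N t - w t - l t : ℕ)) * Lg) + Real.exp (M t * Lg)) <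
        Real.exp ((N t - w t) * Lg) := by
    intro K
    have h1 : Tendsto (fun t => Lg * (ε / 2 * (N t : ℝ))) atTop atTop :=
      (hNtop.const_mul_atTop (by linarith)).const_mul_atTop (by linarith)
    filter_upwards [h1.eventually (eventually_gt_atTop (Real.log (|K| * (2 * b + 1) + 1)))]
      with t ht
    have hK0 := abs_nonneg K
    have h2 : |K| * (2 * b + 1) < Real.exp (Lg * (ε / 2 * (N t : ℝ))) := by
      have h3 := (Real.log_lt_iff_lt_exp (by positivity)).1 ht
      linarith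
    have h4 : Real.exp (M t * Lg) ≤ Real.exp ((M t + (N t - w t - l t : ℕ)) * Lg) := by
      apply Real.exp_le_exp.2
      rw [hu]
      have h5 := hu0 t
      nlinarith
    have h5 : 2 * b * Real.exp ((M t + (N t - w t - l t : ℕ)) * Lg) + Real.exp (M t * Lg) ≤
        (2 * b + 1) * Real.exp ((M t + (N t - w t - l t : ℕ)) * Lg) := by linarith
    have h6 : K * (2 * b * Real.exp ((M t + (N t - w t - l t : ℕ)) * Lg) + Real.exp (M t * Lg)) ≤
        |K| * ((2 * b + 1) * Real.exp ((M t + (N t - w t - l t : ℕ)) * Lg)) :=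
      mul_le_mul (le_abs_self K) h5 (by positivity) hK0
    have h7 : |K| * ((2 * b + 1) * Real.exp ((M t + (N t - w t - l t : ℕ)) * Lg)) <
        Real.exp (Lg * (ε / 2 * (N t : ℝ))) * Real.exp ((M t + (N t - w t - l t : ℕ)) * Lg) := by
      have := mul_lt_mul_of_pos_right h2 (Real.exp_pos ((M t + (N t - w t - l t : ℕ)) * Lg))
      linarith
    rw [← Real.exp_add] at h7
    have h8 : Lg * (ε / 2 * (N t : ℝ)) + (M t + (N t - w t - l t : ℕ)) * Lg ≤
        (N t - w t) * Lg := by
      rw [hu]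
      have h9 := hlM t
      have h10 : ε / 2 * (N t : ℝ) + (M t + (N t - w t - l t)) ≤ N t - w t := by linarith
      have := mul_le_mul_of_nonneg_right h10 (by linarith : 0 ≤ Lg)
      linarith
    have h9 := Real.exp_le_exp.2 h8
    linarith
  have hqbig : ∀ t, 2 * b * Real.exp ((M t + (N t - w t - l t : ℕ)) * Lg) < q t := by
    intro t
    refine lt_of_lt_of_le ?_ (hqexp2 t)
    have h1 : 2 * b * Real.exp ((M t + (N t - w t - l t : ℕ)) * Lg) =
        Real.exp (Real.log (2 * b) + (M t + (N t - w t - l t : ℕ)) * Lg) := by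
      rw [Real.exp_add, Real.exp_log (by positivity)]
    rw [h1]
    apply Real.exp_lt_exp.2
    rw [hu]
    have h2 := hlM t
    have h3 : 0 ≤ ε / 2 * (N t : ℝ) := by positivity
    have h4 := hw0 t
    have h5 : (M t + (N t - w t - l t)) * Lg ≤ (N t - 5) * Lg :=
      mul_le_mul_of_nonneg_right (by linarith) (by linarith)
    have h6 : (0 : ℝ) ≤ 3 * Lg := by linarith
    nlinarith
  obtain ⟨u', v, hne, hfreq⟩ := gstep n 2 1 (by omega) (fun i _ => α i) (fun i _ => halg i)
    (fun _ => b) (fun _ => by omega) c0 (ε * Lg) hc01 (by positivity) (fun t => (N t : ℝ)) hNtop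
    (fun t _ => ![0, N t - w t]) (fun t => ![1, b ^ (N t - w t)])
    (fun t j => by fin_cases j <;> simp) (fun _ _ => 0) (fun _ => 1) (fun t => by simp)
    (fun t => ![X t, Z t]) (fun t i => (T t : ℤ) * round (q t * α i))
    (fun t => by
      left
      intro h
      have h1 : X t = 0 := congrFun h 0
      have h2 : Z t = 0 := congrFun h 1
      have h3 := hTq t
      rw [h1, h2] at h3
      simp only [Int.cast_zero, mul_zero, add_zero] at h3
      have h4 : (0 : ℝ) < T t * q t := mul_pos (by linarith [hTR t]) (by linarith [hqR t])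
      linarith)
    (fun t => ![2 * b * Real.exp ((M t + (N t - w t - l t : ℕ)) * Lg),
      3 * b * Real.exp ((M t + N t) * Lg)])
    (fun t i => Real.exp (M t * Lg) * dn (q t * α i))
    (fun t j => by
      fin_cases j
      · change 0 < 2 * b * Real.exp ((M t + (N t - w t - l t : ℕ)) * Lg)
        positivity
      · change 0 < 3 * b * Real.exp ((M t + N t) * Lg)
        positivity)
    (fun t i => mul_pos (Real.exp_pos _) (hpos t i))
    (fun t j => by
      have h1 := hc0N t
      have h2 := hMN t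
      have h3 := hML0 t
      have h4 := hNL0 t
      have h5 := hu0 t
      have h6 := hw0 t
      have h7 : (0 : ℝ) ≤ l t := Nat.cast_nonneg _
      fin_cases j
      · change |Real.log (2 * b * Real.exp ((M t + (N t - w t - l t : ℕ)) * Lg))| ≤ _
        rw [Real.log_mul (by positivity) (Real.exp_pos _).ne', Real.log_exp, hu,
          abs_of_nonneg (add_nonneg hl2b0 (mul_nonneg (by linarith [hM0 t]) (by linarith)))]
        have h8 : (M t + (N t - w t - l t)) * Lg ≤ M t * Lg + N t * Lg := by nlinarith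
        nlinarith
      · change |Real.log (3 * b * Real.exp ((M t + N t) * Lg))| ≤ _
        rw [Real.log_mul (by positivity) (Real.exp_pos _).ne', Real.log_exp,
          abs_of_nonneg (add_nonneg hl3b (by nlinarith))]
        nlinarith)
    hBabs
    (fun t j => by
      have h1 := hc0N t
      have h4 := hNL0 t
      fin_cases j
      · change Real.log ((1 : ℕ) : ℝ) ≤ _
        rw [Nat.cast_one, Real.log_one]
        nlinarith
      · change Real.log ((b ^ (N t - w t) : ℕ) : ℝ) ≤ _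
        push_cast
        rw [Real.log_pow, ← hLg, hNw]
        have h6 := hw0 t
        nlinarith)
    (fun t => by
      rw [Nat.cast_one, Real.log_one]
      have h1 := hc0N t
      have h4 := hNL0 t
      nlinarith)
    (fun t j => by
      fin_cases j
      · change |((1 : ℕ) : ℝ) * X t| ≤ 2 * b * Real.exp ((M t + (N t - w t - l t : ℕ)) * Lg)
        rw [Nat.cast_one, one_mul]
        exact hX t
      · change |((b ^ (N t - w t) : ℕ) : ℝ) * Z t| ≤ 3 * b * Real.exp ((M t + N t) * Lg)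
        have h1 : ((b ^ (N t - w t) : ℕ) : ℝ) * Z t = T t * q t - X t := by
          rw [hTq t]; push_cast; ring
        rw [h1]
        refine (abs_sub _ _).trans ?_
        have h2 : |(T t : ℝ) * q t| ≤ Real.exp ((M t + N t) * Lg) := by
          rw [abs_of_nonneg (by positivity), add_mul, Real.exp_add]
          exact mul_le_mul (hTexp t) (hqexp t) (by positivity) (Real.exp_pos _).le
        have h3 : Real.exp ((M t + (N t - w t - l t : ℕ)) * Lg) ≤ Real.exp ((M t + N t) * Lg) := by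
          apply Real.exp_le_exp.2
          rw [hu]
          have h4 := hw0 t
          have h5 : (0 : ℝ) ≤ l t := Nat.cast_nonneg _
          exact mul_le_mul_of_nonneg_right (by linarith) (by linarith)
        have h4 := hX t
        have h5 := Real.exp_pos ((M t + N t) * Lg)
        nlinarith)
    (fun t i => by
      rw [Fin.sum_univ_two]
      change |α i * (((1 : ℕ) : ℝ) * X t) + α i * (((b ^ (N t - w t) : ℕ) : ℝ) * Z t) -
        ((1 : ℕ) : ℝ) * (((T t : ℤ) * round (q t * α i) : ℤ) : ℝ)| ≤ _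
      have h1 : α i * (((1 : ℕ) : ℝ) * X t) + α i * (((b ^ (N t - w t) : ℕ) : ℝ) * Z t) -
          ((1 : ℕ) : ℝ) * (((T t : ℤ) * round (q t * α i) : ℤ) : ℝ) =
          α i * ((T t : ℝ) * q t) - (T t : ℝ) * (round (q t * α i) : ℤ) := by
        rw [hTq t]; push_cast; ring
      rw [h1]
      exact hFi t i)
    (fun t => by
      simp only [hBlog]
      rw [Fin.sum_univ_two, Fin.sum_univ_two, Nat.cast_one, Real.log_one, mul_zero, add_zero,
        Finset.sum_add_distrib, Finset.sum_const, Finset.card_univ, Fintype.card_fin,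
        nsmul_eq_mul]
      change Real.log (2 * b * Real.exp ((M t + (N t - w t - l t : ℕ)) * Lg)) +
        Real.log (3 * b * Real.exp ((M t + N t) * Lg)) + _ + _ ≤ Real.log ((1 : ℕ) : ℝ) +
          Real.log ((b ^ (N t - w t) : ℕ) : ℝ)
      push_cast
      rw [Real.log_mul (by positivity) (Real.exp_pos _).ne', Real.log_exp,
        Real.log_mul (by positivity) (Real.exp_pos _).ne', Real.log_exp, Real.log_one, zero_add,
        Real.log_pow, ← hLg, hNw, hu]
      have h1 := hbad t
      have h2 : (0 : ℝ) ≤ t := Nat.cast_nonneg t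
      nlinarith)
  by_cases huv : u' ≠ 0 ∨ v 1 ≠ 0
  · obtain ⟨K, hK0, hK⟩ := except n b hb α hli u' v huv
    obtain ⟨t, ht1, ht2⟩ := (hfreq.and_eventually (hsmall K)).exists
    rw [Fin.sum_univ_two] at ht1
    change ∑ i, (u' i : ℝ) * (((1 : ℕ) : ℝ) * (((T t : ℤ) * round (q t * α i) : ℤ) : ℝ)) +
      ((v 0 : ℝ) * (((1 : ℕ) : ℝ) * X t) + (v 1 : ℝ) * (((b ^ (N t - w t) : ℕ) : ℝ) * Z t)) = 0
      at ht1
    have h1 := hK (q t) (T t) (X t) (Z t) (N t - w t)
      (fun i => ((1 : ℕ) : ℝ) * (((T t : ℤ) * round (q t * α i) : ℤ) : ℝ)) (Real.exp (M t * Lg))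
      (Real.exp_pos _).le (hTq t) (fun i => by
        have h2 := hFi1 t i
        push_cast at h2 ⊢
        rw [one_mul]
        exact h2) (by
        push_cast at ht1 ⊢
        rw [one_mul] at ht1
        exact ht1)
    rcases h1 with h1 | h1
    · rw [hpow, hNw] at h1
      have h2 : K * (|(X t : ℝ)| + Real.exp (M t * Lg)) ≤
          K * (2 * b * Real.exp ((M t + (N t - w t - l t : ℕ)) * Lg) + Real.exp (M t * Lg)) :=
        mul_le_mul_of_nonneg_left (by linarith [hX t]) hK0.le
      linarith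
    · have h2 := hX t
      have h3 := hqbig t
      have h4 := le_abs_self (X t : ℝ)
      have h5 : (q t : ℝ) ≤ T t * q t := le_mul_of_one_le_left (by linarith [hqR t]) (hTR t)
      linarith
  · push Not at huv
    obtain ⟨hu', hv1⟩ := huv
    have hv0 : v 0 ≠ 0 := by
      intro h
      rcases hne with h1 | h1
      · exact h1 hu'
      · apply h1
        funext j
        fin_cases j
        · exact h
        · exact hv1
    have hX0 : ∃ᶠ t in atTop, X t = 0 := by
      refine hfreq.mono fun t ht => ?_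
      rw [Fin.sum_univ_two, hu', hv1] at ht
      simp only [Pi.zero_apply, Int.cast_zero, zero_mul, Finset.sum_const_zero, zero_add,
        add_zero] at ht
      change (v 0 : ℝ) * (((1 : ℕ) : ℝ) * X t) = 0 at ht
      rw [Nat.cast_one, one_mul] at ht
      rcases mul_eq_zero.1 ht with h | h
      · exact absurd (by exact_mod_cast h) hv0
      · exact_mod_cast h
    obtain ⟨f, hf, hfX⟩ := Filter.extraction_of_frequently_atTop hX0
    have hft : Tendsto f atTop atTop := hf.tendsto_atTop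
    have hY : ∀ t, (b : ℝ) ^ (N (f t) - w (f t)) * (Z (f t) : ℝ) = T (f t) * q (f t) := by
      intro t
      have h1 := hTq (f t)
      rw [hfX t, Int.cast_zero, zero_add] at h1
      exact h1.symm
    have hTq0 : ∀ t, 0 < (T t : ℝ) * q t := fun t =>
      mul_pos (by linarith [hTR t]) (by linarith [hqR t])
    refine one n b hb α halg hli c0 (ε * Lg) hc01 (by positivity) (fun t => (N (f t) : ℝ))
      (hNtop.comp hft) (fun t => N (f t) - w (f t)) (fun t => Z (f t))
      (fun t i => (T (f t) : ℤ) * round (q (f t) * α i))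
      (fun t => 3 * b * Real.exp ((M (f t) + N (f t)) * Lg))
      (fun t i => Real.exp (M (f t) * Lg) * dn (q (f t) * α i)) (fun t h => ?_)
      (fun t => by positivity) (fun t i => mul_pos (Real.exp_pos _) (hpos (f t) i)) (fun t => ?_)
      (fun t i => hBabs (f t) i) (fun t => ?_) (fun t => ?_) (fun t i => ?_) (fun t => ?_)
      (fun K => ?_)
    · have h1 := hY t
      rw [h, Int.cast_zero, mul_zero] at h1
      linarith [hTq0 (f t)]
    · have h1 := hc0N (f t)
      have h2 := hMN (f t)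
      have h3 := hML0 (f t)
      have h4 := hNL0 (f t)
      rw [Real.log_mul (by positivity) (Real.exp_pos _).ne', Real.log_exp,
        abs_of_nonneg (add_nonneg hl3b (by nlinarith))]
      nlinarith
    · have h1 := hc0N (f t)
      have h4 := hNL0 (f t)
      rw [← hLg, hNw]
      have h6 := hw0 (f t)
      nlinarith
    · rw [hY, abs_of_pos (hTq0 _), add_mul, Real.exp_add]
      have h1 : (T (f t) : ℝ) * q (f t) ≤ Real.exp (M (f t) * Lg) * Real.exp (N (f t) * Lg) :=
        mul_le_mul (hTexp _) (hqexp _) (by positivity) (Real.exp_pos _).le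
      have h2 : 0 < Real.exp (M (f t) * Lg) * Real.exp (N (f t) * Lg) := by positivity
      nlinarith
    · rw [hY]
      have h1 := hFi (f t) i
      push_cast at h1 ⊢
      exact h1
    · simp only [hBlog]
      rw [Finset.sum_add_distrib, Finset.sum_const, Finset.card_univ, Fintype.card_fin,
        nsmul_eq_mul, Real.log_mul (by positivity) (Real.exp_pos _).ne', Real.log_exp, ← hLg, hNw]
      have h1 := hbad (f t)
      have h2 : (0 : ℝ) ≤ (f t : ℕ) := Nat.cast_nonneg _
      have h3 := hML0 (f t)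
      have h4 := hu0 (f t)
      have h5 : 0 ≤ ((N (f t) : ℝ) - w (f t) - l (f t)) * Lg := mul_nonneg h4 (by linarith)
      nlinarith
    · filter_upwards [hft.eventually (hsmall (|K| * n))] with t ht
      rw [hY, abs_of_pos (hTq0 _)]
      have h1 : ∑ i, Real.exp (M (f t) * Lg) * dn (q (f t) * α i) ≤
          n * Real.exp (M (f t) * Lg) := by
        have h2 : ∑ i, Real.exp (M (f t) * Lg) * dn (q (f t) * α i) ≤
            ∑ _i : Fin n, Real.exp (M (f t) * Lg) := Finset.sum_le_sum fun i _ => by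
          have h3 := dn_le (q (f t) * α i)
          have h4 := Real.exp_pos (M (f t) * Lg)
          nlinarith
        rwa [Finset.sum_const, Finset.card_univ, Fintype.card_fin, nsmul_eq_mul] at h2
      have h2 : 0 ≤ ∑ i, Real.exp (M (f t) * Lg) * dn (q (f t) * α i) :=
        Finset.sum_nonneg fun i _ => mul_nonneg (Real.exp_pos _).le (abs_nonneg _)
      have h3 : K * ∑ i, Real.exp (M (f t) * Lg) * dn (q (f t) * α i) ≤
          |K| * n * Real.exp (M (f t) * Lg) := by
        have h4 := mul_le_mul (le_abs_self K) h1 h2 (abs_nonneg K)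
        linarith
      have h4 : |K| * n * Real.exp (M (f t) * Lg) ≤ |K| * n * (2 * b *
          Real.exp ((M (f t) + (N (f t) - w (f t) - l (f t) : ℕ)) * Lg) +
            Real.exp (M (f t) * Lg)) := by
        refine mul_le_mul_of_nonneg_left ?_ (by positivity)
        have := Real.exp_pos ((M (f t) + (N (f t) - w (f t) - l (f t) : ℕ)) * Lg)
        nlinarith
      have h5 : Real.exp ((N (f t) - w (f t)) * Lg) ≤ (T (f t) : ℝ) * q (f t) := by
        rw [← hY, ← hNw, ← hpow]
        have h6 : 0 < (b : ℝ) ^ (N (f t) - w (f t)) * (Z (f t) : ℝ) := by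
          rw [hY]; exact hTq0 _
        have h7 : (0 : ℝ) < Z (f t) := by
          by_contra h
          push Not at h
          have : (b : ℝ) ^ (N (f t) - w (f t)) * (Z (f t) : ℝ) ≤ 0 :=
            mul_nonpos_of_nonneg_of_nonpos (by positivity) h
          linarith
        have h8 : (1 : ℝ) ≤ Z (f t) := by
          have : (0 : ℤ) < Z (f t) := by exact_mod_cast h7
          exact_mod_cast this
        exact le_mul_of_one_le_right (by positivity) h8
      linarith

end Pool.Agent.V1189.RT
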