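import Pool.Agent.V1189.RT.SubQ

/-!
# Homogeneous subsequences and the choice of coordinates on their span

Author: helper89.
-/

set_option autoImplicit false

namespace Pool.Agent.V1189.RT

open Finset Filter Topology

/-- the rational relations satisfied by all points of a sequence -/
def relMod {ι : Type} [Fintype ι] (u : ℕ → ι → ℤ) : Submodule ℚ (ι → ℚ) where
  carrier := {y | ∀ t, ∑ i, y i * (u t i : ℚ) = 0}
  add_mem' := by
    intro a b ha hb t
    simp only [Pi.add_apply, add_mul, Finset.sum_add_distrib]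
    rw [ha t, hb t, add_zero]
  zero_mem' := by intro t; simp
  smul_mem' := by
    intro c a ha t
    simp only [Pi.smul_apply, smul_eq_mul, mul_assoc]
    rw [← Finset.mul_sum, ha t, mul_zero]

/-- a subsequence with a maximal space of relations: each relation that holds infinitely often
holds always -/
theorem homog {ι : Type} [Fintype ι] (u : ℕ → ι → ℤ) : ∃ φ : ℕ → ℕ, StrictMono φ ∧
    ∀ y : ι → ℤ, (∃ᶠ t in atTop, ∑ i, y i * u (φ t) i = 0) → ∀ t, ∑ i, y i * u (φ t) i = 0 := by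
  classical
  obtain ⟨n, hn⟩ : ∃ n, n = Fintype.card ι := ⟨_, rfl⟩
  -- the maximal dimension
  have hex : ∃ k, (∃ φ : ℕ → ℕ, StrictMono φ ∧ Module.finrank ℚ (relMod fun t => u (φ t)) + k = n) := by
    refine ⟨n - Module.finrank ℚ (relMod fun t => u t), id, strictMono_id, ?_⟩
    have h1 := Submodule.finrank_le (relMod fun t => u t)
    rw [Module.finrank_fintype_fun_eq_card, ← hn] at h1
    change Module.finrank ℚ (relMod fun t => u t) + _ = n
    omega
  obtain ⟨φ, hφ, hk⟩ := Nat.find_spec hex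
  refine ⟨φ, hφ, fun y hy => ?_⟩
  by_contra hne
  obtain ⟨ψ, hψ, hψy⟩ := extraction_of_frequently_atTop hy
  have hlt : relMod (fun t => u (φ t)) < relMod (fun t => u ((φ ∘ ψ) t)) := by
    rw [SetLike.lt_iff_le_and_exists]
    refine ⟨fun z hz t => hz (ψ t), fun i => (y i : ℚ), fun t => ?_, fun h => hne fun t => ?_⟩
    · have := hψy t
      change ∑ i, (y i : ℚ) * (u (φ (ψ t)) i : ℚ) = 0
      exact_mod_cast this
    · have h2 : ∑ i, (y i : ℚ) * (u (φ t) i : ℚ) = 0 := h t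
      exact_mod_cast h2
  have h1 := Submodule.finrank_lt_finrank_of_lt hlt
  have h2 := Submodule.finrank_le (relMod fun t => u ((φ ∘ ψ) t))
  rw [Module.finrank_fintype_fun_eq_card, ← hn] at h2
  have h3 := Nat.find_min' hex (m := n - Module.finrank ℚ (relMod fun t => u ((φ ∘ ψ) t)))
    ⟨φ ∘ ψ, hφ.comp hψ, by omega⟩
  omega

/-- The choice of coordinates: `X` and `Y` are two families of sequences, both linearly independent. Then
there are a subset `J` of the indices of `Y` and a subset `I` of the indices of `X` such that `X, Y|J` and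
`X|I, Y` are bases of the same space. -/
theorem coords {α β : Type} [Fintype α] [Fintype β] [DecidableEq α] [DecidableEq β]
    (v : α ⊕ β → (ℕ → ℚ))
    (hX : LinearIndependent ℚ fun i => v (Sum.inl i)) (hY : LinearIndependent ℚ fun i => v (Sum.inr i)) :
    ∃ (J : Finset β) (I : Finset α) (e : (α ⊕ J) ≃ (I ⊕ β)) (N : ℤ) (Q : Matrix (α ⊕ J) (α ⊕ J) ℤ),
      LinearIndependent ℚ (Sum.elim (fun i => v (Sum.inl i)) (fun j : J => v (Sum.inr j)) :
        (α ⊕ J) → (ℕ → ℚ)) ∧ Q.det ≠ 0 ∧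
      ∀ i, (N : ℚ) • Sum.elim (fun i : I => v (Sum.inl i)) (fun j => v (Sum.inr j)) (e i) =
        ∑ j, (Q i j : ℚ) • Sum.elim (fun i => v (Sum.inl i)) (fun j : J => v (Sum.inr j)) j := by
  classical
  obtain ⟨bσ, -, hσ1, hσ2, hσ3⟩ := exists_linearIndepOn_extension (K := ℚ) (v := v)
    (s := Set.range Sum.inl) (t := Set.univ) (by
      rw [LinearIndepOn]
      exact (linearIndependent_equiv (Equiv.ofInjective Sum.inl Sum.inl_injective)).1 hX)
    (Set.subset_univ _)
  obtain ⟨bτ, -, hτ1, hτ2, hτ3⟩ := exists_linearIndepOn_extension (K := ℚ) (v := v)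
    (s := Set.range Sum.inr) (t := Set.univ) (by
      rw [LinearIndepOn]
      exact (linearIndependent_equiv (Equiv.ofInjective Sum.inr Sum.inr_injective)).1 hY)
    (Set.subset_univ _)
  let J : Finset β := univ.filter fun j => Sum.inr j ∈ bσ
  let I : Finset α := univ.filter fun i => Sum.inl i ∈ bτ
  let gσ : α ⊕ J → α ⊕ β := Sum.elim Sum.inl (fun j => Sum.inr (j : β))
  let gτ : I ⊕ β → α ⊕ β := Sum.elim (fun i => Sum.inl (i : α)) Sum.inr
  have hgσ : ∀ x, gσ x ∈ bσ := by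
    rintro (i | j)
    · exact hσ1 ⟨i, rfl⟩
    · exact (Finset.mem_filter.1 j.2).2
  have hgτ : ∀ x, gτ x ∈ bτ := by
    rintro (i | j)
    · exact (Finset.mem_filter.1 i.2).2
    · exact hτ1 ⟨j, rfl⟩
  have hgσ' : ∀ x ∈ bσ, ∃ y, gσ y = x := by
    rintro (i | j) hx
    · exact ⟨Sum.inl i, rfl⟩
    · exact ⟨Sum.inr ⟨j, Finset.mem_filter.2 ⟨mem_univ _, hx⟩⟩, rfl⟩
  have hgτ' : ∀ x ∈ bτ, ∃ y, gτ y = x := by
    rintro (i | j) hx
    · exact ⟨Sum.inl ⟨i, Finset.mem_filter.2 ⟨mem_univ _, hx⟩⟩, rfl⟩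
    · exact ⟨Sum.inr j, rfl⟩
  have hσinj : Function.Injective fun x => (⟨gσ x, hgσ x⟩ : bσ) := by
    intro x y hxy
    have h1 : gσ x = gσ y := congrArg Subtype.val hxy
    rcases x with i | i <;> rcases y with j | j
    · exact congrArg Sum.inl (Sum.inl_injective h1)
    · exact absurd h1 Sum.inl_ne_inr
    · exact absurd h1 Sum.inr_ne_inl
    · exact congrArg Sum.inr (Subtype.ext (Sum.inr_injective h1))
  have hτinj : Function.Injective fun x => (⟨gτ x, hgτ x⟩ : bτ) := by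
    intro x y hxy
    have h1 : gτ x = gτ y := congrArg Subtype.val hxy
    rcases x with i | i <;> rcases y with j | j
    · exact congrArg Sum.inl (Subtype.ext (Sum.inl_injective h1))
    · exact absurd h1 Sum.inl_ne_inr
    · exact absurd h1 Sum.inr_ne_inl
    · exact congrArg Sum.inr (Sum.inr_injective h1)
  have hσli : LinearIndependent ℚ (v ∘ gσ) := LinearIndependent.comp hσ3 _ hσinj
  have hτli : LinearIndependent ℚ (v ∘ gτ) := LinearIndependent.comp hτ3 _ hτinj
  have hσspan : Submodule.span ℚ (Set.range (v ∘ gσ)) = Submodule.span ℚ (Set.range v) := by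
    apply le_antisymm
    · apply Submodule.span_mono
      rintro _ ⟨x, rfl⟩
      exact ⟨gσ x, rfl⟩
    · rw [Submodule.span_le]
      rintro _ ⟨x, rfl⟩
      have h1 := hσ2 ⟨x, Set.mem_univ _, rfl⟩
      refine Submodule.span_mono ?_ h1
      rintro _ ⟨y, hy, rfl⟩
      obtain ⟨w, hw⟩ := hgσ' y hy
      exact ⟨w, by rw [Function.comp_apply, hw]⟩
  have hτspan : Submodule.span ℚ (Set.range (v ∘ gτ)) = Submodule.span ℚ (Set.range v) := by
    apply le_antisymm
    · apply Submodule.span_mono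
      rintro _ ⟨x, rfl⟩
      exact ⟨gτ x, rfl⟩
    · rw [Submodule.span_le]
      rintro _ ⟨x, rfl⟩
      have h1 := hτ2 ⟨x, Set.mem_univ _, rfl⟩
      refine Submodule.span_mono ?_ h1
      rintro _ ⟨y, hy, rfl⟩
      obtain ⟨w, hw⟩ := hgτ' y hy
      exact ⟨w, by rw [Function.comp_apply, hw]⟩
  have hcard : Fintype.card (α ⊕ J) = Fintype.card (I ⊕ β) := by
    rw [← finrank_span_eq_card hσli, ← finrank_span_eq_card hτli, hσspan, hτspan]
  let e : (α ⊕ J) ≃ (I ⊕ β) := Fintype.equivOfCardEq hcard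
  have hmem : ∀ i, v (gτ (e i)) ∈ Submodule.span ℚ (Set.range (v ∘ gσ)) := by
    intro i
    rw [hσspan]
    exact Submodule.subset_span ⟨_, rfl⟩
  have hmem' : ∀ i, ∃ c : (α ⊕ J) → ℚ, ∑ j, c j • (v ∘ gσ) j = v (gτ (e i)) := fun i =>
    (Submodule.mem_span_range_iff_exists_fun ℚ).1 (hmem i)
  choose q hq using hmem'
  obtain ⟨Nn, hNn⟩ := IsLocalization.exist_integer_multiples_of_finite
    (nonZeroDivisors ℤ) (fun p : (α ⊕ J) × (α ⊕ J) => q p.1 p.2)
  have hN0 : (Nn : ℤ) ≠ 0 := nonZeroDivisors.ne_zero Nn.2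
  have hN' : ∀ p : (α ⊕ J) × (α ⊕ J), ∃ m : ℤ, (m : ℚ) = (Nn : ℤ) * q p.1 p.2 := by
    intro p
    obtain ⟨m, hm⟩ := hNn p
    refine ⟨m, ?_⟩
    have h1 : (algebraMap ℤ ℚ) m = (Nn : ℤ) • q p.1 p.2 := hm
    rw [zsmul_eq_mul] at h1
    exact h1
  choose Q0 hQ0 using hN'
  have hvσ : (Sum.elim (fun i => v (Sum.inl i)) (fun j : J => v (Sum.inr j)) :
      (α ⊕ J) → (ℕ → ℚ)) = v ∘ gσ := by
    funext x; rcases x with i | j <;> rfl
  have hvτ : (Sum.elim (fun i : I => v (Sum.inl i)) (fun j => v (Sum.inr j)) :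
      (I ⊕ β) → (ℕ → ℚ)) = v ∘ gτ := by
    funext x; rcases x with i | j <;> rfl
  have hrel : ∀ i, ((Nn : ℤ) : ℚ) • (v ∘ gτ) (e i) =
      ∑ j, (Q0 (i, j) : ℚ) • (v ∘ gσ) j := by
    intro i
    have h1 : (v ∘ gτ) (e i) = ∑ j, q i j • (v ∘ gσ) j := (hq i).symm
    rw [h1, Finset.smul_sum]
    refine Finset.sum_congr rfl fun j _ => ?_
    rw [hQ0, smul_smul]
  refine ⟨J, I, e, (Nn : ℤ), Matrix.of fun i j => Q0 (i, j), ?_, ?_, ?_⟩
  · rw [hvσ]; exact hσli
  · intro hdet
    obtain ⟨y, hy0, hy⟩ := Matrix.exists_vecMul_eq_zero_iff.2 hdet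
    apply hy0
    have h1 : ∑ i, (y i : ℚ) • ((Nn : ℤ) : ℚ) • (v ∘ gτ) (e i) = 0 := by
      simp_rw [hrel, Finset.smul_sum]
      rw [Finset.sum_comm]
      refine Finset.sum_eq_zero fun j _ => ?_
      have h2 := congrFun hy j
      simp only [Matrix.vecMul, dotProduct, Matrix.of_apply, Pi.zero_apply] at h2
      have h3 : ∑ i, (y i : ℚ) * (Q0 (i, j) : ℚ) = 0 := by exact_mod_cast h2
      simp_rw [smul_smul]
      rw [← Finset.sum_smul, h3, zero_smul]
    have h2 : ∑ i, ((y (e.symm i) : ℚ) * ((Nn : ℤ) : ℚ)) • (v ∘ gτ) i = 0 := by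
      rw [← Equiv.sum_comp e]
      simp_rw [Equiv.symm_apply_apply, ← smul_smul]
      exact h1
    have h3 := Fintype.linearIndependent_iff.1 hτli _ h2
    funext i
    have h4 := h3 (e i)
    rw [Equiv.symm_apply_apply] at h4
    have h5 : (y i : ℚ) = 0 := by
      rcases mul_eq_zero.1 h4 with h | h
      · exact h
      · exact absurd (by exact_mod_cast h) hN0
    exact_mod_cast h5
  · intro i
    rw [hvσ, hvτ]
    exact hrel i

end Pool.Agent.V1189.RT
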