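import Pool.Agent.V1189.RT.Merge

/-!
# The choice of coordinates on the span, general form

Author: helper89.
-/

set_option autoImplicit false

namespace Pool.Agent.V1189.RT

open Finset Filter Topology

/-- The choice of coordinates: `X` is a linearly independent family, `w` is a linearly independent family
in the span of `X` and `Y`. Then `X` and some of the `Y`, and `w` and some of the `X, Y` are bases of the
same space. -/
theorem coordsD {α β γ : Type} [Fintype α] [Fintype β] [Fintype γ] [DecidableEq α] [DecidableEq β]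
    [DecidableEq γ] (v : α ⊕ β → (ℕ → ℚ)) (w : γ → (ℕ → ℚ))
    (hX : LinearIndependent ℚ fun i => v (Sum.inl i)) (hw : LinearIndependent ℚ w)
    (hwv : ∀ c, w c ∈ Submodule.span ℚ (Set.range v)) :
    ∃ (J : Finset β) (I : Finset (α ⊕ β)) (e : (α ⊕ J) ≃ (γ ⊕ I)) (N : ℤ)
      (Q : Matrix (α ⊕ J) (α ⊕ J) ℤ),
      LinearIndependent ℚ (Sum.elim (fun i => v (Sum.inl i)) (fun j : J => v (Sum.inr j)) :
        (α ⊕ J) → (ℕ → ℚ)) ∧ Q.det ≠ 0 ∧
      ∀ i, (N : ℚ) • Sum.elim w (fun i : I => v i) (e i) =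
        ∑ j, (Q i j : ℚ) • Sum.elim (fun i => v (Sum.inl i)) (fun j : J => v (Sum.inr j)) j := by
  classical
  obtain ⟨bσ, -, hσ1, hσ2, hσ3⟩ := exists_linearIndepOn_extension (K := ℚ) (v := v)
    (s := Set.range Sum.inl) (t := Set.univ) (by
      rw [LinearIndepOn]
      exact (linearIndependent_equiv (Equiv.ofInjective Sum.inl Sum.inl_injective)).1 hX)
    (Set.subset_univ _)
  obtain ⟨vv, hvv⟩ : ∃ vv : γ ⊕ (α ⊕ β) → (ℕ → ℚ), vv = Sum.elim w v := ⟨_, rfl⟩
  have hvvl : ∀ c, vv (Sum.inl c) = w c := fun c => by rw [hvv]; rfl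
  have hvvr : ∀ c, vv (Sum.inr c) = v c := fun c => by rw [hvv]; rfl
  have hvvspan : Submodule.span ℚ (Set.range vv) = Submodule.span ℚ (Set.range v) := by
    apply le_antisymm
    · rw [Submodule.span_le]
      rintro _ ⟨c | i, rfl⟩
      · rw [hvvl]; exact hwv c
      · rw [hvvr]; exact Submodule.subset_span ⟨i, rfl⟩
    · apply Submodule.span_mono
      rintro _ ⟨x, rfl⟩
      exact ⟨Sum.inr x, hvvr x⟩
  obtain ⟨bτ, -, hτ1, hτ2, hτ3⟩ := exists_linearIndepOn_extension (K := ℚ) (v := vv)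
    (s := Set.range Sum.inl) (t := Set.univ) (by
      rw [LinearIndepOn]
      have h2 : LinearIndependent ℚ (fun c => vv (Sum.inl c)) := by
        rw [show (fun c => vv (Sum.inl c)) = w from funext hvvl]
        exact hw
      exact (linearIndependent_equiv (Equiv.ofInjective Sum.inl Sum.inl_injective)).1 h2)
    (Set.subset_univ _)
  let J : Finset β := univ.filter fun j => Sum.inr j ∈ bσ
  let I : Finset (α ⊕ β) := univ.filter fun i => Sum.inr i ∈ bτ
  let gσ : α ⊕ J → α ⊕ β := Sum.elim Sum.inl (fun j => Sum.inr (j : β))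
  let gτ : γ ⊕ I → γ ⊕ (α ⊕ β) := Sum.elim Sum.inl (fun i => Sum.inr (i : α ⊕ β))
  have hgσ : ∀ x, gσ x ∈ bσ := by
    rintro (i | j)
    · exact hσ1 ⟨i, rfl⟩
    · exact (Finset.mem_filter.1 j.2).2
  have hgτ : ∀ x, gτ x ∈ bτ := by
    rintro (i | j)
    · exact hτ1 ⟨i, rfl⟩
    · exact (Finset.mem_filter.1 j.2).2
  have hgσ' : ∀ x ∈ bσ, ∃ y, gσ y = x := by
    rintro (i | j) hx
    · exact ⟨Sum.inl i, rfl⟩
    · exact ⟨Sum.inr ⟨j, Finset.mem_filter.2 ⟨mem_univ _, hx⟩⟩, rfl⟩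
  have hgτ' : ∀ x ∈ bτ, ∃ y, gτ y = x := by
    rintro (i | j) hx
    · exact ⟨Sum.inl i, rfl⟩
    · exact ⟨Sum.inr ⟨j, Finset.mem_filter.2 ⟨mem_univ _, hx⟩⟩, rfl⟩
  have hσinj : Function.Injective fun x => (⟨gσ x, hgσ x⟩ : bσ) := by
    intro x y hxy
    have h1 : gσ x = gσ y := congrArg Subtype.val hxy
    rcases x with i | i <;> rcases y with j | j
    · exact congrArg Sum.inl (Sum.inl_injective h1)
    · exact absurd h1 Sum.inl_ne_inr
    · exact absurd h1 Sum.inr_ne_inl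
    · exact congrArg Sum.inr (Subtype.ext (Sum.inr_injective h1))
  have hτinj : Function.Injective fun x => (⟨gτ x, hgτ x⟩ : bτ) := by
    intro x y hxy
    have h1 : gτ x = gτ y := congrArg Subtype.val hxy
    rcases x with i | i <;> rcases y with j | j
    · exact congrArg Sum.inl (Sum.inl_injective h1)
    · exact absurd h1 Sum.inl_ne_inr
    · exact absurd h1 Sum.inr_ne_inl
    · exact congrArg Sum.inr (Subtype.ext (Sum.inr_injective h1))
  have hσli : LinearIndependent ℚ (v ∘ gσ) := LinearIndependent.comp hσ3 _ hσinj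
  have hτli : LinearIndependent ℚ (vv ∘ gτ) := LinearIndependent.comp hτ3 _ hτinj
  have hσspan : Submodule.span ℚ (Set.range (v ∘ gσ)) = Submodule.span ℚ (Set.range v) := by
    apply le_antisymm
    · apply Submodule.span_mono
      rintro _ ⟨x, rfl⟩
      exact ⟨gσ x, rfl⟩
    · rw [Submodule.span_le]
      rintro _ ⟨x, rfl⟩
      have h1 := hσ2 ⟨x, Set.mem_univ _, rfl⟩
      refine Submodule.span_mono ?_ h1
      rintro _ ⟨y, hy, rfl⟩
      obtain ⟨w, hw⟩ := hgσ' y hy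
      exact ⟨w, by rw [Function.comp_apply, hw]⟩
  have hτspan : Submodule.span ℚ (Set.range (vv ∘ gτ)) = Submodule.span ℚ (Set.range vv) := by
    apply le_antisymm
    · apply Submodule.span_mono
      rintro _ ⟨x, rfl⟩
      exact ⟨gτ x, rfl⟩
    · rw [Submodule.span_le]
      rintro _ ⟨x, rfl⟩
      have h1 := hτ2 ⟨x, Set.mem_univ _, rfl⟩
      refine Submodule.span_mono ?_ h1
      rintro _ ⟨y, hy, rfl⟩
      obtain ⟨w, hw⟩ := hgτ' y hy
      exact ⟨w, by rw [Function.comp_apply, hw]⟩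
  have hcard : Fintype.card (α ⊕ J) = Fintype.card (γ ⊕ I) := by
    rw [← finrank_span_eq_card hσli, ← finrank_span_eq_card hτli, hσspan, hτspan, hvvspan]
  let e : (α ⊕ J) ≃ (γ ⊕ I) := Fintype.equivOfCardEq hcard
  have hmem : ∀ i, vv (gτ (e i)) ∈ Submodule.span ℚ (Set.range (v ∘ gσ)) := by
    intro i
    rw [hσspan, ← hvvspan]
    exact Submodule.subset_span ⟨_, rfl⟩
  have hmem' : ∀ i, ∃ c : (α ⊕ J) → ℚ, ∑ j, c j • (v ∘ gσ) j = vv (gτ (e i)) := fun i =>
    (Submodule.mem_span_range_iff_exists_fun ℚ).1 (hmem i)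
  choose q hq using hmem'
  obtain ⟨Nn, hNn⟩ := IsLocalization.exist_integer_multiples_of_finite
    (nonZeroDivisors ℤ) (fun p : (α ⊕ J) × (α ⊕ J) => q p.1 p.2)
  have hN0 : (Nn : ℤ) ≠ 0 := nonZeroDivisors.ne_zero Nn.2
  have hN' : ∀ p : (α ⊕ J) × (α ⊕ J), ∃ m : ℤ, (m : ℚ) = (Nn : ℤ) * q p.1 p.2 := by
    intro p
    obtain ⟨m, hm⟩ := hNn p
    refine ⟨m, ?_⟩
    have h1 : (algebraMap ℤ ℚ) m = (Nn : ℤ) • q p.1 p.2 := hm
    rw [zsmul_eq_mul] at h1
    exact h1
  choose Q0 hQ0 using hN'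
  have hvσ : (Sum.elim (fun i => v (Sum.inl i)) (fun j : J => v (Sum.inr j)) :
      (α ⊕ J) → (ℕ → ℚ)) = v ∘ gσ := by
    funext x; rcases x with i | j <;> rfl
  have hvτ : (Sum.elim w (fun i : I => v i) : (γ ⊕ I) → (ℕ → ℚ)) = vv ∘ gτ := by
    funext x
    rcases x with i | j
    · exact (hvvl i).symm
    · exact (hvvr j).symm
  have hrel : ∀ i, ((Nn : ℤ) : ℚ) • (vv ∘ gτ) (e i) =
      ∑ j, (Q0 (i, j) : ℚ) • (v ∘ gσ) j := by
    intro i
    have h1 : (vv ∘ gτ) (e i) = ∑ j, q i j • (v ∘ gσ) j := (hq i).symm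
    rw [h1, Finset.smul_sum]
    refine Finset.sum_congr rfl fun j _ => ?_
    rw [hQ0, smul_smul]
  refine ⟨J, I, e, (Nn : ℤ), Matrix.of fun i j => Q0 (i, j), ?_, ?_, ?_⟩
  · rw [hvσ]; exact hσli
  · intro hdet
    obtain ⟨y, hy0, hy⟩ := Matrix.exists_vecMul_eq_zero_iff.2 hdet
    apply hy0
    have h1 : ∑ i, (y i : ℚ) • ((Nn : ℤ) : ℚ) • (vv ∘ gτ) (e i) = 0 := by
      simp_rw [hrel, Finset.smul_sum]
      rw [Finset.sum_comm]
      refine Finset.sum_eq_zero fun j _ => ?_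
      have h2 := congrFun hy j
      simp only [Matrix.vecMul, dotProduct, Matrix.of_apply, Pi.zero_apply] at h2
      have h3 : ∑ i, (y i : ℚ) * (Q0 (i, j) : ℚ) = 0 := by exact_mod_cast h2
      simp_rw [smul_smul]
      rw [← Finset.sum_smul, h3, zero_smul]
    have h2 : ∑ i, ((y (e.symm i) : ℚ) * ((Nn : ℤ) : ℚ)) • (vv ∘ gτ) i = 0 := by
      rw [← Equiv.sum_comp e]
      simp_rw [Equiv.symm_apply_apply, ← smul_smul]
      exact h1
    have h3 := Fintype.linearIndependent_iff.1 hτli _ h2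
    funext i
    have h4 := h3 (e i)
    rw [Equiv.symm_apply_apply] at h4
    have h5 : (y i : ℚ) = 0 := by
      rcases mul_eq_zero.1 h4 with h | h
      · exact h
      · exact absurd (by exact_mod_cast h) hN0
    exact_mod_cast h5
  · intro i
    rw [hvσ, hvτ]
    exact hrel i

end Pool.Agent.V1189.RT
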