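import Pool.Agent.V1189.RT.FormsS
import Pool.Agent.V1189.RT.Joint

/-!
# Windows of digits and products of rational linear forms at finitely many places

Author: helper89.
-/

set_option autoImplicit false

namespace Pool.Agent.V1189.RT

open Finset Filter Topology
open Pool.Agent.W47.JL
open Pool.Agent.Results.MP_a49cf6_nt.DigitRecurrences (Recurrence)

theorem formsDigitsS (d b r s : ℕ) (p : Fin s → ℕ) (hp2 : ∀ v, 2 ≤ p v)
    (hpb : ∀ v, Nat.Coprime (p v) b) (hpp : ∀ v v', v ≠ v' → Nat.Coprime (p v) (p v'))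
    (hm : Fin s → Matrix (Fin d) (Fin d) ℤ) (hdeth : ∀ v, (hm v).det ≠ 0) (hd : 1 ≤ d) (hb : 2 ≤ b)
    (gz : Matrix (Fin d) (Fin d) ℤ) (hdetz : gz.det ≠ 0) (g : Matrix (Fin d) (Fin d) ℝ)
    (hgz : ∀ i j, g i j = gz i j) (a : Fin d → ℤ) (ε : ℝ) (hε : 0 < ε) :
    ∃ (S : Finset (Fin d → ℤ)) (C : ℝ), 0 ≤ C ∧ (∀ s ∈ S, s ≠ 0) ∧
      ∀ (x : Fin d → ℤ) (H : ℕ), (∀ s ∈ S, ∑ j, s j * x j ≠ 0) → (∀ j, (x j).natAbs ≤ H) →
      ∀ (D : ℕ) (f : Fin s → Fin d → ℕ), D = ∏ v, ∏ i, p v ^ f v i →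
      (∀ v i, (p v : ℤ) ^ f v i ∣ ∑ j, hm v i j * x j) → (∀ v i, ∑ j, hm v i j * x j ≠ 0) →
      ∀ (W : Fin r → ℕ) (l m : ℕ) (c : ℕ → ℚ), (∀ k, l ≤ W k) →
      (∀ k, b ^ W k ≤ b * (∑ j, a j * x j).natAbs) →
      (∀ k k', k ≠ k' → W k + l ≤ W k' ∨ W k' + l ≤ W k) →
      (∀ k, Recurrence (fun i => (dH b (∑ j, a j * x j).natAbs (W k - i) : ℤ)) c l m) →
      (r : ℝ) * l * Real.log b ≤ (d + r) * ((m + 15 * err m) * Real.log b) + logFD d g x D +
        ε * Real.log H + C := by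
  have hbR : (2 : ℝ) ≤ b := by exact_mod_cast hb
  obtain ⟨S, C0, hC0, hS, hprop⟩ := formsCoreS d b r s p hp2 hpb hpp hm hdeth hd hb gz hdetz g hgz a ε hε univ (2 * b)
    (by linarith)
  obtain ⟨L, hL⟩ : ∃ L : ℝ, L = Real.log b := ⟨_, rfl⟩
  have hL0 : 0 < L := by rw [hL]; exact Real.log_pos (by linarith)
  have hr0 : (0 : ℝ) ≤ r := Nat.cast_nonneg _
  refine ⟨S, C0 + r * (C0 + 3) * L, by positivity, hS, fun x H hx hH D f hDf hDx hhx W l m c hlW hpow hdis hrec => ?_⟩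
  obtain ⟨M, hM⟩ : ∃ M : ℝ, M = m + 15 * err m := ⟨_, rfl⟩
  have herr : 0 ≤ err m := le_trans (by norm_num) (err_ge m)
  have hM0 : 0 ≤ M := by
    rw [hM]
    positivity
  have hlF := logFD_nonneg d g x D
  have hlH : 0 ≤ Real.log H := Real.log_natCast_nonneg _
  have hεH : 0 ≤ ε * Real.log H := by positivity
  have hdR : (1 : ℝ) ≤ d := by exact_mod_cast hd
  have hbad : (l : ℝ) ≤ M + (C0 + 3) → (r : ℝ) * l * L ≤ (d + r) * (M * L) + logFD d g x D +
      ε * Real.log H + (C0 + r * (C0 + 3) * L) := by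
    intro h
    have h1 : (r : ℝ) * l * L ≤ r * (M + (C0 + 3)) * L := by gcongr
    have h2 : 0 ≤ d * (M * L) := by positivity
    linarith
  rw [← hM, ← hL]
  rcases winRelX r b (fun _ => (∑ j, a j * x j).natAbs) hb W l m c hlW hrec with h |
    ⟨T, Z, hT1, hTlog, hZ⟩
  · rw [← hM] at h
    exact hbad (by linarith)
  rw [← hM, ← hL] at hTlog
  rw [← hM, ← hL] at hZ
  rcases le_or_gt (M + C0) l with hgap | hgap
  · have h1 := hprop x H hx hH T M W (fun _ => l) (fun k => (∑ j, a j * x j).sign * Z k) D f hT1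
      (by rw [← hL]; exact hTlog) (fun k _ => hlW k) (fun k _ => hpow k)
      (fun k _ k' _ hne => hdis k k' hne) (fun _ _ => hgap) (fun k _ => by
      obtain ⟨y, hy⟩ : ∃ y : ℤ, y = ∑ j, a j * x j := ⟨_, rfl⟩
      have h2 := hZ k
      rw [← hy] at h2 ⊢
      rw [← hL]
      have h3 : (y : ℝ) = (y.sign : ℝ) * ((y.natAbs : ℕ) : ℝ) := by
        have h6 := congrArg (Int.cast : ℤ → ℝ) (Int.sign_mul_natAbs y)
        rw [Int.cast_mul, Int.cast_natCast] at h6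
        exact h6.symm
      have h4 : |((y.sign : ℤ) : ℝ)| ≤ 1 := by
        rcases lt_trichotomy y 0 with h | h | h
        · rw [Int.sign_eq_neg_one_of_neg h]; simp
        · rw [h]; simp
        · rw [Int.sign_eq_one_of_pos h]; simp
      have h5 : (T : ℝ) * (y : ℝ) - (b : ℝ) ^ W k * (((y.sign * Z k : ℤ)) : ℝ) =
          (y.sign : ℝ) * ((T : ℝ) * ((y.natAbs : ℕ) : ℝ) - (b : ℝ) ^ W k * Z k) := by
        rw [h3, Int.cast_mul]
        ring
      rw [h5, abs_mul]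
      refine (mul_le_of_le_one_left (abs_nonneg _) h4).trans (h2.trans (le_of_eq ?_))
      congr 2
      ring) hDf hDx hhx
    rw [Finset.sum_const, Finset.card_univ, Fintype.card_fin, nsmul_eq_mul, ← hL] at h1
    have h2 : 0 ≤ r * (C0 + 3) * L := by positivity
    linarith
  · exact hbad (by linarith)

namespace Joint

theorem jointFormsS (d b r s : ℕ) (p : Fin s → ℕ) (hp2 : ∀ v, 2 ≤ p v)
    (hpb : ∀ v, Nat.Coprime (p v) b) (hpp : ∀ v v', v ≠ v' → Nat.Coprime (p v) (p v'))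
    (hm : Fin s → Matrix (Fin d) (Fin d) ℤ) (hdeth : ∀ v, (hm v).det ≠ 0) (hd : 1 ≤ d) (hr : 1 ≤ r) (hb : 2 ≤ b)
    (gz : Matrix (Fin d) (Fin d) ℤ) (hdetz : gz.det ≠ 0) (g : Matrix (Fin d) (Fin d) ℝ)
    (hgz : ∀ i j, g i j = gz i j) (a : Fin d → ℤ) (ε : ℝ) (hε : 0 < ε) :
    ∃ (S : Finset (Fin d → ℤ)) (C : ℝ), 0 ≤ C ∧ (∀ s ∈ S, s ≠ 0) ∧
      ∀ x : Fin d → ℤ, (∀ s ∈ S, ∑ j, s j * x j ≠ 0) →
      ∀ (D : ℕ) (f : Fin s → Fin d → ℕ), D = ∏ v, ∏ i, p v ^ f v i →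
      (∀ v i, (p v : ℤ) ^ f v i ∣ ∑ j, hm v i j * x j) → (∀ v i, ∑ j, hm v i j * x j ≠ 0) →
      ∀ (W : Fin r → ℕ) (l : ℕ),
      IsWindows b (∑ j, a j * x j).natAbs r W l →
      (r : ℝ) * l * Real.log b ≤ (d + r) * (jointOrder b (∑ j, a j * x j).natAbs r W l * Real.log b) +
        logFD d g x D + ε * Real.log (height x) + C := by
  have hbR : (2 : ℝ) ≤ b := by exact_mod_cast hb
  obtain ⟨L, hL⟩ : ∃ L : ℝ, L = Real.log b := ⟨_, rfl⟩
  have hL0 : 0 < L := by rw [hL]; exact Real.log_pos (by linarith)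
  have hdR : (1 : ℝ) ≤ d := by exact_mod_cast hd
  have hr0 : (0 : ℝ) ≤ r := Nat.cast_nonneg _
  obtain ⟨S, C1, hC10, hS, hC1⟩ := formsDigitsS d b r s p hp2 hpb hpp hm hdeth hd hb gz hdetz g hgz a (ε / 2) (by linarith)
  obtain ⟨Ga, hGa⟩ : ∃ Ga : ℝ, Ga = 1 + ∑ j, |(a j : ℝ)| := ⟨_, rfl⟩
  have hGa1 : 1 ≤ Ga := by
    have : 0 ≤ ∑ j, |(a j : ℝ)| := Finset.sum_nonneg fun j _ => abs_nonneg _
    rw [hGa]; linarith
  have hlogGa : 0 ≤ Real.log Ga := Real.log_nonneg hGa1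
  obtain ⟨κ, hκ⟩ : ∃ κ : ℝ, κ = ε / 2 / (d + r) := ⟨_, rfl⟩
  have hdr : (0 : ℝ) < d + r := by linarith
  have hκ0 : 0 < κ := by rw [hκ]; positivity
  obtain ⟨K, hK0, hK⟩ := Pool.Agent.Results.MP_a49cf6_nt.DigitRecurrences.F_linear 17 κ
    (by norm_num) hκ0
  refine ⟨S, C1 + (d + r) * K * L + ε / 2 * (L + Real.log Ga) + r * L, by positivity, hS,
    fun x hx D f hDf hDx hhx W l hW => ?_⟩
  obtain ⟨y, hy⟩ : ∃ y : ℕ, y = (∑ j, a j * x j).natAbs := ⟨_, rfl⟩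
  obtain ⟨m, hm⟩ : ∃ m : ℕ, m = jointOrder b y r W l := ⟨_, rfl⟩
  have hlF := logFD_nonneg d g x D
  have hlH : 0 ≤ Real.log (height x) := Real.log_natCast_nonneg _
  have hx1 : ∀ j, (x j).natAbs ≤ height x := fun j =>
    Finset.le_sup (f := fun j => (x j).natAbs) (mem_univ j)
  rw [← hy, ← hm, ← hL]
  rw [← hy] at hW
  have hm0 : 0 ≤ (m : ℝ) * L := by positivity
  rcases Nat.eq_zero_or_pos y with hy0 | hy0
  · have h1 : l ≤ 1 := by
      have h2 := (hW.inside ⟨0, hr⟩).1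
      have h3 := (hW.inside ⟨0, hr⟩).2
      rw [hy0, Nat.log_zero_right] at h3
      omega
    have h2 : (l : ℝ) ≤ 1 := by exact_mod_cast h1
    have h3 : (r : ℝ) * l * L ≤ r * 1 * L := by gcongr
    have h4 : 0 ≤ ((d : ℝ) + r) * (m * L) := by positivity
    have h5 : 0 ≤ ε * Real.log (height x) := by positivity
    have h6 : 0 ≤ (d + r) * K * L := by positivity
    have h7 : 0 ≤ ε / 2 * (L + Real.log Ga) := by positivity
    linarith
  obtain ⟨m', c, hm'm, hrec⟩ := to_recurrence b y r W l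
  rw [← hm] at hm'm hrec
  have hml : m ≤ l := by rw [hm]; exact jointOrder_le _ _ _ _ _
  have hpow := pow_le_of_windows (by omega) hb hW
  have hmain := hC1 x (height x) hx hx1 D f hDf hDx hhx W (l - (m - m')) m' c
    (fun k => by have := (hW.inside k).1; omega) (fun k => by rw [← hy]; exact hpow k)
    (fun i j hij => by
      rcases hW.disjoint i j hij with h | h
      · left; omega
      · right; omega) (fun k => by rw [← hy]; exact hrec k)
  rw [← hL] at hmain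
  have hHp : 1 ≤ height x := by
    by_contra h
    have h1 : ∀ j, x j = 0 := by
      intro j
      have := hx1 j
      omega
    simp [h1] at hy
    omega
  have hHR : (1 : ℝ) ≤ height x := by exact_mod_cast hHp
  have hyR : (y : ℝ) ≤ Ga * height x := by
    rw [hy, Nat.cast_natAbs, Int.cast_abs]
    push_cast
    refine (Finset.abs_sum_le_sum_abs _ _).trans ?_
    have h1 : ∑ j, |(a j : ℝ) * x j| ≤ ∑ j, |(a j : ℝ)| * height x := by
      refine Finset.sum_le_sum fun j _ => ?_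
      rw [abs_mul]
      refine mul_le_mul_of_nonneg_left ?_ (abs_nonneg _)
      have h1 : (((x j).natAbs : ℕ) : ℝ) ≤ height x := by exact_mod_cast hx1 j
      rwa [Nat.cast_natAbs, Int.cast_abs] at h1
    rw [← Finset.sum_mul] at h1
    have h2 : ∑ j, |(a j : ℝ)| ≤ Ga := by rw [hGa]; linarith
    exact h1.trans (mul_le_mul_of_nonneg_right h2 (by linarith))
  have hlL : (l : ℝ) * L ≤ L + Real.log Ga + Real.log (height x) := by
    have h1 : (b : ℝ) ^ W ⟨0, hr⟩ ≤ b * (Ga * height x) := by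
      have h2 : ((b ^ W ⟨0, hr⟩ : ℕ) : ℝ) ≤ ((b * y : ℕ) : ℝ) := by exact_mod_cast hpow ⟨0, hr⟩
      push_cast at h2
      exact h2.trans (mul_le_mul_of_nonneg_left hyR (by linarith))
    have h3 := Real.log_le_log (by positivity) h1
    rw [Real.log_pow, Real.log_mul (by positivity) (by positivity),
      Real.log_mul (by positivity) (by positivity), ← hL] at h3
    have h4 : (l : ℝ) ≤ W ⟨0, hr⟩ := by exact_mod_cast (hW.inside ⟨0, hr⟩).1
    have h5 := mul_le_mul_of_nonneg_right h4 hL0.le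
    linarith
  have h2 := hK m'
  have h3 : (m' : ℝ) + 15 * Pool.Agent.W47.JL.err m' ≤
      Pool.Agent.Results.MP_a49cf6_nt.DigitRecurrences.F 17 m' := by
    have h4 := Pool.Agent.W47.JL.err_ge m'
    have h5 : Pool.Agent.Results.MP_a49cf6_nt.DigitRecurrences.F 17 m' =
      m' + 17 * Pool.Agent.W47.JL.err m' := rfl
    rw [h5]; linarith
  have hm'mR : (m' : ℝ) ≤ m := by exact_mod_cast hm'm
  have hmlR : (m : ℝ) ≤ l := by exact_mod_cast hml
  have hm'0 : (0 : ℝ) ≤ m' := Nat.cast_nonneg _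
  have hcast : ((l - (m - m') : ℕ) : ℝ) = l - m + m' := by
    rw [Nat.cast_sub (by omega), Nat.cast_sub (by omega)]
    ring
  rw [hcast] at hmain
  have h4 : ((d : ℝ) + r) * ((m' + 15 * Pool.Agent.W47.JL.err m') * L) ≤
      (d + r) * ((m' + κ * l + K) * L) := by
    refine mul_le_mul_of_nonneg_left (mul_le_mul_of_nonneg_right ?_ hL0.le) hdr.le
    have h5 : κ * (m' : ℝ) ≤ κ * l := mul_le_mul_of_nonneg_left (hm'mR.trans hmlR) hκ0.le
    linarith
  have h5 : ((d : ℝ) + r) * ((m' + κ * l + K) * L) = (d + r) * (m' * L) + ε / 2 * (l * L) +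
      (d + r) * K * L := by
    rw [hκ]
    field_simp
  have h6 : ε / 2 * (l * L) ≤ ε / 2 * (L + Real.log Ga + Real.log (height x)) :=
    mul_le_mul_of_nonneg_left hlL (by linarith)
  have h7 : (d : ℝ) * (m' * L) ≤ d * (m * L) :=
    mul_le_mul_of_nonneg_left (mul_le_mul_of_nonneg_right hm'mR hL0.le) (by linarith)
  have h8 : 0 ≤ (r : ℝ) * L := by positivity
  nlinarith

end Joint

/-- the theorem of Ridout and Schlickewei, for rational forms -/
theorem ridout (d s : ℕ) (p : Fin s → ℕ) (hp2 : ∀ v, 2 ≤ p v)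
    (hpp : ∀ v v', v ≠ v' → Nat.Coprime (p v) (p v'))
    (hm : Fin s → Matrix (Fin d) (Fin d) ℤ) (hdeth : ∀ v, (hm v).det ≠ 0) (hd : 1 ≤ d)
    (gz : Matrix (Fin d) (Fin d) ℤ) (hdetz : gz.det ≠ 0) (ε : ℝ) (hε : 0 < ε) :
    ∃ (S : Finset (Fin d → ℤ)) (C : ℝ), 0 ≤ C ∧ (∀ s ∈ S, s ≠ 0) ∧
      ∀ (x : Fin d → ℤ) (H : ℕ), (∀ s ∈ S, ∑ j, s j * x j ≠ 0) → (∀ j, (x j).natAbs ≤ H) →
      ∀ (f : Fin s → Fin d → ℕ),
      (∀ v i, (p v : ℤ) ^ f v i ∣ ∑ j, hm v i j * x j) → (∀ v i, ∑ j, hm v i j * x j ≠ 0) →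
      (∀ i, ∑ j, gz i j * x j ≠ 0) →
      ∑ v, ∑ i, (f v i : ℝ) * Real.log (p v) ≤
        ∑ i, Real.log |((∑ j, gz i j * x j : ℤ) : ℝ)| + ε * Real.log H + C := by
  classical
  by_contra hcon
  push Not at hcon
  have hdR : (1 : ℝ) ≤ d := by exact_mod_cast hd
  obtain ⟨f, hf⟩ : ∃ f : ℕ → (Fin d → ℤ), Function.Surjective f := exists_surjective_nat _
  obtain ⟨G, hG⟩ : ∃ G : ℝ, G = 1 + ∑ u, ∑ i, ∑ j, |((hm u i j : ℤ) : ℝ)| +
    ∑ i, ∑ j, |((gz i j : ℤ) : ℝ)| := ⟨_, rfl⟩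
  have hn1 : 0 ≤ ∑ u, ∑ i, ∑ j, |((hm u i j : ℤ) : ℝ)| := Finset.sum_nonneg fun u _ =>
    Finset.sum_nonneg fun i _ => Finset.sum_nonneg fun j _ => abs_nonneg _
  have hn2 : 0 ≤ ∑ i, ∑ j, |((gz i j : ℤ) : ℝ)| := Finset.sum_nonneg fun i _ =>
    Finset.sum_nonneg fun j _ => abs_nonneg _
  have hG1 : 1 ≤ G := by rw [hG]; linarith
  have hlogG : 0 ≤ Real.log G := Real.log_nonneg hG1
  choose x0 H0 hS0 hH0 f0 hdv0 hne0 hg0 hviol0 using fun t : ℕ =>
    hcon (((range t).image f).filter (fun s => s ≠ 0)) t (Nat.cast_nonneg t)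
      (fun s hs => (mem_filter.1 hs).2)
  obtain ⟨v0, hv0⟩ : ∃ v0 : Fin d, True := ⟨⟨0, hd⟩, trivial⟩
  have hHp : ∀ t, 1 ≤ H0 t := by
    intro t
    by_contra h
    have h1 : ∀ j, x0 t j = 0 := by
      intro j
      have := hH0 t j
      omega
    exact hg0 t v0 (by simp [h1])
  have hHR : ∀ t, (1 : ℝ) ≤ H0 t := fun t => by exact_mod_cast hHp t
  have hlH : ∀ t, 0 ≤ Real.log (H0 t) := fun t => Real.log_nonneg (hHR t)
  have hxR : ∀ t j, |(x0 t j : ℝ)| ≤ H0 t := by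
    intro t j
    have h1 : ((x0 t j).natAbs : ℝ) ≤ H0 t := by exact_mod_cast hH0 t j
    rwa [Nat.cast_natAbs, Int.cast_abs] at h1
  have hrow : ∀ t (c : Fin d → ℤ), ∑ j, |((c j : ℤ) : ℝ)| ≤ G →
      |((∑ j, c j * x0 t j : ℤ) : ℝ)| ≤ G * H0 t := by
    intro t c hc
    push_cast
    refine (Finset.abs_sum_le_sum_abs _ _).trans ?_
    have h3 : ∑ j, |(c j : ℝ) * (x0 t j : ℝ)| ≤ ∑ j, |(c j : ℝ)| * H0 t := by
      refine Finset.sum_le_sum fun j _ => ?_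
      rw [abs_mul]
      exact mul_le_mul_of_nonneg_left (hxR t j) (abs_nonneg _)
    rw [← Finset.sum_mul] at h3
    exact h3.trans (mul_le_mul_of_nonneg_right hc (by linarith [hHR t]))
  have hrowh : ∀ u i, ∑ j, |((hm u i j : ℤ) : ℝ)| ≤ G := by
    intro u i
    have h5 : ∑ j, |((hm u i j : ℤ) : ℝ)| ≤ ∑ i, ∑ j, |((hm u i j : ℤ) : ℝ)| :=
      Finset.single_le_sum (f := fun i => ∑ j, |((hm u i j : ℤ) : ℝ)|)
        (fun i _ => Finset.sum_nonneg fun j _ => abs_nonneg _) (mem_univ i)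
    have h6 : ∑ i, ∑ j, |((hm u i j : ℤ) : ℝ)| ≤ ∑ u, ∑ i, ∑ j, |((hm u i j : ℤ) : ℝ)| :=
      Finset.single_le_sum (f := fun u => ∑ i, ∑ j, |((hm u i j : ℤ) : ℝ)|)
        (fun u _ => Finset.sum_nonneg fun i _ => Finset.sum_nonneg fun j _ => abs_nonneg _)
        (mem_univ u)
    rw [hG]; linarith
  have hrowg : ∀ i, ∑ j, |((gz i j : ℤ) : ℝ)| ≤ G := by
    intro i
    have h5 : ∑ j, |((gz i j : ℤ) : ℝ)| ≤ ∑ i, ∑ j, |((gz i j : ℤ) : ℝ)| :=
      Finset.single_le_sum (f := fun i => ∑ j, |((gz i j : ℤ) : ℝ)|)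
        (fun i _ => Finset.sum_nonneg fun j _ => abs_nonneg _) (mem_univ i)
    rw [hG]; linarith
  have hffb : ∀ t u i, (f0 t u i : ℝ) * Real.log (p u) ≤ Real.log G + Real.log (H0 t) := by
    intro t u i
    have h0 : (2 : ℝ) ≤ p u := by exact_mod_cast hp2 u
    have h1 : ((p u ^ f0 t u i : ℕ) : ℝ) ≤ |((∑ j, hm u i j * x0 t j : ℤ) : ℝ)| := by
      have h2 : p u ^ f0 t u i ≤ (∑ j, hm u i j * x0 t j).natAbs := by
        refine Nat.le_of_dvd (Int.natAbs_pos.2 (hne0 t u i)) ?_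
        refine Int.natCast_dvd.1 ?_
        push_cast
        exact hdv0 t u i
      rw [← Int.cast_abs, ← Nat.cast_natAbs]
      exact_mod_cast h2
    have h3 := h1.trans (hrow t _ (hrowh u i))
    rw [Nat.cast_pow] at h3
    have h4 := Real.log_le_log (by positivity) h3
    rwa [Real.log_pow, Real.log_mul (by linarith) (by linarith [hHR t])] at h4
  have hg1 : ∀ t i, (1 : ℝ) ≤ |((∑ j, gz i j * x0 t j : ℤ) : ℝ)| := by
    intro t i
    rw [← Int.cast_abs]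
    exact_mod_cast Int.one_le_abs (hg0 t i)
  have hlg0 : ∀ t i, 0 ≤ Real.log |((∑ j, gz i j * x0 t j : ℤ) : ℝ)| := fun t i =>
    Real.log_nonneg (hg1 t i)
  have hlg1 : ∀ t i, Real.log |((∑ j, gz i j * x0 t j : ℤ) : ℝ)| ≤ Real.log G + Real.log (H0 t) := by
    intro t i
    have h4 := Real.log_le_log (by linarith [hg1 t i]) (hrow t _ (hrowg i))
    rwa [Real.log_mul (by linarith) (by linarith [hHR t])] at h4
  obtain ⟨sd, hsd⟩ : ∃ sd : ℝ, sd = s * d + 1 := ⟨_, rfl⟩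
  have hsd1 : 1 ≤ sd := by
    have : (0 : ℝ) ≤ s * d := by positivity
    rw [hsd]; linarith
  have hsum : ∀ t, ∑ v, ∑ i, (f0 t v i : ℝ) * Real.log (p v) ≤
      sd * (Real.log G + Real.log (H0 t)) := by
    intro t
    have h1 : ∑ v, ∑ i, (f0 t v i : ℝ) * Real.log (p v) ≤
        ∑ _v : Fin s, ∑ _i : Fin d, (Real.log G + Real.log (H0 t)) :=
      Finset.sum_le_sum fun v _ => Finset.sum_le_sum fun i _ => hffb t v i
    simp only [Finset.sum_const, Finset.card_univ, Fintype.card_fin, nsmul_eq_mul] at h1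
    have h2 := hlH t
    have h3 : sd * (Real.log G + Real.log (H0 t)) = s * (d * (Real.log G + Real.log (H0 t))) +
      (Real.log G + Real.log (H0 t)) := by rw [hsd]; ring
    linarith
  have hgrow : ∀ t : ℕ, (t : ℝ) ≤ sd * (Real.log G + Real.log (H0 t)) := by
    intro t
    have h1 := hviol0 t
    have h2 := hsum t
    have h3 : 0 ≤ ∑ i, Real.log |((∑ j, gz i j * x0 t j : ℤ) : ℝ)| :=
      Finset.sum_nonneg fun i _ => hlg0 t i
    have h4 : 0 ≤ ε * Real.log (H0 t) := mul_nonneg hε.le (hlH t)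
    linarith
  obtain ⟨t0, ht0⟩ := exists_nat_ge (sd * (Real.log G + 1))
  have hN1 : ∀ t, 1 ≤ Real.log (H0 (t + t0)) := by
    intro t
    have h1 := hgrow (t + t0)
    push_cast at h1
    have h2 : (0 : ℝ) ≤ t := Nat.cast_nonneg t
    have h3 : sd * (Real.log G + 1) ≤ sd * (Real.log G + Real.log (H0 (t + t0))) := by linarith
    have h4 := le_of_mul_le_mul_left h3 (by linarith)
    linarith
  have hNlim : Tendsto (fun t => Real.log (H0 (t + t0))) atTop atTop := by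
    have h1 : Tendsto (fun t : ℕ => (t : ℝ) / sd - Real.log G) atTop atTop :=
      tendsto_atTop_add_const_right _ _ (tendsto_natCast_atTop_atTop.atTop_div_const (by linarith))
    refine tendsto_atTop_mono (fun t => ?_) h1
    have h2 := hgrow (t + t0)
    push_cast at h2
    have h3 : (0 : ℝ) ≤ t0 := Nat.cast_nonneg t0
    have h4 : (t : ℝ) ≤ sd * (Real.log G + Real.log (H0 (t + t0))) := by linarith
    have h5 : (t : ℝ) / sd ≤ Real.log G + Real.log (H0 (t + t0)) := by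
      rw [div_le_iff₀ (by linarith)]
      linarith
    linarith
  have hnon : Nonempty (Fin d) := ⟨v0⟩
  obtain ⟨y, hy0, hy⟩ := subZ s gz hm p ⟨hdetz, hdeth, hp2, hpp⟩ (1 + Real.log G) ε (by linarith) hε
    (fun t => Real.log (H0 (t + t0))) hNlim (fun t => f0 (t + t0))
    (fun t i => |((∑ j, gz i j * x0 (t + t0) j : ℤ) : ℝ)|) (fun t => by
      have h1 := hN1 t
      have h2 : Real.log G ≤ Real.log G * Real.log (H0 (t + t0)) := le_mul_of_one_le_right hlogG h1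
      refine ⟨fun u i => ?_, fun i => by linarith [hg1 (t + t0) i], fun i => ?_, ?_⟩
      · have := hffb (t + t0) u i
        linarith
      · rw [abs_of_nonneg (hlg0 _ i)]
        have := hlg1 (t + t0) i
        linarith
      · have h3 := hviol0 (t + t0)
        have h4 : (0 : ℝ) ≤ ((t + t0 : ℕ) : ℝ) := Nat.cast_nonneg _
        linarith) (fun t => x0 (t + t0)) (fun t h => by
      apply hg0 (t + t0) v0
      rw [h]
      simp) (fun t => ⟨fun i => le_rfl, fun u i => hdv0 (t + t0) u i⟩)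
  obtain ⟨n, hn⟩ := hf y
  obtain ⟨t, ht, hty⟩ := (Filter.frequently_atTop.1 hy) (n + 1)
  refine hS0 (t + t0) y ?_ hty
  rw [mem_filter, mem_image]
  exact ⟨⟨n, by rw [mem_range]; omega, hn⟩, hy0⟩

end Pool.Agent.V1189.RT
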