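import Pool.Agent.V1189.RT.Step

/-!
# Simultaneous approximation of algebraic numbers with errors in `k` places

Author: helper89.
-/

set_option autoImplicit false

namespace Pool.Agent.V1189.RT

open Finset Filter Topology

lemma irr {n : ℕ} (α : Fin n → ℝ) (hli : LinearIndependent ℚ (Fin.cons 1 α : Fin (n + 1) → ℝ))
    (u : Fin n → ℤ) (hu : u ≠ 0) (v : ℤ) : Irrational ((v : ℝ) + ∑ i, (u i : ℝ) * α i) := by
  rintro ⟨q, hq⟩
  rw [Fintype.linearIndependent_iff] at hli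
  have h := hli (Fin.cons (v - q) (fun i => (u i : ℚ))) (by
    rw [Fin.sum_univ_succ]
    simp only [Fin.cons_zero, Fin.cons_succ, Rat.smul_def]
    push_cast
    rw [hq]
    ring)
  apply hu
  funext i
  have h1 := h i.succ
  rw [Fin.cons_succ] at h1
  exact_mod_cast h1

lemma shift {n : ℕ} (α : Fin n → ℝ) (hli : LinearIndependent ℚ (Fin.cons 1 α : Fin (n + 1) → ℝ))
    (q : Fin n → ℚ) :
    LinearIndependent ℚ (Fin.cons 1 (fun i => α i - (q i : ℝ)) : Fin (n + 1) → ℝ) := by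
  rw [Fintype.linearIndependent_iff] at hli ⊢
  intro g hg
  have h := hli (Fin.cons (g 0 - ∑ i, g i.succ * q i) (fun i => g i.succ)) (by
    rw [Fin.sum_univ_succ] at hg ⊢
    simp only [Fin.cons_zero, Fin.cons_succ, Rat.smul_def] at hg ⊢
    push_cast
    rw [← hg]
    have h1 : ∑ i : Fin n, (g i.succ : ℝ) * (α i - (q i : ℝ)) =
        ∑ i : Fin n, (g i.succ : ℝ) * α i - ∑ i : Fin n, (g i.succ : ℝ) * (q i : ℝ) := by
      rw [← Finset.sum_sub_distrib]
      exact Finset.sum_congr rfl fun i _ => by ring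
    rw [h1]
    ring)
  have hs : ∀ i : Fin n, g i.succ = 0 := by
    intro i
    have h1 := h i.succ
    rwa [Fin.cons_succ] at h1
  intro j
  refine Fin.cases ?_ (fun i => hs i) j
  have h1 := h 0
  rw [Fin.cons_zero] at h1
  simp only [hs, zero_mul, Finset.sum_const_zero, sub_zero] at h1
  exact h1

/-- the coefficients of the `P_i` vanish -/
lemma caseA (n k b : ℕ) (hn : 1 ≤ n) (hb : 2 ≤ b) (α : Fin n → ℝ)
    (hli : LinearIndependent ℚ (Fin.cons 1 α : Fin (n + 1) → ℝ))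
    (γ : Fin n → Fin k → ℚ) (δ : ℝ) (hδ : 0 < δ) (L : ℕ → ℕ) (hL : Tendsto L atTop atTop)
    (Q r : ℕ → ℕ) (e : ℕ → Fin k → ℕ) (P : ℕ → Fin n → ℤ) (σ : ℕ → ℝ) (hQ : ∀ t, 1 ≤ Q t)
    (hap : ∀ t i, |(Q t : ℝ) * (b : ℝ) ^ r t * (α i + ∑ j, (γ i j : ℝ) / (b : ℝ) ^ e t j) -
      P t i| ≤ Real.exp (-σ t))
    (hbad : ∀ t, (k + 1) * Real.log (Q t) + δ * (L t * Real.log b) < n * σ t)
    (u : Fin n → ℤ) (v : Fin (k + 1) → ℤ) (hu : u ≠ 0)
    (hfreq : ∃ᶠ t in atTop, ∑ i, (u i : ℝ) * ((P t i : ℝ) / ((Q t : ℝ) * (b : ℝ) ^ r t)) + v 0 +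
        ∑ j : Fin k, (v j.succ : ℝ) / (b : ℝ) ^ e t j = 0) : False := by
  have hbR : (2 : ℝ) ≤ b := by exact_mod_cast hb
  have hb0 : (0 : ℝ) < b := by linarith
  have hlb : 0 < Real.log b := Real.log_pos (by linarith)
  have hnR : (1 : ℝ) ≤ n := by exact_mod_cast hn
  have hk0 : (0 : ℝ) ≤ k := Nat.cast_nonneg k
  obtain ⟨d, hd, hd'⟩ := dist_pos b hb k _ (fun j => (v j.succ : ℚ) + ∑ i, (u i : ℚ) * γ i j)
    (irr α hli u hu (v 0))
  obtain ⟨U, hU⟩ : ∃ U : ℝ, U = ∑ i, |(u i : ℝ)| := ⟨_, rfl⟩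
  have hU0 : 0 ≤ U := by rw [hU]; exact Finset.sum_nonneg fun i _ => abs_nonneg _
  -- the exponents tend to infinity
  have hLt : Tendsto (fun t => δ / n * Real.log b * (L t : ℝ)) atTop atTop :=
    (tendsto_natCast_atTop_atTop.comp hL).const_mul_atTop (by positivity)
  have hσlow : ∀ t, δ / n * Real.log b * (L t : ℝ) ≤ σ t := by
    intro t
    have h1 := hbad t
    have h2 : 0 ≤ Real.log (Q t) := Real.log_nonneg (by exact_mod_cast hQ t)
    have h3 : 0 ≤ ((k : ℝ) + 1) * Real.log (Q t) := by positivity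
    have h4 : δ / n * Real.log b * (L t : ℝ) = δ * (L t * Real.log b) / n := by ring
    rw [h4, div_le_iff₀ (by linarith)]
    linarith
  have hσt : Tendsto σ atTop atTop := tendsto_atTop_mono hσlow hLt
  have hev : ∀ᶠ t in atTop, Real.log ((U + 1) / d) < σ t := hσt.eventually (eventually_gt_atTop _)
  obtain ⟨t, ht1, ht2⟩ := (hfreq.and_eventually hev).exists
  have hexp : U * Real.exp (-σ t) < d := by
    have h1 : (U + 1) / d < Real.exp (σ t) := (Real.log_lt_iff_lt_exp (by positivity)).1 ht2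
    rw [div_lt_iff₀ hd] at h1
    rw [Real.exp_neg, ← div_eq_mul_inv, div_lt_iff₀ (Real.exp_pos _)]
    linarith
  have hQp : (1 : ℝ) ≤ (Q t : ℝ) * (b : ℝ) ^ r t :=
    one_le_mul_of_one_le_of_one_le (by exact_mod_cast hQ t) (one_le_pow₀ (by linarith))
  obtain ⟨X, hX⟩ : ∃ X : ℝ, X = (Q t : ℝ) * (b : ℝ) ^ r t := ⟨_, rfl⟩
  rw [← hX] at hQp
  have hX0 : 0 < X := by linarith
  obtain ⟨R, hR⟩ : ∃ R : Fin n → ℝ, R = fun i =>
    X * (α i + ∑ j, (γ i j : ℝ) / (b : ℝ) ^ e t j) - P t i := ⟨_, rfl⟩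
  have hRi : ∀ i, |R i| ≤ Real.exp (-σ t) := by
    intro i
    rw [hR, hX]
    exact hap t i
  have hPi : ∀ i, (P t i : ℝ) / X = α i + ∑ j, (γ i j : ℝ) / (b : ℝ) ^ e t j - R i / X := by
    intro i
    rw [hR]
    field_simp
    ring
  have hval : (v 0 : ℝ) + ∑ i, (u i : ℝ) * α i +
      ∑ j, ((((v j.succ : ℚ) + ∑ i, (u i : ℚ) * γ i j : ℚ)) : ℝ) / (b : ℝ) ^ e t j =
      ∑ i, (u i : ℝ) * (R i / X) := by
    rw [← hX] at ht1
    simp only [hPi] at ht1
    have h1 : ∑ i, (u i : ℝ) * (α i + ∑ j, (γ i j : ℝ) / (b : ℝ) ^ e t j - R i / X) =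
        ∑ i, (u i : ℝ) * α i + ∑ i, (u i : ℝ) * ∑ j, (γ i j : ℝ) / (b : ℝ) ^ e t j -
          ∑ i, (u i : ℝ) * (R i / X) := by
      rw [← Finset.sum_add_distrib, ← Finset.sum_sub_distrib]
      exact Finset.sum_congr rfl fun i _ => by ring
    have h2 : ∑ i, (u i : ℝ) * ∑ j, (γ i j : ℝ) / (b : ℝ) ^ e t j =
        ∑ j, (∑ i, (u i : ℝ) * (γ i j : ℝ)) / (b : ℝ) ^ e t j := by
      simp only [Finset.mul_sum]
      rw [Finset.sum_comm]
      refine Finset.sum_congr rfl fun j _ => ?_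
      rw [Finset.sum_div]
      exact Finset.sum_congr rfl fun i _ => by ring
    have h3 : ∑ j, ((((v j.succ : ℚ) + ∑ i, (u i : ℚ) * γ i j : ℚ)) : ℝ) / (b : ℝ) ^ e t j =
        ∑ j : Fin k, (v j.succ : ℝ) / (b : ℝ) ^ e t j +
          ∑ j, (∑ i, (u i : ℝ) * (γ i j : ℝ)) / (b : ℝ) ^ e t j := by
      rw [← Finset.sum_add_distrib]
      refine Finset.sum_congr rfl fun j _ => ?_
      push_cast
      ring
    rw [h1, h2] at ht1
    rw [h3]
    linarith
  have h1 := hd' (e t)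
  rw [hval] at h1
  have h2 : |∑ i, (u i : ℝ) * (R i / X)| ≤ U * Real.exp (-σ t) := by
    refine (Finset.abs_sum_le_sum_abs _ _).trans ?_
    rw [hU, Finset.sum_mul]
    refine Finset.sum_le_sum fun i _ => ?_
    rw [abs_mul, abs_div, abs_of_pos hX0]
    refine mul_le_mul_of_nonneg_left ?_ (abs_nonneg _)
    exact (div_le_self (abs_nonneg _) hQp).trans (hRi i)
  linarith

/-- **Simultaneous approximation with errors.** -/
theorem main (n b : ℕ) (hn : 1 ≤ n) (hb : 2 ≤ b) : ∀ (k : ℕ) (α : Fin n → ℝ),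
    (∀ i, IsAlgebraic ℚ (α i)) → LinearIndependent ℚ (Fin.cons 1 α : Fin (n + 1) → ℝ) →
    ∀ (γ : Fin n → Fin k → ℚ) (δ : ℝ), 0 < δ → ∃ L₀ : ℕ, ∀ L : ℕ, L₀ ≤ L →
      ∀ (Q r : ℕ) (e : Fin k → ℕ) (P : Fin n → ℤ) (σ : ℝ), 1 ≤ Q →
      Real.log Q ≤ L * Real.log b → r ≤ L → (∀ j, e j ≤ L) → 0 ≤ σ → σ ≤ L * Real.log b →
      (∀ i, |(Q : ℝ) * (b : ℝ) ^ r * (α i + ∑ j, (γ i j : ℝ) / (b : ℝ) ^ e j) - P i| ≤
        Real.exp (-σ)) →
      n * σ ≤ (k + 1) * Real.log Q + δ * (L * Real.log b) := by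
  have hbR : (2 : ℝ) ≤ b := by exact_mod_cast hb
  have hlb : 0 < Real.log b := Real.log_pos (by linarith)
  have hnR : (1 : ℝ) ≤ n := by exact_mod_cast hn
  intro k
  induction k with
  | zero =>
    intro α halg hli γ δ hδ
    by_contra hcon
    push Not at hcon
    choose L hL Q r e P σ hQ hQL hr he hσ0 hσL hap hbad using hcon
    have hLt : Tendsto L atTop atTop := tendsto_atTop_mono hL tendsto_id
    obtain ⟨u, v, hne, hfreq⟩ := step n 0 b hb α halg γ δ hδ L hLt Q r e P σ hQ hQL hr he hσ0 hσL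
      hap (fun t => by simpa using hbad t)
    by_cases hu : u = 0
    · obtain ⟨t, ht⟩ := hfreq.exists
      have hv : v ≠ 0 := hne.resolve_left (not_not.2 hu)
      apply hv
      rw [hu] at ht
      simp only [Pi.zero_apply, Int.cast_zero, zero_mul, Finset.sum_const_zero, zero_add,
        Finset.univ_eq_empty, Finset.sum_empty, add_zero] at ht
      funext j
      rw [Fin.fin_one_eq_zero j]
      exact_mod_cast ht
    · exact caseA n 0 b hn hb α hli γ δ hδ L hLt Q r e P σ hQ hap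
        (fun t => by simpa using hbad t) u v hu hfreq
  | succ k ih =>
    intro α halg hli γ δ hδ
    by_contra hcon
    push Not at hcon
    choose L hL Q r e P σ hQ hQL hr he hσ0 hσL hap hbad using hcon
    have hLt : Tendsto L atTop atTop := tendsto_atTop_mono hL tendsto_id
    obtain ⟨u, v, hne, hfreq⟩ := step n (k + 1) b hb α halg γ δ hδ L hLt Q r e P σ hQ hQL hr he
      hσ0 hσL hap hbad
    by_cases hu : u = 0
    swap
    · exact caseA n (k + 1) b hn hb α hli γ δ hδ L hLt Q r e P σ hQ hap hbad u v hu hfreq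
    have hv : v ≠ 0 := hne.resolve_left (not_not.2 hu)
    rw [hu] at hfreq
    simp only [Pi.zero_apply, Int.cast_zero, zero_mul, Finset.sum_const_zero, zero_add] at hfreq
    obtain ⟨j0, hj0⟩ : ∃ j0 : Fin (k + 1), v j0.succ ≠ 0 := by
      by_contra h
      push Not at h
      obtain ⟨t, ht⟩ := hfreq.exists
      simp only [h, Int.cast_zero, zero_div, Finset.sum_const_zero, add_zero] at ht
      apply hv
      funext j
      refine Fin.cases ?_ (fun i => h i) j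
      exact_mod_cast ht
    have hj0R : (v j0.succ : ℝ) ≠ 0 := by exact_mod_cast hj0
    obtain ⟨q, hq⟩ : ∃ q : Fin n → ℚ, q = fun i => γ i j0 * v 0 / v j0.succ := ⟨_, rfl⟩
    obtain ⟨γ', hγ'⟩ : ∃ γ' : Fin n → Fin k → ℚ, γ' = fun i j =>
      γ i (j0.succAbove j) - γ i j0 * v (j0.succAbove j).succ / v j0.succ := ⟨_, rfl⟩
    obtain ⟨L₀, hL₀⟩ := ih (fun i => α i - (q i : ℝ))
      (fun i => (halg i).sub (isAlgebraic_algebraMap (q i))) (shift α hli q) γ' δ hδ
    have hev : ∀ᶠ t in atTop, L₀ ≤ L t := hLt.eventually (eventually_ge_atTop _)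
    obtain ⟨t, ht1, ht2⟩ := (hfreq.and_eventually hev).exists
    have hsum : ∀ i, (α i - (q i : ℝ)) + ∑ j, (γ' i j : ℝ) / (b : ℝ) ^ e t (j0.succAbove j) =
        α i + ∑ j, (γ i j : ℝ) / (b : ℝ) ^ e t j := by
      intro i
      rw [Fin.sum_univ_succAbove (fun j => (γ i j : ℝ) / (b : ℝ) ^ e t j) j0]
      rw [Fin.sum_univ_succAbove (fun j => (v j.succ : ℝ) / (b : ℝ) ^ e t j) j0] at ht1
      have h1 : ∑ j, (γ' i j : ℝ) / (b : ℝ) ^ e t (j0.succAbove j) =
          ∑ j, (γ i (j0.succAbove j) : ℝ) / (b : ℝ) ^ e t (j0.succAbove j) -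
            (γ i j0 : ℝ) / v j0.succ *
              ∑ j, (v (j0.succAbove j).succ : ℝ) / (b : ℝ) ^ e t (j0.succAbove j) := by
        rw [Finset.mul_sum, ← Finset.sum_sub_distrib]
        refine Finset.sum_congr rfl fun j _ => ?_
        rw [hγ']
        push_cast
        ring
      have h2 : ∑ j, (v (j0.succAbove j).succ : ℝ) / (b : ℝ) ^ e t (j0.succAbove j) =
          -(v 0 : ℝ) - (v j0.succ : ℝ) / (b : ℝ) ^ e t j0 := by linarith
      rw [h1, h2, hq]
      push_cast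
      field_simp
      ring
    have h1 := hL₀ (L t) ht2 (Q t) (r t) (fun j => e t (j0.succAbove j)) (P t) (σ t) (hQ t) (hQL t)
      (hr t) (fun j => he t _) (hσ0 t) (hσL t) (fun i => by rw [hsum]; exact hap t i)
    have h2 := hbad t
    have h3 : 0 ≤ Real.log (Q t) := Real.log_nonneg (by exact_mod_cast hQ t)
    push_cast at h2
    linarith

end Pool.Agent.V1189.RT
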