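import Pool.Agent.V1189.RT.Homog

/-!
# Merging windows; auxiliary inequalities

Author: helper89.
-/

set_option autoImplicit false

namespace Pool.Agent.V1189.RT

open Finset Filter Topology

lemma prodmax (d : ℕ) (u : Fin d → ℝ) (G H : ℝ) (hG : 1 ≤ G) (hH : 1 ≤ H) (h0 : ∀ i, 0 ≤ u i)
    (hu : ∀ i, u i ≤ G * H) :
    ∏ i, max (u i) (1 / H ^ d) ≤ G ^ d * max 1 (∏ i, u i) := by
  have hGd : 1 ≤ G ^ d := one_le_pow₀ hG
  have hHd : 1 ≤ H ^ d := one_le_pow₀ hH
  have hinv : 1 / H ^ d ≤ 1 := by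
    rw [div_le_one (by linarith)]; exact hHd
  have hinv0 : 0 < 1 / H ^ d := by positivity
  by_cases hall : ∀ i, 1 / H ^ d ≤ u i
  · have h1 : ∏ i, max (u i) (1 / H ^ d) = ∏ i, u i :=
      Finset.prod_congr rfl fun i _ => max_eq_left (hall i)
    rw [h1]
    calc ∏ i, u i ≤ max 1 (∏ i, u i) := le_max_right _ _
      _ ≤ G ^ d * max 1 (∏ i, u i) :=
        le_mul_of_one_le_left (le_trans zero_le_one (le_max_left _ _)) hGd
  · push Not at hall
    obtain ⟨i0, hi0⟩ := hall
    have hd : 1 ≤ d := by have := i0.2; omega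
    rw [← Finset.mul_prod_erase _ _ (mem_univ i0), max_eq_right hi0.le]
    have hGH : 1 ≤ G * H := by nlinarith
    have h1 : ∏ i ∈ univ.erase i0, max (u i) (1 / H ^ d) ≤ (G * H) ^ (d - 1) := by
      have h2 : ∏ i ∈ univ.erase i0, max (u i) (1 / H ^ d) ≤ ∏ _i ∈ univ.erase i0, (G * H) :=
        Finset.prod_le_prod (fun i _ => le_trans hinv0.le (le_max_right _ _)) fun i _ =>
          max_le (hu i) (hinv.trans hGH)
      rw [Finset.prod_const, Finset.card_erase_of_mem (mem_univ i0), Finset.card_univ,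
        Fintype.card_fin] at h2
      exact h2
    have h2 : (1 / H ^ d) * (G * H) ^ (d - 1) ≤ G ^ d := by
      rw [mul_pow, one_div, ← mul_assoc]
      have h3 : G ^ (d - 1) ≤ G ^ d := pow_le_pow_right₀ hG (by omega)
      have h4 : (H ^ d)⁻¹ * H ^ (d - 1) ≤ 1 := by
        rw [inv_mul_le_iff₀ (by linarith), mul_one]
        exact pow_le_pow_right₀ hH (by omega)
      calc (H ^ d)⁻¹ * G ^ (d - 1) * H ^ (d - 1) = G ^ (d - 1) * ((H ^ d)⁻¹ * H ^ (d - 1)) := by ring
        _ ≤ G ^ (d - 1) * 1 := mul_le_mul_of_nonneg_left h4 (by positivity)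
        _ = G ^ (d - 1) := mul_one _
        _ ≤ G ^ d := h3
    calc 1 / H ^ d * ∏ i ∈ univ.erase i0, max (u i) (1 / H ^ d) ≤
          1 / H ^ d * (G * H) ^ (d - 1) := mul_le_mul_of_nonneg_left h1 hinv0.le
      _ ≤ G ^ d := h2
      _ = G ^ d * 1 := (mul_one _).symm
      _ ≤ G ^ d * max 1 (∏ i, u i) := mul_le_mul_of_nonneg_left (le_max_left _ _) (by linarith)

lemma packing {κ : Type} [DecidableEq κ] (B : Finset κ) (W l : κ → ℕ) (lo hi : ℕ)
    (hlo : ∀ k ∈ B, lo + l k ≤ W k) (hhi : ∀ k ∈ B, W k ≤ hi)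
    (hdis : ∀ k ∈ B, ∀ k' ∈ B, k ≠ k' → W k + l k' ≤ W k' ∨ W k' + l k ≤ W k) :
    ∑ k ∈ B, l k ≤ hi - lo := by
  have h1 : ∑ k ∈ B, l k = (B.biUnion fun k => Finset.Ico (W k - l k) (W k)).card := by
    rw [Finset.card_biUnion]
    · refine Finset.sum_congr rfl fun k hk => ?_
      rw [Nat.card_Ico]
      have := hlo k hk
      omega
    · intro k hk k' hk' hne
      rw [Function.onFun, Finset.disjoint_left]
      intro a ha ha'
      rw [mem_Ico] at ha ha'
      rcases hdis k hk k' hk' hne with h | h <;> omega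
  rw [h1, ← Nat.card_Ico]
  apply Finset.card_le_card
  intro a ha
  rw [mem_biUnion] at ha
  obtain ⟨k, hk, hak⟩ := ha
  rw [mem_Ico] at hak ⊢
  have h2 := hlo k hk
  have h3 := hhi k hk
  omega

/-- If the approximations of `y` by multiples of powers of `b` satisfy a linear relation, then two of
the windows can be merged. -/
lemma mergeStep (r : ℕ) (P : Finset (Fin r)) (b : ℕ) (K M L y : ℝ) (hK : 1 ≤ K) (hL : 0 < L)
    (W l : Fin r → ℕ) (Z c : Fin r → ℤ) (hl : ∀ k ∈ P, 1 ≤ l k) (hlW : ∀ k ∈ P, l k ≤ W k)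
    (hdis : ∀ k ∈ P, ∀ k' ∈ P, k ≠ k' → W k + l k' ≤ W k' ∨ W k' + l k ≤ W k)
    (hX : ∀ k ∈ P, |y - (b : ℝ) ^ W k * Z k| ≤ K * Real.exp ((M + W k - l k) * L))
    (hc : ∃ k ∈ P, c k ≠ 0) (hsum : ∑ k ∈ P, c k = 0)
    (hrel : ∑ k ∈ P, (c k : ℝ) * ((b : ℝ) ^ W k * Z k) = 0) :
    ∃ (P' : Finset (Fin r)) (l' : Fin r → ℕ), P' ⊂ P ∧ (∀ k ∈ P', l k ≤ l' k) ∧
      (∀ k ∈ P', l' k ≤ W k) ∧
      (∀ k ∈ P', ∀ k' ∈ P', k ≠ k' → W k + l' k' ≤ W k' ∨ W k' + l' k ≤ W k) ∧
      (∀ k ∈ P', |y - (b : ℝ) ^ W k * Z k| ≤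
        (∑ k ∈ P, |(c k : ℝ)|) * K * Real.exp ((M + W k - l' k) * L)) ∧
      ∑ k ∈ P, l k ≤ ∑ k ∈ P', l' k := by
  classical
  obtain ⟨k0, hk0, hmax0⟩ := Finset.exists_max_image (P.filter fun k => c k ≠ 0) W
    (by obtain ⟨k, hk, hk'⟩ := hc; exact ⟨k, by rw [mem_filter]; exact ⟨hk, hk'⟩⟩)
  rw [mem_filter] at hk0
  obtain ⟨k1, hk1, hmax1⟩ := Finset.exists_max_image ((P.erase k0).filter fun k => c k ≠ 0) W (by
    by_contra hemp
    rw [Finset.not_nonempty_iff_eq_empty, Finset.filter_eq_empty_iff] at hemp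
    rw [← Finset.add_sum_erase _ _ hk0.1] at hsum
    rw [Finset.sum_eq_zero fun k hk => by have := hemp hk; push Not at this; exact this,
      add_zero] at hsum
    exact hk0.2 hsum)
  rw [mem_filter, mem_erase] at hk1
  obtain ⟨⟨hk10, hk1P⟩, hck1⟩ := hk1
  have hl1 := hl k1 hk1P
  have hl0 := hl k0 hk0.1
  have h01 : W k1 + l k0 ≤ W k0 := by
    have h1 := hmax0 k1 (by rw [mem_filter]; exact ⟨hk1P, hck1⟩)
    rcases hdis k1 hk1P k0 hk0.1 hk10 with h | h
    · exact h
    · omega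
  have hlW1 := hlW k1 hk1P
  -- the improved approximation
  have hCS : (1 : ℝ) ≤ ∑ k ∈ P, |(c k : ℝ)| := by
    have h1 : (1 : ℝ) ≤ |(c k0 : ℝ)| := by
      rw [← Int.cast_abs]
      exact_mod_cast Int.one_le_abs hk0.2
    exact h1.trans (Finset.single_le_sum (f := fun k => |(c k : ℝ)|) (fun k _ => abs_nonneg _) hk0.1)
  have hbest : |y - (b : ℝ) ^ W k0 * Z k0| ≤
      (∑ k ∈ P, |(c k : ℝ)|) * K * Real.exp ((M + W k1 - l k1) * L) := by
    have h1 : ∑ k ∈ P, (c k : ℝ) * (y - (b : ℝ) ^ W k * Z k) = 0 := by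
      simp_rw [mul_sub]
      rw [Finset.sum_sub_distrib, hrel, sub_zero, ← Finset.sum_mul]
      have h2 : ∑ k ∈ P, (c k : ℝ) = 0 := by exact_mod_cast hsum
      rw [h2, zero_mul]
    rw [← Finset.add_sum_erase _ _ hk0.1] at h1
    have h2 : (c k0 : ℝ) * (y - (b : ℝ) ^ W k0 * Z k0) =
        -∑ k ∈ P.erase k0, (c k : ℝ) * (y - (b : ℝ) ^ W k * Z k) := by linarith
    have h3 : |∑ k ∈ P.erase k0, (c k : ℝ) * (y - (b : ℝ) ^ W k * Z k)| ≤
        ∑ k ∈ P.erase k0, |(c k : ℝ)| * (K * Real.exp ((M + W k1 - l k1) * L)) := by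
      refine (Finset.abs_sum_le_sum_abs _ _).trans (Finset.sum_le_sum fun k hk => ?_)
      rw [abs_mul]
      by_cases hck : c k = 0
      · rw [hck]; simp
      refine mul_le_mul_of_nonneg_left ((hX k (mem_of_mem_erase hk)).trans ?_) (abs_nonneg _)
      refine mul_le_mul_of_nonneg_left (Real.exp_le_exp.2 ?_) (by linarith)
      refine mul_le_mul_of_nonneg_right ?_ hL.le
      have h4 := hmax1 k (by rw [mem_filter]; exact ⟨hk, hck⟩)
      rcases eq_or_ne k k1 with h | h
      · rw [h]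
      · have h5 : W k + l k1 ≤ W k1 := by
          rcases hdis k (mem_of_mem_erase hk) k1 hk1P h with h' | h'
          · exact h'
          · have := hl k (mem_of_mem_erase hk); omega
        have h6 : (W k : ℝ) + l k1 ≤ W k1 := by exact_mod_cast h5
        have h7 : (0 : ℝ) ≤ l k := Nat.cast_nonneg _
        linarith
    have h4 : (1 : ℝ) ≤ |(c k0 : ℝ)| := by
      rw [← Int.cast_abs]
      exact_mod_cast Int.one_le_abs hk0.2
    have h5 := congrArg abs h2
    rw [abs_mul, abs_neg] at h5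
    have h6 : |y - (b : ℝ) ^ W k0 * Z k0| ≤ |(c k0 : ℝ)| * |y - (b : ℝ) ^ W k0 * Z k0| :=
      le_mul_of_one_le_left (abs_nonneg _) h4
    rw [← Finset.sum_mul] at h3
    have h7 : ∑ k ∈ P.erase k0, |(c k : ℝ)| ≤ ∑ k ∈ P, |(c k : ℝ)| :=
      Finset.sum_le_sum_of_subset_of_nonneg (Finset.erase_subset _ _) fun _ _ _ => abs_nonneg _
    have h8 : (∑ k ∈ P.erase k0, |(c k : ℝ)|) * (K * Real.exp ((M + W k1 - l k1) * L)) ≤
        (∑ k ∈ P, |(c k : ℝ)|) * (K * Real.exp ((M + W k1 - l k1) * L)) :=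
      mul_le_mul_of_nonneg_right h7 (by positivity)
    rw [mul_assoc]
    linarith
  have hk0F : k0 ∉ P.filter fun k => W k0 < W k ∨ W k < W k1 := by
    rw [mem_filter]
    rintro ⟨-, h | h⟩
    · exact absurd h (lt_irrefl _)
    · omega
  have hneF : ∀ k ∈ P.filter (fun k => W k0 < W k ∨ W k < W k1), k ≠ k0 := fun k hk h =>
    hk0F (h ▸ hk)
  refine ⟨insert k0 (P.filter fun k => W k0 < W k ∨ W k < W k1),
    Function.update l k0 (W k0 - W k1 + l k1), ?_, ?_, ?_, ?_, ?_, ?_⟩
  · rw [Finset.ssubset_iff_of_subset]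
    · refine ⟨k1, hk1P, ?_⟩
      rw [mem_insert, mem_filter]
      rintro (h | ⟨-, h | h⟩)
      · exact hk10 h
      · omega
      · omega
    · intro k hk
      rw [mem_insert, mem_filter] at hk
      rcases hk with h | h
      · rw [h]; exact hk0.1
      · exact h.1
  · intro k hk
    rcases eq_or_ne k k0 with h | h
    · rw [h, Function.update_self]; omega
    · rw [Function.update_of_ne h]
  · intro k hk
    rcases eq_or_ne k k0 with h | h
    · rw [h, Function.update_self]; omega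
    · rw [Function.update_of_ne h]
      rw [mem_insert, mem_filter] at hk
      rcases hk with h' | h'
      · exact absurd h' h
      · exact hlW k h'.1
  · have key : ∀ k ∈ P.filter (fun k => W k0 < W k ∨ W k < W k1), W k + (W k0 - W k1 + l k1) ≤ W k0 ∨
        W k0 + l k ≤ W k := by
      intro k hk
      have hkne : k ≠ k0 := fun h => hk0F (h ▸ hk)
      rw [mem_filter] at hk
      rcases hk.2 with h | h
      · right
        rcases hdis k hk.1 k0 hk0.1 hkne with h' | h'
        · omega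
        · exact h'
      · left
        have hkne1 : k ≠ k1 := fun h' => by rw [h'] at h; exact lt_irrefl _ h
        rcases hdis k hk.1 k1 hk1P hkne1 with h' | h'
        · omega
        · omega
    intro k hk k' hk' hne
    rw [mem_insert] at hk hk'
    rcases hk with hk | hk <;> rcases hk' with hk' | hk'
    · exact absurd (hk.trans hk'.symm) hne
    · subst hk
      rw [Function.update_self, Function.update_of_ne (Ne.symm hne)]
      rcases key k' hk' with h | h
      · right; exact h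
      · left; exact h
    · subst hk'
      rw [Function.update_self, Function.update_of_ne hne]
      exact key k hk
    · rw [Function.update_of_ne (hneF k hk), Function.update_of_ne (hneF k' hk')]
      exact hdis k (mem_filter.1 hk).1 k' (mem_filter.1 hk').1 hne
  · intro k hk
    rcases eq_or_ne k k0 with h | h
    · rw [h, Function.update_self]
      have h1 : ((W k0 - W k1 + l k1 : ℕ) : ℝ) = W k0 - W k1 + l k1 := by
        rw [Nat.cast_add, Nat.cast_sub (by omega)]
      rw [h1, show M + (W k0 : ℝ) - (W k0 - W k1 + l k1) = M + W k1 - l k1 by ring]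
      exact hbest
    · rw [Function.update_of_ne h]
      rw [mem_insert, mem_filter] at hk
      rcases hk with h' | h'
      · exact absurd h' h
      · refine (hX k h'.1).trans ?_
        refine mul_le_mul_of_nonneg_right ?_ (Real.exp_nonneg _)
        exact le_mul_of_one_le_left (by linarith) hCS
  · rw [Finset.sum_insert hk0F, Function.update_self]
    have h1 : ∑ k ∈ P.filter (fun k => W k0 < W k ∨ W k < W k1),
        Function.update l k0 (W k0 - W k1 + l k1) k =
        ∑ k ∈ P.filter (fun k => W k0 < W k ∨ W k < W k1), l k := by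
      refine Finset.sum_congr rfl fun k hk => ?_
      rw [Function.update_of_ne (hneF k hk)]
    rw [h1, ← Finset.sum_filter_add_sum_filter_not P (fun k => W k0 < W k ∨ W k < W k1)]
    have h2 : ∑ k ∈ P.filter (fun k => ¬ (W k0 < W k ∨ W k < W k1)), l k ≤
        W k0 - (W k1 - l k1) := by
      refine packing _ W l (W k1 - l k1) (W k0) ?_ ?_ ?_
      · intro k hk
        rw [mem_filter] at hk
        rcases eq_or_ne k k1 with h | h
        · rw [h]; omega
        · rcases hdis k hk.1 k1 hk1P h with h' | h' <;> omega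
      · intro k hk
        rw [mem_filter] at hk
        omega
      · intro k hk k' hk' hne
        exact hdis k (mem_filter.1 hk).1 k' (mem_filter.1 hk').1 hne
    omega

end Pool.Agent.V1189.RT
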