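import Pool.Agent.V1189.RT.GStepE
import Pool.Agent.V1189.RT.IntDigits

/-!
# Windows of digits of `u g ^ n`: common linear relations

Author: helper89.
-/

set_option autoImplicit false

namespace Pool.Agent.V1189.RT

open Finset Filter Topology
open Pool.Agent.W47.JL
open Pool.Agent.Results.MP_a49cf6_nt.DigitRecurrences (Recurrence)

/-- the digit of `x` in base `b` at the place of `b ^ h` -/
def dH (b x h : ℕ) : ℕ := x / b ^ h % b

lemma expandH (b x : ℕ) (hb : 2 ≤ b) (W : ℕ) : ∀ l : ℕ, l ≤ W →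
    ((x / b ^ (W - l) : ℕ) : ℝ) = (b : ℝ) ^ l *
      (((x / b ^ W : ℕ) : ℝ) +
        ∑ i ∈ range l, (dH b x (W - (i + 1)) : ℝ) / (b : ℝ) ^ (i + 1)) := by
  have hbR : (2 : ℝ) ≤ b := by exact_mod_cast hb
  have hb0 : (0 : ℝ) < b := by linarith
  intro l
  induction l with
  | zero => intro _; simp
  | succ l ih =>
    intro hl
    have h1 := ih (by omega)
    obtain ⟨k, hk⟩ : ∃ k, W - (l + 1) = k := ⟨_, rfl⟩
    have hk' : W - l = k + 1 := by omega
    rw [hk'] at h1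
    rw [hk, Finset.sum_range_succ]
    have h2 : x / b ^ k = b * (x / b ^ (k + 1)) + dH b x (W - (l + 1)) := by
      unfold dH
      rw [hk, pow_succ, ← Nat.div_div_eq_div_mul]
      exact (Nat.div_add_mod _ _).symm
    have h3 : ((x / b ^ k : ℕ) : ℝ) = b * ((x / b ^ (k + 1) : ℕ) : ℝ) + dH b x (W - (l + 1)) := by
      rw [h2]; push_cast; rfl
    rw [h3, h1]
    have h4 : (b : ℝ) ^ (l + 1) * ((dH b x (W - (l + 1)) : ℝ) / (b : ℝ) ^ (l + 1)) =
        dH b x (W - (l + 1)) := by field_simp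
    have h5 : ∀ C S d : ℝ, (b : ℝ) ^ (l + 1) * (C + (S + d / (b : ℝ) ^ (l + 1))) =
        (b : ℝ) ^ (l + 1) * (C + S) + (b : ℝ) ^ (l + 1) * (d / (b : ℝ) ^ (l + 1)) :=
      fun C S d => by ring
    rw [h5, h4, pow_succ]
    ring

lemma fracH (b x : ℕ) (hb : 2 ≤ b) (W l : ℕ) (hl : l ≤ W) :
    |(x : ℝ) / (b : ℝ) ^ W - ((x / b ^ W : ℕ) : ℝ) -
      ∑ i ∈ range l, (dH b x (W - (i + 1)) : ℝ) / (b : ℝ) ^ (i + 1)| ≤ 1 / (b : ℝ) ^ l := by
  have hbR : (2 : ℝ) ≤ b := by exact_mod_cast hb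
  have hb0 : (0 : ℝ) < b := by linarith
  have h1 := expandH b x hb W l hl
  obtain ⟨F, hF⟩ : ∃ F : ℝ, F = ((x / b ^ W : ℕ) : ℝ) +
      ∑ i ∈ range l, (dH b x (W - (i + 1)) : ℝ) / (b : ℝ) ^ (i + 1) := ⟨_, rfl⟩
  rw [← hF] at h1
  have h2 : (x : ℝ) = (b : ℝ) ^ (W - l) * ((x / b ^ (W - l) : ℕ) : ℝ) +
      ((x % b ^ (W - l) : ℕ) : ℝ) := by
    exact_mod_cast (Nat.div_add_mod x (b ^ (W - l))).symm
  have h3 : ((x % b ^ (W - l) : ℕ) : ℝ) < (b : ℝ) ^ (W - l) := by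
    exact_mod_cast Nat.mod_lt x (by positivity)
  have h4 : (0 : ℝ) ≤ ((x % b ^ (W - l) : ℕ) : ℝ) := Nat.cast_nonneg _
  have h5 : (b : ℝ) ^ W = (b : ℝ) ^ (W - l) * (b : ℝ) ^ l := by
    rw [← pow_add]; congr 1; omega
  have h6 : (x : ℝ) / (b : ℝ) ^ W - F = ((x % b ^ (W - l) : ℕ) : ℝ) / (b : ℝ) ^ W := by
    rw [h1] at h2
    rw [div_sub' (by positivity), div_left_inj' (by positivity)]
    rw [h5]
    linarith
  have h7 : (x : ℝ) / (b : ℝ) ^ W - ((x / b ^ W : ℕ) : ℝ) -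
      ∑ i ∈ range l, (dH b x (W - (i + 1)) : ℝ) / (b : ℝ) ^ (i + 1) =
      ((x % b ^ (W - l) : ℕ) : ℝ) / (b : ℝ) ^ W := by
    rw [← h6, hF]; ring
  rw [h7, abs_of_nonneg (by positivity), h5, div_le_div_iff₀ (by positivity) (by positivity),
    one_mul]
  exact mul_le_mul_of_nonneg_right h3.le (by positivity)

/-- a multiple of `x` close to multiples of the powers `b ^ W j` -/
theorem winRel (r b x : ℕ) (hb : 2 ≤ b) (W : Fin r → ℕ) (l m : ℕ) (c : ℕ → ℚ)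
    (hW : ∀ j, l ≤ W j)
    (hrec : ∀ j, Recurrence (fun i => (dH b x (W j - i) : ℤ)) c l m) :
    (l : ℝ) ≤ m + 15 * err m + 3 ∨ ∃ (T : ℕ) (P : Fin r → ℤ), 1 ≤ T ∧
      Real.log T ≤ (m + 15 * err m) * Real.log b ∧
      ∀ j, |(T : ℝ) * x - (b : ℝ) ^ W j * P j| ≤ 2 * b *
        Real.exp ((m + 15 * err m) * Real.log b + W j * Real.log b - l * Real.log b) := by
  have hbR : (2 : ℝ) ≤ b := by exact_mod_cast hb
  have hb0 : (0 : ℝ) < b := by linarith
  rcases relation r b hb (fun j i => (dH b x (W j - i) : ℤ)) c l m (fun j i => by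
    rw [abs_of_nonneg (by positivity)]
    unfold dH
    exact_mod_cast (Nat.mod_lt _ (by omega)).le) hrec with h | ⟨T, p, hT1, hTlog, hp⟩
  · exact Or.inl h
  right
  obtain ⟨M, hM⟩ : ∃ M : ℝ, M = m + 15 * err m := ⟨_, rfl⟩
  rw [← hM] at hTlog hp ⊢
  refine ⟨T, fun j => p j + T * ((x / b ^ W j : ℕ) : ℤ), hT1, hTlog, fun j => ?_⟩
  change |(T : ℝ) * x - (b : ℝ) ^ W j * ((p j + T * ((x / b ^ W j : ℕ) : ℤ) : ℤ) : ℝ)| ≤ _
  have h1 := fracH b x hb (W j) l (hW j)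
  have h2 := hp j
  have hcast : ∑ i ∈ range l, (((dH b x (W j - (i + 1)) : ℕ) : ℤ) : ℝ) / (b : ℝ) ^ (i + 1) =
      ∑ i ∈ range l, (dH b x (W j - (i + 1)) : ℝ) / (b : ℝ) ^ (i + 1) :=
    Finset.sum_congr rfl fun i _ => by push_cast; rfl
  rw [hcast] at h2
  obtain ⟨S, hS⟩ : ∃ S : ℝ, S = ∑ i ∈ range l, (dH b x (W j - (i + 1)) : ℝ) / (b : ℝ) ^ (i + 1) :=
    ⟨_, rfl⟩
  rw [← hS] at h1 h2
  obtain ⟨F, hF⟩ : ∃ F : ℕ, F = x / b ^ W j := ⟨_, rfl⟩
  rw [← hF] at h1 ⊢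
  have hT0 : (0 : ℝ) < T := by exact_mod_cast hT1
  have hTe : (T : ℝ) ≤ Real.exp (M * Real.log b) := by
    rw [← Real.log_le_iff_le_exp hT0]; exact hTlog
  have hbl : ∀ k : ℕ, (b : ℝ) ^ k = Real.exp (k * Real.log b) := by
    intro k
    rw [← Real.log_pow, Real.exp_log (by positivity)]
  have h3 : |(T : ℝ) * ((x : ℝ) / (b : ℝ) ^ W j) - ((p j : ℝ) + T * F)| ≤
      2 * b * Real.exp (M * Real.log b - l * Real.log b) := by
    have h4 : (T : ℝ) * ((x : ℝ) / (b : ℝ) ^ W j) - ((p j : ℝ) + T * F) =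
        T * ((x : ℝ) / (b : ℝ) ^ W j - F - S) + (T * S - p j) := by ring
    rw [h4]
    refine (abs_add_le _ _).trans ?_
    rw [abs_mul, abs_of_pos hT0]
    have h5 : (T : ℝ) * |(x : ℝ) / (b : ℝ) ^ W j - F - S| ≤
        Real.exp (M * Real.log b) * (1 / (b : ℝ) ^ l) :=
      mul_le_mul hTe h1 (abs_nonneg _) (Real.exp_pos _).le
    have h6 : Real.exp (M * Real.log b) * (1 / (b : ℝ) ^ l) =
        Real.exp (M * Real.log b - l * Real.log b) := by
      rw [hbl, Real.exp_sub]; ring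
    rw [h6] at h5
    have h7 : 0 < Real.exp (M * Real.log b - l * Real.log b) := Real.exp_pos _
    nlinarith
  have h8 : (T : ℝ) * x - (b : ℝ) ^ W j * ((p j + T * ((F : ℕ) : ℤ) : ℤ) : ℝ) =
      (b : ℝ) ^ W j * ((T : ℝ) * ((x : ℝ) / (b : ℝ) ^ W j) - ((p j : ℝ) + T * F)) := by
    push_cast
    field_simp
  rw [h8, abs_mul, abs_of_pos (by positivity : (0 : ℝ) < (b : ℝ) ^ W j)]
  have h9 := mul_le_mul_of_nonneg_left h3 (by positivity : (0 : ℝ) ≤ (b : ℝ) ^ W j)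
  refine h9.trans (le_of_eq ?_)
  rw [hbl (W j), show M * Real.log b + W j * Real.log b - l * Real.log b =
    W j * Real.log b + (M * Real.log b - l * Real.log b) by ring, Real.exp_add]
  ring

/-- the case of two coordinates -/
theorem ridout1 (g b : ℕ) (hg : 1 ≤ g) (hb : 1 ≤ b) (c δ : ℝ) (hc : 1 ≤ c)
    (hδ : 0 < δ) (N : ℕ → ℝ) (hN : Tendsto N atTop atTop) (n : ℕ → ℕ) (T : ℕ → ℤ)
    (hT : ∀ t, T t ≠ 0) (W : ℕ → ℕ) (P : ℕ → ℤ) (Y : ℕ → ℝ) (hY : ∀ t, 0 < Y t)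
    (hTc : ∀ t, Real.log |(T t : ℝ)| ≤ c * N t) (hgc : ∀ t, n t * Real.log g ≤ c * N t)
    (hWc : ∀ t, W t * Real.log b ≤ c * N t) (hYc : ∀ t, |Real.log (Y t)| ≤ c * N t)
    (hsmall : ∀ t, |(g : ℝ) ^ n t * T t - (b : ℝ) ^ W t * P t| ≤ Y t)
    (h1 : ∀ t, Real.log |(T t : ℝ)| + Real.log (Y t) + δ * N t ≤ W t * Real.log b)
    (h2 : ∀ t, Real.log (Y t) + δ * N t ≤ Real.log |(T t : ℝ)| + n t * Real.log g)
    (h3 : ∀ t, ¬ ((b : ℤ) ^ W t ∣ (g : ℤ) ^ n t * T t)) : False := by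
  have hgR : (1 : ℝ) ≤ g := by exact_mod_cast hg
  have hbR : (1 : ℝ) ≤ b := by exact_mod_cast hb
  have hT1 : ∀ t, (1 : ℝ) ≤ |(T t : ℝ)| := fun t => by exact_mod_cast Int.one_le_abs (hT t)
  have hT0 : ∀ t, 0 ≤ Real.log |(T t : ℝ)| := fun t => Real.log_nonneg (hT1 t)
  have hng : ∀ t, 0 ≤ n t * Real.log g := fun t =>
    mul_nonneg (Nat.cast_nonneg _) (Real.log_nonneg hgR)
  have hWb : ∀ t, 0 ≤ W t * Real.log b := fun t =>
    mul_nonneg (Nat.cast_nonneg _) (Real.log_nonneg hbR)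
  have hA : ∀ t, Real.log ((g : ℝ) ^ n t * |(T t : ℝ)|) =
      n t * Real.log g + Real.log |(T t : ℝ)| := by
    intro t
    rw [Real.log_mul (by positivity) (by linarith [hT1 t]), Real.log_pow]
  obtain ⟨u, v, huv, hfreq⟩ := gstepE 1 1 2 (by omega) (fun _ _ => 1)
    (fun _ _ => isAlgebraic_one) ![g, b] (fun v => by
      fin_cases v
      · exact hg
      · exact hb) (2 * c) δ (by linarith) hδ N hN (fun t v _ => ![n t, 0] v) (fun t _ => g ^ n t)
    (fun t _ => by simp) (fun t v _ => ![0, W t] v) (fun t _ => b ^ W t)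
    (fun t _ => by simp) (fun t _ => T t) (fun t _ => P t)
    (fun t => Or.inl fun h => hT t (congrFun h 0)) (fun t _ => (g : ℝ) ^ n t * |(T t : ℝ)|)
    (fun t _ => Y t) (fun t _ => by
      have := hT1 t
      positivity) (fun t _ => hY t) (fun t _ => by
      rw [hA, abs_of_nonneg (by linarith [hT0 t, hng t])]
      linarith [hTc t, hgc t]) (fun t _ => by
      have h4 := hYc t
      have h5 := abs_nonneg (Real.log (Y t))
      linarith) (fun t _ => by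
      push_cast
      rw [Real.log_pow]
      linarith [hgc t, hng t]) (fun t _ => by
      push_cast
      rw [Real.log_pow]
      linarith [hWc t, hWb t]) (fun t _ => by
      push_cast
      rw [abs_mul, abs_of_nonneg (by positivity)]) (fun t _ => by
      have h4 := hsmall t
      push_cast
      simpa using h4) (fun t => by
      have h4 := h1 t
      simp only [Finset.sum_const, Finset.card_univ, Fintype.card_fin, one_smul]
      push_cast
      rw [hA, Real.log_pow, Real.log_pow]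
      linarith)
  simp only [Fin.sum_univ_one, Fin.isValue] at hfreq
  have hev : ∀ᶠ t in atTop, Real.log (|(u 0 : ℝ)| + 1) + 1 ≤ δ * N t :=
    (hN.const_mul_atTop hδ).eventually (eventually_ge_atTop _)
  obtain ⟨t, hrel, hlarge⟩ := (hfreq.and_eventually hev).exists
  push_cast at hrel
  have hu : u 0 ≠ 0 := by
    intro hu0
    have hv : v 0 ≠ 0 := by
      intro hv0
      rcases huv with h | h
      · exact h (funext fun i => by rw [Fin.fin_one_eq_zero i]; exact hu0)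
      · exact h (funext fun i => by rw [Fin.fin_one_eq_zero i]; exact hv0)
    rw [hu0] at hrel
    have h4 : (v 0 : ℝ) * ((g : ℝ) ^ n t * T t) = 0 := by simpa using hrel
    have h5 : (T t : ℝ) ≠ 0 := by exact_mod_cast hT t
    have h6 : (v 0 : ℝ) ≠ 0 := by exact_mod_cast hv
    have h7 : ((g : ℝ) ^ n t) ≠ 0 := by positivity
    exact mul_ne_zero h6 (mul_ne_zero h7 h5) h4
  by_cases huv0 : u 0 + v 0 = 0
  · have h4 : (v 0 : ℝ) = -(u 0 : ℝ) := by
      have : ((u 0 + v 0 : ℤ) : ℝ) = 0 := by rw [huv0]; simp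
      push_cast at this
      linarith
    rw [h4] at hrel
    have h5 : (u 0 : ℝ) * ((b : ℝ) ^ W t * P t - (g : ℝ) ^ n t * T t) = 0 := by linarith
    have h6 : (u 0 : ℝ) ≠ 0 := by exact_mod_cast hu
    have h7 : (b : ℝ) ^ W t * P t - (g : ℝ) ^ n t * T t = 0 := by
      rcases mul_eq_zero.1 h5 with h | h
      · exact absurd h h6
      · exact h
    apply h3 t
    refine ⟨P t, ?_⟩
    have h8 : (((g : ℤ) ^ n t * T t : ℤ) : ℝ) = (((b : ℤ) ^ W t * P t : ℤ) : ℝ) := by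
      push_cast
      linarith
    exact_mod_cast h8
  · have h4 : ((u 0 : ℝ) + v 0) * ((g : ℝ) ^ n t * T t) =
        u 0 * ((g : ℝ) ^ n t * T t - (b : ℝ) ^ W t * P t) := by linarith
    have h5 : (1 : ℝ) ≤ |(u 0 : ℝ) + v 0| := by exact_mod_cast Int.one_le_abs huv0
    have h6 : (g : ℝ) ^ n t * |(T t : ℝ)| ≤ (|(u 0 : ℝ)| + 1) * Y t := by
      have h7 := congrArg abs h4
      rw [abs_mul, abs_mul, abs_mul, abs_of_nonneg (by positivity : (0 : ℝ) ≤ (g : ℝ) ^ n t)] at h7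
      have h8 : (g : ℝ) ^ n t * |(T t : ℝ)| ≤
          |(u 0 : ℝ) + v 0| * ((g : ℝ) ^ n t * |(T t : ℝ)|) := by
        have := mul_le_mul_of_nonneg_right h5
          (by positivity : (0 : ℝ) ≤ (g : ℝ) ^ n t * |(T t : ℝ)|)
        linarith
      have h9 := mul_le_mul_of_nonneg_left (hsmall t) (abs_nonneg (u 0 : ℝ))
      have h10 := (hY t).le
      linarith
    have h7 := Real.log_le_log (by
      have := hT1 t
      positivity) h6
    rw [hA, Real.log_mul (by positivity) (hY t).ne'] at h7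
    have h8 := h2 t
    linarith

end Pool.Agent.V1189.RT
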