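import Pool.Agent.V1189.RT.Pow

/-!
# Linear independence of disjoint windows of digits of `u g ^ n`

Author: helper89.
-/

set_option autoImplicit false

namespace Pool.Agent.V1189.RT

open Finset Filter Topology

lemma sep (r b l : ℕ) (c : Fin r → ℤ) (e : Fin r → ℕ)
    (hsep : ∀ i j, i ≠ j → e i + l ≤ e j ∨ e j + l ≤ e i) (hc : ∀ k, |c k| < (b : ℤ) ^ l)
    (hb : 1 ≤ b) (h : ∑ k, c k * (b : ℤ) ^ e k = 0) : ∀ k, c k = 0 := by
  by_contra hne
  push Not at hne
  obtain ⟨k1, hk1⟩ := hne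
  obtain ⟨k0, hk0, hmin⟩ := Finset.exists_min_image (univ.filter fun k => c k ≠ 0) e
    ⟨k1, by simp [hk1]⟩
  rw [mem_filter] at hk0
  have hl : 0 < l ∨ l = 0 := by omega
  rcases hl with hl | hl
  swap
  · have h1 := hc k0
    rw [hl, pow_zero] at h1
    have h2 := Int.one_le_abs hk0.2
    omega
  have h1 : (b : ℤ) ^ (e k0 + l) ∣ c k0 * (b : ℤ) ^ e k0 := by
    rw [← Finset.add_sum_erase _ _ (mem_univ k0)] at h
    have h2 : c k0 * (b : ℤ) ^ e k0 = -∑ k ∈ univ.erase k0, c k * (b : ℤ) ^ e k := by linarith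
    rw [h2, dvd_neg]
    refine Finset.dvd_sum fun k hk => ?_
    rw [mem_erase] at hk
    by_cases hck : c k = 0
    · rw [hck]; simp
    · have h3 := hmin k (by rw [mem_filter]; exact ⟨mem_univ k, hck⟩)
      have h4 : e k0 + l ≤ e k := by
        rcases hsep k k0 hk.1 with h | h
        · omega
        · exact h
      exact Dvd.dvd.mul_left (pow_dvd_pow _ h4) _
  rw [add_comm, pow_add] at h1
  have hb0 : ((b : ℤ) ^ e k0) ≠ 0 := by positivity
  have h2 := (mul_dvd_mul_iff_right hb0).1 h1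
  have h3 := Int.le_of_dvd (abs_pos.2 hk0.2) ((dvd_abs _ _).2 h2)
  have h4 := hc k0
  omega

theorem indA (r g b ℓ : ℕ) (hr : 1 ≤ r) (hg : 2 ≤ g) (hb : 2 ≤ b) (hℓ : ℓ.Prime) (hℓb : ℓ ∣ b)
    (hℓg : ¬ ℓ ∣ g) (a : Fin r → ℤ) (ha : ∀ k, a k ≠ 0) (ε : ℝ) (hε : 0 < ε) :
    ∃ C : ℝ, 0 ≤ C ∧ ∀ (n u : ℕ), 1 ≤ u → ∀ (W : Fin r → ℕ) (l : ℕ),
      (∀ j, l ≤ W j) → (∀ j, b ^ W j ≤ b * (u * g ^ n)) →
      (∀ i j, i ≠ j → W i + l ≤ W j ∨ W j + l ≤ W i) →
      (∀ i < l, ∑ k, a k * (dH b (u * g ^ n) (W k - (i + 1)) : ℤ) = 0) →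
      (l : ℝ) ≤ ε * n + C * (1 + Real.log u) := by
  have hbR : (2 : ℝ) ≤ b := by exact_mod_cast hb
  have hgR : (2 : ℝ) ≤ g := by exact_mod_cast hg
  have hrR : (1 : ℝ) ≤ r := by exact_mod_cast hr
  obtain ⟨L, hL⟩ : ∃ L : ℝ, L = Real.log b := ⟨_, rfl⟩
  obtain ⟨G, hG⟩ : ∃ G : ℝ, G = Real.log g := ⟨_, rfl⟩
  have hL0 : 0 < L := by rw [hL]; exact Real.log_pos (by linarith)
  have hL1 : Real.log 2 ≤ L := by rw [hL]; exact Real.log_le_log (by norm_num) hbR
  have hlog2 : 0 < Real.log 2 := Real.log_pos (by norm_num)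
  have hG0 : 0 < G := by rw [hG]; exact Real.log_pos (by linarith)
  obtain ⟨K1, hK1⟩ : ∃ K1 : ℝ, K1 = ∑ k, |(a k : ℝ)| + 1 := ⟨_, rfl⟩
  have ha1 : ∀ k, (1 : ℝ) ≤ |(a k : ℝ)| := fun k => by
    rw [← Int.cast_abs]; exact_mod_cast Int.one_le_abs (ha k)
  have hK11 : 1 ≤ K1 := by
    rw [hK1]
    have : 0 ≤ ∑ k, |(a k : ℝ)| := Finset.sum_nonneg fun k _ => abs_nonneg _
    linarith
  have haK : ∀ k, |(a k : ℝ)| ≤ K1 := fun k => by
    rw [hK1]
    have := Finset.single_le_sum (f := fun k => |(a k : ℝ)|) (fun k _ => abs_nonneg _) (mem_univ k)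
    linarith
  have hlogK0 : 0 ≤ Real.log K1 := Real.log_nonneg hK11
  have hlogaK : ∀ k, Real.log |(a k : ℝ)| ≤ Real.log K1 := fun k =>
    Real.log_le_log (by linarith [ha1 k]) (haK k)
  have hloga0 : ∀ k, 0 ≤ Real.log |(a k : ℝ)| := fun k => Real.log_nonneg (ha1 k)
  obtain ⟨C0, hC0⟩ : ∃ C0 : ℝ, C0 = 2 + 1 / L + (r + (r + 1) * Real.log K1) / L := ⟨_, rfl⟩
  have hC0a : 2 + 1 / L ≤ C0 := by
    have : 0 ≤ (r + (r + 1) * Real.log K1) / L := by positivity
    rw [hC0]; linarith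
  have hC0c : r + (r + 1) * Real.log K1 ≤ C0 * L := by
    have h1 : (r + (r + 1) * Real.log K1) / L * L = r + (r + 1) * Real.log K1 := by field_simp
    have h2 : 0 ≤ 2 + 1 / L := by positivity
    have h3 : (r + (r + 1) * Real.log K1) / L ≤ C0 := by rw [hC0]; linarith
    rw [← h1]
    exact mul_le_mul_of_nonneg_right h3 hL0.le
  have hC00 : 0 < C0 := by
    have : 0 < 1 / L := by positivity
    linarith
  by_contra hcon
  push Not at hcon
  have h0 : ∀ t : ℕ, ∃ (n u : ℕ) (W : Fin r → ℕ) (l : ℕ), 1 ≤ u ∧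
      (∀ j, l ≤ W j) ∧ (∀ j, b ^ W j ≤ b * (u * g ^ n)) ∧
      (∀ i j, i ≠ j → W i + l ≤ W j ∨ W j + l ≤ W i) ∧
      (∀ i < l, ∑ k, a k * (dH b (u * g ^ n) (W k - (i + 1)) : ℤ) = 0) ∧
      ε * n + (t + C0) * (1 + Real.log u) < l := by
    intro t
    obtain ⟨n, u, hu, W, l, h1, h2, h3, h4, h5⟩ := hcon (t + C0) (by positivity)
    exact ⟨n, u, W, l, hu, h1, h2, h3, h4, h5⟩
  choose n u W l hu hlW hWx hdis hrel hbad using h0
  have huR : ∀ t, (1 : ℝ) ≤ u t := fun t => by exact_mod_cast hu t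
  have hlu : ∀ t, 0 ≤ Real.log (u t) := fun t => Real.log_nonneg (huR t)
  have hWL : ∀ t j, W t j * L ≤ L + Real.log (u t) + n t * G := by
    intro t j
    have h1 : ((b : ℝ)) ^ (W t j) ≤ b * (u t * (g : ℝ) ^ n t) := by exact_mod_cast hWx t j
    have h2 := Real.log_le_log (by positivity) h1
    have h3 := huR t
    rw [Real.log_pow, Real.log_mul (by positivity) (by positivity),
      Real.log_mul (by positivity) (by positivity), Real.log_pow, ← hL, ← hG] at h2
    linarith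
  have hlWR : ∀ t j, (l t : ℝ) ≤ W t j := fun t j => by exact_mod_cast hlW t j
  have hlL : ∀ t, l t * L ≤ L + Real.log (u t) + n t * G := fun t =>
    (mul_le_mul_of_nonneg_right (hlWR t ⟨0, hr⟩) hL0.le).trans (hWL t ⟨0, hr⟩)
  obtain ⟨c1, hc1⟩ : ∃ c1 : ℝ, c1 = G / L := ⟨_, rfl⟩
  have hc10 : 0 < c1 := by rw [hc1]; positivity
  have hkey : ∀ t : ℕ, (t : ℝ) + (1 + Real.log (u t)) ≤ c1 * n t := by
    intro t
    have h1 := hbad t
    have h3 : (l t : ℝ) ≤ 1 + 1 / L * Real.log (u t) + c1 * n t := by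
      have h4 : (l t : ℝ) = l t * L / L := by field_simp
      have h5 : 1 + 1 / L * Real.log (u t) + c1 * n t = (L + Real.log (u t) + n t * G) / L := by
        rw [hc1]
        field_simp
      rw [h4, h5]
      exact div_le_div_of_nonneg_right (hlL t) hL0.le
    have h4 := hlu t
    have h5 : (0 : ℝ) ≤ ε * n t := by positivity
    have h6 : (0 : ℝ) ≤ t := Nat.cast_nonneg t
    have h7 : (2 + 1 / L) * (1 + Real.log (u t)) ≤ C0 * (1 + Real.log (u t)) :=
      mul_le_mul_of_nonneg_right hC0a (by linarith)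
    have h8 : (0 : ℝ) ≤ 1 / L := by positivity
    have h9 : 0 ≤ (t : ℝ) * Real.log (u t) := mul_nonneg h6 h4
    nlinarith
  have hn1 : ∀ t, (0 : ℝ) < n t := by
    intro t
    have h1 := hkey t
    have h2 := hlu t
    have h3 : (0 : ℝ) ≤ t := Nat.cast_nonneg t
    have h4 : 0 < c1 * n t := by linarith
    exact pos_of_mul_pos_right h4 hc10.le
  have hn1' : ∀ t, (1 : ℝ) ≤ n t := by
    intro t
    have h1 : 0 < n t := by exact_mod_cast hn1 t
    exact_mod_cast h1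
  have hNlim : Tendsto (fun t => (n t : ℝ)) atTop atTop := by
    have h1 : Tendsto (fun t : ℕ => (t : ℝ) / c1) atTop atTop :=
      tendsto_natCast_atTop_atTop.atTop_div_const hc10
    refine tendsto_atTop_mono (fun t => ?_) h1
    rw [div_le_iff₀ hc10]
    have h2 := hkey t
    have h3 := hlu t
    linarith
  have hlt : ∀ t : ℕ, (t + C0) * (1 + Real.log (u t)) ≤ l t := fun t => by
    have h1 := hbad t
    have h2 : (0 : ℝ) ≤ ε * n t := by positivity
    linarith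
  have hl1 : ∀ t, 0 < l t := by
    intro t
    have h1 := hlt t
    have h2 := hlu t
    have h3 : (0 : ℝ) ≤ t := Nat.cast_nonneg t
    have h4 : 0 < (t + C0) * (1 + Real.log (u t)) := by positivity
    have h5 : (0 : ℝ) < l t := by linarith
    exact_mod_cast h5
  -- the highest window
  have hmax : ∀ t, ∃ k0 : Fin r, ∀ k, W t k ≤ W t k0 := by
    intro t
    obtain ⟨k0, -, h⟩ := Finset.exists_max_image (univ : Finset (Fin r)) (W t) ⟨⟨0, hr⟩, mem_univ _⟩
    exact ⟨k0, fun k => h k (mem_univ k)⟩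
  choose k0 hk0 using hmax
  obtain ⟨V, hV⟩ : ∃ V : ℕ → ℕ, ∀ t, V t = W t (k0 t) := ⟨_, fun t => rfl⟩
  have hVW : ∀ t k, W t k ≤ V t := fun t k => by rw [hV]; exact hk0 t k
  have hVL : ∀ t, V t * L ≤ L + Real.log (u t) + n t * G := fun t => by rw [hV]; exact hWL t _
  have hlV : ∀ t, l t ≤ V t := fun t => by rw [hV]; exact hlW t _
  obtain ⟨Z, hZ⟩ : ∃ Z : ℕ → ℤ, ∀ t, Z t = ∑ k, a k * ((u t * g ^ n t / b ^ W t k : ℕ) : ℤ) :=
    ⟨_, fun t => rfl⟩
  have hsmall : ∀ t, |∑ k, (a k : ℝ) * ((u t : ℝ) * (g : ℝ) ^ n t * (b : ℝ) ^ (V t - W t k)) -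
      (b : ℝ) ^ V t * Z t| ≤ K1 * Real.exp (V t * L - l t * L) := by
    intro t
    obtain ⟨x, hx⟩ : ∃ x : ℕ, x = u t * g ^ n t := ⟨_, rfl⟩
    have hxR : (u t : ℝ) * (g : ℝ) ^ n t = (x : ℝ) := by rw [hx]; push_cast; rfl
    have hrelt := hrel t
    rw [hxR]
    have hZt := hZ t
    rw [← hx] at hZt hrelt
    obtain ⟨F, hF⟩ : ∃ F : Fin r → ℕ, ∀ k, F k = x / b ^ W t k := ⟨_, fun k => rfl⟩
    simp only [← hF] at hZt
    have h1 : ∀ k, |(x : ℝ) / (b : ℝ) ^ W t k - (F k : ℝ) -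
      ∑ i ∈ range (l t), (dH b x (W t k - (i + 1)) : ℝ) / (b : ℝ) ^ (i + 1)| ≤
        1 / (b : ℝ) ^ l t := fun k => by
      rw [hF]
      exact fracH b x hb (W t k) (l t) (hlW t k)
    have h2 : ∑ k, (a k : ℝ) *
        (∑ i ∈ range (l t), (dH b x (W t k - (i + 1)) : ℝ) / (b : ℝ) ^ (i + 1)) = 0 := by
      have h3 : ∑ k, (a k : ℝ) *
          (∑ i ∈ range (l t), (dH b x (W t k - (i + 1)) : ℝ) / (b : ℝ) ^ (i + 1)) =
          ∑ i ∈ range (l t), (∑ k, (a k : ℝ) * (dH b x (W t k - (i + 1)) : ℝ)) /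
            (b : ℝ) ^ (i + 1) := by
        rw [Finset.sum_congr rfl fun k _ => Finset.mul_sum _ _ _, Finset.sum_comm]
        refine Finset.sum_congr rfl fun i _ => ?_
        rw [Finset.sum_div]
        exact Finset.sum_congr rfl fun k _ => by ring
      rw [h3]
      refine Finset.sum_eq_zero fun i hi => ?_
      have h4 := hrelt i (mem_range.1 hi)
      have h5 : ∑ k, (a k : ℝ) * (dH b x (W t k - (i + 1)) : ℝ) = 0 := by exact_mod_cast h4
      rw [h5, zero_div]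
    have h3 : |∑ k, (a k : ℝ) * ((x : ℝ) / (b : ℝ) ^ W t k - (F k : ℝ))| ≤
        K1 * (1 / (b : ℝ) ^ l t) := by
      have h4 : ∑ k, (a k : ℝ) * ((x : ℝ) / (b : ℝ) ^ W t k - (F k : ℝ)) =
          ∑ k, (a k : ℝ) * ((x : ℝ) / (b : ℝ) ^ W t k - (F k : ℝ) -
            ∑ i ∈ range (l t), (dH b x (W t k - (i + 1)) : ℝ) / (b : ℝ) ^ (i + 1)) := by
        rw [← sub_eq_zero, ← Finset.sum_sub_distrib, ← h2]
        exact Finset.sum_congr rfl fun k _ => by ring
      rw [h4]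
      refine (Finset.abs_sum_le_sum_abs _ _).trans ?_
      refine (Finset.sum_le_sum fun k _ => (?_ : _ ≤ |(a k : ℝ)| * (1 / (b : ℝ) ^ l t))).trans ?_
      · rw [abs_mul]
        exact mul_le_mul_of_nonneg_left (h1 k) (abs_nonneg _)
      · rw [← Finset.sum_mul]
        exact mul_le_mul_of_nonneg_right (by rw [hK1]; linarith) (by positivity)
    have h4 : ∑ k, (a k : ℝ) * ((x : ℝ) * (b : ℝ) ^ (V t - W t k)) - (b : ℝ) ^ V t * Z t =
        (b : ℝ) ^ V t * ∑ k, (a k : ℝ) * ((x : ℝ) / (b : ℝ) ^ W t k - (F k : ℝ)) := by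
      rw [hZt]
      push_cast
      rw [Finset.mul_sum, Finset.mul_sum, ← Finset.sum_sub_distrib]
      refine Finset.sum_congr rfl fun k _ => ?_
      have h5 : (b : ℝ) ^ V t = (b : ℝ) ^ (V t - W t k) * (b : ℝ) ^ W t k := by
        rw [← pow_add]; congr 1; have := hVW t k; omega
      rw [h5]
      field_simp
    rw [h4, abs_mul, abs_of_pos (by positivity : (0 : ℝ) < (b : ℝ) ^ V t)]
    refine (mul_le_mul_of_nonneg_left h3 (by positivity)).trans (le_of_eq ?_)
    have hbl : ∀ k : ℕ, (b : ℝ) ^ k = Real.exp (k * L) := by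
      intro k
      rw [hL, ← Real.log_pow, Real.exp_log (by positivity)]
    rw [hbl, hbl, Real.exp_sub]
    ring
  -- logs
  obtain ⟨c2, hc2⟩ : ∃ c2 : ℝ, c2 = 4 * (L + c1 + G) + Real.log K1 + 1 := ⟨_, rfl⟩
  have hLn : ∀ t, L ≤ L * n t := fun t => le_mul_of_one_le_right hL0.le (hn1' t)
  have hlun : ∀ t, Real.log (u t) ≤ c1 * n t := fun t => by
    have h1 := hkey t
    have h3 : (0 : ℝ) ≤ t := Nat.cast_nonneg t
    linarith
  have hVn : ∀ t, V t * L ≤ (L + c1 + G) * n t := fun t => by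
    have h1 := hVL t
    have h2 := hLn t
    have h3 := hlun t
    nlinarith
  have hlVR : ∀ t, (l t : ℝ) * L ≤ V t * L := fun t =>
    mul_le_mul_of_nonneg_right (by exact_mod_cast hlV t) hL0.le
  have hl0 : ∀ t, (0 : ℝ) ≤ l t * L := fun t => by positivity
  have hGn : ∀ t, (0 : ℝ) ≤ G * n t := fun t => by positivity
  have hc1n : ∀ t, (0 : ℝ) ≤ c1 * n t := fun t => by positivity
  have hLn0 : ∀ t, (0 : ℝ) ≤ L * n t := fun t => by positivity
  have hlogn : ∀ t, Real.log K1 ≤ Real.log K1 * n t := fun t =>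
    le_mul_of_one_le_right hlogK0 (hn1' t)
  have hD : ∀ t k, Real.log ((g : ℝ) ^ n t * (b : ℝ) ^ (V t - W t k)) =
      n t * G + ((V t - W t k : ℕ) : ℝ) * L := by
    intro t k
    rw [Real.log_mul (by positivity) (by positivity), Real.log_pow, Real.log_pow, ← hG, ← hL]
  have hsubV : ∀ t k, ((V t - W t k : ℕ) : ℝ) * L ≤ V t * L := fun t k =>
    mul_le_mul_of_nonneg_right (by exact_mod_cast Nat.sub_le _ _) hL0.le
  have hsub0 : ∀ t k, 0 ≤ ((V t - W t k : ℕ) : ℝ) * L := fun t k => by positivity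
  have hA : ∀ t k, Real.log ((g : ℝ) ^ n t * (b : ℝ) ^ (V t - W t k) * (|(a k : ℝ)| * u t)) =
      (n t * G + ((V t - W t k : ℕ) : ℝ) * L) + (Real.log |(a k : ℝ)| + Real.log (u t)) := by
    intro t k
    have h1 := ha1 k
    have h2 := huR t
    rw [Real.log_mul (x := (g : ℝ) ^ n t * (b : ℝ) ^ (V t - W t k)) (by positivity) (by positivity),
      hD, Real.log_mul (x := |(a k : ℝ)|) (by positivity) (by positivity)]
  obtain ⟨y, v, hyv, hfreq⟩ := gstepE 1 r 2 (by omega) (fun _ _ => 1)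
    (fun _ _ => isAlgebraic_one) ![g, b] (fun v => by
      fin_cases v
      · change 1 ≤ g; omega
      · change 1 ≤ b; omega) c2 (min (ε * L) 1) (by
      rw [hc2]
      nlinarith) (lt_min (by positivity) one_pos) (fun t => (n t : ℝ)) hNlim
    (fun t v k => ![n t, V t - W t k] v) (fun t k => g ^ n t * b ^ (V t - W t k))
    (fun t k => by simp) (fun t v _ => ![0, V t] v) (fun t _ => b ^ V t)
    (fun t j => by simp) (fun t k => a k * u t) (fun t _ => Z t)
    (fun t => Or.inl fun h => by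
      have h1 : a ⟨0, hr⟩ * (u t : ℤ) = 0 := congrFun h ⟨0, hr⟩
      have h2 : (u t : ℤ) ≠ 0 := by
        have := hu t
        omega
      exact mul_ne_zero (ha _) h2 h1)
    (fun t k => (g : ℝ) ^ n t * (b : ℝ) ^ (V t - W t k) * (|(a k : ℝ)| * u t))
    (fun t _ => K1 * Real.exp (V t * L - l t * L)) (fun t k => by
      have := ha1 k
      have := huR t
      positivity) (fun t _ => by positivity) (fun t k => by
      rw [hA, abs_of_nonneg (by
          have := hloga0 k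
          have := hlu t
          have := hGn t
          have := hsub0 t k
          linarith)]
      have h3 := hlogaK k
      have h4 := hsubV t k
      have h5 := hlun t
      have h6 := hGn t
      have h7 := hc1n t
      have h8 := hLn0 t
      have h9 := hlogn t
      have h10 := hVn t
      rw [hc2]
      nlinarith [hn1' t]) (fun t j => by
      rw [Real.log_mul (by positivity) (Real.exp_ne_zero _), Real.log_exp]
      have h5 := hlVR t
      have h6 := hl0 t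
      have h9 := hlogn t
      have h10 := hn1' t
      have h11 := hGn t
      have h12 := hc1n t
      have h13 := hLn0 t
      have h14 := hVn t
      rw [abs_le, hc2]
      constructor <;> nlinarith) (fun t k => by
      push_cast
      rw [hD]
      have h4 := hsubV t k
      have h6 := hGn t
      have h7 := hc1n t
      have h8 := hLn0 t
      have h9 := hlogn t
      have h10 := hn1' t
      have h14 := hVn t
      rw [hc2]
      nlinarith) (fun t j => by
      push_cast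
      rw [Real.log_pow, ← hL]
      have h6 := hGn t
      have h7 := hc1n t
      have h8 := hLn0 t
      have h9 := hlogn t
      have h10 := hn1' t
      have h14 := hVn t
      rw [hc2]
      nlinarith) (fun t k => by
      push_cast
      rw [abs_mul ((g : ℝ) ^ n t * (b : ℝ) ^ (V t - W t k)) _, abs_of_nonneg
        (by positivity : (0 : ℝ) ≤ (g : ℝ) ^ n t * (b : ℝ) ^ (V t - W t k)), abs_mul,
        Nat.abs_cast]) (fun t j => by
      have h4 := hsmall t
      push_cast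
      refine le_trans (le_of_eq ?_) h4
      congr 2
      exact Finset.sum_congr rfl fun k _ => by ring) (fun t => by
      have h1 := hlu t
      rw [Fin.sum_univ_one, Fin.sum_univ_one]
      have h2 : ∀ k : Fin r, Real.log ((g ^ n t * b ^ (V t - W t k) : ℕ) : ℝ) =
          n t * G + ((V t - W t k : ℕ) : ℝ) * L := by
        intro k
        push_cast
        rw [hD]
      rw [Finset.sum_congr rfl fun k _ => hA t k, Finset.sum_congr rfl fun k _ => h2 k,
        Finset.sum_add_distrib, Real.log_mul (by positivity) (Real.exp_ne_zero _), Real.log_exp]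
      push_cast
      rw [Real.log_pow, ← hL]
      have h3 : ∑ k : Fin r, (Real.log |(a k : ℝ)| + Real.log (u t)) ≤
          r * (Real.log K1 + Real.log (u t)) := by
        have h4 := Finset.sum_le_sum (s := (univ : Finset (Fin r))) (f := fun k =>
          Real.log |(a k : ℝ)| + Real.log (u t)) (g := fun _ => Real.log K1 + Real.log (u t))
          fun k _ => by
            have := hlogaK k
            linarith
        rw [Finset.sum_const, Finset.card_univ, Fintype.card_fin, nsmul_eq_mul] at h4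
        exact h4
      have h4 := mul_le_mul_of_nonneg_right (hbad t).le hL0.le
      have h5 : (r + (r + 1) * Real.log K1) * (1 + Real.log (u t)) ≤
          C0 * L * (1 + Real.log (u t)) := mul_le_mul_of_nonneg_right hC0c (by linarith)
      have h6 : (0 : ℝ) ≤ t * (1 + Real.log (u t)) * L := by positivity
      have h7 : 0 ≤ (r + 1) * Real.log K1 * Real.log (u t) := by positivity
      have h8 : min (ε * L) 1 * (n t : ℝ) ≤ ε * L * n t :=
        mul_le_mul_of_nonneg_right (min_le_left _ _) (by positivity)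
      have h9 : (0 : ℝ) ≤ r := by linarith
      linarith)
  simp only [Fin.sum_univ_one, Fin.isValue] at hfreq
  obtain ⟨K2, hK2⟩ : ∃ K2 : ℝ, K2 = ∑ k, |((y 0 + v k) * a k : ℝ)| + |(y 0 : ℝ)| * K1 + K1 + 2 :=
    ⟨_, rfl⟩
  have hS0 : 0 ≤ ∑ k, |((y 0 + v k) * a k : ℝ)| := Finset.sum_nonneg fun k _ => abs_nonneg _
  have hy0K : 0 ≤ |(y 0 : ℝ)| * K1 := by positivity
  have hK21 : 2 ≤ K2 := by rw [hK2]; linarith
  have hlogK2 : 0 < Real.log K2 := Real.log_pos (by linarith)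
  have hev : ∀ᶠ t : ℕ in atTop, (Real.log K2 + 1) / Real.log 2 + L / Real.log 2 + 1 / Real.log 2 ≤
      (t : ℝ) := tendsto_natCast_atTop_atTop.eventually (eventually_ge_atTop _)
  obtain ⟨t, hrelt, hlarge⟩ := (hfreq.and_eventually hev).exists
  -- the length is large
  have hll : Real.log K2 + 1 + L + Real.log (u t) ≤ l t * Real.log 2 := by
    have h1 := hlt t
    have h2 := hlu t
    have h3 : ((Real.log K2 + 1) / Real.log 2 + L / Real.log 2 + 1 / Real.log 2) *
        (1 + Real.log (u t)) ≤ (t + C0) * (1 + Real.log (u t)) :=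
      mul_le_mul_of_nonneg_right (by linarith) (by linarith)
    have h4 := mul_le_mul_of_nonneg_right (h3.trans h1) hlog2.le
    have h5 : ((Real.log K2 + 1) / Real.log 2 + L / Real.log 2 + 1 / Real.log 2) *
        (1 + Real.log (u t)) * Real.log 2 = (Real.log K2 + 1 + L + 1) * (1 + Real.log (u t)) := by
      field_simp
    rw [h5] at h4
    have h6 : 0 ≤ (Real.log K2 + 1 + L) * Real.log (u t) := by positivity
    linarith
  have hllL : l t * Real.log 2 ≤ l t * L := mul_le_mul_of_nonneg_left hL1 (by positivity)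
  have hx1 : (0 : ℝ) < (u t : ℝ) * (g : ℝ) ^ n t := by
    have := huR t
    positivity
  obtain ⟨I, hI⟩ : ∃ I : ℤ, I = ∑ k, ((y 0 + v k) * a k) * (b : ℤ) ^ (V t - W t k) := ⟨_, rfl⟩
  have hid : ((u t : ℝ) * (g : ℝ) ^ n t) * (I : ℝ) = (y 0 : ℝ) *
      (∑ k, (a k : ℝ) * ((u t : ℝ) * (g : ℝ) ^ n t * (b : ℝ) ^ (V t - W t k)) -
      (b : ℝ) ^ V t * Z t) := by
    have h1 : (y 0 : ℝ) * ((b : ℝ) ^ V t * Z t) = -∑ k, (v k : ℝ) *
        (((g : ℝ) ^ n t * (b : ℝ) ^ (V t - W t k)) * (a k * u t)) := by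
      have h2 := hrelt
      push_cast at h2
      linarith
    rw [mul_sub, h1, hI]
    push_cast
    rw [Finset.mul_sum, Finset.mul_sum, sub_neg_eq_add, ← Finset.sum_add_distrib]
    exact Finset.sum_congr rfl fun k _ => by ring
  have hK2e : |(y 0 : ℝ)| * K1 ≤ K2 := by rw [hK2]; linarith
  have hI0 : I = 0 := by
    by_contra hne
    have h1 : (1 : ℝ) ≤ |(I : ℝ)| := by
      rw [← Int.cast_abs]; exact_mod_cast Int.one_le_abs hne
    have h2 := congrArg abs hid
    rw [abs_mul ((u t : ℝ) * (g : ℝ) ^ n t) _, abs_mul (y 0 : ℝ) _, abs_of_pos hx1] at h2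
    have h3 : (u t : ℝ) * (g : ℝ) ^ n t ≤ K2 * Real.exp (V t * L - l t * L) := by
      have h4 := mul_le_mul_of_nonneg_left (hsmall t) (abs_nonneg (y 0 : ℝ))
      have h5 : (u t : ℝ) * (g : ℝ) ^ n t ≤ (u t : ℝ) * (g : ℝ) ^ n t * |(I : ℝ)| :=
        le_mul_of_one_le_right hx1.le h1
      have h6 := mul_le_mul_of_nonneg_right hK2e (Real.exp_pos (V t * L - l t * L)).le
      linarith
    have h4 := Real.log_le_log hx1 h3
    have h5 := huR t
    rw [Real.log_mul (by positivity) (by positivity), Real.log_pow, ← hG,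
      Real.log_mul (by positivity) (Real.exp_ne_zero _), Real.log_exp] at h4
    have h6 := hVL t
    have h7 := hlu t
    linarith
  have hlogl : Real.log K2 < l t * L := by
    have h7 := hlu t
    linarith
  have hsepc : ∀ k, (y 0 + v k) * a k = 0 := by
    refine sep r b (l t) (fun k => (y 0 + v k) * a k) (fun k => V t - W t k) (fun i j hij => ?_)
      (fun k => ?_) (by omega) (by rw [← hI]; exact hI0)
    · have h1 := hVW t i
      have h2 := hVW t j
      rcases hdis t i j hij with h | h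
      · right; omega
      · left; omega
    · have h1 : |((y 0 + v k) * a k : ℝ)| ≤ K2 := by
        have := Finset.single_le_sum (f := fun k => |((y 0 + v k) * a k : ℝ)|)
          (fun k _ => abs_nonneg _) (mem_univ k)
        rw [hK2]; linarith
      have h2 : K2 < (b : ℝ) ^ l t := by
        rw [← Real.log_lt_log_iff (by linarith) (by positivity), Real.log_pow, ← hL]
        exact hlogl
      have h3 := h1.trans_lt h2
      have h4 : ((|(y 0 + v k) * a k| : ℤ) : ℝ) < (((b : ℤ) ^ l t : ℤ) : ℝ) := by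
        rw [Int.cast_abs]
        push_cast
        exact h3
      exact_mod_cast h4
  have hvk : ∀ k, v k = -y 0 := fun k => by
    rcases mul_eq_zero.1 (hsepc k) with h | h
    · linarith
    · exact absurd h (ha k)
  have hy0 : y 0 ≠ 0 := by
    intro h
    rcases hyv with h1 | h1
    · exact h1 (funext fun i => by rw [Fin.fin_one_eq_zero i]; exact h)
    · exact h1 (funext fun k => by rw [hvk k, h]; simp)
  have hzero : ∑ k, (a k : ℝ) * ((u t : ℝ) * (g : ℝ) ^ n t * (b : ℝ) ^ (V t - W t k)) -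
      (b : ℝ) ^ V t * Z t = 0 := by
    rw [hI0] at hid
    have h1 : (y 0 : ℝ) ≠ 0 := by exact_mod_cast hy0
    rcases mul_eq_zero.1 (hid.symm.trans (by simp)) with h | h
    · exact absurd h h1
    · exact h
  have hint : ∑ k, a k * ((u t : ℤ) * (g : ℤ) ^ n t * (b : ℤ) ^ (V t - W t k)) =
      (b : ℤ) ^ V t * Z t := by
    have h1 : ((∑ k, a k * ((u t : ℤ) * (g : ℤ) ^ n t * (b : ℤ) ^ (V t - W t k)) : ℤ) : ℝ) =
      (((b : ℤ) ^ V t * Z t : ℤ) : ℝ) := by
      push_cast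
      linarith
    exact_mod_cast h1
  have hdvd : (b : ℤ) ^ l t ∣ a (k0 t) * ((u t : ℤ) * (g : ℤ) ^ n t) := by
    rw [← Finset.add_sum_erase _ _ (mem_univ (k0 t))] at hint
    have h1 : V t - W t (k0 t) = 0 := by rw [hV]; omega
    rw [h1, pow_zero, mul_one] at hint
    have h2 : a (k0 t) * ((u t : ℤ) * (g : ℤ) ^ n t) = (b : ℤ) ^ V t * Z t -
        ∑ k ∈ univ.erase (k0 t), a k * ((u t : ℤ) * (g : ℤ) ^ n t * (b : ℤ) ^ (V t - W t k)) := by
      linarith
    rw [h2]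
    refine dvd_sub (Dvd.dvd.mul_right (pow_dvd_pow _ (hlV t)) _) (Finset.dvd_sum fun k hk => ?_)
    rw [mem_erase] at hk
    have h3 : l t ≤ V t - W t k := by
      have h4 := hVW t k
      have h5 := hl1 t
      rcases hdis t k (k0 t) hk.1 with h | h
      · rw [hV]; omega
      · rw [hV] at h4; omega
    exact Dvd.dvd.mul_left (Dvd.dvd.mul_left (pow_dvd_pow _ h3) _) _
  have hdvd2 : (ℓ : ℤ) ^ l t ∣ a (k0 t) * (u t : ℤ) := by
    have h1 : (ℓ : ℤ) ^ l t ∣ (a (k0 t) * (u t : ℤ)) * (g : ℤ) ^ n t := by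
      have h2 : (ℓ : ℤ) ^ l t ∣ (b : ℤ) ^ l t := pow_dvd_pow_of_dvd (by exact_mod_cast hℓb) _
      have h3 : a (k0 t) * ((u t : ℤ) * (g : ℤ) ^ n t) = (a (k0 t) * (u t : ℤ)) * (g : ℤ) ^ n t := by
        ring
      rw [← h3]
      exact h2.trans hdvd
    have hcop : IsCoprime ((ℓ : ℤ) ^ l t) ((g : ℤ) ^ n t) := by
      have h2 : Nat.Coprime (ℓ ^ l t) (g ^ n t) :=
        Nat.Coprime.pow _ _ ((Nat.Prime.coprime_iff_not_dvd hℓ).2 hℓg)
      have h3 := h2.isCoprime
      push_cast at h3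
      exact h3
    exact hcop.dvd_of_dvd_mul_right h1
  have hne : a (k0 t) * (u t : ℤ) ≠ 0 := by
    have h2 : (u t : ℤ) ≠ 0 := by
      have := hu t
      omega
    exact mul_ne_zero (ha _) h2
  have h3 := Int.le_of_dvd (abs_pos.2 hne) ((dvd_abs _ _).2 hdvd2)
  have h4 : (ℓ : ℝ) ^ l t ≤ |(a (k0 t) : ℝ)| * u t := by
    have h6 : (((ℓ : ℤ) ^ l t : ℤ) : ℝ) ≤ ((|a (k0 t) * (u t : ℤ)| : ℤ) : ℝ) := by exact_mod_cast h3
    rw [Int.cast_abs] at h6
    push_cast at h6
    rw [abs_mul, Nat.abs_cast] at h6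
    exact h6
  have hℓR : (2 : ℝ) ≤ ℓ := by exact_mod_cast hℓ.two_le
  have h5 := Real.log_le_log (by positivity) h4
  have h6 := huR t
  have h7 := ha1 (k0 t)
  rw [Real.log_pow, Real.log_mul (by positivity) (by positivity)] at h5
  have h8 : l t * Real.log 2 ≤ l t * Real.log ℓ :=
    mul_le_mul_of_nonneg_left (Real.log_le_log (by norm_num) hℓR) (by positivity)
  have h9 : Real.log |(a (k0 t) : ℝ)| ≤ Real.log K2 := by
    refine (hlogaK _).trans (Real.log_le_log (by linarith) ?_)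
    rw [hK2]
    linarith
  linarith

theorem indZ (r g b ℓ : ℕ) (hg : 2 ≤ g) (hb : 2 ≤ b) (hℓ : ℓ.Prime) (hℓb : ℓ ∣ b)
    (hℓg : ¬ ℓ ∣ g) (f : Fin r → ℤ) (hf : f ≠ 0) (ε : ℝ) (hε : 0 < ε) :
    ∃ C : ℝ, 0 ≤ C ∧ ∀ (n u : ℕ), 1 ≤ u → ∀ (W : Fin r → ℕ) (l : ℕ),
      (∀ j, l ≤ W j) → (∀ j, b ^ W j ≤ b * (u * g ^ n)) →
      (∀ i j, i ≠ j → W i + l ≤ W j ∨ W j + l ≤ W i) →
      (∀ i < l, ∑ k, f k * (dH b (u * g ^ n) (W k - (i + 1)) : ℤ) = 0) →
      (l : ℝ) ≤ ε * n + C * (1 + Real.log u) := by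
  obtain ⟨J, hJ⟩ : ∃ J : Finset (Fin r), J = univ.filter fun k => f k ≠ 0 := ⟨_, rfl⟩
  obtain ⟨k1, hk1⟩ : ∃ k, f k ≠ 0 := by
    by_contra h
    push Not at h
    exact hf (funext h)
  have hJ1 : 1 ≤ J.card := Finset.card_pos.2 ⟨k1, by rw [hJ]; simp [hk1]⟩
  have hJf : ∀ k, k ∈ J → f k ≠ 0 := fun k hk => by
    rw [hJ, mem_filter] at hk
    exact hk.2
  obtain ⟨C, hC0, hC⟩ := indA J.card g b ℓ hJ1 hg hb hℓ hℓb hℓg (fun k => f (J.equivFin.symm k))
    (fun k => hJf _ (J.equivFin.symm k).2) ε hε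
  refine ⟨C, hC0, fun n u hu W l hl hW hdis hrel => hC n u hu (fun k => W (J.equivFin.symm k)) l
    (fun j => hl _) (fun j => hW _) (fun i j hij => hdis _ _ fun h => hij ?_) fun i hi => ?_⟩
  · exact J.equivFin.symm.injective (Subtype.ext h)
  · rw [← hrel i hi]
    have h1 : ∑ k : Fin J.card, f (J.equivFin.symm k) *
        (dH b (u * g ^ n) (W (J.equivFin.symm k) - (i + 1)) : ℤ) =
        ∑ k : J, f k * (dH b (u * g ^ n) (W k - (i + 1)) : ℤ) :=
      Equiv.sum_comp J.equivFin.symm fun k : J => f k *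
        (dH b (u * g ^ n) (W k - (i + 1)) : ℤ)
    rw [h1, Finset.sum_coe_sort J fun k => f k * (dH b (u * g ^ n) (W k - (i + 1)) : ℤ)]
    rw [hJ]
    refine Finset.sum_filter_of_ne fun k _ hk h => hk ?_
    rw [h, zero_mul]

/-- **Linear independence of the windows.** -/
theorem independent (r g b ℓ : ℕ) (hg : 2 ≤ g) (hb : 2 ≤ b) (hℓ : ℓ.Prime) (hℓb : ℓ ∣ b)
    (hℓg : ¬ ℓ ∣ g) (ε : ℝ) (hε : 0 < ε) :
    ∃ C : ℝ, 0 ≤ C ∧ ∀ (n u : ℕ), 1 ≤ u → ∀ (W : Fin r → ℕ) (l : ℕ),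
      (∀ j, l ≤ W j) → (∀ j, b ^ W j ≤ b * (u * g ^ n)) →
      (∀ i j, i ≠ j → W i + l ≤ W j ∨ W j + l ≤ W i) →
      ∀ a : Fin r → ℚ, a ≠ 0 →
      (∀ i < l, ∑ k, a k * (dH b (u * g ^ n) (W k - (i + 1)) : ℚ) = 0) →
      (l : ℝ) ≤ ε * n + C * (1 + Real.log u) := by
  classical
  have hch : ∀ s : Finset (Fin r → Fin b), ∃ C : ℝ, 0 ≤ C ∧
      ((∃ f : Fin r → ℤ, f ≠ 0 ∧ ∀ v ∈ s, ∑ k, f k * ((v k : ℕ) : ℤ) = 0) →
      ∀ (n u : ℕ), 1 ≤ u → ∀ (W : Fin r → ℕ) (l : ℕ),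
      (∀ j, l ≤ W j) → (∀ j, b ^ W j ≤ b * (u * g ^ n)) →
      (∀ i j, i ≠ j → W i + l ≤ W j ∨ W j + l ≤ W i) →
      (∀ i < l, ∃ v ∈ s, ∀ k, dH b (u * g ^ n) (W k - (i + 1)) = (v k : ℕ)) →
      (l : ℝ) ≤ ε * n + C * (1 + Real.log u)) := by
    intro s
    by_cases hs : ∃ f : Fin r → ℤ, f ≠ 0 ∧ ∀ v ∈ s, ∑ k, f k * ((v k : ℕ) : ℤ) = 0
    · obtain ⟨f, hf, hfv⟩ := hs
      obtain ⟨C, hC0, hC⟩ := indZ r g b ℓ hg hb hℓ hℓb hℓg f hf ε hε
      refine ⟨C, hC0, fun _ n u hu W l hl hW hdis hv => hC n u hu W l hl hW hdis fun i hi => ?_⟩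
      obtain ⟨v, hvs, hvk⟩ := hv i hi
      rw [← hfv v hvs]
      exact Finset.sum_congr rfl fun k _ => by rw [hvk k]
    · exact ⟨0, le_rfl, fun h => absurd h hs⟩
  choose Cs hCs0 hCs using hch
  refine ⟨∑ s, Cs s, Finset.sum_nonneg fun s _ => hCs0 s, fun n u hu W l hl hW hdis a ha hrel => ?_⟩
  have hlt : ∀ x h, dH b x h < b := fun x h => Nat.mod_lt _ (by omega)
  obtain ⟨s, hs⟩ : ∃ s : Finset (Fin r → Fin b), s = (range l).image fun i k =>
    (⟨dH b (u * g ^ n) (W k - (i + 1)), hlt _ _⟩ : Fin b) := ⟨_, rfl⟩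
  have h1 := hCs s ?_ n u hu W l hl hW hdis fun i hi => ⟨_, by
    rw [hs]
    exact Finset.mem_image_of_mem _ (mem_range.2 hi), fun k => rfl⟩
  · have h2 : Cs s ≤ ∑ s, Cs s := Finset.single_le_sum (fun s _ => hCs0 s) (mem_univ s)
    have h3 : 0 ≤ Real.log u := Real.log_nonneg (by exact_mod_cast hu)
    have h4 : Cs s * (1 + Real.log u) ≤ (∑ s, Cs s) * (1 + Real.log u) :=
      mul_le_mul_of_nonneg_right h2 (by linarith)
    linarith
  · -- an integral annihilator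
    obtain ⟨D, hD⟩ : ∃ D : ℕ, D = ∏ j, (a j).den := ⟨_, rfl⟩
    have hD0 : D ≠ 0 := by
      rw [hD]
      exact Finset.prod_ne_zero_iff.2 fun j _ => (a j).den_ne_zero
    have hint : ∀ k, ∃ z : ℤ, (z : ℚ) = D * a k := by
      intro k
      refine ⟨(∏ j ∈ univ.erase k, ((a j).den : ℤ)) * (a k).num, ?_⟩
      rw [hD, ← Finset.mul_prod_erase _ _ (mem_univ k)]
      push_cast
      have h2 : ((a k).den : ℚ) * a k = (a k).num := Rat.den_mul_eq_num (a k)
      rw [mul_comm ((a k).den : ℚ), mul_assoc, h2]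
    choose z hz using hint
    refine ⟨z, fun h => ha ?_, fun v hv => ?_⟩
    · funext k
      have h2 := hz k
      rw [h] at h2
      have h3 : (D : ℚ) ≠ 0 := by exact_mod_cast hD0
      have h4 : (D : ℚ) * a k = 0 := by rw [← h2]; simp
      rcases mul_eq_zero.1 h4 with h5 | h5
      · exact absurd h5 h3
      · exact h5
    · rw [hs, Finset.mem_image] at hv
      obtain ⟨i, hi, rfl⟩ := hv
      have h2 := hrel i (mem_range.1 hi)
      have h3 : (((∑ k, z k * (((⟨dH b (u * g ^ n) (W k - (i + 1)), hlt _ _⟩ : Fin b) : ℕ) : ℤ)) :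
          ℤ) : ℚ) = D * ∑ k, a k * (dH b (u * g ^ n) (W k - (i + 1)) : ℚ) := by
        push_cast
        rw [Finset.mul_sum]
        exact Finset.sum_congr rfl fun k _ => by rw [hz k]; ring
      rw [h2, mul_zero] at h3
      exact_mod_cast h3

end Pool.Agent.V1189.RT
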