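import Pool.Agent.V1189.RT.Sub
import Pool.Agent.V1189.SC.Schmidt

/-!
# Approximations of algebraic numbers with errors in `k` places: the subspace theorem

Author: helper89.
-/

set_option autoImplicit false

namespace Pool.Agent.V1189.RT

open Finset Filter Topology

/-- sums of powers stay away from an irrational number -/
lemma dist_pos (b : ℕ) (hb : 2 ≤ b) : ∀ (k : ℕ) (x : ℝ) (γ : Fin k → ℚ), Irrational x →
    ∃ d : ℝ, 0 < d ∧ ∀ e : Fin k → ℕ, d ≤ |x + ∑ j, (γ j : ℝ) / (b : ℝ) ^ e j| := by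
  intro k
  have hbR : (2 : ℝ) ≤ b := by exact_mod_cast hb
  induction k with
  | zero =>
    intro x γ hx
    exact ⟨|x|, abs_pos.2 hx.ne_zero, fun e => by simp⟩
  | succ k ih =>
    intro x γ hx
    obtain ⟨d0, hd0, h0⟩ := ih x (fun j => γ j.succ) hx
    obtain ⟨E, hE⟩ : ∃ E : ℕ, ∀ n, E ≤ n → |(γ 0 : ℝ)| / (b : ℝ) ^ n ≤ d0 / 2 := by
      have h1 : Tendsto (fun n : ℕ => |(γ 0 : ℝ)| / (b : ℝ) ^ n) atTop (𝓝 0) :=
        tendsto_const_nhds.div_atTop (tendsto_pow_atTop_atTop_of_one_lt (by linarith))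
      have h2 := h1.eventually (gt_mem_nhds (by linarith : (0 : ℝ) < d0 / 2))
      obtain ⟨E, hE⟩ := eventually_atTop.1 h2
      exact ⟨E, fun n hn => (hE n hn).le⟩
    have hfin : ∀ n : ℕ, ∃ d : ℝ, 0 < d ∧ ∀ e : Fin k → ℕ,
        d ≤ |(x + (γ 0 : ℝ) / (b : ℝ) ^ n) + ∑ j, (γ (Fin.succ j) : ℝ) / (b : ℝ) ^ e j| := by
      intro n
      have h1 : Irrational (x + (γ 0 : ℝ) / (b : ℝ) ^ n) := by
        have h2 := hx.add_ratCast (γ 0 / (b : ℚ) ^ n)
        push_cast at h2
        exact h2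
      exact ih _ (fun j => γ j.succ) h1
    choose d hd hd' using hfin
    obtain ⟨D, hD0, _, hD⟩ := Pool.Agent.V1189.SC.common_pos (range E) d hd
    refine ⟨min (d0 / 2) D, lt_min (by linarith) hD0, fun e => ?_⟩
    rw [Fin.sum_univ_succ, ← add_assoc]
    by_cases h : e 0 < E
    · exact (min_le_right _ _).trans ((hD _ (mem_range.2 h)).trans (hd' (e 0) fun j => e j.succ))
    · have h1 := h0 fun j => e j.succ
      have h2 := hE (e 0) (by omega)
      have h3 : |(γ 0 : ℝ) / (b : ℝ) ^ e 0| = |(γ 0 : ℝ)| / (b : ℝ) ^ e 0 := by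
        rw [abs_div, abs_of_pos (by positivity : (0 : ℝ) < (b : ℝ) ^ e 0)]
      have h4 : x + ∑ j : Fin k, (γ j.succ : ℝ) / (b : ℝ) ^ e j.succ =
          (x + (γ 0 : ℝ) / (b : ℝ) ^ e 0 + ∑ j : Fin k, (γ j.succ : ℝ) / (b : ℝ) ^ e j.succ) -
            (γ 0 : ℝ) / (b : ℝ) ^ e 0 := by ring
      rw [h4] at h1
      have h5 := abs_sub (x + (γ 0 : ℝ) / (b : ℝ) ^ e 0 +
        ∑ j : Fin k, (γ j.succ : ℝ) / (b : ℝ) ^ e j.succ) ((γ 0 : ℝ) / (b : ℝ) ^ e 0)
      have h6 := min_le_left (d0 / 2) D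
      linarith

/-- **The subspace theorem for approximations with errors.** -/
theorem step (n k b : ℕ) (hb : 2 ≤ b) (α : Fin n → ℝ) (halg : ∀ i, IsAlgebraic ℚ (α i))
    (γ : Fin n → Fin k → ℚ) (δ : ℝ) (hδ : 0 < δ) (L : ℕ → ℕ) (hL : Tendsto L atTop atTop)
    (Q r : ℕ → ℕ) (e : ℕ → Fin k → ℕ) (P : ℕ → Fin n → ℤ) (σ : ℕ → ℝ) (hQ : ∀ t, 1 ≤ Q t)
    (hQL : ∀ t, Real.log (Q t) ≤ L t * Real.log b) (hr : ∀ t, r t ≤ L t)
    (he : ∀ t j, e t j ≤ L t) (hσ0 : ∀ t, 0 ≤ σ t) (hσL : ∀ t, σ t ≤ L t * Real.log b)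
    (hap : ∀ t i, |(Q t : ℝ) * (b : ℝ) ^ r t * (α i + ∑ j, (γ i j : ℝ) / (b : ℝ) ^ e t j) -
      P t i| ≤ Real.exp (-σ t))
    (hbad : ∀ t, (k + 1) * Real.log (Q t) + δ * (L t * Real.log b) < n * σ t) :
    ∃ (u : Fin n → ℤ) (v : Fin (k + 1) → ℤ), (u ≠ 0 ∨ v ≠ 0) ∧ ∃ᶠ t in atTop,
      ∑ i, (u i : ℝ) * ((P t i : ℝ) / ((Q t : ℝ) * (b : ℝ) ^ r t)) + v 0 +
        ∑ j : Fin k, (v j.succ : ℝ) / (b : ℝ) ^ e t j = 0 := by
  classical
  -- the number field
  set F : IntermediateField ℚ ℝ := IntermediateField.adjoin ℚ (Set.range α) with hFdef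
  have hF : FiniteDimensional ℚ F := by
    apply IntermediateField.finiteDimensional_adjoin
    rintro z ⟨i, rfl⟩
    exact (halg i).isIntegral
  have : NumberField F := { to_charZero := inferInstance, to_finiteDimensional := hF }
  let c : Fin n ⊕ (Fin n × Fin k) → F := Sum.elim
    (fun i => ⟨α i, IntermediateField.subset_adjoin ℚ _ ⟨i, rfl⟩⟩)
    (fun p => algebraMap ℚ F (γ p.1 p.2))
  obtain ⟨Nn, hNn⟩ := IsLocalization.exist_integer_multiples_of_finite
    (nonZeroDivisors (NumberField.RingOfIntegers F)) c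
  have hN0 : (Nn : NumberField.RingOfIntegers F) ≠ 0 := nonZeroDivisors.ne_zero Nn.2
  have hN' : ∀ i, ∃ M : NumberField.RingOfIntegers F,
      algebraMap (NumberField.RingOfIntegers F) F M
        = algebraMap (NumberField.RingOfIntegers F) F (Nn : NumberField.RingOfIntegers F)
          * c i := by
    intro i
    obtain ⟨M, hM⟩ := hNn i
    refine ⟨M, ?_⟩
    rw [hM, Algebra.smul_def]
  choose d hd using hN'
  have hinj : Function.Injective (algebraMap (NumberField.RingOfIntegers F) F) :=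
    IsFractionRing.injective _ _
  set ψ : NumberField.RingOfIntegers F →+* ℝ :=
    (algebraMap F ℝ).comp (algebraMap (NumberField.RingOfIntegers F) F) with hψ
  set φ : NumberField.RingOfIntegers F →+* ℂ := Complex.ofRealHom.comp ψ with hφ
  set ν : ℝ := ψ (Nn : NumberField.RingOfIntegers F) with hν
  have hν0 : ν ≠ 0 := by
    intro h
    apply hN0
    apply hinj
    rw [map_zero]
    apply (algebraMap F ℝ).injective
    rw [map_zero]
    exact h
  have hνp : 0 < |ν| := abs_pos.2 hν0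
  set lν : ℝ := Real.log |ν| with hlν
  have hψd : ∀ i, ψ (d i) = ν * algebraMap F ℝ (c i) := by
    intro i
    have h1 := congrArg (algebraMap F ℝ) (hd i)
    rw [map_mul] at h1
    exact h1
  have hψ1 : ∀ i, ψ (d (Sum.inl i)) = ν * α i := fun i => hψd (Sum.inl i)
  have hψ2 : ∀ i j, ψ (d (Sum.inr (i, j))) = ν * γ i j := by
    intro i j
    rw [hψd]
    congr 1
  have hbR : (2 : ℝ) ≤ b := by exact_mod_cast hb
  have hb0 : (0 : ℝ) < b := by linarith
  have hlb : 0 < Real.log b := Real.log_pos (by linarith)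
  -- the tail
  have hLt : Tendsto (fun t => (L t : ℝ) * Real.log b) atTop atTop :=
    (tendsto_natCast_atTop_atTop.comp hL).atTop_mul_const hlb
  obtain ⟨t0, ht0⟩ : ∃ t0, ∀ t, t0 ≤ t → (1 : ℝ) ≤ L t * Real.log b ∧
      n * lν ≤ δ / 2 * (L t * Real.log b) := by
    have h2 : ∀ᶠ t in atTop, (1 : ℝ) ≤ L t * Real.log b := hLt.eventually (eventually_ge_atTop 1)
    have h3 : ∀ᶠ t in atTop, n * lν / (δ / 2) ≤ L t * Real.log b :=
      hLt.eventually (eventually_ge_atTop _)
    obtain ⟨t0, ht0⟩ := eventually_atTop.1 (h2.and h3)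
    refine ⟨t0, fun t ht => ⟨(ht0 t ht).1, ?_⟩⟩
    have h4 := (ht0 t ht).2
    rw [div_le_iff₀ (by positivity)] at h4
    linarith
  let N : ℕ → ℝ := fun t => L (t + t0) * Real.log b
  let M : ℕ → ℕ := fun t => univ.sup (e (t + t0))
  let e' : ℕ → Fin (k + 1) → ℕ := fun t => Fin.cons 0 (e (t + t0))
  have heM : ∀ t j, e (t + t0) j ≤ M t := fun t j => Finset.le_sup (mem_univ j)
  have he'M : ∀ t j, e' t j ≤ M t := by
    intro t j
    refine Fin.cases ?_ (fun s => ?_) j
    · exact Nat.zero_le _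
    · exact heM t s
  have hML : ∀ t, M t ≤ L (t + t0) := fun t => Finset.sup_le fun j _ => he _ j
  let E : ℕ → Fin n ⊕ Fin (k + 1) → ℕ := fun t =>
    Sum.elim (fun _ => M t) (fun j => r (t + t0) + M t - e' t j)
  let A : ℕ → Fin n ⊕ Fin (k + 1) → ℝ := fun t =>
    Sum.elim (fun _ => |ν| * (b : ℝ) ^ M t * Real.exp (-σ (t + t0)))
      (fun j => (Q (t + t0) : ℝ) * (b : ℝ) ^ (r (t + t0) + M t - e' t j))
  let z : ℕ → Fin n ⊕ Fin (k + 1) → ℤ := fun t =>
    Sum.elim (P (t + t0)) (fun _ => (Q (t + t0) : ℤ))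
  let G : Matrix (Fin n) (Fin (k + 1)) (NumberField.RingOfIntegers F) :=
    Matrix.of fun i j => (Fin.cons (d (Sum.inl i)) (fun j' => d (Sum.inr (i, j'))) :
      Fin (k + 1) → NumberField.RingOfIntegers F) j
  let M0 : Matrix (Fin n ⊕ Fin (k + 1)) (Fin n ⊕ Fin (k + 1)) (NumberField.RingOfIntegers F) :=
    Matrix.fromBlocks (Matrix.diagonal fun _ => -(Nn : NumberField.RingOfIntegers F)) G 0 1
  have hdet : M0.det ≠ 0 := by
    change (Matrix.fromBlocks (Matrix.diagonal fun _ => -(Nn : NumberField.RingOfIntegers F)) G 0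
      1).det ≠ 0
    rw [Matrix.det_fromBlocks_zero₂₁, Matrix.det_one, mul_one, Matrix.det_diagonal]
    exact Finset.prod_ne_zero_iff.2 fun _ _ => neg_ne_zero.2 hN0
  have hre : ∀ i j, (φ (M0 i j)).im = 0 := by
    intro i j
    rw [hφ, RingHom.comp_apply, Complex.ofRealHom_eq_coe, Complex.ofReal_im]
  have hQp : ∀ t, (0 : ℝ) < Q t := fun t => by exact_mod_cast hQ t
  have hlQ : ∀ t, 0 ≤ Real.log (Q t) := fun t => Real.log_nonneg (by exact_mod_cast hQ t)
  have hN1 : ∀ t, 1 ≤ N t := fun t => (ht0 (t + t0) (Nat.le_add_left _ _)).1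
  have hMN : ∀ t, (M t : ℝ) * Real.log b ≤ N t := fun t =>
    mul_le_mul_of_nonneg_right (by exact_mod_cast hML t) hlb.le
  have hEN : ∀ t l, (E t l : ℝ) * Real.log b ≤ 2 * N t := by
    intro t l
    have h1 : E t l ≤ 2 * L (t + t0) := by
      rcases l with i | j
      · change M t ≤ _
        have := hML t
        omega
      · change r (t + t0) + M t - e' t j ≤ _
        have := hML t
        have := hr (t + t0)
        omega
    have h2 : (E t l : ℝ) ≤ 2 * L (t + t0) := by exact_mod_cast h1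
    have h3 := mul_le_mul_of_nonneg_right h2 hlb.le
    change _ ≤ 2 * (L (t + t0) * Real.log b)
    linarith
  have hlogA1 : ∀ t i, Real.log (A t (Sum.inl i)) = lν + M t * Real.log b - σ (t + t0) := by
    intro t i
    change Real.log (|ν| * (b : ℝ) ^ M t * Real.exp (-σ (t + t0))) = _
    rw [Real.log_mul (by positivity) (Real.exp_pos _).ne', Real.log_mul hνp.ne' (by positivity),
      Real.log_pow, Real.log_exp]
    ring
  have hlogA2 : ∀ t j, Real.log (A t (Sum.inr j)) =
      Real.log (Q (t + t0)) + E t (Sum.inr j) * Real.log b := by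
    intro t j
    change Real.log ((Q (t + t0) : ℝ) * (b : ℝ) ^ (r (t + t0) + M t - e' t j)) = _
    rw [Real.log_mul (hQp _).ne' (by positivity), Real.log_pow]
    rfl
  obtain ⟨C, hC⟩ : ∃ C : ℝ, C = 3 + |lν| + 2 * (n + (k + 1)) := ⟨_, rfl⟩
  have hlν0 := abs_nonneg lν
  have hn0 : (0 : ℝ) ≤ n := Nat.cast_nonneg n
  have hk0 : (0 : ℝ) ≤ k := Nat.cast_nonneg k
  obtain ⟨y, hy0, hy⟩ := subS (NumberField.RingOfIntegers F) φ M0 hdet hre b (by omega) C (δ / 2)
    (by rw [hC]; nlinarith) (by linarith) N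
    (hLt.comp (tendsto_add_atTop_nat t0)) E A (by
      intro t l
      rcases l with i | j
      · exact mul_pos (mul_pos hνp (by positivity)) (Real.exp_pos _)
      · exact mul_pos (hQp _) (by positivity)) (by
      intro t l
      have h1 := hN1 t
      have hC' : 0 ≤ (2 : ℝ) * (n + (k + 1)) * N t := by positivity
      rcases l with i | j
      · rw [hlogA1]
        have h2 := hMN t
        have h3 := hσ0 (t + t0)
        have h4 : σ (t + t0) ≤ N t := hσL (t + t0)
        have h5 : 0 ≤ (M t : ℝ) * Real.log b := by positivity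
        have h6 : |lν| ≤ |lν| * N t := le_mul_of_one_le_right hlν0 h1
        have h7 := neg_abs_le lν
        have h8 := le_abs_self lν
        rw [hC, abs_le]
        constructor
        · nlinarith
        · nlinarith
      · rw [hlogA2]
        have h2 := hEN t (Sum.inr j)
        have h3 : 0 ≤ (E t (Sum.inr j) : ℝ) * Real.log b := by positivity
        have h4 := hlQ (t + t0)
        have h5 : Real.log (Q (t + t0)) ≤ N t := hQL (t + t0)
        have h6 : 0 ≤ |lν| * N t := by positivity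
        rw [abs_of_nonneg (by linarith), hC]
        nlinarith) (by
      intro t
      rw [Finset.sum_mul]
      have h1 : ∑ l, (E t l : ℝ) * Real.log b ≤ ∑ _l : Fin n ⊕ Fin (k + 1), 2 * N t :=
        Finset.sum_le_sum fun l _ => hEN t l
      rw [Finset.sum_const, Finset.card_univ, Fintype.card_sum, Fintype.card_fin, Fintype.card_fin,
        nsmul_eq_mul] at h1
      push_cast at h1
      have h2 := hN1 t
      have h3 : 0 ≤ (3 + |lν|) * N t := by positivity
      rw [hC]
      nlinarith) (by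
      intro t
      rw [Fintype.sum_sum_type, Fintype.sum_sum_type]
      simp only [hlogA1, hlogA2]
      rw [Finset.sum_const, Finset.card_univ, Fintype.card_fin, nsmul_eq_mul,
        Finset.sum_add_distrib, Finset.sum_const, Finset.card_univ, Fintype.card_fin, nsmul_eq_mul,
        ← Finset.sum_mul]
      have h1 : ∑ i : Fin n, (E t (Sum.inl i) : ℝ) = n * M t := by
        change ∑ i : Fin n, (M t : ℝ) = _
        rw [Finset.sum_const, Finset.card_univ, Fintype.card_fin, nsmul_eq_mul]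
      rw [h1]
      push_cast
      have h2 := hbad (t + t0)
      have h3 := (ht0 (t + t0) (Nat.le_add_left _ _)).2
      change _ + δ / 2 * (L (t + t0) * Real.log b) ≤ _
      nlinarith) z (by
      intro t h
      have h1 := congrFun h (Sum.inr 0)
      change (Q (t + t0) : ℤ) = 0 at h1
      have h2 := hQ (t + t0)
      omega) (by
      intro t l
      have hrn : ∀ w, ‖φ w‖ = |ψ w| := by
        intro w
        rw [hφ, RingHom.comp_apply, Complex.ofRealHom_eq_coe, Complex.norm_real, Real.norm_eq_abs]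
      rw [hrn, map_sum, Fintype.sum_sum_type]
      rcases l with i | j
      · have h1 : ∑ i' : Fin n, ψ (M0 (Sum.inl i) (Sum.inl i') *
            (((b : ℤ) ^ E t (Sum.inl i') * z t (Sum.inl i') : ℤ) : NumberField.RingOfIntegers F)) =
            -(ν * (b : ℝ) ^ M t * P (t + t0) i) := by
          rw [Finset.sum_eq_single i]
          · rw [map_mul, map_intCast]
            change ψ (Matrix.diagonal (fun _ => -(Nn : NumberField.RingOfIntegers F)) i i) *
              (((b : ℤ) ^ M t * P (t + t0) i : ℤ) : ℝ) = _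
            rw [Matrix.diagonal_apply_eq, map_neg]
            push_cast
            ring
          · intro i' _ hi'
            rw [map_mul]
            change ψ (Matrix.diagonal (fun _ => -(Nn : NumberField.RingOfIntegers F)) i i') * _ = 0
            rw [Matrix.diagonal_apply_ne _ (Ne.symm hi'), map_zero, zero_mul]
          · intro h; exact absurd (mem_univ _) h
        have hpw : ∀ s, s ≤ M t → (b : ℝ) ^ (r (t + t0) + M t - s) =
            (b : ℝ) ^ r (t + t0) * (b : ℝ) ^ M t / (b : ℝ) ^ s := by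
          intro s hs
          rw [← pow_add, eq_div_iff (by positivity), ← pow_add]
          congr 1
          omega
        have h2 : ∑ j' : Fin (k + 1), ψ (M0 (Sum.inl i) (Sum.inr j') *
            (((b : ℤ) ^ E t (Sum.inr j') * z t (Sum.inr j') : ℤ) : NumberField.RingOfIntegers F)) =
            ν * (b : ℝ) ^ M t * ((Q (t + t0) : ℝ) * (b : ℝ) ^ r (t + t0) *
              (α i + ∑ j, (γ i j : ℝ) / (b : ℝ) ^ e (t + t0) j)) := by
          rw [Fin.sum_univ_succ, map_mul, map_intCast]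
          change ψ (d (Sum.inl i)) * (((b : ℤ) ^ (r (t + t0) + M t - 0) * (Q (t + t0) : ℤ) : ℤ) : ℝ) +
            ∑ j' : Fin k, ψ (d (Sum.inr (i, j')) *
              (((b : ℤ) ^ (r (t + t0) + M t - e (t + t0) j') * (Q (t + t0) : ℤ) : ℤ) :
                NumberField.RingOfIntegers F)) = _
          have h3 : ∀ j' : Fin k, ψ (d (Sum.inr (i, j')) *
              (((b : ℤ) ^ (r (t + t0) + M t - e (t + t0) j') * (Q (t + t0) : ℤ) : ℤ) :
                NumberField.RingOfIntegers F)) = ν * (b : ℝ) ^ M t * ((Q (t + t0) : ℝ) *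
                (b : ℝ) ^ r (t + t0)) * ((γ i j' : ℝ) / (b : ℝ) ^ e (t + t0) j') := by
            intro j'
            rw [map_mul, map_intCast, hψ2]
            push_cast
            rw [hpw _ (heM t j')]
            ring
          simp only [h3]
          rw [← Finset.mul_sum, hψ1]
          push_cast
          rw [hpw 0 (Nat.zero_le _), pow_zero, div_one]
          ring
        rw [h1, h2]
        have h4 : -(ν * (b : ℝ) ^ M t * P (t + t0) i) + ν * (b : ℝ) ^ M t * ((Q (t + t0) : ℝ) *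
            (b : ℝ) ^ r (t + t0) * (α i + ∑ j, (γ i j : ℝ) / (b : ℝ) ^ e (t + t0) j)) =
            ν * (b : ℝ) ^ M t * ((Q (t + t0) : ℝ) * (b : ℝ) ^ r (t + t0) *
              (α i + ∑ j, (γ i j : ℝ) / (b : ℝ) ^ e (t + t0) j) - P (t + t0) i) := by ring
        rw [h4, abs_mul, abs_mul, abs_of_pos (by positivity : (0 : ℝ) < (b : ℝ) ^ M t)]
        change _ ≤ |ν| * (b : ℝ) ^ M t * Real.exp (-σ (t + t0))
        exact mul_le_mul_of_nonneg_left (hap (t + t0) i) (by positivity)
      · have h1 : ∑ i' : Fin n, ψ (M0 (Sum.inr j) (Sum.inl i') *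
            (((b : ℤ) ^ E t (Sum.inl i') * z t (Sum.inl i') : ℤ) : NumberField.RingOfIntegers F)) =
            0 := by
          refine Finset.sum_eq_zero fun i' _ => ?_
          rw [map_mul]
          change ψ ((0 : Matrix (Fin (k + 1)) (Fin n) (NumberField.RingOfIntegers F)) j i') * _ = 0
          rw [Matrix.zero_apply, map_zero, zero_mul]
        have h2 : ∑ j' : Fin (k + 1), ψ (M0 (Sum.inr j) (Sum.inr j') *
            (((b : ℤ) ^ E t (Sum.inr j') * z t (Sum.inr j') : ℤ) : NumberField.RingOfIntegers F)) =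
            (Q (t + t0) : ℝ) * (b : ℝ) ^ (r (t + t0) + M t - e' t j) := by
          rw [Finset.sum_eq_single j]
          · rw [map_mul, map_intCast]
            change ψ ((1 : Matrix (Fin (k + 1)) (Fin (k + 1)) (NumberField.RingOfIntegers F)) j j) *
              (((b : ℤ) ^ (r (t + t0) + M t - e' t j) * (Q (t + t0) : ℤ) : ℤ) : ℝ) = _
            rw [Matrix.one_apply_eq, map_one]
            push_cast
            ring
          · intro j' _ hj'
            rw [map_mul]
            change ψ ((1 : Matrix (Fin (k + 1)) (Fin (k + 1)) (NumberField.RingOfIntegers F)) j j')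
              * _ = 0
            rw [Matrix.one_apply_ne (Ne.symm hj'), map_zero, zero_mul]
          · intro h; exact absurd (mem_univ _) h
        rw [h1, h2, zero_add, abs_of_pos (mul_pos (hQp _) (by positivity))]
        exact le_refl _)
  refine ⟨fun i => y (Sum.inl i), fun j => y (Sum.inr j), ?_, ?_⟩
  · by_contra h
    push Not at h
    apply hy0
    funext l
    rcases l with i | j
    · exact congrFun h.1 i
    · exact congrFun h.2 j
  · refine (tendsto_add_atTop_nat t0).frequently (hy.mono fun t ht => ?_)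
    have h1 : ((∑ l, y l * ((b : ℤ) ^ E t l * z t l) : ℤ) : ℝ) = 0 := by rw [ht]; simp
    rw [Fintype.sum_sum_type, Fin.sum_univ_succ] at h1
    push_cast at h1
    have h2 : ∑ i, (y (Sum.inl i) : ℝ) * ((b : ℝ) ^ E t (Sum.inl i) * (z t (Sum.inl i) : ℝ)) =
        (b : ℝ) ^ M t * ∑ i, (y (Sum.inl i) : ℝ) * (P (t + t0) i : ℝ) := by
      rw [Finset.mul_sum]
      refine Finset.sum_congr rfl fun i _ => ?_
      change (y (Sum.inl i) : ℝ) * ((b : ℝ) ^ M t * (P (t + t0) i : ℝ)) = _
      ring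
    have hpw : ∀ s, s ≤ M t → (b : ℝ) ^ (r (t + t0) + M t - s) =
        (b : ℝ) ^ r (t + t0) * (b : ℝ) ^ M t / (b : ℝ) ^ s := by
      intro s hs
      rw [← pow_add, eq_div_iff (by positivity), ← pow_add]
      congr 1
      omega
    have h3 : ∑ j : Fin k, (y (Sum.inr j.succ) : ℝ) * ((b : ℝ) ^ E t (Sum.inr j.succ) *
        (z t (Sum.inr j.succ) : ℝ)) = (b : ℝ) ^ M t * (Q (t + t0) * (b : ℝ) ^ r (t + t0)) *
          ∑ j : Fin k, (y (Sum.inr j.succ) : ℝ) / (b : ℝ) ^ e (t + t0) j := by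
      rw [Finset.mul_sum]
      refine Finset.sum_congr rfl fun j _ => ?_
      change (y (Sum.inr j.succ) : ℝ) * ((b : ℝ) ^ (r (t + t0) + M t - e (t + t0) j) *
        ((Q (t + t0) : ℤ) : ℝ)) = _
      rw [hpw _ (heM t j)]
      push_cast
      ring
    have h4 : (y (Sum.inr 0) : ℝ) * ((b : ℝ) ^ E t (Sum.inr 0) * (z t (Sum.inr 0) : ℝ)) =
        (b : ℝ) ^ M t * (Q (t + t0) * (b : ℝ) ^ r (t + t0)) * y (Sum.inr 0) := by
      change (y (Sum.inr 0) : ℝ) * ((b : ℝ) ^ (r (t + t0) + M t - 0) *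
        ((Q (t + t0) : ℤ) : ℝ)) = _
      rw [hpw _ (Nat.zero_le _), pow_zero, div_one]
      push_cast
      ring
    rw [h2, h3, h4] at h1
    have hQp' := hQp (t + t0)
    have hK : (0 : ℝ) < (b : ℝ) ^ M t * (Q (t + t0) * (b : ℝ) ^ r (t + t0)) := by positivity
    have h5 : (b : ℝ) ^ M t * (Q (t + t0) * (b : ℝ) ^ r (t + t0)) *
        (∑ i, (y (Sum.inl i) : ℝ) * ((P (t + t0) i : ℝ) / ((Q (t + t0) : ℝ) *
          (b : ℝ) ^ r (t + t0))) + y (Sum.inr 0) +
          ∑ j : Fin k, (y (Sum.inr j.succ) : ℝ) / (b : ℝ) ^ e (t + t0) j) = 0 := by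
      have h6 : ∑ i, (y (Sum.inl i) : ℝ) * ((P (t + t0) i : ℝ) / ((Q (t + t0) : ℝ) *
          (b : ℝ) ^ r (t + t0))) = (∑ i, (y (Sum.inl i) : ℝ) * (P (t + t0) i : ℝ)) /
            ((Q (t + t0) : ℝ) * (b : ℝ) ^ r (t + t0)) := by
        rw [Finset.sum_div]
        exact Finset.sum_congr rfl fun i _ => by ring
      rw [h6]
      have h7 : (b : ℝ) ^ M t * (Q (t + t0) * (b : ℝ) ^ r (t + t0)) *
          ((∑ i, (y (Sum.inl i) : ℝ) * (P (t + t0) i : ℝ)) /
            ((Q (t + t0) : ℝ) * (b : ℝ) ^ r (t + t0))) =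
          (b : ℝ) ^ M t * ∑ i, (y (Sum.inl i) : ℝ) * (P (t + t0) i : ℝ) := by
        field_simp
      rw [mul_add, mul_add, h7]
      linarith
    exact (mul_eq_zero.1 h5).resolve_left hK.ne'

end Pool.Agent.V1189.RT
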