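import Pool.Agent.TH286.GT.All

/-!
# The subspace theorem for points with coordinates divisible by powers of `b`

Author: helper89. From the subspace theorem of the starting library (`Pool.Agent.TH286.GT.subspaceO`).
-/

set_option autoImplicit false

namespace Pool.Agent.V1189.RT

open Finset Filter Topology Pool.Agent.TH286.GT

theorem subS {ι : Type} [Fintype ι] [DecidableEq ι] [Nonempty ι] (O : Type) [CommRing O]
    [IsDomain O] [CharZero O] [Module.Free ℤ O] [Module.Finite ℤ O] (φ : O →+* ℂ)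
    (M0 : Matrix ι ι O) (hdet : M0.det ≠ 0) (hre : ∀ i j, (φ (M0 i j)).im = 0) (b : ℕ)
    (hb : 1 ≤ b) (c γ : ℝ) (hc : 1 ≤ c) (hγ : 0 < γ) (N : ℕ → ℝ) (hN : Tendsto N atTop atTop)
    (e : ℕ → ι → ℕ) (A : ℕ → ι → ℝ) (hA0 : ∀ t l, 0 < A t l)
    (hA : ∀ t l, |Real.log (A t l)| ≤ c * N t)
    (he : ∀ t, (∑ l, (e t l : ℝ)) * Real.log b ≤ c * N t)
    (hsum : ∀ t, ∑ l, Real.log (A t l) + γ * N t ≤ (∑ l, (e t l : ℝ)) * Real.log b)
    (z : ℕ → ι → ℤ) (hz : ∀ t, z t ≠ 0)
    (hsol : ∀ t l, ‖φ (∑ j, M0 l j * (((b : ℤ) ^ e t j * z t j : ℤ) : O))‖ ≤ A t l) :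
    ∃ y : ι → ℤ, y ≠ 0 ∧ ∃ᶠ t in atTop, ∑ l, y l * ((b : ℤ) ^ e t l * z t l) = 0 := by
  classical
  obtain ⟨σ⟩ : Nonempty (ι ≃ Fin (Fintype.card ι)) := ⟨Fintype.equivFin ι⟩
  have hbZ : (b : ℤ) ≠ 0 := by exact_mod_cast (by omega : b ≠ 0)
  have hbO : (b : O) ≠ 0 := by exact_mod_cast (by omega : b ≠ 0)
  let n := Fintype.card ι
  have hn : 1 ≤ n := Fintype.card_pos
  let M0' : Matrix (Fin n) (Fin n) O := M0.submatrix σ.symm σ.symm
  let lam : Fin n → Fin n → O := fun v l => if v = l then (b : O) else 1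
  let kk : ℕ → Fin n → ℕ := fun t l => e t (σ.symm l)
  let B : ℕ → Matrix (Fin n) (Fin n) ℤ := fun t => Matrix.diagonal fun l => (b : ℤ) ^ kk t l
  let A' : ℕ → Fin n → ℝ := fun t l => A t (σ.symm l)
  let x : ℕ → Fin n → ℤ := fun t l => (b : ℤ) ^ kk t l * z t (σ.symm l)
  have hdata : DataO φ M0' (1 : Matrix (Fin n) (Fin n) O) lam := by
    refine ⟨?_, fun i j => hre _ _, ?_, ?_⟩
    · rw [Matrix.det_submatrix_equiv_self]; exact hdet
    · rw [Matrix.det_one]; exact one_ne_zero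
    · intro v l
      change (if v = l then (b : O) else 1) ≠ 0
      split_ifs
      · exact hbO
      · exact one_ne_zero
  have hbet : ∀ t, bet lam (kk t) = fun l => (b : O) ^ kk t l := by
    intro t
    funext l
    change ∏ v, (if v = l then (b : O) else 1) ^ kk t v = _
    rw [Finset.prod_eq_single l]
    · rw [if_pos rfl]
    · intro v _ hv
      rw [if_neg hv, one_pow]
    · intro h; exact absurd (mem_univ _) h
  have hdetB : ∀ t, (B t).det = (b : ℤ) ^ (∑ l, kk t l) := by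
    intro t
    change (Matrix.diagonal fun l => (b : ℤ) ^ kk t l).det = _
    rw [Matrix.det_diagonal, Finset.prod_pow_eq_pow_sum]
  have hlat : ∀ t, Lat (1 : Matrix (Fin n) (Fin n) O) (bet lam (kk t)) (B t) := by
    intro t
    refine ⟨by rw [hdetB]; exact pow_ne_zero _ hbZ, ?_⟩
    rw [hbet, Matrix.one_mul, Matrix.mul_one]
    change (Matrix.diagonal fun l => (b : ℤ) ^ kk t l).map (Int.castRingHom O) = _
    rw [Matrix.diagonal_map (map_zero _)]
    congr 1
    funext l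
    simp
  have hsumk : ∀ t, ((∑ l, kk t l : ℕ) : ℝ) = ∑ l, (e t l : ℝ) := by
    intro t
    push_cast
    exact Equiv.sum_comp σ.symm fun l => (e t l : ℝ)
  have hlogdet : ∀ t, Real.log |((B t).det : ℝ)| = (∑ l, (e t l : ℝ)) * Real.log b := by
    intro t
    rw [hdetB]
    push_cast
    rw [abs_of_nonneg (by positivity), Real.log_pow, hsumk]
  have hsize : ∀ t, SizeO c γ (N t) (B t) (A' t) := by
    intro t
    refine ⟨?_, fun l => hA0 t _, fun l => hA t _, ?_⟩
    · rw [hlogdet]; exact he t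
    · rw [hlogdet]
      have h1 : ∑ l, Real.log (A' t l) = ∑ l, Real.log (A t l) :=
        Equiv.sum_comp σ.symm fun l => Real.log (A t l)
      rw [h1]; exact hsum t
  have hx0 : ∀ t, x t ≠ 0 := by
    intro t h
    apply hz t
    funext l
    have h1 := congrFun h (σ l)
    change (b : ℤ) ^ kk t (σ l) * z t (σ.symm (σ l)) = 0 at h1
    rw [Equiv.symm_apply_apply] at h1
    exact (mul_eq_zero.1 h1).resolve_left (pow_ne_zero _ hbZ)
  have hsol' : ∀ t, SolO φ M0' (B t) (A' t) (x t) := by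
    intro t
    refine ⟨fun l => ?_, fun l => z t (σ.symm l), ?_⟩
    · have h1 := hsol t (σ.symm l)
      have h2 : ∑ j, M0' l j * ((x t j : ℤ) : O) =
          ∑ j, M0 (σ.symm l) j * (((b : ℤ) ^ e t j * z t j : ℤ) : O) :=
        Equiv.sum_comp σ.symm fun j => M0 (σ.symm l) j * (((b : ℤ) ^ e t j * z t j : ℤ) : O)
      rw [h2]; exact h1
    · funext l
      change _ = (Matrix.diagonal fun l => (b : ℤ) ^ kk t l).mulVec _ l
      rw [Matrix.mulVec_diagonal]
  obtain ⟨y, hy0, hy⟩ := subspaceO O φ n n hn M0' 1 lam hdata c γ hc hγ N hN kk B hlat A' hsize x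
    hx0 hsol'
  refine ⟨fun l => y (σ l), ?_, ?_⟩
  · intro h
    apply hy0
    funext l
    have h1 := congrFun h (σ.symm l)
    simpa using h1
  · refine hy.mono fun t ht => ?_
    rw [← ht]
    have h2 := Equiv.sum_comp σ fun l => y l * x t l
    rw [← h2]
    refine Finset.sum_congr rfl fun l _ => ?_
    change y (σ l) * _ = y (σ l) * ((b : ℤ) ^ e t (σ.symm (σ l)) * z t (σ.symm (σ l)))
    rw [Equiv.symm_apply_apply]

end Pool.Agent.V1189.RT
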