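import Pool.Agent.TH286.GT.All

/-!
# The subspace theorem for points with coordinates divisible by products of powers

Author: helper89. From the subspace theorem of the starting library (`Pool.Agent.TH286.GT.subspaceO`).
-/

set_option autoImplicit false

namespace Pool.Agent.V1189.RT

open Finset Filter Topology Pool.Agent.TH286.GT

theorem subD {ι : Type} [Fintype ι] [DecidableEq ι] [Nonempty ι] (O : Type) [CommRing O]
    [IsDomain O] [CharZero O] [Module.Free ℤ O] [Module.Finite ℤ O] (φ : O →+* ℂ)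
    (M0 : Matrix ι ι O) (hdet : M0.det ≠ 0) (hre : ∀ i j, (φ (M0 i j)).im = 0) (s : ℕ)
    (β : Fin s → ℕ) (hβ : ∀ v, 1 ≤ β v) (c γ : ℝ) (hc : 1 ≤ c) (hγ : 0 < γ) (N : ℕ → ℝ)
    (hN : Tendsto N atTop atTop) (e : ℕ → Fin s → ι → ℕ) (D : ℕ → ι → ℕ)
    (hD : ∀ t l, D t l = ∏ v, β v ^ e t v l) (A : ℕ → ι → ℝ) (hA0 : ∀ t l, 0 < A t l)
    (hA : ∀ t l, |Real.log (A t l)| ≤ c * N t)
    (he : ∀ t, ∑ l, Real.log (D t l) ≤ c * N t)
    (hsum : ∀ t, ∑ l, Real.log (A t l) + γ * N t ≤ ∑ l, Real.log (D t l))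
    (z : ℕ → ι → ℤ) (hz : ∀ t, z t ≠ 0)
    (hsol : ∀ t l, ‖φ (∑ j, M0 l j * (((D t j : ℤ) * z t j : ℤ) : O))‖ ≤ A t l) :
    ∃ y : ι → ℤ, y ≠ 0 ∧ ∃ᶠ t in atTop, ∑ l, y l * ((D t l : ℤ) * z t l) = 0 := by
  classical
  obtain ⟨σ⟩ : Nonempty (ι ≃ Fin (Fintype.card ι)) := ⟨Fintype.equivFin ι⟩
  have hDp : ∀ t l, 1 ≤ D t l := by
    intro t l
    rw [hD]
    exact Nat.one_le_iff_ne_zero.2 (Finset.prod_ne_zero_iff.2 fun v _ =>
      pow_ne_zero _ (by have := hβ v; omega))
  let n := Fintype.card ι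
  have hn : 1 ≤ n := Fintype.card_pos
  let M0' : Matrix (Fin n) (Fin n) O := M0.submatrix σ.symm σ.symm
  let lam : Fin (s * n) → Fin n → O := fun q l =>
    if (finProdFinEquiv.symm q).2 = l then (β (finProdFinEquiv.symm q).1 : O) else 1
  let kk : ℕ → Fin (s * n) → ℕ := fun t q =>
    e t (finProdFinEquiv.symm q).1 (σ.symm (finProdFinEquiv.symm q).2)
  let B : ℕ → Matrix (Fin n) (Fin n) ℤ := fun t => Matrix.diagonal fun l => (D t (σ.symm l) : ℤ)
  let A' : ℕ → Fin n → ℝ := fun t l => A t (σ.symm l)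
  let x : ℕ → Fin n → ℤ := fun t l => (D t (σ.symm l) : ℤ) * z t (σ.symm l)
  have hdata : DataO φ M0' (1 : Matrix (Fin n) (Fin n) O) lam := by
    refine ⟨?_, fun i j => hre _ _, ?_, ?_⟩
    · rw [Matrix.det_submatrix_equiv_self]; exact hdet
    · rw [Matrix.det_one]; exact one_ne_zero
    · intro q l
      change (if (finProdFinEquiv.symm q).2 = l then (β (finProdFinEquiv.symm q).1 : O) else 1) ≠ 0
      split_ifs
      · have := hβ (finProdFinEquiv.symm q).1
        exact_mod_cast (by omega : β (finProdFinEquiv.symm q).1 ≠ 0)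
      · exact one_ne_zero
  have hbet : ∀ t, bet lam (kk t) = fun l => ((D t (σ.symm l) : ℕ) : O) := by
    intro t
    funext l
    change ∏ q : Fin (s * n), (fun p : Fin s × Fin n => (if p.2 = l then (β p.1 : O) else 1) ^
      e t p.1 (σ.symm p.2)) (finProdFinEquiv.symm q) = _
    refine (Equiv.prod_comp finProdFinEquiv.symm (fun p : Fin s × Fin n =>
      (if p.2 = l then (β p.1 : O) else 1) ^ e t p.1 (σ.symm p.2))).trans ?_
    rw [Fintype.prod_prod_type, hD]
    push_cast
    refine Finset.prod_congr rfl fun v _ => ?_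
    rw [Finset.prod_eq_single l]
    · rw [if_pos rfl]
    · intro l' _ hl'
      rw [if_neg hl', one_pow]
    · intro h; exact absurd (mem_univ _) h
  have hdetB : ∀ t, (B t).det = ∏ l, (D t l : ℤ) := by
    intro t
    change (Matrix.diagonal fun l => (D t (σ.symm l) : ℤ)).det = _
    rw [Matrix.det_diagonal]
    exact Equiv.prod_comp σ.symm fun l => (D t l : ℤ)
  have hlat : ∀ t, Lat (1 : Matrix (Fin n) (Fin n) O) (bet lam (kk t)) (B t) := by
    intro t
    refine ⟨?_, ?_⟩
    · rw [hdetB]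
      exact Finset.prod_ne_zero_iff.2 fun l _ => by
        have := hDp t l
        exact_mod_cast (by omega : D t l ≠ 0)
    · rw [hbet, Matrix.one_mul, Matrix.mul_one]
      change (Matrix.diagonal fun l => (D t (σ.symm l) : ℤ)).map (Int.castRingHom O) = _
      rw [Matrix.diagonal_map (map_zero _)]
      congr 1
      funext l
      simp
  have hlogdet : ∀ t, Real.log |((B t).det : ℝ)| = ∑ l, Real.log (D t l) := by
    intro t
    rw [hdetB]
    push_cast
    rw [abs_of_nonneg (Finset.prod_nonneg fun l _ => Nat.cast_nonneg _), Real.log_prod]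
    intro l _
    have := hDp t l
    exact_mod_cast (by omega : D t l ≠ 0)
  have hsize : ∀ t, SizeO c γ (N t) (B t) (A' t) := by
    intro t
    refine ⟨?_, fun l => hA0 t _, fun l => hA t _, ?_⟩
    · rw [hlogdet]; exact he t
    · rw [hlogdet]
      have h1 : ∑ l, Real.log (A' t l) = ∑ l, Real.log (A t l) :=
        Equiv.sum_comp σ.symm fun l => Real.log (A t l)
      rw [h1]; exact hsum t
  have hx0 : ∀ t, x t ≠ 0 := by
    intro t h
    apply hz t
    funext l
    have h1 := congrFun h (σ l)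
    change (D t (σ.symm (σ l)) : ℤ) * z t (σ.symm (σ l)) = 0 at h1
    rw [Equiv.symm_apply_apply] at h1
    have h2 := hDp t l
    exact (mul_eq_zero.1 h1).resolve_left (by exact_mod_cast (by omega : D t l ≠ 0))
  have hsol' : ∀ t, SolO φ M0' (B t) (A' t) (x t) := by
    intro t
    refine ⟨fun l => ?_, fun l => z t (σ.symm l), ?_⟩
    · have h1 := hsol t (σ.symm l)
      have h2 : ∑ j, M0' l j * ((x t j : ℤ) : O) =
          ∑ j, M0 (σ.symm l) j * (((D t j : ℤ) * z t j : ℤ) : O) :=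
        Equiv.sum_comp σ.symm fun j => M0 (σ.symm l) j * (((D t j : ℤ) * z t j : ℤ) : O)
      rw [h2]; exact h1
    · funext l
      change _ = (Matrix.diagonal fun l => (D t (σ.symm l) : ℤ)).mulVec _ l
      rw [Matrix.mulVec_diagonal]
  obtain ⟨y, hy0, hy⟩ := subspaceO O φ n (s * n) hn M0' 1 lam hdata c γ hc hγ N hN kk B hlat A'
    hsize x hx0 hsol'
  refine ⟨fun l => y (σ l), ?_, ?_⟩
  · intro h
    apply hy0
    funext l
    have h1 := congrFun h (σ.symm l)
    simpa using h1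
  · refine hy.mono fun t ht => ?_
    rw [← ht]
    have h2 := Equiv.sum_comp σ fun l => y l * x t l
    rw [← h2]
    refine Finset.sum_congr rfl fun l _ => ?_
    change y (σ l) * _ = y (σ l) * ((D t (σ.symm (σ l)) : ℤ) * z t (σ.symm (σ l)))
    rw [Equiv.symm_apply_apply]

end Pool.Agent.V1189.RT
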