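import Pool.Agent.V1189.RT.SubD

/-!
# The subspace theorem for real linear forms with algebraic coefficients and rational forms at the
finite places

Author: helper89.
-/

set_option autoImplicit false

namespace Pool.Agent.V1189.RT

open Finset Filter Topology

/-- real algebraic coefficients -/
theorem subR {ι : Type} [Fintype ι] [DecidableEq ι] [Nonempty ι] (M : Matrix ι ι ℝ)
    (halg : ∀ i j, IsAlgebraic ℚ (M i j)) (hdet : M.det ≠ 0) (s : ℕ)
    (β : Fin s → ℕ) (hβ : ∀ v, 1 ≤ β v) (c γ : ℝ) (hc : 1 ≤ c) (hγ : 0 < γ) (N : ℕ → ℝ)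
    (hN : Tendsto N atTop atTop) (e : ℕ → Fin s → ι → ℕ) (D : ℕ → ι → ℕ)
    (hD : ∀ t l, D t l = ∏ v, β v ^ e t v l) (A : ℕ → ι → ℝ) (hA0 : ∀ t l, 0 < A t l)
    (hA : ∀ t l, |Real.log (A t l)| ≤ c * N t)
    (he : ∀ t, ∑ l, Real.log (D t l) ≤ c * N t)
    (hsum : ∀ t, ∑ l, Real.log (A t l) + γ * N t ≤ ∑ l, Real.log (D t l))
    (z : ℕ → ι → ℤ) (hz : ∀ t, z t ≠ 0)
    (hsol : ∀ t l, |∑ j, M l j * ((D t j : ℝ) * z t j)| ≤ A t l) :
    ∃ y : ι → ℤ, y ≠ 0 ∧ ∃ᶠ t in atTop, ∑ l, y l * ((D t l : ℤ) * z t l) = 0 := by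
  classical
  set F : IntermediateField ℚ ℝ :=
    IntermediateField.adjoin ℚ (Set.range fun q : ι × ι => M q.1 q.2) with hFdef
  have hF : FiniteDimensional ℚ F := by
    apply IntermediateField.finiteDimensional_adjoin
    rintro z ⟨i, rfl⟩
    exact (halg i.1 i.2).isIntegral
  have : NumberField F := { to_charZero := inferInstance, to_finiteDimensional := hF }
  let c0 : ι × ι → F := fun q =>
    ⟨M q.1 q.2, IntermediateField.subset_adjoin ℚ _ ⟨q, rfl⟩⟩
  obtain ⟨Nn, hNn⟩ := IsLocalization.exist_integer_multiples_of_finite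
    (nonZeroDivisors (NumberField.RingOfIntegers F)) c0
  have hN0 : (Nn : NumberField.RingOfIntegers F) ≠ 0 := nonZeroDivisors.ne_zero Nn.2
  have hN' : ∀ i, ∃ M : NumberField.RingOfIntegers F,
      algebraMap (NumberField.RingOfIntegers F) F M
        = algebraMap (NumberField.RingOfIntegers F) F (Nn : NumberField.RingOfIntegers F)
          * c0 i := by
    intro i
    obtain ⟨M, hM⟩ := hNn i
    refine ⟨M, ?_⟩
    rw [hM, Algebra.smul_def]
  choose d hd using hN'
  have hinj : Function.Injective (algebraMap (NumberField.RingOfIntegers F) F) :=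
    IsFractionRing.injective _ _
  set ψ : NumberField.RingOfIntegers F →+* ℝ :=
    (algebraMap F ℝ).comp (algebraMap (NumberField.RingOfIntegers F) F) with hψ
  set φ : NumberField.RingOfIntegers F →+* ℂ := Complex.ofRealHom.comp ψ with hφ
  have hψinj : Function.Injective ψ := (algebraMap F ℝ).injective.comp hinj
  set ν : ℝ := ψ (Nn : NumberField.RingOfIntegers F) with hν
  have hν0 : ν ≠ 0 := by
    intro h
    apply hN0
    apply hinj
    rw [map_zero]
    apply (algebraMap F ℝ).injective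
    rw [map_zero]
    exact h
  have hνp : 0 < |ν| := abs_pos.2 hν0
  set lν : ℝ := Real.log |ν| with hlν
  have hψd : ∀ i j, ψ (d (i, j)) = ν * M i j := by
    intro i j
    have h1 := congrArg (algebraMap F ℝ) (hd (i, j))
    rw [map_mul] at h1
    exact h1
  obtain ⟨κ, hκ⟩ : ∃ κ : ℝ, κ = Fintype.card ι := ⟨_, rfl⟩
  have hκ0 : 0 ≤ κ := by rw [hκ]; exact Nat.cast_nonneg _
  -- the tail
  obtain ⟨t0, ht0⟩ : ∃ t0, ∀ t, t0 ≤ t → (1 : ℝ) ≤ N t ∧ κ * lν ≤ γ / 2 * N t := by
    have h2 : ∀ᶠ t in atTop, (1 : ℝ) ≤ N t := hN.eventually (eventually_ge_atTop 1)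
    have h3 : ∀ᶠ t in atTop, κ * lν / (γ / 2) ≤ N t := hN.eventually (eventually_ge_atTop _)
    obtain ⟨t0, ht0⟩ := eventually_atTop.1 (h2.and h3)
    refine ⟨t0, fun t ht => ⟨(ht0 t ht).1, ?_⟩⟩
    have h4 := (ht0 t ht).2
    rw [div_le_iff₀ (by positivity)] at h4
    linarith
  have hN1 : ∀ t, 1 ≤ N (t + t0) := fun t => (ht0 (t + t0) (Nat.le_add_left _ _)).1
  let M0 : Matrix ι ι (NumberField.RingOfIntegers F) := Matrix.of fun i j => d (i, j)
  have hM0 : ψ.mapMatrix M0 = ν • M := by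
    ext i j
    rw [RingHom.mapMatrix_apply, Matrix.map_apply, Matrix.smul_apply, smul_eq_mul]
    exact hψd i j
  have hdet0 : M0.det ≠ 0 := by
    intro h
    have h1 : (ψ.mapMatrix M0).det = 0 := by
      rw [← RingHom.map_det, h, map_zero]
    rw [hM0, Matrix.det_smul] at h1
    exact mul_ne_zero (pow_ne_zero _ hν0) hdet h1
  have hre : ∀ i j, (φ (M0 i j)).im = 0 := by
    intro i j
    rw [hφ, RingHom.comp_apply, Complex.ofRealHom_eq_coe, Complex.ofReal_im]
  have hrn : ∀ w, ‖φ w‖ = |ψ w| := by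
    intro w
    rw [hφ, RingHom.comp_apply, Complex.ofRealHom_eq_coe, Complex.norm_real, Real.norm_eq_abs]
  have hlν0 := abs_nonneg lν
  obtain ⟨y, hy0, hy⟩ := subD (NumberField.RingOfIntegers F) φ M0 hdet0 hre s β hβ (c + |lν|) (γ / 2)
    (by linarith) (by linarith) (fun t => N (t + t0))
    (hN.comp (tendsto_add_atTop_nat t0)) (fun t => e (t + t0)) (fun t => D (t + t0))
    (fun t l => hD (t + t0) l) (fun t l => |ν| * A (t + t0) l)
    (fun t l => mul_pos hνp (hA0 _ _)) (by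
      intro t l
      change |Real.log (|ν| * A (t + t0) l)| ≤ _
      rw [Real.log_mul hνp.ne' (hA0 _ l).ne']
      refine (abs_add_le _ _).trans ?_
      have h1 := hA (t + t0) l
      have h2 : |lν| ≤ |lν| * N (t + t0) := le_mul_of_one_le_right hlν0 (hN1 t)
      rw [add_mul]
      linarith) (by
      intro t
      have h1 := he (t + t0)
      have h2 : 0 ≤ |lν| * N (t + t0) := mul_nonneg hlν0 (by linarith [hN1 t])
      rw [add_mul]
      linarith) (by
      intro t
      have h1 : ∑ l, Real.log (|ν| * A (t + t0) l) = κ * lν + ∑ l, Real.log (A (t + t0) l) := by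
        rw [hκ, ← nsmul_eq_mul, ← Finset.card_univ, ← Finset.sum_const, ← Finset.sum_add_distrib]
        exact Finset.sum_congr rfl fun l _ => Real.log_mul hνp.ne' (hA0 _ l).ne'
      rw [h1]
      have h2 := hsum (t + t0)
      have h3 := (ht0 (t + t0) (Nat.le_add_left _ _)).2
      linarith) (fun t => z (t + t0)) (fun t => hz _) (by
      intro t l
      rw [hrn, map_sum]
      have h1 : ∑ j, ψ (M0 l j * (((D (t + t0) j : ℤ) * z (t + t0) j : ℤ) :
          NumberField.RingOfIntegers F)) = ν * ∑ j, M l j * ((D (t + t0) j : ℝ) * z (t + t0) j) := by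
        rw [Finset.mul_sum]
        refine Finset.sum_congr rfl fun j _ => ?_
        rw [map_mul, map_intCast]
        change ψ (d (l, j)) * _ = _
        rw [hψd]
        push_cast
        ring
      rw [h1, abs_mul]
      exact mul_le_mul_of_nonneg_left (hsol (t + t0) l) (abs_nonneg _))
  exact ⟨y, hy0, (tendsto_add_atTop_nat t0).frequently hy⟩

/-- the divisibility conditions for the values of linear forms with integer coefficients -/
theorem subQ {ι : Type} [Fintype ι] [DecidableEq ι] [Nonempty ι] (M : Matrix ι ι ℝ)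
    (halg : ∀ i j, IsAlgebraic ℚ (M i j)) (hdet : M.det ≠ 0) (Q : Matrix ι ι ℤ) (hQ : Q.det ≠ 0)
    (s : ℕ) (β : Fin s → ℕ) (hβ : ∀ v, 1 ≤ β v) (c γ : ℝ) (hc : 1 ≤ c) (hγ : 0 < γ) (N : ℕ → ℝ)
    (hN : Tendsto N atTop atTop) (e : ℕ → Fin s → ι → ℕ) (D : ℕ → ι → ℕ)
    (hD : ∀ t l, D t l = ∏ v, β v ^ e t v l) (A : ℕ → ι → ℝ) (hA0 : ∀ t l, 0 < A t l)
    (hA : ∀ t l, |Real.log (A t l)| ≤ c * N t)
    (he : ∀ t, ∑ l, Real.log (D t l) ≤ c * N t)
    (hsum : ∀ t, ∑ l, Real.log (A t l) + γ * N t ≤ ∑ l, Real.log (D t l))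
    (x : ℕ → ι → ℤ) (hx : ∀ t, x t ≠ 0) (hdvd : ∀ t l, (D t l : ℤ) ∣ Q.mulVec (x t) l)
    (hsol : ∀ t l, |∑ j, M l j * (x t j : ℝ)| ≤ A t l) :
    ∃ y : ι → ℤ, y ≠ 0 ∧ ∃ᶠ t in atTop, ∑ l, y l * x t l = 0 := by
  classical
  choose z hz using hdvd
  obtain ⟨q, hq⟩ : ∃ q : ℝ, q = |((Q.det : ℤ) : ℝ)| := ⟨_, rfl⟩
  have hq1 : 1 ≤ q := by
    rw [hq, ← Int.cast_abs]
    exact_mod_cast Int.one_le_abs hQ
  have hq0 : 0 < q := by linarith
  have hlq : 0 ≤ Real.log q := Real.log_nonneg hq1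
  obtain ⟨κ, hκ⟩ : ∃ κ : ℝ, κ = Fintype.card ι := ⟨_, rfl⟩
  obtain ⟨t0, ht0⟩ : ∃ t0, ∀ t, t0 ≤ t → (1 : ℝ) ≤ N t ∧ κ * Real.log q ≤ γ / 2 * N t := by
    have h2 : ∀ᶠ t in atTop, (1 : ℝ) ≤ N t := hN.eventually (eventually_ge_atTop 1)
    have h3 : ∀ᶠ t in atTop, κ * Real.log q / (γ / 2) ≤ N t := hN.eventually (eventually_ge_atTop _)
    obtain ⟨t0, ht0⟩ := eventually_atTop.1 (h2.and h3)
    refine ⟨t0, fun t ht => ⟨(ht0 t ht).1, ?_⟩⟩
    have h4 := (ht0 t ht).2
    rw [div_le_iff₀ (by positivity)] at h4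
    linarith
  have hN1 : ∀ t, 1 ≤ N (t + t0) := fun t => (ht0 (t + t0) (Nat.le_add_left _ _)).1
  let R : ℤ →+* ℝ := Int.castRingHom ℝ
  let M' : Matrix ι ι ℝ := M * R.mapMatrix Q.adjugate
  have hQadj : R.mapMatrix Q.adjugate * R.mapMatrix Q = ((Q.det : ℤ) : ℝ) • 1 := by
    rw [← map_mul, Matrix.adjugate_mul]
    ext i j
    rw [RingHom.mapMatrix_apply, Matrix.map_apply, Matrix.smul_apply, Matrix.smul_apply, smul_eq_mul,
      smul_eq_mul]
    by_cases hij : i = j
    · subst hij; simp [R]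
    · simp [hij, R]
  have hdet' : M'.det ≠ 0 := by
    rw [show M' = M * R.mapMatrix Q.adjugate from rfl, Matrix.det_mul]
    refine mul_ne_zero hdet ?_
    have h1 := congrArg Matrix.det hQadj
    rw [Matrix.det_mul, Matrix.det_smul, Matrix.det_one, mul_one] at h1
    intro h2
    rw [h2, zero_mul] at h1
    exact pow_ne_zero _ (by exact_mod_cast hQ) h1.symm
  have halg' : ∀ i j, IsAlgebraic ℚ (M' i j) := by
    intro i j
    rw [show M' i j = ∑ k, M i k * ((Q.adjugate k j : ℤ) : ℝ) from Matrix.mul_apply]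
    exact Finset.sum_induction _ (IsAlgebraic ℚ) (fun a b ha hb => ha.add hb) isAlgebraic_zero
      fun k _ => (halg i k).mul (isAlgebraic_intCast _)
  have hmul : ∀ t l, ∑ j, M' l j * ((D t j : ℝ) * z t j) =
      ((Q.det : ℤ) : ℝ) * ∑ j, M l j * (x t j : ℝ) := by
    intro t l
    have h1 : (fun j => (D t j : ℝ) * z t j) = (R.mapMatrix Q).mulVec fun j => (x t j : ℝ) := by
      funext j
      have h2 := congrArg (Int.cast : ℤ → ℝ) (hz t j)
      rw [Int.cast_mul, Int.cast_natCast] at h2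
      rw [← h2]
      simp only [Matrix.mulVec, dotProduct, RingHom.mapMatrix_apply, Matrix.map_apply, R]
      push_cast
      rfl
    have h2 : ∑ j, M' l j * ((D t j : ℝ) * z t j) = M'.mulVec (fun j => (D t j : ℝ) * z t j) l := rfl
    have h3 : ∑ j, M l j * (x t j : ℝ) = M.mulVec (fun j => (x t j : ℝ)) l := rfl
    rw [h2, h3, h1, Matrix.mulVec_mulVec, show M' = M * R.mapMatrix Q.adjugate from rfl,
      Matrix.mul_assoc, hQadj, Matrix.mul_smul, Matrix.mul_one, Matrix.smul_mulVec]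
    rfl
  obtain ⟨y, hy0, hy⟩ := subR M' halg' hdet' s β hβ (c + Real.log q) (γ / 2)
    (by linarith) (by linarith) (fun t => N (t + t0))
    (hN.comp (tendsto_add_atTop_nat t0)) (fun t => e (t + t0)) (fun t => D (t + t0))
    (fun t l => hD (t + t0) l) (fun t l => q * A (t + t0) l)
    (fun t l => mul_pos hq0 (hA0 _ _)) (by
      intro t l
      change |Real.log (q * A (t + t0) l)| ≤ _
      rw [Real.log_mul hq0.ne' (hA0 _ l).ne']
      refine (abs_add_le _ _).trans ?_
      have h1 := hA (t + t0) l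
      have h2 : Real.log q ≤ Real.log q * N (t + t0) := le_mul_of_one_le_right hlq (hN1 t)
      rw [add_mul, abs_of_nonneg hlq]
      linarith) (by
      intro t
      have h1 := he (t + t0)
      have h2 : 0 ≤ Real.log q * N (t + t0) := mul_nonneg hlq (by linarith [hN1 t])
      rw [add_mul]
      linarith) (by
      intro t
      have h1 : ∑ l, Real.log (q * A (t + t0) l) = κ * Real.log q +
          ∑ l, Real.log (A (t + t0) l) := by
        rw [hκ, ← nsmul_eq_mul, ← Finset.card_univ, ← Finset.sum_const, ← Finset.sum_add_distrib]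
        exact Finset.sum_congr rfl fun l _ => Real.log_mul hq0.ne' (hA0 _ l).ne'
      rw [h1]
      have h2 := hsum (t + t0)
      have h3 := (ht0 (t + t0) (Nat.le_add_left _ _)).2
      linarith) (fun t => z (t + t0)) (by
      intro t h
      apply hx (t + t0)
      have h1 : Q.mulVec (x (t + t0)) = 0 := by
        funext l
        rw [hz (t + t0) l, show z (t + t0) l = 0 from congrFun h l, mul_zero]
        rfl
      exact Matrix.eq_zero_of_mulVec_eq_zero hQ h1) (by
      intro t l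
      change |∑ j, M' l j * ((D (t + t0) j : ℝ) * z (t + t0) j)| ≤ q * A (t + t0) l
      rw [hmul, abs_mul, ← hq]
      exact mul_le_mul_of_nonneg_left (hsol _ _) hq0.le)
  refine ⟨Matrix.vecMul y Q, ?_, (tendsto_add_atTop_nat t0).frequently (hy.mono fun t ht => ?_)⟩
  · intro h
    exact hy0 (Matrix.eq_zero_of_vecMul_eq_zero hQ h)
  · change ∑ l, Matrix.vecMul y Q l * x (t + t0) l = 0
    have h1 : ∑ l, Matrix.vecMul y Q l * x (t + t0) l =
        dotProduct (Matrix.vecMul y Q) (x (t + t0)) := rfl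
    rw [h1, ← Matrix.dotProduct_mulVec]
    refine Eq.trans ?_ ht
    exact Finset.sum_congr rfl fun l _ => by rw [hz (t + t0) l]

end Pool.Agent.V1189.RT
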